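import Pool.Agent.QTr.Targets
import Pool.Agent.QTw.HALL

/-!
# ATYP: the numbers without a large prime factor of a given kind
-/

open Polynomial NumberField
open Pool.Agent.QTw (primesTo)
open Pool.Agent.QTx (Model)

namespace Pool.Agent.QTr

namespace ATYP_

theorem loglog_two : Real.log (Real.log 2) ≤ 0 ∧ -1 ≤ Real.log (Real.log 2) := by
  have h1 : Real.log 2 < 0.6931471808 := Real.log_two_lt_d9
  have h2 : 0.6931471803 < Real.log 2 := Real.log_two_gt_d9
  have h0 : 0 < Real.log 2 := by linarith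
  refine ⟨Real.log_nonpos h0.le (by linarith), ?_⟩
  have h3 := Real.one_sub_inv_le_log_of_pos h0
  have h4 : (Real.log 2)⁻¹ ≤ 2 := by
    rw [inv_le_comm₀ h0 (by norm_num)]
    linarith
  linarith

/-- the block of `X` -/
theorem bk_le (κ X : ℕ) (hκ : 1 ≤ κ) (hX : 3 ≤ X) :
    (Model.bk κ X : ℝ) * Real.log (2 * κ : ℕ) ≤ Real.log (Real.log X) + 1 := by
  have h2X : 1 ≤ Nat.log 2 X := by
    have := Nat.log_mono_right (b := 2) (show 2 ≤ X by omega)
    have h : Nat.log 2 2 = 1 := by decide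
    omega
  have h1 : (2 * κ) ^ (Model.bk κ X) ≤ Nat.log 2 X := Nat.pow_log_le_self _ (by omega)
  have h2 : ((Nat.log 2 X : ℕ) : ℝ) ≤ Real.log X / Real.log 2 := by
    have h3 : 2 ^ (Nat.log 2 X) ≤ X := Nat.pow_log_le_self 2 (by omega)
    have h4 : ((2 : ℝ)) ^ (Nat.log 2 X) ≤ X := by exact_mod_cast h3
    have h5 := Real.log_le_log (by positivity) h4
    rw [Real.log_pow] at h5
    rw [le_div_iff₀ (Real.log_pos (by norm_num))]
    exact h5
  have hX0 : (1 : ℝ) < X := by
    have : (3 : ℝ) ≤ X := by exact_mod_cast hX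
    linarith
  have hlX : 0 < Real.log X := Real.log_pos hX0
  have hl2 : 0 < Real.log 2 := Real.log_pos (by norm_num)
  have h3 : (((2 * κ : ℕ) : ℝ)) ^ (Model.bk κ X) ≤ Real.log X / Real.log 2 := by
    refine le_trans ?_ h2
    exact_mod_cast h1
  have hb0 : (0 : ℝ) < ((2 * κ : ℕ) : ℝ) := by
    have : 0 < 2 * κ := by omega
    exact_mod_cast this
  have h4 := Real.log_le_log (by positivity) h3
  rw [Real.log_pow, Real.log_div hlX.ne' hl2.ne'] at h4
  have := loglog_two.2
  linarith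

/-- the threshold -/
theorem LL_ge (κ L X t : ℕ) (hκ : 1 ≤ κ) (hL : 1 ≤ L) (hX : 3 ≤ X)
    (ht : t = Model.bk κ X - Model.bk κ X / L) (ht1 : 1 ≤ t) :
    Real.log (Real.log X) / L - (1 + Real.log (2 * κ : ℕ)) ≤ LL X (2 ^ ((2 * κ) ^ t) - 1) := by
  set b : ℕ := 2 * κ with hb
  have hb2 : 2 ≤ b := by omega
  have hb0 : (0 : ℝ) < b := by
    have : 0 < b := by omega
    exact_mod_cast this
  have hlb : 0 ≤ Real.log (b : ℝ) := Real.log_nonneg (by
    have : 1 ≤ b := by omega
    exact_mod_cast this)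
  have hbt : 2 ≤ b ^ t := by
    calc 2 ≤ b := hb2
      _ = b ^ 1 := (pow_one b).symm
      _ ≤ b ^ t := Nat.pow_le_pow_right (by omega) ht1
  have h4 : 4 ≤ 2 ^ (b ^ t) := by
    calc 4 = 2 ^ 2 := by norm_num
      _ ≤ 2 ^ (b ^ t) := Nat.pow_le_pow_right (by norm_num) hbt
  set y : ℕ := 2 ^ (b ^ t) - 1 with hy
  have hy3 : 3 ≤ y := by omega
  have hy1 : (1 : ℝ) < y := by
    have : (3 : ℝ) ≤ y := by exact_mod_cast hy3
    linarith
  have hly : 0 < Real.log y := Real.log_pos hy1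
  have hl2 : 0 < Real.log 2 := Real.log_pos (by norm_num)
  have h5 : Real.log y ≤ (b : ℝ) ^ t * Real.log 2 := by
    have h6 : (y : ℝ) ≤ (2 : ℝ) ^ (b ^ t) := by
      have : y ≤ 2 ^ (b ^ t) := Nat.sub_le _ _
      exact_mod_cast this
    have h7 := Real.log_le_log (by linarith) h6
    rw [Real.log_pow] at h7
    push_cast at h7
    exact h7
  have h6 : Real.log (Real.log y) ≤ t * Real.log b := by
    have h7 := Real.log_le_log hly h5
    rw [Real.log_mul (by positivity) hl2.ne', Real.log_pow] at h7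
    have := loglog_two.1
    linarith
  have hL0 : (0 : ℝ) < L := by exact_mod_cast hL
  have h7 : (t : ℝ) ≤ (1 - 1 / L) * Model.bk κ X + 1 := by
    have h8 : Model.bk κ X / L ≤ Model.bk κ X := Nat.div_le_self _ _
    have h9 : (t : ℝ) = (Model.bk κ X : ℝ) - ((Model.bk κ X / L : ℕ) : ℝ) := by
      rw [ht, Nat.cast_sub h8]
    have h10 : (Model.bk κ X : ℝ) / L ≤ ((Model.bk κ X / L : ℕ) : ℝ) + 1 := by
      rw [div_le_iff₀ hL0]
      have h11 := Nat.lt_div_mul_add (a := Model.bk κ X) (show 0 < L by omega)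
      have h12 : Model.bk κ X ≤ (Model.bk κ X / L + 1) * L := by
        rw [add_mul, one_mul]
        omega
      exact_mod_cast h12
    rw [h9, sub_mul, one_mul, one_div_mul_eq_div]
    linarith
  have h8 : (t : ℝ) * Real.log b ≤ (1 - 1 / L) * (Real.log (Real.log X) + 1) + Real.log b := by
    have h9 := mul_le_mul_of_nonneg_right h7 hlb
    have h10 : 0 ≤ 1 - 1 / (L : ℝ) := by
      rw [sub_nonneg, div_le_one hL0]
      exact_mod_cast hL
    have h11 := mul_le_mul_of_nonneg_left (bk_le κ X hκ hX) h10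
    rw [← hb] at h11
    linarith
  unfold LL
  have h9 : (1 - 1 / (L : ℝ)) * (Real.log (Real.log X) + 1) ≤
      Real.log (Real.log X) + 1 - Real.log (Real.log X) / L := by
    have : 0 ≤ 1 / (L : ℝ) := by positivity
    have e : (1 - 1 / (L : ℝ)) * (Real.log (Real.log X) + 1) =
      Real.log (Real.log X) + 1 - Real.log (Real.log X) / L - 1 / L := by ring
    linarith
  linarith

theorem y_le (κ L X t : ℕ) (hκ : 1 ≤ κ) (hX : 3 ≤ X)
    (ht : t = Model.bk κ X - Model.bk κ X / L) : 2 ^ ((2 * κ) ^ t) - 1 ≤ X := by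
  have h2X : 1 ≤ Nat.log 2 X := by
    have := Nat.log_mono_right (b := 2) (show 2 ≤ X by omega)
    have h : Nat.log 2 2 = 1 := by decide
    omega
  have h0 : t ≤ Model.bk κ X := by rw [ht]; exact Nat.sub_le _ _
  have h1' : (2 * κ) ^ (Model.bk κ X) ≤ Nat.log 2 X := Nat.pow_log_le_self _ (by omega)
  have h1 : (2 * κ) ^ t ≤ Nat.log 2 X :=
    (Nat.pow_le_pow_right (by omega) h0).trans h1'
  have h2 : 2 ^ ((2 * κ) ^ t) ≤ X :=
    (Nat.pow_le_pow_right (by norm_num) h1).trans (Nat.pow_log_le_self 2 (by omega))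
  omega

theorem bk_ge (κ t p : ℕ) (hκ : 1 ≤ κ) (hp : 2 ^ ((2 * κ) ^ t) - 1 < p) : t ≤ Model.bk κ p := by
  unfold Model.bk
  have h1 : 2 ^ ((2 * κ) ^ t) ≤ p := by omega
  have hp0 : p ≠ 0 := by
    have : 0 < 2 ^ ((2 * κ) ^ t) := by positivity
    omega
  have h2 : (2 * κ) ^ t ≤ Nat.log 2 p := Nat.le_log_of_pow_le (by norm_num) h1
  exact Nat.le_log_of_pow_le (by omega) h2

theorem bk_mono (κ : ℕ) {p q : ℕ} (h : p ≤ q) : Model.bk κ p ≤ Model.bk κ q :=
  Nat.log_mono_right (Nat.log_mono_right h)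

end ATYP_

open ATYP_ in
open Classical in
theorem p_ATYP : T_ATYP := by
  intro κ N L δ γ B A Γ hκ hL hγ hA hΓA hΓ
  -- the case `N = 0` is impossible
  have hN : 0 < N := by
    rcases Nat.eq_zero_or_pos N with h0 | h0
    · exfalso
      subst h0
      have h1 : ∀ x : ℕ, 3 ≤ x → γ * LL x 3 ≤ B := by
        intro x hx
        have := hΓ x 3 le_rfl hx
        have e : (primesTo 0 x).filter (fun p => 3 < p ∧ Γ p) = ∅ := by
          rw [Finset.filter_eq_empty_iff]
          intro p hp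
          unfold primesTo at hp
          rw [Finset.mem_filter] at hp
          exact absurd (dvd_zero p) hp.2.2
        rw [e, Finset.sum_empty] at this
        linarith
      have h2 : Filter.Tendsto (fun x : ℕ => Real.log (Real.log x)) Filter.atTop Filter.atTop :=
        Real.tendsto_log_atTop.comp (Real.tendsto_log_atTop.comp tendsto_natCast_atTop_atTop)
      obtain ⟨x, hx1, hx2⟩ := ((h2.eventually_gt_atTop
        (B / γ + Real.log (Real.log (3 : ℕ)))).and (Filter.eventually_ge_atTop 3)).exists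
      have h3 := h1 x hx2
      unfold LL at h3
      have h4 : B / γ < Real.log (Real.log x) - Real.log (Real.log (3 : ℕ)) := by linarith
      rw [div_lt_iff₀ hγ] at h4
      linarith
    · exact h0
  have hL0 : (0 : ℝ) < L := by exact_mod_cast hL
  set C₁ : ℝ := (∑ p ∈ Finset.range (N + 1), 1 / (p : ℝ)) + 1 - δ * Real.log (Real.log (3 : ℕ)) +
    B + B + γ * (1 + Real.log (2 * κ : ℕ)) with hC₁
  refine ⟨γ / L, (1 * Real.log 4 + 1) * Real.exp C₁, div_pos hγ hL0, by positivity, ?_⟩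
  intro z X hX hz
  obtain ⟨t, ht⟩ : ∃ t, t = Model.bk κ X - Model.bk κ X / L := ⟨_, rfl⟩
  rw [← ht] at hz ⊢
  have ht1 : 1 ≤ t := by omega
  obtain ⟨y, hy⟩ : ∃ y, y = 2 ^ ((2 * κ) ^ t) - 1 := ⟨_, rfl⟩
  have hyX : y ≤ X := by
    rw [hy]
    exact y_le κ L X t hκ hX ht
  have hLLy : Real.log (Real.log X) / L - (1 + Real.log (2 * κ : ℕ)) ≤ LL X y := by
    rw [hy]
    exact LL_ge κ L X t hκ hL hX ht ht1
  have hy3 : 3 ≤ y := by
    have hbt : 2 ≤ (2 * κ) ^ t := by
      calc 2 ≤ 2 * κ := by omega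
        _ = (2 * κ) ^ 1 := (pow_one _).symm
        _ ≤ (2 * κ) ^ t := Nat.pow_le_pow_right (by omega) ht1
    have h4 : 4 ≤ 2 ^ ((2 * κ) ^ t) := by
      calc 4 = 2 ^ 2 := by norm_num
        _ ≤ 2 ^ ((2 * κ) ^ t) := Nat.pow_le_pow_right (by norm_num) hbt
    omega
  have hyp : ∀ p, y < p → t ≤ Model.bk κ p ∧ z < p := by
    intro p hp
    have h1 : t ≤ Model.bk κ p := bk_ge κ t p hκ (by rw [← hy]; exact hp)
    refine ⟨h1, ?_⟩
    by_contra h2
    push Not at h2
    have := bk_mono κ h2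
    omega
  -- the multiplicative function
  obtain ⟨g, hg⟩ : ∃ g : ℕ → ℝ, ∀ p, g p =
      if (¬ p ∣ N ∧ ¬ A p) ∨ (Γ p ∧ z < p ∧ t ≤ Model.bk κ p) then 0 else 1 := ⟨_, fun _ => rfl⟩
  have hg01 : ∀ p, 0 ≤ g p ∧ g p ≤ 1 := by
    intro p
    rw [hg]
    split_ifs <;> norm_num
  have hH := QTw.p_HALL 1 g zero_le_one hg01 X (by omega)
  -- the count
  have hcount : (((Finset.range (X + 1)).filter (fun k => Squarefree k ∧
      (∀ p ∈ k.primeFactors, ¬ p ∣ N → A p) ∧
      ¬ ∃ p ∈ k.primeFactors, Γ p ∧ z < p ∧ t ≤ Model.bk κ p)).card : ℝ) ≤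
      ∑ m ∈ (Finset.range (X + 1)).filter (fun m => Squarefree m),
        ∏ p ∈ m.primeFactors, g p := by
    rw [Finset.card_eq_sum_ones, Nat.cast_sum]
    have hsub : (Finset.range (X + 1)).filter (fun k => Squarefree k ∧
      (∀ p ∈ k.primeFactors, ¬ p ∣ N → A p) ∧
      ¬ ∃ p ∈ k.primeFactors, Γ p ∧ z < p ∧ t ≤ Model.bk κ p) ⊆
      (Finset.range (X + 1)).filter (fun m => Squarefree m) := by
      intro k hk
      rw [Finset.mem_filter] at hk ⊢
      exact ⟨hk.1, hk.2.1⟩
    refine le_trans (Finset.sum_le_sum fun k hk => ?_)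
      (Finset.sum_le_sum_of_subset_of_nonneg hsub fun k _ _ =>
        Finset.prod_nonneg fun p _ => (hg01 p).1)
    rw [Finset.mem_filter] at hk
    obtain ⟨-, -, hk1, hk2⟩ := hk
    have : ∏ p ∈ k.primeFactors, g p = 1 := by
      refine Finset.prod_eq_one fun p hp => ?_
      rw [hg, if_neg]
      rintro (⟨h1, h2⟩ | h1)
      · exact h2 (hk1 p hp h1)
      · exact hk2 ⟨p, hp, h1⟩
    rw [this]
    norm_num
  -- the sum over the primes
  have hsum : ∑ p ∈ (Finset.range (X + 1)).filter Nat.Prime, g p / p ≤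
      C₁ + (δ - γ / L) * Real.log (Real.log X) := by
    have h1 : ∀ p ∈ (Finset.range (X + 1)).filter Nat.Prime, g p / p ≤
        (if p ∈ Finset.range (N + 1) then 1 / (p : ℝ) else 0) +
        (if p ≤ 3 then 1 / (p : ℝ) else 0) +
        (if ¬ p ∣ N ∧ 3 < p ∧ A p then 1 / (p : ℝ) else 0) -
        (if ¬ p ∣ N ∧ y < p ∧ Γ p then 1 / (p : ℝ) else 0) := by
      intro p hp
      have hpp := (Finset.mem_filter.mp hp).2
      have hp0 : (0 : ℝ) < p := by exact_mod_cast hpp.pos
      have hinv : 0 ≤ 1 / (p : ℝ) := by positivity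
      have hgp : g p / p ≤ 1 / p := div_le_div_of_nonneg_right (hg01 p).2 hp0.le
      by_cases hpN : p ∣ N
      · have h2 : p ∈ Finset.range (N + 1) := by
          rw [Finset.mem_range]
          have := Nat.le_of_dvd hN hpN
          omega
        rw [if_pos h2, if_neg (show ¬ (¬ p ∣ N ∧ 3 < p ∧ A p) from fun h => h.1 hpN),
          if_neg (show ¬ (¬ p ∣ N ∧ y < p ∧ Γ p) from fun h => h.1 hpN)]
        split_ifs <;> linarith
      · by_cases hyΓ : y < p ∧ Γ p
        · have h2 : g p = 0 := by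
            rw [hg, if_pos]
            exact Or.inr ⟨hyΓ.2, (hyp p hyΓ.1).2, (hyp p hyΓ.1).1⟩
          rw [h2, zero_div, if_pos (show ¬ p ∣ N ∧ y < p ∧ Γ p from ⟨hpN, hyΓ⟩),
            if_pos (show ¬ p ∣ N ∧ 3 < p ∧ A p from ⟨hpN, by omega, hΓA p hyΓ.2⟩)]
          split_ifs <;> linarith
        · rw [if_neg (fun h : ¬ p ∣ N ∧ y < p ∧ Γ p => hyΓ h.2)]
          by_cases hAp : A p
          · by_cases hp3 : p ≤ 3
            · rw [if_pos hp3]
              split_ifs <;> linarith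
            · rw [if_pos (show ¬ p ∣ N ∧ 3 < p ∧ A p from ⟨hpN, by omega, hAp⟩)]
              split_ifs <;> linarith
          · have h2 : g p = 0 := by
              rw [hg, if_pos]
              exact Or.inl ⟨hpN, hAp⟩
            rw [h2, zero_div, if_neg (fun h : ¬ p ∣ N ∧ 3 < p ∧ A p => hAp h.2.2)]
            split_ifs <;> linarith
    refine (Finset.sum_le_sum h1).trans ?_
    rw [Finset.sum_sub_distrib, Finset.sum_add_distrib, Finset.sum_add_distrib]
    have e1 : ∑ p ∈ (Finset.range (X + 1)).filter Nat.Prime,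
        (if p ∈ Finset.range (N + 1) then 1 / (p : ℝ) else 0) ≤
        ∑ p ∈ Finset.range (N + 1), 1 / (p : ℝ) := by
      rw [← Finset.sum_filter]
      refine Finset.sum_le_sum_of_subset_of_nonneg ?_ (fun _ _ _ => by positivity)
      intro p hp
      exact (Finset.mem_filter.mp hp).2
    have e2 : ∑ p ∈ (Finset.range (X + 1)).filter Nat.Prime,
        (if p ≤ 3 then 1 / (p : ℝ) else 0) ≤ 1 := by
      rw [← Finset.sum_filter]
      have h2 : ((Finset.range (X + 1)).filter Nat.Prime).filter (fun p => p ≤ 3) ⊆ {2, 3} := by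
        intro p hp
        rw [Finset.mem_filter, Finset.mem_filter] at hp
        obtain ⟨⟨-, hpp⟩, hp3⟩ := hp
        have := hpp.two_le
        interval_cases p <;> simp
      refine (Finset.sum_le_sum_of_subset_of_nonneg h2 (fun _ _ _ => by positivity)).trans ?_
      rw [Finset.sum_pair (by norm_num)]
      norm_num
    have e3 : ∑ p ∈ (Finset.range (X + 1)).filter Nat.Prime,
        (if ¬ p ∣ N ∧ 3 < p ∧ A p then 1 / (p : ℝ) else 0) ≤ δ * LL X 3 + B := by
      refine le_trans (le_of_eq ?_) (hA X 3 le_rfl hX)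
      rw [← Finset.sum_filter]
      apply Finset.sum_congr _ (fun _ _ => rfl)
      ext p
      simp only [primesTo, Finset.mem_filter]
      tauto
    have e4 : γ * LL X y - B ≤ ∑ p ∈ (Finset.range (X + 1)).filter Nat.Prime,
        (if ¬ p ∣ N ∧ y < p ∧ Γ p then 1 / (p : ℝ) else 0) := by
      refine le_trans (hΓ X y hy3 hyX) (le_of_eq ?_)
      rw [← Finset.sum_filter]
      apply Finset.sum_congr _ (fun _ _ => rfl)
      ext p
      simp only [primesTo, Finset.mem_filter]
      tauto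
    have e5 := mul_le_mul_of_nonneg_left hLLy hγ.le
    have e6 : δ * LL X 3 = δ * Real.log (Real.log X) - δ * Real.log (Real.log (3 : ℕ)) := by
      unfold LL
      ring
    have e7 : γ * (Real.log (Real.log X) / L - (1 + Real.log (2 * κ : ℕ))) =
        γ / L * Real.log (Real.log X) - γ * (1 + Real.log (2 * κ : ℕ)) := by ring
    have e8 : (δ - γ / L) * Real.log (Real.log X) = δ * Real.log (Real.log X) -
      γ / L * Real.log (Real.log X) := by ring
    rw [hC₁, e8]
    linarith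
  have hX1 : (1 : ℝ) < X := by
    have : (3 : ℝ) ≤ X := by exact_mod_cast hX
    linarith
  have hlX : 0 < Real.log X := Real.log_pos hX1
  refine hcount.trans (hH.trans ?_)
  have h1 := Real.exp_le_exp.mpr hsum
  have h2 : Real.exp (C₁ + (δ - γ / L) * Real.log (Real.log X)) =
      Real.exp C₁ * (Real.log X) ^ (δ - γ / L) := by
    rw [Real.exp_add, Real.rpow_def_of_pos hlX, mul_comm (Real.log (Real.log X))]
  rw [h2] at h1
  have h3 : (Real.log X) ^ (δ - 1 - γ / L) = (Real.log X) ^ (δ - γ / L) / Real.log X := by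
    rw [show δ - 1 - γ / L = (δ - γ / L) - 1 by ring, Real.rpow_sub_one hlX.ne']
  have hl4 : 0 ≤ 1 * Real.log 4 + 1 := by positivity
  calc (1 * Real.log 4 + 1) * (X / Real.log X) *
        Real.exp (∑ p ∈ (Finset.range (X + 1)).filter Nat.Prime, g p / p)
      ≤ (1 * Real.log 4 + 1) * (X / Real.log X) *
        (Real.exp C₁ * (Real.log X) ^ (δ - γ / L)) :=
        mul_le_mul_of_nonneg_left h1 (by positivity)
    _ = (1 * Real.log 4 + 1) * Real.exp C₁ * X * (Real.log X) ^ (δ - 1 - γ / L) := by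
        rw [h3]
        ring

end Pool.Agent.QTr
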