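import Pool.Agent.QTr.Targets
import Pool.Agent.QTx.BAL2

/-!
# QTr-BAL3: typical configurations without cancelling pairs
-/

set_option autoImplicit false

open Finset
open Pool.Agent.QTw (primesTo cfgs)
open Pool.Agent.QTx (Model Ty)

namespace Pool.Agent.QTr

open Pool.Agent.QTx.BAL2_

open Classical in
/-- BAL3: absolute bound for the typical configurations without cancelling pairs. -/
theorem p_BAL3 (h1 : Pool.Agent.QTx.T_COV2) (h2 : T_EXPO3) : T_BAL3 := by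
  intro m n κ M N δ Qd Γ hκ hM hδ hR hΓ
  obtain ⟨L, c, B, hL, hc0, hc1, hB⟩ := h2 m n κ M N δ Qd hκ hM hδ hR
  obtain ⟨G, hG⟩ : ∃ G : ℝ, G = 2 * Fintype.card (Ty n) := ⟨_, rfl⟩
  have hG0 : 0 ≤ G := by rw [hG]; positivity
  have hlog4 : 0 ≤ Real.log 4 := Real.log_nonneg (by norm_num)
  refine ⟨L, c, 2 ^ m * ((G * Real.log 4 + 1) * Real.exp B), hL, hc0, hc1, by positivity, ?_⟩
  intro a z X t hX ha ht
  obtain ⟨Dt, hDt⟩ : ∃ Dt : Finset (Finset (Fin m) × (Fin m → ℕ)), Dt =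
    (univ : Finset (Finset (Fin m))) ×ˢ
      (Fintype.piFinset (fun _ : Fin m => range (Model.bk κ X + 1))) := ⟨_, rfl⟩
  obtain ⟨Df, hDf⟩ : ∃ Df : Finset (Finset (Fin m) × (Fin m → ℕ)), Df =
    Dt.filter (fun D => ∀ i ∈ Qd, ∃ i' ∈ D.1, i' ≠ i ∧ t ≤ D.2 i') := ⟨_, rfl⟩
  have hlog : 0 < Real.log X := Real.log_pos (by exact_mod_cast (by omega : 1 < X))
  -- step 1
  have st1 : ∀ c ∈ (cfgs (Ty n) N X).filter
      (fun c => ¬ M.Unb κ z c ∧ Typ κ z t Qd Γ (c.image Prod.fst)),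
      |M.W a z c| ≤ ∑ D ∈ Df, ∏ x ∈ c, M.hh κ z D.1 D.2 x.1 x.2 := by
    intro c hc
    rw [mem_filter] at hc
    by_cases hW : M.W a z c = 0
    · rw [hW, abs_zero]
      exact sum_nonneg fun D _ => prod_nonneg fun x _ => hh_nonneg _ _ _ _ _ _ _
    obtain ⟨I, b, hb, hF⟩ := h1 m n M a κ N z X hκ hM ha c hc.1 hc.2.1
    have hcf : ∀ x ∈ c, M.cf a z c x ≠ 0 := by
      intro x hx h0
      refine hW ?_
      unfold Model.W
      rw [prod_eq_zero hx h0, zero_mul]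
    have hcond : ∀ i ∈ Qd, ∃ i' ∈ I, i' ≠ i ∧ t ≤ b i' := by
      intro i hi
      obtain ⟨p, hp, hΓp, hzp, htp⟩ := hc.2.2 i hi
      rw [mem_image] at hp
      obtain ⟨x, hx, rfl⟩ := hp
      have hhx : 0 < M.hh κ z I b x.1 x.2 :=
        lt_of_lt_of_le (abs_pos.2 (hcf x hx)) (hF x hx)
      unfold Model.hh at hhx
      by_cases hv : M.vld (x.1, x.2)
      · rw [if_neg (not_not.2 hv), if_neg (not_le.2 hzp)] at hhx
        have hmem : M.lab x.1 x.2.1 ∈ I ∧ Model.bk κ x.1 ≤ b (M.lab x.1 x.2.1) := by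
          by_contra hcon
          rw [if_neg (fun h => hcon ⟨h.1, h.2.1.le⟩), if_neg (fun h => hcon ⟨h.1, h.2.1⟩),
            add_zero] at hhx
          exact lt_irrefl _ hhx
        exact ⟨M.lab x.1 x.2.1, hmem.1, hΓ i hi x.1 hΓp x.2.1 hv.1, htp.trans hmem.2⟩
      · rw [if_pos hv] at hhx
        exact absurd hhx (lt_irrefl _)
    have hmem : (I, b) ∈ Df := by
      rw [hDf, mem_filter, hDt]
      refine ⟨?_, hcond⟩
      simp only [mem_product, mem_univ, true_and, Fintype.mem_piFinset, mem_range]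
      intro t
      exact Nat.lt_succ_of_le (hb t)
    have e1 : |M.W a z c| ≤ ∏ x ∈ c, |M.cf a z c x| := by
      unfold Model.W
      rw [abs_mul, ← abs_prod]
      have e2 : |∏ w ∈ c.offDiag, M.om w.1 w.2| ≤ 1 :=
        abs_prod_le_one _ _ fun w _ => om_le M hM _ _
      calc _ ≤ |∏ x ∈ c, M.cf a z c x| * 1 := mul_le_mul_of_nonneg_left e2 (abs_nonneg _)
        _ = _ := mul_one _
    refine e1.trans ((prod_le_prod (fun x _ => abs_nonneg _) hF).trans ?_)
    exact single_le_sum (f := fun D : Finset (Fin m) × (Fin m → ℕ) =>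
      ∏ x ∈ c, M.hh κ z D.1 D.2 x.1 x.2)
      (fun D _ => prod_nonneg (fun x _ => hh_nonneg _ _ _ _ _ _ _)) hmem
  -- step 2
  have st2 : ∀ D ∈ Df, ∑ c ∈ cfgs (Ty n) N X, ∏ x ∈ c, M.hh κ z D.1 D.2 x.1 x.2 ≤
      (G * Real.log 4 + 1) * (X * (Real.log X) ^ (δ - 1 - c)) * (Real.exp B *
        Real.exp (n * (∑ p ∈ (Finset.range (z + 1)).filter Nat.Prime, 1 / (p : ℝ)))) := by
    intro D hD
    rw [hDf, mem_filter] at hD
    rw [QTw.p_FIB QTw.p_FIBG (Ty n) (M.hh κ z D.1 D.2) N X]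
    refine (QTw.p_HALL G (fun p => if p ∣ N then 0 else ∑ t, M.hh κ z D.1 D.2 p t) hG0 ?_ X
      (by omega)).trans ?_
    · intro p
      split_ifs with hpN
      · exact ⟨le_rfl, hG0⟩
      · refine ⟨sum_nonneg (fun t _ => hh_nonneg _ _ _ _ _ _ _), ?_⟩
        calc ∑ t, M.hh κ z D.1 D.2 p t ≤ ∑ _t : Ty n, (2 : ℝ) :=
              sum_le_sum (fun t _ => hh_le M κ z D.1 D.2 p t)
          _ = G := by rw [sum_const, card_univ, nsmul_eq_mul, hG, mul_comm]
    · have h5 := Real.exp_le_exp.2 (hB z X t D.1 D.2 hX ht hD.2)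
      have h6 : Real.exp (n * (∑ p ∈ (Finset.range (z + 1)).filter Nat.Prime, 1 / (p : ℝ)) +
          (δ - c) * Real.log (Real.log X) + B) =
          Real.exp (n * (∑ p ∈ (Finset.range (z + 1)).filter Nat.Prime, 1 / (p : ℝ))) *
            (Real.log X * (Real.log X) ^ (δ - 1 - c)) * Real.exp B := by
        rw [Real.exp_add, Real.exp_add]
        congr 2
        rw [show Real.log X * Real.log X ^ (δ - 1 - c) = Real.log X ^ (δ - c) by
          rw [show δ - c = 1 + (δ - 1 - c) by ring, Real.rpow_add hlog, Real.rpow_one],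
          Real.rpow_def_of_pos hlog]
        congr 1
        ring
      rw [h6] at h5
      refine (mul_le_mul_of_nonneg_left h5 (by positivity)).trans (le_of_eq ?_)
      field_simp
  calc _ ≤ ∑ c ∈ (cfgs (Ty n) N X).filter
        (fun c => ¬ M.Unb κ z c ∧ Typ κ z t Qd Γ (c.image Prod.fst)),
        ∑ D ∈ Df, ∏ x ∈ c, M.hh κ z D.1 D.2 x.1 x.2 := sum_le_sum st1
    _ ≤ ∑ c ∈ cfgs (Ty n) N X, ∑ D ∈ Df, ∏ x ∈ c, M.hh κ z D.1 D.2 x.1 x.2 :=
        sum_le_sum_of_subset_of_nonneg (filter_subset _ _)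
          (fun c _ _ => sum_nonneg (fun D _ => prod_nonneg (fun x _ => hh_nonneg _ _ _ _ _ _ _)))
    _ = ∑ D ∈ Df, ∑ c ∈ cfgs (Ty n) N X, ∏ x ∈ c, M.hh κ z D.1 D.2 x.1 x.2 := sum_comm
    _ ≤ ∑ _D ∈ Df, (G * Real.log 4 + 1) * (X * (Real.log X) ^ (δ - 1 - c)) * (Real.exp B *
        Real.exp (n * (∑ p ∈ (Finset.range (z + 1)).filter Nat.Prime, 1 / (p : ℝ)))) :=
        sum_le_sum st2
    _ ≤ ∑ _D ∈ Dt, (G * Real.log 4 + 1) * (X * (Real.log X) ^ (δ - 1 - c)) * (Real.exp B *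
        Real.exp (n * (∑ p ∈ (Finset.range (z + 1)).filter Nat.Prime, 1 / (p : ℝ)))) :=
        sum_le_sum_of_subset_of_nonneg (by rw [hDf]; exact filter_subset _ _)
          (fun _ _ _ => by positivity)
    _ = _ := by
        rw [sum_const, nsmul_eq_mul, hDt, card_product, Fintype.card_piFinset, prod_const,
          card_range, card_univ, card_univ, Fintype.card_finset, Fintype.card_fin]
        push_cast
        ring

end Pool.Agent.QTr
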