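import Pool.Agent.QTr.Targets

/-!
# QTr, target BDY: the boundary of `normLeOne K` as the image of a Lipschitz map
-/

open Polynomial NumberField
open NumberField.mixedEmbedding NumberField.mixedEmbedding.fundamentalCone
open NumberField.InfinitePlace NumberField.Units NumberField.Units.dirichletUnitTheorem

namespace Pool.Agent.QTr

namespace BDY_

variable (K : Type) [Field K] [NumberField K]

open Classical in
/-- the coordinate `w₀` replaced by zero -/
noncomputable def zr (x : realSpace K) : realSpace K := fun i => if i = w₀ then 0 else x i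

/-- the Lipschitz map -/
noncomputable def Ph (x : realSpace K) : realSpace K := x w₀ • expMapBasis (zr K x)

lemma zr_contDiff : ContDiff ℝ 1 (zr K) := by
  rw [contDiff_pi]
  intro i
  unfold zr
  by_cases h : i = w₀
  · simp only [h, if_true]
    exact contDiff_const
  · simp only [h, if_false]
    exact contDiff_apply ℝ ℝ i

lemma expMapBasis_contDiff : ContDiff ℝ 1 (expMapBasis : realSpace K → realSpace K) := by
  rw [contDiff_pi]
  intro w
  have h : (fun x : realSpace K => expMapBasis x w) =
      fun x => Real.exp ((w.mult : ℝ)⁻¹ *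
        ((completeBasis K).equivFunL.symm.toContinuousLinearMap x) w) := by
    funext x
    rw [expMapBasis_apply, expMap_apply]
    rfl
  rw [h]
  apply ContDiff.exp
  apply ContDiff.mul contDiff_const
  exact (contDiff_apply ℝ ℝ w).comp ((completeBasis K).equivFunL.symm.toContinuousLinearMap).contDiff

lemma Ph_contDiff : ContDiff ℝ 1 (Ph K) := by
  unfold Ph
  exact (contDiff_apply ℝ ℝ w₀).smul ((expMapBasis_contDiff K).comp (zr_contDiff K))

lemma Ph_lip : ∃ Λ : ℝ, ∀ x ∈ Set.Icc (0 : realSpace K) 1, ∀ y ∈ Set.Icc (0 : realSpace K) 1,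
    ‖Ph K x - Ph K y‖ ≤ Λ * ‖x - y‖ := by
  have hc : ContDiff ℝ 1 (Ph K) := Ph_contDiff K
  have hcont : Continuous (fderiv ℝ (Ph K)) := hc.continuous_fderiv (by norm_num)
  have hcomp : IsCompact (Set.Icc (0 : realSpace K) 1) := isCompact_Icc
  obtain ⟨C, hC⟩ := hcomp.exists_bound_of_continuousOn hcont.continuousOn
  refine ⟨C, fun x hx y hy => ?_⟩
  exact Convex.norm_image_sub_le_of_norm_fderiv_le
    (fun z _ => (hc.differentiable (by norm_num)).differentiableAt) hC (convex_Icc 0 1) hy hx

lemma frontier_sub : frontier (normLeOne K) ⊆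
    {z | ∃ x ∈ Set.Icc (0 : realSpace K) 1, (∃ w, x w = 0 ∨ x w = 1) ∧
      normAtAllPlaces z = Ph K x} := by
  classical
  intro z hz
  have h1 : normAtAllPlaces z ∈ compactSet K := closure_normLeOne_subset K hz.1
  obtain ⟨c, hc, ⟨_, ⟨y, hy, rfl⟩, hcy⟩⟩ := h1
  rw [Set.mem_univ_pi] at hy
  have hy0 : y w₀ = 0 := by simpa using hy w₀
  have hy1 : ∀ w, w ≠ w₀ → y w ∈ Set.Icc (0 : ℝ) 1 := fun w hw => by simpa [hw] using hy w
  set x : realSpace K := fun w => if w = w₀ then c else y w with hx
  have hx0 : x w₀ = c := by simp [hx]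
  have hxw : ∀ w, w ≠ w₀ → x w = y w := fun w hw => by simp [hx, hw]
  have hzr : zr K x = y := by
    funext w
    unfold zr
    by_cases hw : w = w₀
    · simp [hw, hy0]
    · simp [hw, hxw w hw]
  have hPh : normAtAllPlaces z = Ph K x := by
    unfold Ph
    rw [hzr, hx0]
    exact hcy.symm
  have hxI : x ∈ Set.Icc (0 : realSpace K) 1 := by
    constructor
    · intro w
      by_cases hw : w = w₀
      · rw [hw, hx0]; exact hc.1
      · rw [hxw w hw]; exact (hy1 w hw).1
    · intro w
      by_cases hw : w = w₀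
      · rw [hw, hx0]; exact hc.2
      · rw [hxw w hw]; exact (hy1 w hw).2
  refine ⟨x, hxI, ?_, hPh⟩
  by_contra hcon
  push Not at hcon
  apply hz.2
  apply subset_interior_normLeOne K
  rw [Set.mem_preimage]
  have hc0 : 0 < c := lt_of_le_of_ne hc.1 (by
    have := (hcon w₀).1
    rw [hx0] at this
    exact this.symm)
  have hc1 : c < 1 := lt_of_le_of_ne hc.2 (by
    have := (hcon w₀).2
    rw [hx0] at this
    exact this)
  refine ⟨fun w => if w = w₀ then Real.log c else y w, ?_, ?_⟩
  · rw [interior_paramSet, Set.mem_univ_pi]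
    intro w
    by_cases hw : w = w₀
    · simp only [hw, if_true]
      exact Real.log_neg hc0 hc1
    · simp only [hw, if_false]
      have h2 := hcon w
      rw [hxw w hw] at h2
      exact ⟨lt_of_le_of_ne (hy1 w hw).1 h2.1.symm, lt_of_le_of_ne (hy1 w hw).2 h2.2⟩
  · rw [expMapBasis_apply'', hPh]
    unfold Ph
    rw [hzr, hx0]
    have e1 : (fun i : InfinitePlace K => if i = w₀ then (0 : ℝ) else
        (fun w => if w = w₀ then Real.log c else y w) i) = y := by
      funext i
      by_cases hi : i = w₀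
      · simp [hi, hy0]
      · simp [hi]
    rw [e1]
    simp [Real.exp_log hc0]

end BDY_

theorem p_BDY : T_BDY := by
  intro K _ _
  obtain ⟨Λ, hΛ⟩ := BDY_.Ph_lip K
  exact ⟨BDY_.Ph K, Λ, hΛ, BDY_.frontier_sub K⟩

end Pool.Agent.QTr
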