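import Pool.Agent.QTr.Targets

/-! # CHA: Chebyshev's lower bound -/

set_option autoImplicit false

namespace Pool.Agent.QTr

open Classical in
theorem p_CHA : T_CHA := by
  intro P δ hδ hm
  obtain ⟨B, hB⟩ := hm
  have hB0 : 0 ≤ B := (abs_nonneg _).trans (hB 1 le_rfl)
  -- choose `K` with `δ log K ≥ 2 B + 1`
  obtain ⟨K, hK⟩ := exists_nat_ge (Real.exp ((2 * B + 1) / δ))
  have hKr : (0 : ℝ) < K := lt_of_lt_of_le (Real.exp_pos _) hK
  have hK0 : 0 < K := by exact_mod_cast hKr
  have hlK : 2 * B + 1 ≤ δ * Real.log K := by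
    have h1 : (2 * B + 1) / δ ≤ Real.log K := by
      rw [Real.le_log_iff_exp_le hKr]
      exact hK
    rw [div_le_iff₀ hδ] at h1
    linarith
  refine ⟨1 / (2 * K), by positivity, K, fun X hX => ?_⟩
  set Y : ℕ := X / K with hY
  have hY1 : 1 ≤ Y := by
    rw [hY, Nat.le_div_iff_mul_le hK0]
    omega
  have hYX : Y ≤ X := Nat.div_le_self _ _
  have hX1 : 1 ≤ X := hY1.trans hYX
  have hYr : (X : ℝ) / (2 * K) ≤ Y := by
    rw [div_le_iff₀ (by positivity)]
    have h3 : X < K * (Y + 1) := by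
      rw [hY]
      exact Nat.lt_mul_div_succ X hK0
    have h4 : (X : ℝ) ≤ K * (Y + 1) := by exact_mod_cast h3.le
    have h5 : (1 : ℝ) ≤ Y := by exact_mod_cast hY1
    nlinarith
  have hYK : (Y : ℝ) * K ≤ X := by exact_mod_cast Nat.div_mul_le_self X K
  have hY0 : (0 : ℝ) < Y := by exact_mod_cast hY1
  have hlog : Real.log Y + Real.log K ≤ Real.log X := by
    rw [← Real.log_mul hY0.ne' hKr.ne']
    exact Real.log_le_log (by positivity) hYK
  -- the sum over `Y < p ≤ X`
  set S := (Finset.range (X + 1)).filter (fun p => p.Prime ∧ P p) with hS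
  have hsub : (Finset.range (Y + 1)).filter (fun p => p.Prime ∧ P p) ⊆ S := by
    intro p hp
    rw [Finset.mem_filter, Finset.mem_range] at hp
    rw [hS, Finset.mem_filter, Finset.mem_range]
    exact ⟨by omega, hp.2⟩
  have h1 := (abs_le.mp (hB X hX1)).1
  have h2 := (abs_le.mp (hB Y hY1)).2
  have h3 := Finset.sum_sdiff hsub (f := fun p : ℕ => Real.log p / p)
  have h4 : 1 ≤ ∑ p ∈ S \ (Finset.range (Y + 1)).filter (fun p => p.Prime ∧ P p),
      Real.log p / p := by
    have h5 : δ * (Real.log Y + Real.log K) ≤ δ * Real.log X :=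
      mul_le_mul_of_nonneg_left hlog hδ.le
    have h6 : ∑ p ∈ S, Real.log p / p ≥ δ * Real.log X - B := by
      have : -B ≤ ∑ p ∈ S, Real.log p / p - δ * Real.log X := by
        refine le_trans h1 (le_of_eq ?_)
        congr 1
      linarith
    have h7 : ∑ p ∈ (Finset.range (Y + 1)).filter (fun p => p.Prime ∧ P p),
        Real.log p / p ≤ δ * Real.log Y + B := by
      have : ∑ p ∈ (Finset.range (Y + 1)).filter (fun p => p.Prime ∧ P p),
        Real.log p / p - δ * Real.log Y ≤ B := by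
        refine le_trans (le_of_eq ?_) h2
        congr 1
      linarith
    nlinarith
  have h5 : (Y : ℝ) * ∑ p ∈ S \ (Finset.range (Y + 1)).filter (fun p => p.Prime ∧ P p),
      Real.log p / p ≤ ∑ p ∈ S, Real.log p := by
    rw [Finset.mul_sum]
    refine (Finset.sum_le_sum (g := fun p : ℕ => Real.log p) ?_).trans
      (Finset.sum_le_sum_of_subset_of_nonneg Finset.sdiff_subset fun p _ _ =>
        Real.log_natCast_nonneg p)
    intro p hp
    rw [Finset.mem_sdiff] at hp
    obtain ⟨hp1, hp2⟩ := hp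
    rw [hS, Finset.mem_filter, Finset.mem_range] at hp1
    have hYp : Y < p := by
      by_contra h
      exact hp2 (by
        rw [Finset.mem_filter, Finset.mem_range]
        exact ⟨by omega, hp1.2⟩)
    have hp0 : (0 : ℝ) < p := by exact_mod_cast hp1.2.1.pos
    have hl : 0 ≤ Real.log p := Real.log_natCast_nonneg p
    have h6 : (Y : ℝ) ≤ p := by exact_mod_cast hYp.le
    rw [mul_div_assoc', div_le_iff₀ hp0]
    nlinarith
  calc 1 / (2 * (K : ℝ)) * X = X / (2 * K) := by ring
    _ ≤ Y := hYr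
    _ ≤ Y * ∑ p ∈ S \ (Finset.range (Y + 1)).filter (fun p => p.Prime ∧ P p),
      Real.log p / p := le_mul_of_one_le_right hY0.le h4
    _ ≤ _ := h5

end Pool.Agent.QTr
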