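import Pool.Agent.QTr.Targets
import Pool.Agent.QTx.COUNT2
import Pool.Agent.QTw.FIBG

/-! # COUNT3: assembly of part K -/

open Polynomial
open Pool.Agent.QTw (cfgs primesTo T_SMALL)
open Pool.Agent.QTx (Model Ty T_RED2 T_EXPM)

namespace Pool.Agent.QTr

namespace COUNT3_

theorem image_graph {T : Type} [DecidableEq T] (s : Finset ℕ) (τ : ∀ p ∈ s, T) :
    (QTw.graph s τ).image Prod.fst = s := by
  ext p
  simp only [Finset.mem_image]
  constructor
  · rintro ⟨x, hx, rfl⟩
    rw [QTw.FIBG_.mem_graph] at hx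
    exact hx.1
  · intro hp
    exact ⟨(p, τ p hp), by rw [QTw.FIBG_.mem_graph]; exact ⟨hp, rfl⟩, rfl⟩

open Classical in
/-- the expansion, typical numbers -/
theorem expt (h1 : T_EXPM) (m n κ : ℕ) (M : Model m n) (a : ℕ → Fin n → Fin n → ℝ)
    (N z X t : ℕ) (Qd : Finset (Fin m)) (Γ : Fin m → ℕ → Prop) (hM : M.Bounded)
    (ha : ∀ p j j', |a p j j'| ≤ 1) :
    (((Finset.range (X + 1)).filter
      (fun k => (Squarefree k ∧ (∀ p ∈ k.primeFactors, ¬ p ∣ N) ∧ M.Bad N a k) ∧
        Typ κ z t Qd Γ k.primeFactors)).card : ℝ) ≤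
    ∑ c ∈ (cfgs (Ty n) N X).filter (fun c => Typ κ z t Qd Γ (c.image Prod.fst)), M.W a z c := by
  rw [Finset.sum_filter]
  have hF := QTw.p_FIBG (Ty n)
    (fun c => if Typ κ z t Qd Γ (c.image Prod.fst) then M.W a z c else 0) N X
  rw [hF]
  have h2 : ((Finset.range (X + 1)).filter
      (fun k => (Squarefree k ∧ (∀ p ∈ k.primeFactors, ¬ p ∣ N) ∧ M.Bad N a k) ∧
        Typ κ z t Qd Γ k.primeFactors)) =
      ((Finset.range (X + 1)).filter
        (fun k => Squarefree k ∧ ∀ p ∈ k.primeFactors, ¬ p ∣ N)).filter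
        (fun k => M.Bad N a k ∧ Typ κ z t Qd Γ k.primeFactors) := by
    rw [Finset.filter_filter]
    refine Finset.filter_congr fun k _ => ?_
    tauto
  rw [h2, Finset.card_filter, Nat.cast_sum]
  refine Finset.sum_le_sum fun k hk => ?_
  rw [Finset.mem_filter] at hk
  obtain ⟨h3, h4⟩ := h1 m n M a N z k hM ha hk.2.1 hk.2.2
  simp only [image_graph]
  by_cases ht : Typ κ z t Qd Γ k.primeFactors
  · simp only [ht, and_true, if_true]
    split_ifs with h
    · rw [Nat.cast_one]
      exact h4 h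
    · rw [Nat.cast_zero]
      exact h3
  · simp only [ht, and_false, if_false]
    simp

open Classical in
/-- the bound for one sign function, typical numbers -/
theorem per (h3 : T_TYPX) (h4 : T_BAL3) (h5 : T_SMALL) (m n κ : ℕ) (M : Model m n) (N : ℕ)
    (B₀ δ : ℝ) (Qd : Finset (Fin m)) (Γ : Fin m → ℕ → Prop) (hκ : 1 ≤ κ) (hB₀ : 0 ≤ B₀)
    (hM : M.Bounded) (hBil : M.Bil κ N B₀) (hδ : 0 < δ) (hW : RelW M N δ Qd)
    (hΓ : ∀ i ∈ Qd, ∀ p, Γ i p → ∀ j : Fin n, (j : ℕ) < M.rn p → M.lab p j ≠ i) :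
    ∃ L : ℕ, 2 ≤ L ∧ ∃ c : ℝ, 0 < c ∧ ∃ B : ℝ, 0 ≤ B ∧ ∀ X : ℕ, 16 ≤ X →
      Real.exp 1 ≤ Real.log X → ∀ a : ℕ → Fin n → Fin n → ℝ, (∀ p j j', |a p j j'| ≤ 1) →
      ∑ c ∈ (cfgs (Ty n) N X).filter (fun c =>
          Typ κ (⌈(Real.log X) ^ (3 * (Fintype.card (Ty n) + 2))⌉₊ + 3)
            (Model.bk κ X - Model.bk κ X / L) Qd Γ (c.image Prod.fst)),
        M.W a (⌈(Real.log X) ^ (3 * (Fintype.card (Ty n) + 2))⌉₊ + 3) c ≤
        B * X * (Real.log X) ^ (δ - 1 - c) := by
  obtain ⟨BU, hBU0, hBU⟩ := h3 m n κ B₀ hκ hB₀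
  obtain ⟨LL', c, BB, hL1, hc0, hcδ, hBB0, hBB⟩ := h4 m n κ M N δ Qd Γ hκ hM hδ hW hΓ
  obtain ⟨BS, hBS0, hBS⟩ := h5
  set K : ℕ := Fintype.card (Ty n) with hK
  obtain ⟨L, hL⟩ := exists_nat_ge ((n : ℝ) * BS)
  obtain ⟨Cε, hCε0, hCε⟩ := QTw.COUNT_.log_pow_le (c / 2) (by linarith) (m + L)
  set C1 : ℝ := (Real.exp 1 * (3 * K + 8)) ^ L with hC1
  have hC10 : 0 ≤ C1 := by positivity
  refine ⟨2 * LL', by omega, c / 2, by linarith, BU * 2 ^ K + BB * 2 ^ m * C1 * Cε, by positivity,
    fun X hX hlX a ha => ?_⟩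
  set t : ℝ := Real.log X with ht
  have he1 : (2.7 : ℝ) < Real.exp 1 := by
    have := Real.exp_one_gt_d9
    linarith
  have ht1 : 1 ≤ t := by linarith
  have ht0 : 0 < t := by linarith
  have hlt : 1 ≤ Real.log t := by
    rw [Real.le_log_iff_exp_le ht0]
    exact hlX
  set z : ℕ := ⌈t ^ (3 * (K + 2))⌉₊ + 3 with hz
  set T : ℕ := Model.bk κ X - Model.bk κ X / (2 * LL') with hT
  have hT0 : Model.bk κ X / (2 * LL') ≤ Model.bk κ X / LL' :=
    Nat.div_le_div_left (by omega) (by omega)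
  have hT1 : Model.bk κ X ≤ T + Model.bk κ X / LL' := by omega
  have hzr : t ^ (3 * (K + 2)) ≤ (z : ℝ) := by
    rw [hz]
    push_cast
    have := Nat.le_ceil (t ^ (3 * (K + 2)))
    linarith
  have hzr2 : (z : ℝ) ≤ 5 * t ^ (3 * (K + 2)) := by
    rw [hz]
    push_cast
    have h1 := Nat.ceil_lt_add_one (a := t ^ (3 * (K + 2))) (by positivity)
    have h2 : 1 ≤ t ^ (3 * (K + 2)) := one_le_pow₀ ht1
    linarith
  have hz3 : 3 ≤ z := by omega
  have hX0 : (0 : ℝ) < X := by exact_mod_cast (by omega : 0 < X)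
  rw [← Finset.sum_filter_add_sum_filter_not _ (fun c => M.Unb κ z c)]
  -- the unbalanced part
  have hU : ∑ c ∈ ((cfgs (Ty n) N X).filter
      (fun c => Typ κ z T Qd Γ (c.image Prod.fst))).filter (fun c => M.Unb κ z c), M.W a z c ≤
      BU * 2 ^ K * X * t ^ (δ - 1 - c / 2) := by
    have h1 := hBU M a N z X T Qd Γ (by omega) (by omega) hM ha hBil
    refine le_trans (b := BU * X * (1 + t) ^ K / (z : ℝ) ^ ((1 : ℝ) / 3)) ?_ ?_
    · refine le_trans (le_of_eq ?_) (le_trans (le_abs_self _) h1)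
      refine Finset.sum_congr ?_ fun _ _ => rfl
      rw [Finset.filter_filter]
      refine Finset.filter_congr fun c _ => ?_
      tauto
    have h2 : t ^ (K + 2) ≤ (z : ℝ) ^ ((1 : ℝ) / 3) := by
      have h6 : t ^ (K + 2) = (t ^ (3 * (K + 2))) ^ ((1 : ℝ) / 3) := by
        rw [← Real.rpow_natCast, ← Real.rpow_natCast, ← Real.rpow_mul ht0.le]
        congr 1
        push_cast
        ring
      rw [h6]
      exact Real.rpow_le_rpow (by positivity) hzr (by norm_num)
    have h3 : (1 + t) ^ K ≤ 2 ^ K * t ^ K := by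
      rw [← mul_pow]
      exact pow_le_pow_left₀ (by linarith) (by linarith) K
    have h4 : t ^ (-(2 : ℝ)) ≤ t ^ (δ - 1 - c / 2) :=
      Real.rpow_le_rpow_of_exponent_le ht1 (by linarith)
    calc BU * X * (1 + t) ^ K / (z : ℝ) ^ ((1 : ℝ) / 3)
        ≤ BU * X * (2 ^ K * t ^ K) / t ^ (K + 2) := by
          apply div_le_div₀ (by positivity) _ (by positivity) h2
          exact mul_le_mul_of_nonneg_left h3 (by positivity)
      _ = BU * 2 ^ K * X * t ^ (-(2 : ℝ)) := by
          rw [Real.rpow_neg ht0.le, pow_add]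
          have : t ^ (2 : ℝ) = t ^ 2 := by exact_mod_cast Real.rpow_natCast t 2
          rw [this]
          field_simp
      _ ≤ BU * 2 ^ K * X * t ^ (δ - 1 - c / 2) := mul_le_mul_of_nonneg_left h4 (by positivity)
  -- the balanced part
  have hB : ∑ c ∈ ((cfgs (Ty n) N X).filter
      (fun c => Typ κ z T Qd Γ (c.image Prod.fst))).filter (fun c => ¬ M.Unb κ z c),
        M.W a z c ≤ BB * 2 ^ m * C1 * Cε * X * t ^ (δ - 1 - c / 2) := by
    have h1 := hBB a z X T (by omega) ha hT1
    have h1' : ∑ c ∈ ((cfgs (Ty n) N X).filter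
      (fun c => Typ κ z T Qd Γ (c.image Prod.fst))).filter (fun c => ¬ M.Unb κ z c),
        |M.W a z c| ≤ BB * X * t ^ (δ - 1 - c) * ((Model.bk κ X : ℝ) + 1) ^ m *
        Real.exp (n * (∑ p ∈ (Finset.range (z + 1)).filter Nat.Prime, 1 / (p : ℝ))) := by
      refine le_trans (le_of_eq ?_) h1
      refine Finset.sum_congr ?_ fun _ _ => rfl
      rw [Finset.filter_filter]
      refine Finset.filter_congr fun c _ => ?_
      tauto
    refine le_trans (Finset.sum_le_sum fun c _ => le_abs_self _) (le_trans h1' ?_)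
    have h3 := hBS z hz3
    have h4 : (Model.bk κ X : ℝ) + 1 ≤ 2 * (Real.log t + 2) :=
      QTx.COUNT2_.bk_le κ X hκ (by omega) ht1
    have h5 : Real.log z ≤ (3 * K + 8) * Real.log t := by
      have hz0 : (0 : ℝ) < z := by exact_mod_cast (by omega : 0 < z)
      calc Real.log z ≤ Real.log (5 * t ^ (3 * (K + 2))) := Real.log_le_log hz0 hzr2
        _ = Real.log 5 + (3 * (K + 2)) * Real.log t := by
            rw [Real.log_mul (by norm_num) (by positivity), Real.log_pow]
            push_cast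
            ring
        _ ≤ (3 * K + 8) * Real.log t := by
            have h6 : Real.log 5 ≤ 2 := by
              rw [Real.log_le_iff_le_exp (by norm_num)]
              have h7 : Real.exp 2 = Real.exp 1 * Real.exp 1 := by
                rw [← Real.exp_add]
                norm_num
              rw [h7]
              nlinarith
            nlinarith
    have hlz1 : 1 ≤ Real.log z := by
      rw [Real.le_log_iff_exp_le (by exact_mod_cast (by omega : 0 < z))]
      have h6 : (3 : ℝ) ≤ z := by exact_mod_cast hz3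
      have := Real.exp_one_lt_d9
      linarith
    have h6 : Real.exp (n *
        (∑ p ∈ (Finset.range (z + 1)).filter Nat.Prime, 1 / (p : ℝ))) ≤
        C1 * (Real.log t) ^ L := by
      have h7 : (n : ℝ) *
          (∑ p ∈ (Finset.range (z + 1)).filter Nat.Prime, 1 / (p : ℝ)) ≤
          L * (Real.log (Real.log z) + 1) := by
        have h8 : 0 ≤ Real.log (Real.log z) + 1 := by
          have := Real.log_nonneg hlz1
          linarith
        calc (n : ℝ) *
              (∑ p ∈ (Finset.range (z + 1)).filter Nat.Prime, 1 / (p : ℝ)) ≤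
              n * (BS * (Real.log (Real.log z) + 1)) :=
              mul_le_mul_of_nonneg_left h3 (Nat.cast_nonneg _)
          _ = (n * BS) * (Real.log (Real.log z) + 1) := by ring
          _ ≤ L * (Real.log (Real.log z) + 1) := mul_le_mul_of_nonneg_right hL h8
      refine le_trans (Real.exp_le_exp.mpr h7) ?_
      have h9 : Real.exp (L * (Real.log (Real.log z) + 1)) = (Real.exp 1 * Real.log z) ^ L := by
        rw [mul_add, mul_one, Real.exp_add, mul_comm, mul_comm (L : ℝ) (Real.log _),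
          mul_pow, ← Real.exp_nat_mul, mul_one, Real.exp_mul,
          Real.exp_log (by linarith), Real.rpow_natCast]
      rw [h9, hC1, ← mul_pow]
      refine pow_le_pow_left₀ (by positivity) ?_ L
      calc Real.exp 1 * Real.log z ≤ Real.exp 1 * ((3 * K + 8) * Real.log t) :=
            mul_le_mul_of_nonneg_left h5 (Real.exp_pos 1).le
        _ = Real.exp 1 * (3 * K + 8) * Real.log t := by ring
    have hlogt0 : 0 ≤ Real.log t := by linarith
    have htp : 0 < t ^ (δ - 1 - c) := Real.rpow_pos_of_pos ht0 _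
    calc BB * X * t ^ (δ - 1 - c) * ((Model.bk κ X : ℝ) + 1) ^ m *
          Real.exp (n * (∑ p ∈ (Finset.range (z + 1)).filter Nat.Prime, 1 / (p : ℝ)))
        ≤ BB * X * t ^ (δ - 1 - c) * (2 * (Real.log t + 2)) ^ m * (C1 * (Real.log t) ^ L) := by
          refine mul_le_mul ?_ h6 (Real.exp_pos _).le (by positivity)
          refine mul_le_mul_of_nonneg_left ?_ (by positivity)
          exact pow_le_pow_left₀ (by positivity) h4 m
      _ ≤ BB * X * t ^ (δ - 1 - c) * (2 * (Real.log t + 2)) ^ m *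
            (C1 * (Real.log t + 2) ^ L) := by
          have : (Real.log t) ^ L ≤ (Real.log t + 2) ^ L :=
            pow_le_pow_left₀ hlogt0 (by linarith) L
          gcongr
      _ = BB * 2 ^ m * C1 * X * ((Real.log t + 2) ^ (m + L) * t ^ (δ - 1 - c)) := by
          rw [pow_add, mul_pow]
          ring
      _ ≤ BB * 2 ^ m * C1 * X * ((Cε * t ^ (c / 2)) * t ^ (δ - 1 - c)) := by
          refine mul_le_mul_of_nonneg_left ?_ (by positivity)
          exact mul_le_mul_of_nonneg_right (hCε t ht1) (by positivity)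
      _ = BB * 2 ^ m * C1 * Cε * X * t ^ (δ - 1 - c / 2) := by
          rw [mul_assoc Cε, ← Real.rpow_add ht0, show c / 2 + (δ - 1 - c) = δ - 1 - c / 2 by ring]
          ring
  calc _ ≤ BU * 2 ^ K * X * t ^ (δ - 1 - c / 2) +
        BB * 2 ^ m * C1 * Cε * X * t ^ (δ - 1 - c / 2) := add_le_add hU hB
    _ = _ := by ring

/-- lower bound for the number of blocks -/
theorem bk_ge (κ X : ℕ) (hκ : 1 ≤ κ) (hX : 2 ≤ X) (h1 : Real.exp 1 ≤ Real.log X) :
    Real.log (Real.log X) ≤ ((Model.bk κ X : ℝ) + 1) * Real.log (2 * κ) := by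
  unfold Model.bk
  set l := Nat.log 2 X with hl
  set t := Real.log X with ht
  have he1 : (2.7 : ℝ) < Real.exp 1 := by
    have := Real.exp_one_gt_d9
    linarith
  have hX0 : (0 : ℝ) < X := by exact_mod_cast (by omega : 0 < X)
  have h2 : (X : ℝ) < 2 ^ (l + 1) := by
    exact_mod_cast Nat.lt_pow_succ_log_self (by norm_num) X
  have h3 : t ≤ (l + 1 : ℝ) * Real.log 2 := by
    have : t ≤ Real.log (2 ^ (l + 1)) := Real.log_le_log hX0 h2.le
    rw [Real.log_pow] at this
    push_cast at this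
    exact this
  have hlog2 : Real.log 2 < 0.6932 := by
    have := Real.log_two_lt_d9
    linarith
  have hlog2' : 0 < Real.log 2 := Real.log_pos (by norm_num)
  have h4 : t ≤ (l : ℝ) := by
    have h5 : (l + 1 : ℝ) * Real.log 2 ≤ (l + 1 : ℝ) * 0.6932 :=
      mul_le_mul_of_nonneg_left hlog2.le (by positivity)
    nlinarith
  have h6 : l < (2 * κ) ^ (Nat.log (2 * κ) l + 1) :=
    Nat.lt_pow_succ_log_self (by omega) l
  have h7 : (l : ℝ) ≤ (2 * (κ : ℝ)) ^ (Nat.log (2 * κ) l + 1) := by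
    have : (l : ℝ) < (((2 * κ) ^ (Nat.log (2 * κ) l + 1) : ℕ) : ℝ) := by exact_mod_cast h6
    push_cast at this
    exact this.le
  have ht0 : 0 < t := by linarith
  have h8 : Real.log t ≤ Real.log ((2 * (κ : ℝ)) ^ (Nat.log (2 * κ) l + 1)) :=
    Real.log_le_log ht0 (h4.trans h7)
  rw [Real.log_pow] at h8
  push_cast at h8
  exact h8

/-- eventually the rough primes of the top blocks are larger than `z` -/
theorem ev (κ K L : ℕ) (hκ : 1 ≤ κ) (hL : 2 ≤ L) : ∃ X₀ : ℕ, ∀ X : ℕ, X₀ ≤ X →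
    Model.bk κ (⌈(Real.log X) ^ (3 * (K + 2))⌉₊ + 3) < Model.bk κ X - Model.bk κ X / L := by
  set b : ℝ := Real.log (2 * κ) with hb
  have hκr : (1 : ℝ) ≤ κ := by exact_mod_cast hκ
  have hb0 : 0 < b := Real.log_pos (by linarith)
  set C : ℝ := 8 * (Real.log (16 * b) + Real.log (3 * K + 8) + 2) + 8 with hC
  have h := (Real.tendsto_log_atTop.comp (Real.tendsto_log_atTop.comp
    tendsto_natCast_atTop_atTop)).eventually_ge_atTop (max 1 (2 * b * (|C| + 8)))
  obtain ⟨X₁, hX₁⟩ := Filter.eventually_atTop.mp h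
  refine ⟨max X₁ 16, fun X hX => ?_⟩
  have hu := hX₁ X ((le_max_left _ _).trans hX)
  have hX16 : 16 ≤ X := (le_max_right _ _).trans hX
  simp only [Function.comp_apply] at hu
  set t : ℝ := Real.log X with ht
  set u : ℝ := Real.log t with hu'
  have hu1 : 1 ≤ u := (le_max_left _ _).trans hu
  have hu2 : 2 * b * (|C| + 8) ≤ u := (le_max_right _ _).trans hu
  have ht0 : 0 < t := by
    rw [ht]
    exact Real.log_pos (by exact_mod_cast (by omega : 1 < X))
  have hte : Real.exp 1 ≤ t := by rwa [← Real.le_log_iff_exp_le ht0]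
  have he1 : (2.7 : ℝ) < Real.exp 1 := by
    have := Real.exp_one_gt_d9
    linarith
  have ht1 : 1 ≤ t := by linarith
  set z : ℕ := ⌈t ^ (3 * (K + 2))⌉₊ + 3 with hz
  have hzr2 : (z : ℝ) ≤ 5 * t ^ (3 * (K + 2)) := by
    rw [hz]
    push_cast
    have h1 := Nat.ceil_lt_add_one (a := t ^ (3 * (K + 2))) (by positivity)
    have h2 : 1 ≤ t ^ (3 * (K + 2)) := one_le_pow₀ ht1
    linarith
  have hz3 : 3 ≤ z := by omega
  have hz0 : (0 : ℝ) < z := by exact_mod_cast (by omega : 0 < z)
  have h5 : Real.log z ≤ (3 * K + 8) * u := by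
    calc Real.log z ≤ Real.log (5 * t ^ (3 * (K + 2))) := Real.log_le_log hz0 hzr2
      _ = Real.log 5 + (3 * (K + 2)) * u := by
          rw [Real.log_mul (by norm_num) (by positivity), Real.log_pow]
          push_cast
          ring
      _ ≤ (3 * K + 8) * u := by
          have h6 : Real.log 5 ≤ 2 := by
            rw [Real.log_le_iff_le_exp (by norm_num)]
            have h7 : Real.exp 2 = Real.exp 1 * Real.exp 1 := by
              rw [← Real.exp_add]
              norm_num
            rw [h7]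
            nlinarith
          nlinarith
  have hlz1 : 1 ≤ Real.log z := by
    rw [Real.le_log_iff_exp_le hz0]
    have h6 : (3 : ℝ) ≤ z := by exact_mod_cast hz3
    have := Real.exp_one_lt_d9
    linarith
  have h6 := QTx.COUNT2_.bk_le κ z hκ (by omega) hlz1
  have h7 : Real.log (Real.log z) ≤ Real.log (3 * K + 8) + Real.log u := by
    rw [← Real.log_mul (by positivity) (by positivity)]
    exact Real.log_le_log (by linarith) h5
  have h8 : Real.log u ≤ u / (16 * b) - 1 + Real.log (16 * b) := by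
    have h9 : Real.log (u / (16 * b)) ≤ u / (16 * b) - 1 :=
      Real.log_le_sub_one_of_pos (by positivity)
    rw [Real.log_div (by positivity) (by positivity)] at h9
    linarith
  have h10 := bk_ge κ X hκ (by omega) hte
  have h11 : u ≤ ((Model.bk κ X : ℝ) + 1) * b := h10
  -- conclusion
  have h12 : 4 * (Model.bk κ z : ℝ) + 4 < (Model.bk κ X : ℝ) := by
    have h13 : u / b ≤ (Model.bk κ X : ℝ) + 1 := by
      rw [div_le_iff₀ hb0]
      exact h11
    have h14 : u / (16 * b) = (u / b) / 16 := by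
      field_simp
    have h15 : 2 * (|C| + 8) ≤ u / b := by
      rw [le_div_iff₀ hb0]
      linarith
    have h16 : C ≤ |C| := le_abs_self C
    rw [h14] at h8
    rw [hC] at h16 h15
    nlinarith [abs_nonneg C]
  have h13 : 4 * Model.bk κ z + 4 < Model.bk κ X := by exact_mod_cast h12
  have h14 : Model.bk κ X / L ≤ Model.bk κ X / 2 := Nat.div_le_div_left hL (by norm_num)
  omega

end COUNT3_

open COUNT3_

open Classical in
theorem p_COUNT3 (h1 : T_RED2) (h2 : T_EXPM) (h3 : T_TYPX) (h4 : T_BAL3) (h5 : T_SMALL)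
    (h6 : T_ATYP) : T_COUNT3 := by
  intro m n κ M N h B₀ δ a Qd Γ hκ hN0 hB₀ hM ha hBil hδ hW hA hΓ hγ
  obtain ⟨L, hL2, c, hc0, B, hB0, hB⟩ := per h3 h4 h5 m n κ M N B₀ δ Qd Γ hκ hB₀ hM hBil hδ hW
    (fun i hi p hp => (hΓ i hi p hp).2)
  obtain ⟨BA, hBA⟩ := hA
  -- atypical numbers
  have hat : ∀ i : Fin m, ∃ c' B' : ℝ, 0 < c' ∧ 0 ≤ B' ∧ (i ∈ Qd → ∀ z X : ℕ, 3 ≤ X →
      Model.bk κ z < Model.bk κ X - Model.bk κ X / L →
      (((Finset.range (X + 1)).filter (fun k => Squarefree k ∧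
        (∀ p ∈ k.primeFactors, ¬ p ∣ N → 0 < M.rn p) ∧
        ¬ ∃ p ∈ k.primeFactors, Γ i p ∧ z < p ∧
          Model.bk κ X - Model.bk κ X / L ≤ Model.bk κ p)).card : ℝ) ≤
        B' * X * (Real.log X) ^ (δ - 1 - c')) := by
    intro i
    by_cases hi : i ∈ Qd
    · obtain ⟨γ, Bγ, hγ0, hγ1⟩ := hγ i hi
      obtain ⟨c', B', hc', hB', hcB⟩ := h6 κ N L δ γ (max BA Bγ) (fun p => 0 < M.rn p) (Γ i) hκ
        (by omega) hγ0
        (fun x y hy hxy => by
          have h7 := (hBA x y hy hxy).trans (add_le_add le_rfl (le_max_left BA Bγ))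
          refine le_trans (le_of_eq (Finset.sum_congr ?_ fun _ _ => rfl)) h7
          ext p
          simp only [Finset.mem_filter])
        (fun p hp => (hΓ i hi p hp).1)
        (fun x y hy hxy => le_trans (sub_le_sub_left (le_max_right BA Bγ) _) (hγ1 x y hy hxy))
      refine ⟨c', B', hc', hB', fun _ z X hX hz => ?_⟩
      have h7 := hcB z X hX hz
      convert h7
    · exact ⟨1, 0, one_pos, le_refl _, fun h => absurd h hi⟩
  choose ci Bi hci hBi hcBi using hat
  -- a common exponent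
  obtain ⟨c₀, hc₀, hc₀c, hc₀i⟩ : ∃ c₀ : ℝ, 0 < c₀ ∧ c₀ ≤ c ∧ ∀ i, c₀ ≤ ci i := by
    refine ⟨min c (∏ i, min (ci i) 1), lt_min hc0 (Finset.prod_pos fun i _ =>
      lt_min (hci i) one_pos), min_le_left _ _, fun i => (min_le_right _ _).trans ?_⟩
    rw [← Finset.mul_prod_erase Finset.univ _ (Finset.mem_univ i)]
    have h7 : ∏ j ∈ Finset.univ.erase i, min (ci j) 1 ≤ 1 :=
      Finset.prod_le_one (fun j _ => (lt_min (hci j) one_pos).le) fun j _ => min_le_right _ _
    have h8 : 0 ≤ min (ci i) 1 := (lt_min (hci i) one_pos).le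
    calc min (ci i) 1 * ∏ j ∈ Finset.univ.erase i, min (ci j) 1 ≤ min (ci i) 1 * 1 :=
          mul_le_mul_of_nonneg_left h7 h8
      _ ≤ ci i := by rw [mul_one]; exact min_le_left _ _
  obtain ⟨X₁, hX₁⟩ := ev κ (Fintype.card (Ty n)) L hκ hL2
  obtain ⟨X0, hX0⟩ : ∃ X0 : ℕ, 16 ≤ X0 ∧ X₁ ≤ X0 ∧
      ∀ X : ℕ, X0 ≤ X → Real.exp 1 ≤ Real.log X := by
    have h := (Real.tendsto_log_atTop.comp tendsto_natCast_atTop_atTop).eventually_ge_atTop
      (Real.exp 1)
    obtain ⟨a, ha⟩ := Filter.eventually_atTop.mp h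
    exact ⟨max a (max X₁ 16), (le_max_right _ _).trans (le_max_right _ _),
      (le_max_left _ _).trans (le_max_right _ _), fun X hX => ha X ((le_max_left _ _).trans hX)⟩
  set e : ℝ := δ - 1 - c₀ with he
  set B1 : ℝ := N * (h * (B + ∑ i, Bi i)) with hB1
  have hBi0 : 0 ≤ ∑ i, Bi i := Finset.sum_nonneg fun i _ => hBi i
  have hB10 : 0 ≤ B1 := by positivity
  set B2 : ℝ := ∑ j ∈ Finset.range X0, 2 / (Real.log j) ^ e with hB2
  have hB2' : ∀ j ∈ Finset.range X0, 0 ≤ 2 / (Real.log j) ^ e := by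
    intro j _
    have : 0 ≤ Real.log j := Real.log_natCast_nonneg j
    positivity
  have hB20 : 0 ≤ B2 := Finset.sum_nonneg hB2'
  refine ⟨c₀, hc₀, B1 + B2, fun X hX => ?_⟩
  have hXr : (0 : ℝ) < X := by exact_mod_cast (by omega : 0 < X)
  have hlog : 0 < Real.log X := Real.log_pos (by exact_mod_cast (by omega : 1 < X))
  have hlogp : 0 < (Real.log X) ^ e := Real.rpow_pos_of_pos hlog _
  rcases lt_or_ge X X0 with hlt | hge
  · -- small X
    have h6 : (((Finset.range (X + 1)).filter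
        (fun k => Squarefree k ∧ ∃ η, M.Bad N (a η) k)).card : ℝ) ≤ 2 * X := by
      have : ((Finset.range (X + 1)).filter
          (fun k => Squarefree k ∧ ∃ η, M.Bad N (a η) k)).card ≤ 2 * X := by
        refine le_trans (Finset.card_filter_le _ _) ?_
        rw [Finset.card_range]
        omega
      exact_mod_cast this
    have h7 : 2 / (Real.log X) ^ e ≤ B2 :=
      Finset.single_le_sum (f := fun j : ℕ => 2 / (Real.log j) ^ e) hB2' (Finset.mem_range.mpr hlt)
    calc (((Finset.range (X + 1)).filter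
        (fun k => Squarefree k ∧ ∃ η, M.Bad N (a η) k)).card : ℝ) ≤ 2 * X := h6
      _ = (2 / (Real.log X) ^ e) * X * (Real.log X) ^ e := by
          field_simp
      _ ≤ (B1 + B2) * X * (Real.log X) ^ e := by
          gcongr
          linarith
  · -- large X
    have hlX := hX0.2.2 X hge
    have h16 : 16 ≤ X := hX0.1.trans hge
    have ht1 : 1 ≤ Real.log X := by
      have := Real.exp_one_gt_d9
      linarith
    set z : ℕ := ⌈(Real.log X) ^ (3 * (Fintype.card (Ty n) + 2))⌉₊ + 3 with hz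
    have hbk : Model.bk κ z < Model.bk κ X - Model.bk κ X / L :=
      hX₁ X (hX0.2.1.trans hge)
    set T : ℕ := Model.bk κ X - Model.bk κ X / L with hT
    have h7 : ∀ η : Fin h, (((Finset.range (X + 1)).filter
        (fun k => Squarefree k ∧ (∀ p ∈ k.primeFactors, ¬ p ∣ N) ∧ M.Bad N (a η) k)).card : ℝ) ≤
        (B + ∑ i, Bi i) * X * (Real.log X) ^ e := by
      intro η
      -- splitting into typical and atypical numbers
      have h8 : ((Finset.range (X + 1)).filter
          (fun k => Squarefree k ∧ (∀ p ∈ k.primeFactors, ¬ p ∣ N) ∧ M.Bad N (a η) k)) ⊆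
          ((Finset.range (X + 1)).filter
            (fun k => (Squarefree k ∧ (∀ p ∈ k.primeFactors, ¬ p ∣ N) ∧ M.Bad N (a η) k) ∧
              Typ κ z T Qd Γ k.primeFactors)) ∪
          Qd.biUnion (fun i => (Finset.range (X + 1)).filter (fun k => Squarefree k ∧
            (∀ p ∈ k.primeFactors, ¬ p ∣ N → 0 < M.rn p) ∧
            ¬ ∃ p ∈ k.primeFactors, Γ i p ∧ z < p ∧ T ≤ Model.bk κ p)) := by
        intro k hk
        rw [Finset.mem_filter] at hk
        rw [Finset.mem_union]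
        by_cases ht : Typ κ z T Qd Γ k.primeFactors
        · left
          rw [Finset.mem_filter]
          exact ⟨hk.1, hk.2, ht⟩
        · right
          unfold Typ at ht
          push Not at ht
          obtain ⟨i, hi, hi'⟩ := ht
          rw [Finset.mem_biUnion]
          refine ⟨i, hi, ?_⟩
          rw [Finset.mem_filter]
          refine ⟨hk.1, hk.2.1, ?_, ?_⟩
          · obtain ⟨ρ, hρ⟩ := hk.2.2.2
            intro p hp hpN
            exact lt_of_le_of_lt (Nat.zero_le _) (hρ p hp hpN).1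
          · push Not
            exact hi'
      have h9 : (((Finset.range (X + 1)).filter
            (fun k => (Squarefree k ∧ (∀ p ∈ k.primeFactors, ¬ p ∣ N) ∧ M.Bad N (a η) k) ∧
              Typ κ z T Qd Γ k.primeFactors)).card : ℝ) ≤ B * X * (Real.log X) ^ e := by
        refine (expt h2 m n κ M (a η) N z X T Qd Γ hM (ha η)).trans ?_
        refine (hB X h16 hlX (a η) (ha η)).trans ?_
        refine mul_le_mul_of_nonneg_left ?_ (by positivity)
        exact Real.rpow_le_rpow_of_exponent_le ht1 (by rw [he]; linarith)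
      have h10 : ∀ i ∈ Qd, (((Finset.range (X + 1)).filter (fun k => Squarefree k ∧
            (∀ p ∈ k.primeFactors, ¬ p ∣ N → 0 < M.rn p) ∧
            ¬ ∃ p ∈ k.primeFactors, Γ i p ∧ z < p ∧ T ≤ Model.bk κ p)).card : ℝ) ≤
            Bi i * X * (Real.log X) ^ e := by
        intro i hi
        refine (hcBi i hi z X (by omega) hbk).trans ?_
        refine mul_le_mul_of_nonneg_left ?_ (mul_nonneg (hBi i) hXr.le)
        exact Real.rpow_le_rpow_of_exponent_le ht1 (by rw [he]; linarith [hc₀i i])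
      have h11 : (((Finset.range (X + 1)).filter
          (fun k => Squarefree k ∧ (∀ p ∈ k.primeFactors, ¬ p ∣ N) ∧
            M.Bad N (a η) k)).card : ℝ) ≤
          (((Finset.range (X + 1)).filter
            (fun k => (Squarefree k ∧ (∀ p ∈ k.primeFactors, ¬ p ∣ N) ∧ M.Bad N (a η) k) ∧
              Typ κ z T Qd Γ k.primeFactors)).card : ℝ) +
          ∑ i ∈ Qd, (((Finset.range (X + 1)).filter (fun k => Squarefree k ∧
            (∀ p ∈ k.primeFactors, ¬ p ∣ N → 0 < M.rn p) ∧
            ¬ ∃ p ∈ k.primeFactors, Γ i p ∧ z < p ∧ T ≤ Model.bk κ p)).card : ℝ) := by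
        have h12 := (Finset.card_le_card h8).trans (Finset.card_union_le _ _)
        have h13 := Finset.card_biUnion_le (s := Qd) (t := fun i =>
          (Finset.range (X + 1)).filter (fun k => Squarefree k ∧
            (∀ p ∈ k.primeFactors, ¬ p ∣ N → 0 < M.rn p) ∧
            ¬ ∃ p ∈ k.primeFactors, Γ i p ∧ z < p ∧ T ≤ Model.bk κ p))
        exact_mod_cast h12.trans (Nat.add_le_add_left h13 _)
      have h12 : ∑ i ∈ Qd, Bi i * X * (Real.log X) ^ e ≤ (∑ i, Bi i) * X * (Real.log X) ^ e := by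
        rw [← Finset.sum_mul, ← Finset.sum_mul]
        have h13 : ∑ i ∈ Qd, Bi i ≤ ∑ i, Bi i :=
          Finset.sum_le_univ_sum_of_nonneg hBi
        gcongr
      calc _ ≤ _ := h11
        _ ≤ B * X * (Real.log X) ^ e + ∑ i ∈ Qd, Bi i * X * (Real.log X) ^ e :=
            add_le_add h9 (Finset.sum_le_sum h10)
        _ ≤ B * X * (Real.log X) ^ e + (∑ i, Bi i) * X * (Real.log X) ^ e := by linarith
        _ = _ := by ring
    have h8 := h1 m n M h a N X hN0
    have h9 : (((Finset.range (X + 1)).filter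
        (fun k => Squarefree k ∧ ∃ η, M.Bad N (a η) k)).card : ℝ) ≤
        N * ∑ η, (((Finset.range (X + 1)).filter
          (fun k => Squarefree k ∧ (∀ p ∈ k.primeFactors, ¬ p ∣ N) ∧
            M.Bad N (a η) k)).card : ℝ) := by
      exact_mod_cast h8
    have h10 : ∑ η : Fin h, (((Finset.range (X + 1)).filter
          (fun k => Squarefree k ∧ (∀ p ∈ k.primeFactors, ¬ p ∣ N) ∧
            M.Bad N (a η) k)).card : ℝ) ≤ h * ((B + ∑ i, Bi i) * X * (Real.log X) ^ e) := by
      refine (Finset.sum_le_card_nsmul _ _ _ fun η _ => h7 η).trans ?_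
      rw [nsmul_eq_mul, Finset.card_univ, Fintype.card_fin]
    calc (((Finset.range (X + 1)).filter
          (fun k => Squarefree k ∧ ∃ η, M.Bad N (a η) k)).card : ℝ)
        ≤ N * (h * ((B + ∑ i, Bi i) * X * (Real.log X) ^ e)) :=
          h9.trans (mul_le_mul_of_nonneg_left h10 (Nat.cast_nonneg _))
      _ = B1 * X * (Real.log X) ^ e := by
          rw [hB1]
          ring
      _ ≤ (B1 + B2) * X * (Real.log X) ^ e := by
          gcongr
          linarith

end Pool.Agent.QTr
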