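import Pool.Agent.QTr.Targets

set_option autoImplicit false

/-!
# CUB: the image of the boundary of a cube under a Lipschitz map is covered by few balls
-/

namespace Pool.Agent.QTr

open Finset

namespace CUB_

/-- the grid points of a face -/
private def face {ι : Type} [Fintype ι] [DecidableEq ι] (M : ℕ) (q : ι × ℕ) : Finset (ι → ℕ) :=
  Fintype.piFinset (fun j => if j = q.1 then {q.2} else range (M + 1))

private theorem card_face {ι : Type} [Fintype ι] [DecidableEq ι] (M : ℕ) (q : ι × ℕ) :
    (face M q).card = (M + 1) ^ (Fintype.card ι - 1) := by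
  unfold face
  rw [Fintype.card_piFinset]
  rw [← Finset.mul_prod_erase univ _ (mem_univ q.1)]
  rw [if_pos rfl, card_singleton, one_mul]
  rw [Finset.prod_congr rfl (g := fun _ => M + 1)]
  · rw [prod_const, card_erase_of_mem (mem_univ _), card_univ]
  · intro j hj
    rw [if_neg (ne_of_mem_erase hj), card_range]

/-- the point of the cube -/
private noncomputable def pt {ι : Type} (M : ℕ) (g : ι → ℕ) : ι → ℝ := fun j => (g j : ℝ) / M

private theorem pt_mem {ι : Type} {M : ℕ} {g : ι → ℕ} (hM : 0 < M) (hg : ∀ j, g j ≤ M) :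
    pt M g ∈ Set.Icc (0 : ι → ℝ) 1 := by
  have hM' : (0 : ℝ) < M := by exact_mod_cast hM
  refine ⟨fun j => ?_, fun j => ?_⟩
  · simp only [pt, Pi.zero_apply]; positivity
  · simp only [pt, Pi.one_apply]
    rw [div_le_one hM']
    exact_mod_cast hg j

end CUB_

open CUB_ in
/-- CUB. -/
theorem p_CUB : T_CUB := by
  classical
  intro ι _ Φ Λ hΦ
  refine ⟨(Fintype.card ι * 2 : ℕ) * (|Λ| + 3) ^ (Fintype.card ι - 1), ?_⟩
  intro ε hε hε1
  set M : ℕ := ⌈(|Λ| + 1) / ε⌉₊ with hMdef
  have hq : 0 < (|Λ| + 1) / ε := by positivity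
  have hM : 0 < M := Nat.ceil_pos.2 hq
  have hM' : (0 : ℝ) < M := by exact_mod_cast hM
  have hMge : (|Λ| + 1) / ε ≤ M := Nat.le_ceil _
  have hMle : (M : ℝ) < (|Λ| + 1) / ε + 1 := Nat.ceil_lt_add_one hq.le
  have hM1 : ((M + 1 : ℕ) : ℝ) ≤ (|Λ| + 3) * (1 / ε) := by
    have h1 : (1 : ℝ) ≤ 1 / ε := by rw [le_div_iff₀ hε]; linarith
    have h2 : (|Λ| + 1) / ε = (|Λ| + 1) * (1 / ε) := by ring
    push_cast
    nlinarith [hMle, h1]
  have hface : ∀ q : ι × ℕ, q ∈ (univ : Finset ι) ×ˢ ({0, M} : Finset ℕ) → ∀ g ∈ face M q,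
      ∀ j, g j ≤ M := by
    intro q hq g hg j
    rw [face, Fintype.mem_piFinset] at hg
    have h := hg j
    rw [mem_product] at hq
    by_cases hj : j = q.1
    · rw [if_pos hj, mem_singleton] at h
      rw [h]
      have h2 := hq.2
      rw [mem_insert, mem_singleton] at h2
      rcases h2 with h2 | h2 <;> rw [h2] <;> simp
    · rw [if_neg hj, mem_range] at h
      omega
  refine ⟨((univ : Finset ι) ×ˢ ({0, M} : Finset ℕ)).biUnion
    (fun q => (face M q).image (fun g => Φ (pt M g))), ?_, ?_, ?_⟩
  · have h1 : (((univ : Finset ι) ×ˢ ({0, M} : Finset ℕ)).biUnion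
        (fun q => (face M q).image (fun g => Φ (pt M g)))).card ≤
        (Fintype.card ι * 2) * (M + 1) ^ (Fintype.card ι - 1) := by
      refine (card_biUnion_le_card_mul _ _ ((M + 1) ^ (Fintype.card ι - 1)) ?_).trans ?_
      · intro q _
        exact card_image_le.trans (card_face M q).le
      · refine Nat.mul_le_mul_right _ ?_
        rw [card_product, card_univ]
        exact Nat.mul_le_mul_left _ card_le_two
    have h2 : ((((univ : Finset ι) ×ˢ ({0, M} : Finset ℕ)).biUnion
        (fun q => (face M q).image (fun g => Φ (pt M g)))).card : ℝ) ≤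
        ((Fintype.card ι * 2 : ℕ) : ℝ) * ((M + 1 : ℕ) : ℝ) ^ (Fintype.card ι - 1) := by
      exact_mod_cast h1
    refine h2.trans ?_
    rw [mul_assoc, ← mul_pow]
    exact mul_le_mul_of_nonneg_left (pow_le_pow_left₀ (by positivity) hM1 _) (by positivity)
  · intro s hs
    rw [mem_biUnion] at hs
    obtain ⟨q, hq, hs⟩ := hs
    rw [mem_image] at hs
    obtain ⟨g, hg, rfl⟩ := hs
    exact ⟨pt M g, pt_mem hM (hface q hq g hg), rfl⟩
  · rintro x hx ⟨i, hi⟩
    have hx0 : ∀ j, 0 ≤ x j := fun j => hx.1 j
    have hx1 : ∀ j, x j ≤ 1 := fun j => hx.2 j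
    set g : ι → ℕ := fun j => ⌊x j * M⌋₊ with hg
    have hgM : ∀ j, g j ≤ M := by
      intro j
      have : x j * M ≤ M := by nlinarith [hx1 j]
      have h := Nat.floor_le_floor this
      rwa [Nat.floor_natCast] at h
    refine ⟨Φ (pt M g), ?_, ?_⟩
    · rw [mem_biUnion]
      refine ⟨(i, g i), ?_, ?_⟩
      · rw [mem_product]
        refine ⟨mem_univ _, ?_⟩
        rw [mem_insert, mem_singleton]
        rcases hi with hi | hi
        · left
          simp [hg, hi]
        · right
          simp [hg, hi]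
      · rw [mem_image]
        refine ⟨g, ?_, rfl⟩
        rw [face, Fintype.mem_piFinset]
        intro j
        by_cases hj : j = i
        · rw [if_pos hj, mem_singleton, hj]
        · rw [if_neg hj, mem_range]
          have := hgM j
          omega
    · have h1 : ‖x - pt M g‖ ≤ 1 / M := by
        rw [pi_norm_le_iff_of_nonneg (by positivity)]
        intro j
        have hf1 : (g j : ℝ) ≤ x j * M := Nat.floor_le (by have := hx0 j; positivity)
        have hf2 : x j * M < g j + 1 := Nat.lt_floor_add_one _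
        rw [Pi.sub_apply, Real.norm_eq_abs, abs_le]
        have e : x j = x j * M / M := by field_simp
        constructor
        · simp only [pt]
          have : (g j : ℝ) / M ≤ x j := by rw [div_le_iff₀ hM']; exact hf1
          have h0 : (0 : ℝ) ≤ 1 / M := by positivity
          linarith
        · simp only [pt]
          have : x j ≤ (g j + 1) / M := by rw [le_div_iff₀ hM']; exact hf2.le
          rw [add_div] at this
          linarith
      refine (hΦ x hx _ (pt_mem hM hgM)).trans ?_
      have h2 : Λ * ‖x - pt M g‖ ≤ |Λ| * (1 / M) :=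
        mul_le_mul (le_abs_self _) h1 (norm_nonneg _) (abs_nonneg _)
      refine h2.trans ?_
      rw [mul_one_div, div_le_iff₀ hM']
      rw [div_le_iff₀ hε] at hMge
      linarith

end Pool.Agent.QTr
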