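import Pool.Agent.QTr.Targets
import Pool.Agent.QTw.MERT

/-!
# QTr-DEN: the density of the primes modulo which `f` has a root
-/

open Polynomial NumberField
open Pool.Agent.QTw (idealCount rootCount)

namespace Pool.Agent.QTr

namespace DEN_

/-- a prime outside `N` modulo which `f` has a root -/
theorem exists_root_prime (f : ℤ[X]) (hf : 0 < f.natDegree) (N : ℕ) (hN : 0 < N) :
    ∃ p : ℕ, p.Prime ∧ ¬ p ∣ N ∧ 0 < rootCount f p := by
  obtain ⟨a, ha⟩ : ∃ a, a = f.coeff 0 := ⟨_, rfl⟩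
  by_cases h0 : a = 0
  · obtain ⟨p, hp1, hp2⟩ := Nat.exists_infinite_primes (N + 1)
    refine ⟨p, hp2, fun h => ?_, ?_⟩
    · have := Nat.le_of_dvd hN h
      omega
    · unfold QTw.rootCount
      refine Finset.card_pos.2 ⟨0, Finset.mem_filter.2 ⟨Finset.mem_range.2 hp2.pos, ?_⟩⟩
      rw [Nat.cast_zero, ← coeff_zero_eq_eval_zero, ← ha, h0]
      exact dvd_zero _
  have hN' : (N : ℤ) ≠ 0 := by exact_mod_cast hN.ne'
  have haN : a * N ≠ 0 := mul_ne_zero h0 hN'
  obtain ⟨F, hF⟩ : ∃ F : ℤ[X], F = f.comp (C (a * N) * X) := ⟨_, rfl⟩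
  have hFd : 0 < F.natDegree := by
    rw [hF, natDegree_comp, natDegree_C_mul_X _ haN, mul_one]
    exact hf
  obtain ⟨x, hx⟩ : ∃ x : ℤ, (F ^ 2 - C (a ^ 2)).eval x ≠ 0 := by
    by_contra hcon
    push Not at hcon
    have h1 : F ^ 2 - C (a ^ 2) = 0 := Polynomial.funext fun x => by rw [hcon x, eval_zero]
    have h2 : F ^ 2 = C (a ^ 2) := sub_eq_zero.1 h1
    have h3 := congrArg natDegree h2
    rw [natDegree_pow, natDegree_C] at h3
    omega
  obtain ⟨u, hu⟩ : ∃ u : ℤ, u = 1 + N * x * f.divX.eval (a * N * x) := ⟨_, rfl⟩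
  have hfx : f.eval (a * N * x) = a * u := by
    conv_lhs => rw [← divX_mul_X_add f]
    rw [eval_add, eval_mul, eval_X, eval_C, ← ha, hu]
    ring
  have hFx : F.eval x = a * u := by
    rw [hF, eval_comp, eval_mul, eval_C, eval_X, hfx]
  have hu1 : u.natAbs ≠ 1 := by
    intro h
    apply hx
    have h2 : u ^ 2 = 1 := by
      rw [← Int.natAbs_sq, h]; norm_num
    rw [eval_sub, eval_pow, eval_C, hFx, mul_pow, h2, mul_one, sub_self]
  obtain ⟨p, hp, hpu⟩ := Nat.exists_prime_and_dvd hu1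
  have hpu' : (p : ℤ) ∣ u := Int.natCast_dvd.2 hpu
  refine ⟨p, hp, fun hpN => ?_, ?_⟩
  · have h1 : (p : ℤ) ∣ (N : ℤ) := Int.natCast_dvd_natCast.2 hpN
    have h2 : (p : ℤ) ∣ N * x * f.divX.eval (a * N * x) :=
      (h1.mul_right x).mul_right _
    have h3 : (p : ℤ) ∣ 1 := by
      rw [hu] at hpu'
      exact (dvd_add_left h2).1 hpu'
    have h4 : p ∣ 1 := by exact_mod_cast h3
    exact hp.one_lt.ne' (Nat.dvd_one.1 h4)
  · unfold QTw.rootCount
    have hp0 : (p : ℤ) ≠ 0 := by exact_mod_cast hp.ne_zero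
    have hnn := Int.emod_nonneg (a * N * x) hp0
    refine Finset.card_pos.2 ⟨((a * N * x) % p).toNat, Finset.mem_filter.2
      ⟨Finset.mem_range.2 ?_, ?_⟩⟩
    · have := Int.emod_lt_of_pos (a * N * x) (by exact_mod_cast hp.pos : (0 : ℤ) < p)
      omega
    · rw [Int.toNat_of_nonneg hnn]
      have h1 : (p : ℤ) ∣ a * N * x - (a * N * x) % p := Int.dvd_self_sub_emod
      have h2 := h1.trans (sub_dvd_eval_sub (a * N * x) ((a * N * x) % p) f)
      have h3 : (p : ℤ) ∣ f.eval (a * N * x) := by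
        rw [hfx]; exact hpu'.mul_left a
      exact (dvd_sub_right h3).1 h2

/-- inclusion and exclusion -/
theorem incl (r n : ℕ) (h : r ≤ n) : (if 0 < r then (1 : ℝ) else 0) =
    - ∑ m ∈ Finset.Icc 1 n, (-1) ^ m * (r.choose m : ℝ) := by
  have h1 : ∑ m ∈ Finset.range (r + 1), (-1 : ℝ) ^ m * (r.choose m : ℝ) =
      if r = 0 then 1 else 0 := by
    have := Int.alternating_sum_range_choose (n := r)
    have h2 : (((∑ m ∈ Finset.range (r + 1), ((-1) ^ m * (r.choose m) : ℤ)) : ℤ) : ℝ) =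
      ((if r = 0 then 1 else 0 : ℤ) : ℝ) := by rw [this]
    push_cast at h2
    exact h2
  have h2 : ∑ m ∈ Finset.range (n + 1), (-1 : ℝ) ^ m * (r.choose m : ℝ) =
      if r = 0 then 1 else 0 := by
    rw [← h1]
    symm
    refine Finset.sum_subset (Finset.range_mono (by omega)) fun m _ hm => ?_
    rw [Finset.mem_range, not_lt] at hm
    rw [Nat.choose_eq_zero_of_lt (by omega), Nat.cast_zero, mul_zero]
  have h3 : Finset.range (n + 1) = insert 0 (Finset.Icc 1 n) := by
    ext m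
    simp only [Finset.mem_range, Finset.mem_insert, Finset.mem_Icc]
    omega
  rw [h3, Finset.sum_insert (by simp), pow_zero, Nat.choose_zero_right, Nat.cast_one,
    mul_one] at h2
  have h4 : (if 0 < r then (1 : ℝ) else 0) = 1 - if r = 0 then 1 else 0 := by
    by_cases hr : r = 0
    · rw [if_neg (by omega), if_pos hr]; ring
    · rw [if_pos (by omega), if_neg hr]; ring
  rw [h4]
  linarith

/-- finitely many primes do not matter -/
theorem perturb (N : ℕ) (hN : 0 < N) (u v : ℕ → ℝ)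
    (huv : ∀ p : ℕ, p.Prime → ¬ p ∣ N → u p = v p) : ∃ B : ℝ, ∀ X : ℕ,
    |∑ p ∈ (Finset.range (X + 1)).filter Nat.Prime, u p * (Real.log p / p) -
      ∑ p ∈ (Finset.range (X + 1)).filter Nat.Prime, v p * (Real.log p / p)| ≤ B := by
  refine ⟨∑ p ∈ Finset.range (N + 1), |(u p - v p) * (Real.log p / p)|, fun X => ?_⟩
  rw [← Finset.sum_sub_distrib]
  refine (Finset.abs_sum_le_sum_abs _ _).trans ?_
  calc ∑ p ∈ (Finset.range (X + 1)).filter Nat.Prime,
        |u p * (Real.log p / p) - v p * (Real.log p / p)|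
      = ∑ p ∈ ((Finset.range (X + 1)).filter Nat.Prime).filter (fun p => p ∣ N),
        |u p * (Real.log p / p) - v p * (Real.log p / p)| := by
        symm
        refine Finset.sum_subset (Finset.filter_subset _ _) fun p hp hp' => ?_
        rw [Finset.mem_filter, not_and] at hp'
        rw [Finset.mem_filter] at hp
        rw [huv p hp.2 (fun h => hp' (Finset.mem_filter.2 hp) h), sub_self, abs_zero]
    _ ≤ ∑ p ∈ Finset.range (N + 1), |u p * (Real.log p / p) - v p * (Real.log p / p)| := by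
        refine Finset.sum_le_sum_of_subset_of_nonneg ?_ fun _ _ _ => abs_nonneg _
        intro p hp
        rw [Finset.mem_filter] at hp
        rw [Finset.mem_range]
        have := Nat.le_of_dvd hN hp.2
        omega
    _ = _ := Finset.sum_congr rfl fun p _ => by rw [sub_mul]

/-- the logarithm is unbounded -/
theorem unbdd (e B : ℝ) (h : ∀ X : ℕ, 1 ≤ X → e * Real.log X ≤ B) : e ≤ 0 := by
  by_contra hcon
  push Not at hcon
  obtain ⟨X, hX⟩ := exists_nat_gt (Real.exp (|B| / e + 1))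
  have hX0 : (0 : ℝ) < X := (Real.exp_pos _).trans hX
  have hX1 : 1 ≤ X := by
    have : 0 < X := by exact_mod_cast hX0
    omega
  have h1 : |B| / e + 1 < Real.log X := (Real.lt_log_iff_exp_lt hX0).2 hX
  have h2 := h X hX1
  have h3 : e * (|B| / e + 1) < e * Real.log X := mul_lt_mul_of_pos_left h1 hcon
  have h4 : e * (|B| / e + 1) = |B| + e := by field_simp
  have := le_abs_self B
  linarith

end DEN_

open DEN_ in
open Classical in
/-- DEN: the density of the primes modulo which `f` has a root. -/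
theorem p_DEN (h1 : T_FROB) (h2 : T_M1K) : T_DEN := by
  intro f hf hsq
  obtain ⟨M, iM, nM, N, hN, hF⟩ := h1 f hf hsq
  obtain ⟨R, hR⟩ : ∃ R : Finset M, R = (f.map (algebraMap ℤ M)).roots.toFinset := ⟨_, rfl⟩
  rw [← hR] at hF
  have hdpos : ∀ T : Finset M,
      (0 : ℝ) < Module.finrank ℚ (IntermediateField.adjoin ℚ (T : Set M)) := by
    intro T
    exact_mod_cast Module.finrank_pos
  obtain ⟨d, hd⟩ : ∃ d : Finset M → ℝ, ∀ T, d T =
    Module.finrank ℚ (IntermediateField.adjoin ℚ (T : Set M)) := ⟨_, fun _ => rfl⟩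
  obtain ⟨c, hc⟩ : ∃ c : Finset M → ℕ → ℝ, ∀ T p, c T p =
    idealCount (IntermediateField.adjoin ℚ (T : Set M)) p := ⟨_, fun _ _ => rfl⟩
  have hd0 : ∀ T, 0 < d T := fun T => by rw [hd]; exact hdpos T
  have hc0 : ∀ T p, 0 ≤ c T p := fun T p => by rw [hc]; exact Nat.cast_nonneg _
  have hF' : ∀ p : ℕ, p.Prime → ¬ p ∣ N → ∀ k : ℕ, ((rootCount f p).choose k : ℝ) =
      ∑ T ∈ R.powersetCard k, c T p / d T := by
    intro p hp hpN k
    rw [hF p hp hpN k]
    exact Finset.sum_congr rfl fun T _ => by rw [hc, hd]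
  have hM : ∀ T : Finset M, ∃ B : ℝ, ∀ X : ℕ, 1 ≤ X →
      |∑ p ∈ (Finset.range (X + 1)).filter Nat.Prime, c T p * (Real.log p / p) -
        Real.log X| ≤ B := by
    intro T
    obtain ⟨B, hB⟩ := h2 (IntermediateField.adjoin ℚ (T : Set M))
    refine ⟨B, fun X hX => ?_⟩
    have h3 : ∑ p ∈ (Finset.range (X + 1)).filter Nat.Prime, c T p * (Real.log p / p) =
      ∑ p ∈ (Finset.range (X + 1)).filter Nat.Prime,
        (idealCount (IntermediateField.adjoin ℚ (T : Set M)) p : ℝ) * Real.log p / p :=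
      Finset.sum_congr rfl fun p _ => by rw [hc, mul_div_assoc]
    rw [h3]
    exact hB X hX
  choose B hB using hM
  have hB0 : ∀ T, 0 ≤ B T := fun T => (abs_nonneg _).trans (hB T 1 le_rfl)
  obtain ⟨n, hn⟩ : ∃ n, n = R.card := ⟨_, rfl⟩
  have hr : ∀ p : ℕ, p.Prime → ¬ p ∣ N → rootCount f p ≤ n := by
    intro p hp hpN
    have h3 := hF' p hp hpN (n + 1)
    rw [Finset.powersetCard_eq_empty.2 (by omega), Finset.sum_empty] at h3
    have h4 : (rootCount f p).choose (n + 1) = 0 := by exact_mod_cast h3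
    rw [Nat.choose_eq_zero_iff] at h4
    omega
  obtain ⟨ind, hind⟩ : ∃ ind : ℕ → ℝ, ∀ p, ind p = if 0 < rootCount f p then 1 else 0 :=
    ⟨_, fun _ => rfl⟩
  obtain ⟨E, hE⟩ : ∃ E : ℕ → ℝ, ∀ p, E p =
    ∑ m ∈ Finset.Icc 1 n, ∑ T ∈ R.powersetCard m, (- (-1) ^ m / d T) * c T p :=
    ⟨_, fun _ => rfl⟩
  obtain ⟨δ, hδ⟩ : ∃ δ : ℝ, δ = ∑ m ∈ Finset.Icc 1 n, ∑ T ∈ R.powersetCard m,
    (- (-1) ^ m / d T) := ⟨_, rfl⟩
  have hindE : ∀ p : ℕ, p.Prime → ¬ p ∣ N → ind p = E p := by
    intro p hp hpN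
    rw [hind, incl _ n (hr p hp hpN), hE, ← Finset.sum_neg_distrib]
    refine Finset.sum_congr rfl fun m _ => ?_
    rw [hF' p hp hpN m, ← neg_mul, Finset.mul_sum]
    refine Finset.sum_congr rfl fun T _ => ?_
    ring
  obtain ⟨B₁, hB₁⟩ := perturb N hN ind E hindE
  obtain ⟨B₂, hB₂⟩ : ∃ B₂ : ℝ, B₂ = ∑ m ∈ Finset.Icc 1 n, ∑ T ∈ R.powersetCard m,
    B T / d T := ⟨_, rfl⟩
  have hEs : ∀ X : ℕ, 1 ≤ X →
      |∑ p ∈ (Finset.range (X + 1)).filter Nat.Prime, E p * (Real.log p / p) -
        δ * Real.log X| ≤ B₂ := by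
    intro X hX
    have h3 : ∑ p ∈ (Finset.range (X + 1)).filter Nat.Prime, E p * (Real.log p / p) -
        δ * Real.log X = ∑ m ∈ Finset.Icc 1 n, ∑ T ∈ R.powersetCard m, (- (-1) ^ m / d T) *
          (∑ p ∈ (Finset.range (X + 1)).filter Nat.Prime, c T p * (Real.log p / p) -
            Real.log X) := by
      simp_rw [hE, hδ, Finset.sum_mul, mul_sub, Finset.sum_sub_distrib]
      congr 1
      rw [Finset.sum_comm]
      refine Finset.sum_congr rfl fun m _ => ?_
      rw [Finset.sum_comm]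
      refine Finset.sum_congr rfl fun T _ => ?_
      rw [Finset.mul_sum]
      exact Finset.sum_congr rfl fun p _ => by ring
    rw [h3, hB₂]
    refine (Finset.abs_sum_le_sum_abs _ _).trans (Finset.sum_le_sum fun m _ => ?_)
    refine (Finset.abs_sum_le_sum_abs _ _).trans (Finset.sum_le_sum fun T _ => ?_)
    rw [abs_mul, abs_div, abs_neg, abs_pow, abs_neg, abs_one, one_pow, abs_of_pos (hd0 T),
      one_div_mul_eq_div]
    gcongr
    · exact (hd0 T).le
    · exact hB T X hX
  have hmain : ∀ X : ℕ, 1 ≤ X →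
      |∑ p ∈ (Finset.range (X + 1)).filter Nat.Prime, ind p * (Real.log p / p) -
        δ * Real.log X| ≤ B₁ + B₂ := by
    intro X hX
    refine (abs_sub_le _ (∑ p ∈ (Finset.range (X + 1)).filter Nat.Prime,
      E p * (Real.log p / p)) _).trans (add_le_add (hB₁ X) (hEs X hX))
  have hlp : ∀ p : ℕ, 0 ≤ Real.log p / p := fun p =>
    div_nonneg (Real.log_natCast_nonneg p) (Nat.cast_nonneg p)
  refine ⟨δ, ?_, ?_, B₁ + B₂, fun X hX => ?_⟩
  · -- positive
    obtain ⟨p₀, hp₀, hp₀N, hp₀r⟩ := exists_root_prime f hf N hN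
    have hn0 : 0 < n := lt_of_lt_of_le hp₀r (hr p₀ hp₀ hp₀N)
    obtain ⟨θ, hθ⟩ : R.Nonempty := Finset.card_pos.1 (by omega)
    obtain ⟨T, hT⟩ : ∃ T : Finset M, T = {θ} := ⟨_, rfl⟩
    have hnr : (0 : ℝ) < n := by exact_mod_cast hn0
    have hTm : T ∈ R.powersetCard 1 := by
      rw [Finset.mem_powersetCard, hT]
      exact ⟨Finset.singleton_subset_iff.2 hθ, Finset.card_singleton _⟩
    have hlow : ∀ p : ℕ, p.Prime → ¬ p ∣ N → c T p / (n * d T) ≤ ind p := by
      intro p hp hpN
      have h3 := hF' p hp hpN 1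
      rw [Nat.choose_one_right] at h3
      have h4 : c T p / d T ≤ rootCount f p := by
        rw [h3]
        exact Finset.single_le_sum (f := fun T => c T p / d T)
          (fun T _ => div_nonneg (hc0 T p) (hd0 T).le) hTm
      have h5 : ((rootCount f p : ℕ) : ℝ) ≤ n * ind p := by
        rw [hind]
        by_cases h6 : 0 < rootCount f p
        · rw [if_pos h6, mul_one]
          exact_mod_cast hr p hp hpN
        · rw [if_neg h6, mul_zero]
          have : rootCount f p = 0 := by omega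
          rw [this, Nat.cast_zero]
      rw [mul_comm (n : ℝ), ← div_div, div_le_iff₀ hnr]
      linarith
    obtain ⟨B₃, hB₃⟩ := perturb N hN ind
      (fun p => if p ∣ N then c T p / (n * d T) else ind p)
      (fun p _ hpN => by rw [if_neg hpN])
    have hkey : ∀ X : ℕ, 1 ≤ X → (1 / (n * d T) - δ) * Real.log X ≤
        B₁ + B₂ + B₃ + B T / (n * d T) := by
      intro X hX
      have h3 := (abs_le.1 (hmain X hX)).2
      have h4 := (abs_le.1 (hB₃ X)).1
      have h5 := (abs_le.1 (hB T X hX)).1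
      have h6 : ∑ p ∈ (Finset.range (X + 1)).filter Nat.Prime,
          (c T p / (n * d T)) * (Real.log p / p) ≤
          ∑ p ∈ (Finset.range (X + 1)).filter Nat.Prime,
          (if p ∣ N then c T p / (n * d T) else ind p) * (Real.log p / p) := by
        refine Finset.sum_le_sum fun p hp => mul_le_mul_of_nonneg_right ?_ (hlp p)
        split_ifs with h7
        · exact le_rfl
        · exact hlow p (Finset.mem_filter.1 hp).2 h7
      have h7 : ∑ p ∈ (Finset.range (X + 1)).filter Nat.Prime,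
          (c T p / (n * d T)) * (Real.log p / p) = (1 / (n * d T)) *
          ∑ p ∈ (Finset.range (X + 1)).filter Nat.Prime, c T p * (Real.log p / p) := by
        rw [Finset.mul_sum]
        exact Finset.sum_congr rfl fun p _ => by ring
      have h8 : (1 / (n * d T)) * (Real.log X - B T) ≤ (1 / (n * d T)) *
          ∑ p ∈ (Finset.range (X + 1)).filter Nat.Prime, c T p * (Real.log p / p) := by
        refine mul_le_mul_of_nonneg_left (by linarith) ?_
        have := hd0 T
        positivity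
      have h9 : B T / (n * d T) = (1 / (n * d T)) * B T := by ring
      rw [h9]
      linarith
    have h3 := unbdd _ _ hkey
    have h4 : 0 < 1 / ((n : ℝ) * d T) := by
      have := hd0 T
      positivity
    linarith
  · -- at most one
    obtain ⟨B₃, hB₃⟩ := QTw.p_MERT
    have hkey : ∀ X : ℕ, 1 ≤ X → (δ - 1) * Real.log X ≤ B₁ + B₂ + B₃ := by
      intro X hX
      have h3 := (abs_le.1 (hmain X hX)).1
      have h4 := hB₃ X hX
      have h5 : ∑ p ∈ (Finset.range (X + 1)).filter Nat.Prime, ind p * (Real.log p / p) ≤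
          ∑ p ∈ (Finset.range (X + 1)).filter Nat.Prime, Real.log p / p := by
        refine Finset.sum_le_sum fun p _ => ?_
        rw [hind]
        split_ifs
        · rw [one_mul]
        · rw [zero_mul]; exact hlp p
      linarith
    have h3 := unbdd _ _ hkey
    linarith
  · refine (le_of_eq ?_).trans (hmain X hX)
    congr 2
    rw [Finset.sum_filter, Finset.sum_filter]
    refine Finset.sum_congr rfl fun p _ => ?_
    rw [hind]
    by_cases hp1 : p.Prime
    · by_cases hp2 : 0 < rootCount f p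
      · rw [if_pos ⟨hp1, hp2⟩, if_pos hp1, if_pos hp2, one_mul]
      · rw [if_neg (fun h => hp2 h.2), if_pos hp1, if_neg hp2, zero_mul]
    · rw [if_neg (fun h => hp1 h.1), if_neg hp1]

end Pool.Agent.QTr
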