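import Pool.Agent.QTr.Targets
import Pool.Agent.QTw.EMB
import Pool.Agent.QTw.EXFF
import Pool.Agent.QTw.PTP

/-!
# ELSC: a supply of everywhere locally soluble twists
-/

open Polynomial
open Pool.Agent.QTw (IsFunctionField HasPoint TwistEverywhereLocal rootCount)

namespace Pool.Agent.QTr

namespace ELSC_

lemma hasPoint {E K : Type} [Field E] [Field K] (h : Nonempty (E →+* K)) : HasPoint E K := by
  obtain ⟨φ⟩ := h
  exact ⟨(HahnSeries.C : K →+* LaurentSeries K).comp φ⟩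

lemma exists_value (f : ℤ[X]) (hf : f ≠ 0) : ∃ x₀ : ℤ, f.eval x₀ ≠ 0 := by
  by_contra h
  push Not at h
  exact hf (Polynomial.funext (fun x => by rw [h x, eval_zero]))

lemma exists_sqfree (v : ℤ) (hv : v ≠ 0) : ∃ d₀ y₀ : ℤ, Squarefree d₀ ∧ d₀ ≠ 0 ∧ y₀ ≠ 0 ∧
    d₀ * y₀ ^ 2 = v := by
  obtain ⟨a, b, hab, ha⟩ := Nat.sq_mul_squarefree v.natAbs
  have hv' : v.natAbs ≠ 0 := Int.natAbs_ne_zero.2 hv
  have hb : b ≠ 0 := by
    rintro rfl
    apply hv'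
    rw [← hab]
    simp
  have ha0 : a ≠ 0 := ha.ne_zero
  have hc : ((b : ℤ)) ^ 2 * (a : ℤ) = (v.natAbs : ℤ) := by exact_mod_cast hab
  rcases Int.natAbs_eq v with h | h
  · refine ⟨(a : ℤ), (b : ℤ), ?_, by exact_mod_cast ha0, by exact_mod_cast hb, ?_⟩
    · rw [Int.squarefree_natCast]; exact ha
    · rw [h, ← hc]; ring
  · refine ⟨-(a : ℤ), (b : ℤ), ?_, ?_, by exact_mod_cast hb, ?_⟩
    · rw [← Int.squarefree_natAbs, Int.natAbs_neg, Int.natAbs_natCast]; exact ha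
    · rw [neg_ne_zero]; exact_mod_cast ha0
    · rw [h, ← hc]; ring

lemma aeval_int {K : Type} [Field K] [CharZero K] (f : ℤ[X]) (x : ℤ) :
    aeval (x : K) f = ((f.eval x : ℤ) : K) := by
  have h := Polynomial.aeval_algebraMap_apply K x f
  simp only [algebraMap_int_eq, eq_intCast] at h
  rw [h]
  rfl

end ELSC_

open ELSC_ in
theorem p_ELSC (h1 : T_SQP) (h2 : T_UNP) (h3 : T_RTP) (h4 : T_PTG) (h5 : T_PTGR) : T_ELSC := by
  intro f hdeg hsf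
  have hf : f ≠ 0 := by
    rintro rfl
    simp at hdeg
  obtain ⟨x₀, hx₀⟩ := exists_value f hf
  obtain ⟨d₀, y₀, hd₀s, hd₀, hy₀, hval⟩ := exists_sqfree _ hx₀
  obtain ⟨N1, hN1, hU⟩ := h2 f hdeg hsf
  obtain ⟨N2, hN2, hR⟩ := h3 f hdeg hsf
  have hd₀n : 0 < d₀.natAbs := Int.natAbs_pos.2 hd₀
  have hN0 : 0 < 2 * d₀.natAbs * N1 * N2 := by positivity
  refine ⟨d₀, 8 * (2 * d₀.natAbs * N1 * N2), hd₀, by positivity, ?_⟩
  intro m hm hmod hroots
  have hm0 : m ≠ 0 := hm.ne_zero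
  have hmpos : 0 < m := Nat.pos_of_ne_zero hm0
  have hdvd : ((8 * (2 * d₀.natAbs * N1 * N2) : ℕ) : ℤ) ∣ (m : ℤ) - 1 := by
    have h : (1 : ℕ) ≡ m [MOD 8 * (2 * d₀.natAbs * N1 * N2)] := hmod.symm
    have := (Nat.modEq_iff_dvd (n := 8 * (2 * d₀.natAbs * N1 * N2)) (a := 1) (b := m)).1 h
    exact_mod_cast this
  have hcop : IsCoprime d₀ (m : ℤ) := by
    have hd : d₀ ∣ (m : ℤ) - 1 := by
      refine dvd_trans ?_ hdvd
      refine dvd_trans (Int.dvd_natAbs.2 dvd_rfl) ?_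
      rw [Int.natCast_dvd_natCast]
      exact ⟨16 * N1 * N2, by ring⟩
    obtain ⟨k, hk⟩ := hd
    exact ⟨-k, 1, by linear_combination hk⟩
  have hd : d₀ * (m : ℤ) ≠ 0 := mul_ne_zero hd₀ (by exact_mod_cast hm0)
  refine ⟨?_, ?_⟩
  · exact squarefree_mul_iff.2 ⟨hcop.isRelPrime, hd₀s, by rw [Int.squarefree_natCast]; exact hm⟩
  obtain ⟨F, _, _, x, y, hF⟩ := QTw.t_EXFF f (d₀ * m) hd
  refine ⟨F, inferInstance, inferInstance, x, y, hF, ?_, ?_⟩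
  · have hsq : (√(m : ℝ)) ^ 2 = (m : ℝ) := Real.sq_sqrt (Nat.cast_nonneg m)
    have hsq0 : √(m : ℝ) ≠ 0 := by
      rw [Real.sqrt_ne_zero']
      exact_mod_cast hmpos
    have heq : ((d₀ * (m : ℤ) : ℤ) : ℝ) * ((y₀ : ℝ) / √(m : ℝ)) ^ 2 = aeval (x₀ : ℝ) f := by
      rw [aeval_int, ← hval, div_pow, hsq]
      push_cast
      have hmr : (m : ℝ) ≠ 0 := by exact_mod_cast hm0
      field_simp
    obtain ⟨ξ, η, hξ, hη⟩ := h5 f (d₀ * m) (x₀ : ℝ) ((y₀ : ℝ) / √(m : ℝ)) hd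
      (div_ne_zero (by exact_mod_cast hy₀) hsq0) heq
    exact hasPoint (QTw.p_EMB F ℝ x y ξ η f (d₀ * m) hd hdeg hsf hF hξ hη)
  · intro p hp
    have hpp : p.Prime := hp.out
    have key : ∃ ξ η : ℚ_[p], Transcendental ℚ ξ ∧
        ((d₀ * (m : ℤ) : ℤ) : ℚ_[p]) * η ^ 2 = aeval ξ f := by
      by_cases hpN : p ∣ 2 * d₀.natAbs * N1 * N2
      · have h8 : ((8 * p : ℕ) : ℤ) ∣ (m : ℤ) - 1 := by
          refine dvd_trans ?_ hdvd
          rw [Int.natCast_dvd_natCast]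
          exact Nat.mul_dvd_mul_left 8 hpN
        obtain ⟨w, hw0, hw⟩ := h1 p (m : ℤ) h8
        have heq : ((d₀ * (m : ℤ) : ℤ) : ℚ_[p]) * ((y₀ : ℚ_[p]) / w) ^ 2 =
            aeval (x₀ : ℚ_[p]) f := by
          rw [aeval_int, ← hval, div_pow, hw]
          push_cast
          have hmr : (m : ℚ_[p]) ≠ 0 := by exact_mod_cast hm0
          field_simp
        exact h4 f (d₀ * m) p (x₀ : ℚ_[p]) ((y₀ : ℚ_[p]) / w) hd
          (div_ne_zero (by exact_mod_cast hy₀) hw0) heq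
      · have hp1 : ¬ p ∣ N1 := fun h => hpN (h.mul_left _ |>.mul_right _)
        have hp2 : ¬ p ∣ N2 := fun h => hpN (h.mul_left _)
        have hpd : ¬ p ∣ d₀.natAbs := fun h => hpN (((h.mul_left 2).mul_right N1).mul_right N2)
        by_cases hpm : p ∣ m
        · obtain ⟨θ, hθ, hθ'⟩ := hR p hp2 (hroots p (Nat.mem_primeFactors.2 ⟨hpp, hpm, hm0⟩))
          exact QTw.p_PTP f (d₀ * m) p θ hd hθ hθ'
        · have hpd' : ¬ (p : ℤ) ∣ d₀ * (m : ℤ) := by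
            intro h
            rcases (Nat.prime_iff_prime_int.1 hpp).dvd_or_dvd h with h | h
            · exact hpd (Int.natCast_dvd.1 h)
            · exact hpm (Int.natCast_dvd_natCast.1 h)
          obtain ⟨a, b, hb, hab⟩ := hU p hp1 (d₀ * m) hpd'
          exact h4 f (d₀ * m) p a b hd hb hab
    obtain ⟨ξ, η, hξ, hη⟩ := key
    exact hasPoint (QTw.p_EMB F ℚ_[p] x y ξ η f (d₀ * m) hd hdeg hsf hF hξ hη)

end Pool.Agent.QTr
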