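import Pool.Agent.QTr.Targets
import Pool.Agent.QTx.ALG2
import Pool.Agent.QTx.LOCV2
import Pool.Agent.QTx.XCASE
import Pool.Agent.QTx.LEAD
import Pool.Agent.QTx.GOODQ
import Pool.Agent.QTx.UNR
import Pool.Agent.QTx.DENS
import Pool.Agent.QTx.EMBQ
import Pool.Agent.QTx.EMBV
import Pool.Agent.QTx.GEOM2

/-!
# ELSU: a necessary condition for local solubility
-/

open Polynomial NumberField
open Pool.Agent.QTw (IsFunctionField IsCovering HasPoint TwistSelNonempty TwistEverywhereLocal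
  primesTo cfgs idealCount rootCount)
open Pool.Agent.QTx (GoodFactors2 Model Ty Rts mdl IsEnum PtData)

namespace Pool.Agent.QTr

namespace ELSU_

theorem goodq : QTx.T_GOODQ := QTx.p_GOODQ (QTx.p_UNR QTx.p_EMBQ QTx.p_EMBV) QTx.p_DENS

variable {q : ℕ} [hq : Fact q.Prime]

/-- the second alternative is impossible -/
theorem not_sq {d l : ℤ} (hd : Squarefree d) (hqd : (q : ℤ) ∣ d) (hl : ‖(l : ℚ_[q])‖ = 1) :
    ¬ IsSquare ((d : ℚ_[q]) * (l : ℚ_[q])) := by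
  rintro ⟨r, hr⟩
  have h1 := congrArg norm hr
  rw [norm_mul, norm_mul, hl, mul_one, QTx.LOCV2_.norm_sqf hd hqd] at h1
  have hq0 : (q : ℝ) ≠ 0 := by exact_mod_cast hq.out.ne_zero
  have hr0 : r ≠ 0 := by
    rintro rfl
    rw [norm_zero, mul_zero] at h1
    exact inv_ne_zero hq0 h1
  obtain ⟨m, hm⟩ := QTx.LOCV2_.exists_zpow r hr0
  rw [hm, ← zpow_add₀ hq0, ← zpow_neg_one] at h1
  have h2 := QTx.XCASE_.zpow_inj h1
  omega

/-- a root in `ℚ_q` gives a root modulo `q` -/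
theorem root_count {f : ℤ[X]} {t : ℚ_[q]} (ht : aeval t f = 0) (h1 : ‖t‖ ≤ 1) :
    0 < rootCount f q := by
  obtain ⟨s, hs, hts⟩ := QTx.LOCV2_.exists_nat t h1
  unfold rootCount
  rw [Finset.card_pos]
  refine ⟨s, ?_⟩
  rw [Finset.mem_filter, Finset.mem_range]
  refine ⟨hs, ?_⟩
  have h2 : ‖(s : ℚ_[q])‖ ≤ 1 := by
    have := Padic.norm_int_le_one (p := q) (s : ℤ)
    simpa using this
  have h3 := QTx.LOCV2_.poly_diff f (x := (s : ℚ_[q])) (y := t) h2 h1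
  rw [ht, sub_zero, norm_sub_rev] at h3
  have h4 : aeval (s : ℚ_[q]) f = ((f.eval (s : ℤ) : ℤ) : ℚ_[q]) := by
    have e1 : (s : ℚ_[q]) = Int.castRingHom ℚ_[q] (s : ℤ) := by simp
    rw [e1, QTx.GEOM2_.aeval_hom]
    simp
  rw [h4] at h3
  exact (Padic.norm_intCast_lt_one_iff).1 (lt_of_le_of_lt h3 hts)

end ELSU_

open ELSU_ in
theorem p_ELSU : T_ELSU := by
  intro n g c f hg hc hf heven
  obtain ⟨N, hN, hgood⟩ := goodq n g c f hg hc hf ℚ
  have hpos : 0 < f.natDegree := by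
    rw [QTx.ALG2_.natDegree_eq hc hg hf]
    refine Finset.sum_pos (fun i _ => ?_) ⟨0, Finset.mem_univ _⟩
    have := hg.deg i
    omega
  have hsqf := QTx.ALG2_.sqf hc hg hf
  refine ⟨N, hN, ?_⟩
  rintro d hd ⟨F, _, _, x, y, hF, hloc⟩ p hp hpd hpN
  haveI : Fact p.Prime := ⟨hp⟩
  have hG := hgood p hpN
  obtain ⟨φ⟩ := hloc.2 p
  have hd0 : d ≠ 0 := hd.ne_zero
  have hξ : Transcendental ℚ (φ x) := by
    intro h
    apply hF.transcendental
    exact (isAlgebraic_algHom_iff φ.toRatAlgHom φ.injective).1 h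
  have heq : (d : LaurentSeries ℚ_[p]) * (φ y) ^ 2 = aeval (φ x) f := by
    rw [QTx.GEOM2_.aeval_hom, ← hF.equation]
    simp only [map_mul, map_pow, map_intCast]
  rcases QTx.p_LEAD ℚ_[p] (φ x) (φ y) f d hd0 hpos heven hsqf hξ heq with
    ⟨x₀, l₀, y₀, hPt, -⟩ | ⟨hdl, -⟩
  · obtain ⟨t₀, ε, ht₀, -⟩ := (QTx.p_XCASE n g f ℚ p d x₀ l₀ y₀ hpos heven hG hPt hd).2 hpd
    refine root_count ht₀ ?_
    have h1 : aeval (algebraMap ℚ_[p] (PadicAlgCl p) t₀) f = 0 := by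
      rw [QTx.GEOM2_.aeval_hom, ht₀, map_zero]
    have h2 := hG.int _ h1
    rwa [QTx.LOCV2_.norm_alg] at h2
  · exact absurd hdl (not_sq hd hpd hG.lc)

end Pool.Agent.QTr
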