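import Pool.Agent.QTr.Targets

/-!
# QTr-EXC: embeddings that map `K` into `ℚ_p`
-/

open NumberField

namespace Pool.Agent.QTr

namespace EXC_

theorem exists_lift {K L Ω : Type*} [Field K] [Field L] [Field Ω] (ι : L →+* Ω) (ψ : K →+* Ω)
    (h : ∀ z, ∃ r, ι r = ψ z) : ∃ φ : K →+* L, ι.comp φ = ψ := by
  choose g hg using h
  refine ⟨{ toFun := g
            map_one' := ι.injective (by rw [hg, map_one, map_one])
            map_mul' := fun x y => ι.injective (by rw [hg, map_mul, map_mul, hg, hg])
            map_zero' := ι.injective (by rw [hg, map_zero, map_zero])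
            map_add' := fun x y => ι.injective (by rw [hg, map_add, map_add, hg, hg]) },
    RingHom.ext hg⟩

/-- the number of extensions of a homomorphism -/
theorem card_fib {M K Ω : Type*} [Field M] [Field K] [Field Ω] [Algebra K M]
    [FiniteDimensional K M] [Algebra.IsSeparable K M] [IsAlgClosed Ω] (ψ : K →+* Ω) :
    Nat.card {j : M →+* Ω // j.comp (algebraMap K M) = ψ} = Module.finrank K M := by
  letI : Algebra K Ω := ψ.toAlgebra
  have e : (M →ₐ[K] Ω) ≃ {j : M →+* Ω // j.comp (algebraMap K M) = ψ} :=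
    { toFun := fun f => ⟨f.toRingHom, RingHom.ext fun z => f.commutes z⟩
      invFun := fun j => { j.1 with commutes' := fun z => RingHom.congr_fun j.2 z }
      left_inv := fun f => AlgHom.ext fun z => rfl
      right_inv := fun j => Subtype.ext (RingHom.ext fun z => rfl) }
  rw [← Nat.card_congr e, Nat.card_eq_fintype_card]
  exact AlgHom.card K M Ω

theorem card_fib_finite {M K Ω : Type*} [Field M] [Field K] [Field Ω] [Algebra K M]
    [FiniteDimensional K M] [Algebra.IsSeparable K M] [IsAlgClosed Ω] (ψ : K →+* Ω) :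
    Finite {j : M →+* Ω // j.comp (algebraMap K M) = ψ} := by
  refine Nat.finite_of_card_ne_zero ?_
  rw [card_fib]
  exact Module.finrank_pos.ne'

end EXC_

open EXC_ in
/-- EXC: the number of embeddings of `M` that map `K` into `ℚ_p`. -/
theorem p_EXC : T_EXC := by
  intro M _ _ K p _
  obtain ⟨ι, hι⟩ : ∃ ι : ℚ_[p] →+* PadicAlgCl p, ι = algebraMap ℚ_[p] (PadicAlgCl p) := ⟨_, rfl⟩
  rw [← hι]
  haveI : Finite (K →+* ℚ_[p]) := by
    haveI : Finite (K →ₐ[ℚ] ℚ_[p]) := inferInstance
    exact Finite.of_injective (fun f : K →+* ℚ_[p] => f.toRatAlgHom) (fun f g h => by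
      ext z
      exact DFunLike.congr_fun h z)
  haveI : Fintype (K →+* ℚ_[p]) := Fintype.ofFinite _
  have key : Nat.card {j : M →+* PadicAlgCl p // ∀ z ∈ K, ∃ r : ℚ_[p], ι r = j z} =
      Nat.card (K →+* ℚ_[p]) * Module.finrank K M := by
    have e : Function.Bijective (fun w : (Σ φ : K →+* ℚ_[p],
        {j : M →+* PadicAlgCl p // j.comp (algebraMap K M) = ι.comp φ}) =>
        (⟨w.2.1, fun z hz => ⟨w.1 ⟨z, hz⟩, (RingHom.congr_fun w.2.2 ⟨z, hz⟩).symm⟩⟩ :
          {j : M →+* PadicAlgCl p // ∀ z ∈ K, ∃ r : ℚ_[p], ι r = j z})) := by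
      constructor
      · rintro ⟨φ, j, hj⟩ ⟨φ', j', hj'⟩ h
        have h1 : j = j' := congrArg Subtype.val h
        subst h1
        have h2 : φ = φ' := by
          ext z
          have h3 := RingHom.congr_fun (hj.symm.trans hj') z
          exact ι.injective h3
        subst h2
        rfl
      · rintro ⟨j, hj⟩
        obtain ⟨φ, hφ⟩ := exists_lift ι (j.comp (algebraMap K M)) (fun z => hj z z.2)
        exact ⟨⟨φ, j, hφ.symm⟩, rfl⟩
    rw [← Nat.card_congr (Equiv.ofBijective _ e)]
    haveI : ∀ φ : K →+* ℚ_[p], Finite {j : M →+* PadicAlgCl p //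
        j.comp (algebraMap K M) = ι.comp φ} := fun φ => card_fib_finite _
    rw [Nat.card_sigma, Finset.sum_congr rfl (fun φ _ => card_fib (ι.comp φ)),
      Finset.sum_const, Finset.card_univ, smul_eq_mul, Nat.card_eq_fintype_card]
  rw [key, mul_assoc, mul_comm, mul_comm (Module.finrank K M), Module.finrank_mul_finrank]

end Pool.Agent.QTr
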