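import Pool.Agent.QTr.Targets
import Pool.Agent.QTx.EXPO2

/-!
# QTr-EXPO3: the exponent (sum over the blocks)
-/

open Pool.Agent.QTw (primesTo)
open Pool.Agent.QTx (Model Ty)

namespace Pool.Agent.QTr

namespace EXPO3_

open Pool.Agent.QTx.Model
open Pool.Agent.QTx.EXPO2_ hiding interval

/-- the sum over an interval of blocks -/
theorem interval {m n κ : ℕ} (M : Model m n) (N : ℕ) (hκ : 1 ≤ κ) (hM : M.Bounded)
    (J : Finset (Fin m)) (e B : ℝ) (he : 0 ≤ e)
    (h : ∀ x y : ℕ, 3 ≤ y → y ≤ x → ∑ p ∈ (primesTo N x).filter (fun p => y < p), M.Wm J p / p ≤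
      e * LL x y + B)
    (s₁ s₂ : ℕ) (hs : s₁ < s₂) (S : Finset ℕ)
    (hS : ∀ p ∈ S, p.Prime ∧ ¬ p ∣ N ∧ s₁ ≤ bk κ p ∧ bk κ p < s₂) :
    ∑ p ∈ S, M.Wm J p / p ≤
      e * (((s₂ : ℝ) - s₁) * Real.log (2 * κ)) + (e * Real.log 2 + |B| + 4 * n) := by
  classical
  unfold LL at h
  set y : ℕ := max 3 (2 ^ ((2 * κ) ^ s₁) - 1) with hy
  set x : ℕ := 2 ^ ((2 * κ) ^ s₂) with hx
  have hl2 : 0 < Real.log 2 := Real.log_pos (by norm_num)
  have hκ' : (0 : ℝ) < κ := by exact_mod_cast hκ
  have hy3 : 3 ≤ y := le_max_left _ _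
  have hmono : (2 * κ) ^ s₁ ≤ (2 * κ) ^ s₂ := Nat.pow_le_pow_right (by omega) hs.le
  have hx4 : 4 ≤ x := by
    have h1 : (2 * κ) ^ 1 ≤ (2 * κ) ^ s₂ := Nat.pow_le_pow_right (by omega) (by omega)
    rw [pow_one] at h1
    have h2 : 2 ≤ (2 * κ) ^ s₂ := by omega
    calc 4 = 2 ^ 2 := by norm_num
      _ ≤ x := Nat.pow_le_pow_right (by norm_num) h2
  have hyx : y ≤ x := by
    refine max_le (by omega) ?_
    have := Nat.pow_le_pow_right (n := 2) (by norm_num) hmono
    omega
  have hmain := h x y hy3 hyx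
  have hllx : Real.log (Real.log x) = s₂ * Real.log (2 * κ) + Real.log (Real.log 2) :=
    loglog_pow hκ
  have hlly : s₁ * Real.log (2 * κ) + Real.log (Real.log 2) - Real.log 2 ≤
      Real.log (Real.log y) := by
    have h1 : 2 ^ ((2 * κ) ^ s₁) ≤ y + 1 := by
      have := le_max_right 3 (2 ^ ((2 * κ) ^ s₁) - 1)
      omega
    have h2 : 2 ^ ((2 * κ) ^ s₁) ≤ y ^ 2 := by nlinarith
    have h3 : ((2 ^ ((2 * κ) ^ s₁) : ℕ) : ℝ) ≤ (y : ℝ) ^ 2 := by exact_mod_cast h2
    have h4 := Real.log_le_log (by positivity) h3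
    rw [Real.log_pow] at h4
    have h5 : Real.log ((2 ^ ((2 * κ) ^ s₁) : ℕ) : ℝ) / 2 ≤ Real.log y := by
      push_cast at h4 ⊢
      linarith
    have h6 : 0 < Real.log ((2 ^ ((2 * κ) ^ s₁) : ℕ) : ℝ) := by
      push_cast
      rw [Real.log_pow]
      positivity
    have h7 := Real.log_le_log (by positivity) h5
    rw [Real.log_div h6.ne' (by norm_num), loglog_pow hκ] at h7
    exact h7
  -- split the sum
  have hsplit : ∑ p ∈ S, M.Wm J p / p ≤
      ∑ p ∈ (primesTo N x).filter (fun p => y < p), M.Wm J p / p + 4 * n := by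
    have h1 : ∑ p ∈ S, M.Wm J p / p = ∑ p ∈ S.filter (fun p => y < p), M.Wm J p / p +
        ∑ p ∈ S.filter (fun p => ¬ y < p), M.Wm J p / p :=
      (Finset.sum_filter_add_sum_filter_not S _ _).symm
    rw [h1]
    refine add_le_add ?_ ?_
    · refine Finset.sum_le_sum_of_subset_of_nonneg ?_ fun p _ _ =>
        div_nonneg (Wm_nonneg M J p) (Nat.cast_nonneg _)
      intro p hp
      rw [Finset.mem_filter] at hp
      obtain ⟨hp1, hp2⟩ := hp
      obtain ⟨a1, a2, a3, a4⟩ := hS p hp1
      rw [Finset.mem_filter]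
      refine ⟨?_, hp2⟩
      unfold QTw.primesTo
      rw [Finset.mem_filter, Finset.mem_range]
      refine ⟨?_, a1, a2⟩
      have := lt_of_bk hκ a4
      omega
    · have hsub : S.filter (fun p => ¬ y < p) ⊆ Finset.range 4 := by
        intro p hp
        rw [Finset.mem_filter] at hp
        obtain ⟨hp1, hp2⟩ := hp
        obtain ⟨a1, a2, a3, a4⟩ := hS p hp1
        have a5 := le_of_bk a1 a3
        rw [Finset.mem_range]
        by_contra hcon
        have a6 : 2 ^ ((2 * κ) ^ s₁) - 1 < p := by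
          have := a1.pos
          omega
        exact hp2 (max_lt (by omega) a6)
      calc ∑ p ∈ S.filter (fun p => ¬ y < p), M.Wm J p / p
          ≤ ∑ p ∈ S.filter (fun p => ¬ y < p), (n : ℝ) := by
            refine Finset.sum_le_sum fun p hp => ?_
            have hpp := (hS p (Finset.mem_filter.1 hp).1).1
            have h1 : (1 : ℝ) ≤ p := by exact_mod_cast hpp.one_lt.le
            rw [div_le_iff₀ (by linarith)]
            have h2 := Wm_le M hM J p
            have h3 : (0 : ℝ) ≤ n := Nat.cast_nonneg n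
            nlinarith
        _ = ((S.filter (fun p => ¬ y < p)).card : ℝ) * n := by
            rw [Finset.sum_const, nsmul_eq_mul]
        _ ≤ 4 * n := by
            gcongr
            have := Finset.card_le_card hsub
            rw [Finset.card_range] at this
            exact_mod_cast this
  have h8 : e * (Real.log (Real.log x) - Real.log (Real.log y)) ≤
      e * (((s₂ : ℝ) - s₁) * Real.log (2 * κ)) + e * Real.log 2 := by
    have h9 : Real.log (Real.log x) - Real.log (Real.log y) ≤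
        ((s₂ : ℝ) - s₁) * Real.log (2 * κ) + Real.log 2 := by
      rw [hllx]
      linarith
    have h10 := mul_le_mul_of_nonneg_left h9 he
    rw [mul_add] at h10
    linarith
  have h12 := le_abs_self B
  linarith

end EXPO3_

open EXPO3_ in
open Pool.Agent.QTx.EXPO2_ hiding interval in
open Classical in
/-- EXPO3: the exponent. -/
theorem p_EXPO3 (h1 : Pool.Agent.QTx.T_BLOCK2) : T_EXPO3 := by
  intro m n κ M N δ Qd hκ hM hδ hW
  obtain ⟨B₁, hB₁0, hB₁⟩ := h1 κ hκ
  have hl2 : 0 < Real.log 2 := Real.log_pos (by norm_num)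
  have hκ' : (1 : ℝ) ≤ κ := by exact_mod_cast hκ
  have hlκ : 0 < Real.log (2 * κ) := Real.log_pos (by linarith)
  -- constants
  have hex : ∀ J : Finset (Fin m), ∃ c B : ℝ, 0 < c ∧ c ≤ δ ∧ (J.Nonempty →
      (∀ i ∈ Qd, J ≠ {i}) → ∀ x y : ℕ,
      3 ≤ y → y ≤ x → ∑ p ∈ (primesTo N x).filter (fun p => y < p), M.Wm J p / p ≤
      (δ - c) * LL x y + B) := by
    intro J
    by_cases hJ : J.Nonempty ∧ ∀ i ∈ Qd, J ≠ {i}
    · obtain ⟨c, hc0, hc1, B, hB⟩ := hW J hJ.1 hJ.2
      exact ⟨c, B, hc0, hc1, fun _ _ => hB⟩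
    · exact ⟨δ, 0, hδ, le_rfl, fun h h' => absurd ⟨h, h'⟩ hJ⟩
  choose cJ BJ hc0 hc1 hBJ using hex
  obtain ⟨J₀, -, hJ₀⟩ := Finset.exists_min_image (Finset.univ : Finset (Finset (Fin m))) cJ
    ⟨∅, Finset.mem_univ _⟩
  obtain ⟨c, hc⟩ : ∃ c, c = cJ J₀ := ⟨_, rfl⟩
  have hcm : ∀ J, c ≤ cJ J := fun J => hc ▸ hJ₀ J (Finset.mem_univ _)
  have hcpos : 0 < c := hc ▸ hc0 J₀
  have hcδ : c ≤ δ := hc ▸ hc1 J₀
  have hδc : 0 ≤ δ - c := by linarith
  obtain ⟨BB, hBB⟩ : ∃ BB : ℝ, BB = ∑ J : Finset (Fin m), (δ * Real.log 2 + |BJ J| + 4 * n) :=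
    ⟨_, rfl⟩
  have hBB0 : 0 ≤ BB := hBB ▸ Finset.sum_nonneg fun J _ => by positivity
  obtain ⟨GG, hGG⟩ : ∃ GG : ℝ, GG = (Fintype.card (Finset (Fin m)) : ℝ) * (n * B₁) := ⟨_, rfl⟩
  have hGG0 : 0 ≤ GG := by rw [hGG]; positivity
  obtain ⟨L, hL⟩ := exists_nat_gt (2 * GG / (c * Real.log (2 * κ)))
  have hL0 : (0 : ℝ) < L := lt_of_le_of_lt (by positivity) hL
  have hL1 : 1 ≤ L := by
    have : 0 < L := by exact_mod_cast hL0
    omega
  have hGL : 2 * GG ≤ c * (L * Real.log (2 * κ)) := by
    rw [div_lt_iff₀ (by positivity)] at hL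
    nlinarith
  obtain ⟨C₁, hC₁⟩ : ∃ C₁ : ℝ, C₁ = |Real.log (Real.log 2)| + Real.log (2 * κ) := ⟨_, rfl⟩
  have hC₁0 : 0 ≤ C₁ := by rw [hC₁]; positivity
  refine ⟨L, c / 2, m * (2 * n * B₁) + m * (2 * n * B₁) + BB + δ * C₁ + c / 2 * C₁ + 2 * GG,
    hL1, by positivity, by linarith, ?_⟩
  intro z X t I b hX ht hI
  obtain ⟨P, hP⟩ : ∃ P, P = (Finset.range (X + 1)).filter Nat.Prime := ⟨_, rfl⟩
  rw [← hP]
  have hPm : ∀ p ∈ P, p.Prime ∧ p ≤ X := by
    intro p hp
    rw [hP, Finset.mem_filter, Finset.mem_range] at hp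
    exact ⟨hp.2, by omega⟩
  -- pointwise bound
  have hpt : ∀ p ∈ P, (if p ∣ N then 0 else ∑ t, M.hh κ z I b p t) / (p : ℝ) ≤
      (if p ≤ z then (n : ℝ) / p else 0) +
      (∑ i, if Model.bk κ p = b i then 2 * n * (1 / (p : ℝ)) else 0) +
      (∑ i, if Model.bk κ p = b i - 1 then 2 * n * (1 / (p : ℝ)) else 0) +
      ∑ J ∈ (Finset.univ : Finset (Finset (Fin m))).filter (fun J => J.Nonempty),
        (if JJ I b (Model.bk κ p) = J ∧ ¬ p ∣ N then M.Wm J p / p else 0) := by
    intro p hp
    obtain ⟨hpp, -⟩ := hPm p hp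
    have hp0 : (0 : ℝ) < p := by exact_mod_cast hpp.pos
    have t1 : (0 : ℝ) ≤ (if p ≤ z then (n : ℝ) / p else 0) := by split_ifs <;> positivity
    have t2 : (0 : ℝ) ≤ ∑ i, if Model.bk κ p = b i then 2 * n * (1 / (p : ℝ)) else 0 :=
      Finset.sum_nonneg fun i _ => by split_ifs <;> positivity
    have t3 : (0 : ℝ) ≤ ∑ i, if Model.bk κ p = b i - 1 then 2 * n * (1 / (p : ℝ)) else 0 :=
      Finset.sum_nonneg fun i _ => by split_ifs <;> positivity
    have t4 : (0 : ℝ) ≤ ∑ J ∈ (Finset.univ : Finset (Finset (Fin m))).filter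
        (fun J => J.Nonempty),
        (if JJ I b (Model.bk κ p) = J ∧ ¬ p ∣ N then M.Wm J p / p else 0) :=
      Finset.sum_nonneg fun J _ => by
        split_ifs
        · exact div_nonneg (Wm_nonneg M J p) hp0.le
        · exact le_rfl
    by_cases hN : p ∣ N
    · rw [if_pos hN, zero_div]
      linarith
    rw [if_neg hN]
    by_cases hz : p ≤ z
    · have h2 : (∑ t, M.hh κ z I b p t) / (p : ℝ) ≤ (n : ℝ) / p := by
        gcongr
        exact hh_small M κ z I b p hz
      rw [if_pos hz]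
      linarith
    have hL : (∑ t, M.hh κ z I b p t) / (p : ℝ) ≤ 2 * n * (1 / (p : ℝ)) := by
      rw [mul_one_div]
      gcongr
      exact hh_large M hM κ z I b p hz
    by_cases hd1 : ∃ i, Model.bk κ p = b i
    · obtain ⟨i, hi⟩ := hd1
      have h3 : 2 * n * (1 / (p : ℝ)) ≤
          ∑ i, if Model.bk κ p = b i then 2 * n * (1 / (p : ℝ)) else 0 := by
        refine le_trans ?_ (Finset.single_le_sum (f := fun i =>
          if Model.bk κ p = b i then 2 * n * (1 / (p : ℝ)) else 0)
          (fun i _ => by split_ifs <;> positivity) (Finset.mem_univ i))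
        rw [if_pos hi]
      linarith
    by_cases hd2 : ∃ i, Model.bk κ p + 1 = b i
    · obtain ⟨i, hi⟩ := hd2
      have h3 : 2 * n * (1 / (p : ℝ)) ≤
          ∑ i, if Model.bk κ p = b i - 1 then 2 * n * (1 / (p : ℝ)) else 0 := by
        refine le_trans ?_ (Finset.single_le_sum (f := fun i =>
          if Model.bk κ p = b i - 1 then 2 * n * (1 / (p : ℝ)) else 0)
          (fun i _ => by split_ifs <;> positivity) (Finset.mem_univ i))
        rw [if_pos (by omega)]
      linarith
    have hcl := hh_clean M κ z I b p hz (fun i hi => hd1 ⟨i, hi⟩) (fun i hi => hd2 ⟨i, hi⟩)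
    have hcl' : (∑ t, M.hh κ z I b p t) / (p : ℝ) ≤ M.Wm (JJ I b (Model.bk κ p)) p / p := by
      gcongr
    have h5 : M.Wm (JJ I b (Model.bk κ p)) p / p ≤
        ∑ J ∈ (Finset.univ : Finset (Finset (Fin m))).filter (fun J => J.Nonempty),
        (if JJ I b (Model.bk κ p) = J ∧ ¬ p ∣ N then M.Wm J p / p else 0) := by
      by_cases hJ : (JJ I b (Model.bk κ p)).Nonempty
      · refine le_trans ?_ (Finset.single_le_sum (f := fun J =>
          if JJ I b (Model.bk κ p) = J ∧ ¬ p ∣ N then M.Wm J p / (p : ℝ) else 0)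
          (fun J _ => ?_) (Finset.mem_filter.2 ⟨Finset.mem_univ (JJ I b (Model.bk κ p)), hJ⟩))
        · rw [if_pos ⟨rfl, hN⟩]
        · split_ifs
          · exact div_nonneg (Wm_nonneg M J p) hp0.le
          · exact le_rfl
      · rw [Finset.not_nonempty_iff_eq_empty] at hJ
        rw [hJ, Wm_empty, zero_div]
        rw [hJ] at t4
        exact t4
    linarith
  refine (Finset.sum_le_sum hpt).trans ?_
  rw [Finset.sum_add_distrib, Finset.sum_add_distrib, Finset.sum_add_distrib]
  -- first sum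
  have hs1 : ∑ p ∈ P, (if p ≤ z then (n : ℝ) / p else 0) ≤
      n * (∑ p ∈ (Finset.range (z + 1)).filter Nat.Prime, 1 / (p : ℝ)) := by
    rw [← Finset.sum_filter, Finset.mul_sum]
    have h2 : ∀ p : ℕ, (n : ℝ) / p = n * (1 / (p : ℝ)) := fun p => by ring
    simp_rw [h2]
    refine Finset.sum_le_sum_of_subset_of_nonneg ?_ fun p _ _ => by positivity
    intro p hp
    rw [Finset.mem_filter] at hp ⊢
    rw [Finset.mem_range]
    exact ⟨by omega, (hPm p hp.1).1⟩
  -- dirty blocks
  have hdirty : ∀ b' : Fin m → ℕ,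
      ∑ p ∈ P, (∑ i, if Model.bk κ p = b' i then 2 * n * (1 / (p : ℝ)) else 0) ≤
        m * (2 * n * B₁) := by
    intro b'
    rw [Finset.sum_comm]
    calc ∑ i : Fin m, ∑ p ∈ P, (if Model.bk κ p = b' i then 2 * n * (1 / (p : ℝ)) else 0)
        ≤ ∑ _i : Fin m, 2 * n * B₁ := by
          refine Finset.sum_le_sum fun i _ => ?_
          rw [← Finset.sum_filter, ← Finset.mul_sum, hP, Finset.filter_filter]
          gcongr
          exact hB₁ (b' i) X
      _ = m * (2 * n * B₁) := by
          rw [Finset.sum_const, Finset.card_univ, Fintype.card_fin, nsmul_eq_mul]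
  have hs2 := hdirty b
  have hs3 := hdirty (fun i => b i - 1)
  -- clean blocks
  obtain ⟨K, hK⟩ : ∃ K, K = Model.bk κ X := ⟨_, rfl⟩
  rw [← hK] at ht
  have hKp : ∀ p ∈ P, Model.bk κ p ≤ K := by
    intro p hp
    rw [hK]
    unfold Model.bk
    exact Nat.log_mono_right (Nat.log_mono_right (hPm p hp).2)
  obtain ⟨AA, hAA⟩ : ∃ AA : Finset (Fin m) → Finset ℕ, ∀ J, AA J =
    (Finset.range (K + 1)).filter (fun s => JJ I b s = J) := ⟨_, fun _ => rfl⟩
  have hJJmono : ∀ s s' : ℕ, s ≤ s' → JJ I b s' ⊆ JJ I b s := by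
    intro s s' hss i hi
    rw [mem_JJ] at hi ⊢
    exact ⟨hi.1, by omega⟩
  have hKL : (0 : ℝ) ≤ (K / L : ℕ) := Nat.cast_nonneg _
  have hs4 : ∑ p ∈ P, ∑ J ∈ (Finset.univ : Finset (Finset (Fin m))).filter (fun J => J.Nonempty),
        (if JJ I b (Model.bk κ p) = J ∧ ¬ p ∣ N then M.Wm J p / (p : ℝ) else 0) ≤
      (δ - c) * ((K + 1 : ℝ) * Real.log (2 * κ)) + BB + GG * ((K / L : ℕ) + 2) := by
    rw [Finset.sum_comm]
    have hone : ∀ J : Finset (Fin m), J.Nonempty →
        ∑ p ∈ P, (if JJ I b (Model.bk κ p) = J ∧ ¬ p ∣ N then M.Wm J p / (p : ℝ) else 0) ≤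
          (δ - c) * (((AA J).card : ℝ) * Real.log (2 * κ)) +
            (δ * Real.log 2 + |BJ J| + 4 * n) + n * B₁ * ((K / L : ℕ) + 2) := by
      intro J hJ
      rw [← Finset.sum_filter]
      have hextra : 0 ≤ n * B₁ * (((K / L : ℕ) : ℝ) + 2) := by positivity
      by_cases hJQ : ∀ i ∈ Qd, J ≠ {i}
      · by_cases hne : (AA J).Nonempty
        · have hs₁m := Finset.min'_mem (AA J) hne
          have hs₂m := Finset.max'_mem (AA J) hne
          obtain ⟨s₁, hs₁⟩ : ∃ s₁, s₁ = (AA J).min' hne := ⟨_, rfl⟩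
          obtain ⟨s₂, hs₂⟩ : ∃ s₂, s₂ = (AA J).max' hne := ⟨_, rfl⟩
          rw [← hs₁] at hs₁m
          rw [← hs₂] at hs₂m
          have hle : s₁ ≤ s₂ := by rw [hs₁]; exact Finset.min'_le _ _ hs₂m
          have hAeq : AA J = Finset.Icc s₁ s₂ := by
            ext s
            constructor
            · intro hs
              rw [hs₁, hs₂]
              exact Finset.mem_Icc.2 ⟨Finset.min'_le _ _ hs, Finset.le_max' _ _ hs⟩
            · intro hs
              rw [Finset.mem_Icc] at hs
              rw [hAA] at hs₁m hs₂m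
              simp only [Finset.mem_filter, Finset.mem_range] at hs₁m hs₂m
              rw [hAA]
              simp only [Finset.mem_filter, Finset.mem_range]
              refine ⟨by omega, ?_⟩
              apply Finset.Subset.antisymm
              · have := hJJmono s₁ s hs.1
                rwa [hs₁m.2] at this
              · have := hJJmono s s₂ hs.2
                rwa [hs₂m.2] at this
          have hcard : ((AA J).card : ℝ) = ((s₂ + 1 : ℕ) : ℝ) - s₁ := by
            rw [hAeq, Nat.card_Icc, Nat.cast_sub (by omega)]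
          have hint := EXPO3_.interval M N hκ hM J (δ - cJ J) (BJ J) (by linarith [hc1 J])
            (hBJ J hJ hJQ) s₁ (s₂ + 1)
            (by omega) (P.filter (fun p => JJ I b (Model.bk κ p) = J ∧ ¬ p ∣ N)) (by
              intro p hp
              rw [Finset.mem_filter] at hp
              obtain ⟨hp1, hp2, hp3⟩ := hp
              have hmem : Model.bk κ p ∈ AA J := by
                rw [hAA]
                simp only [Finset.mem_filter, Finset.mem_range]
                exact ⟨by have := hKp p hp1; omega, hp2⟩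
              rw [hAeq, Finset.mem_Icc] at hmem
              exact ⟨(hPm p hp1).1, hp3, hmem.1, by omega⟩)
          rw [← hcard] at hint
          refine hint.trans ?_
          have h6 : (δ - cJ J) * (((AA J).card : ℝ) * Real.log (2 * κ)) ≤
              (δ - c) * (((AA J).card : ℝ) * Real.log (2 * κ)) := by
            refine mul_le_mul_of_nonneg_right ?_ (mul_nonneg (Nat.cast_nonneg _) hlκ.le)
            linarith [hcm J]
          have h61 : (δ - cJ J) * Real.log 2 ≤ δ * Real.log 2 :=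
            mul_le_mul_of_nonneg_right (by linarith [hc0 J]) hl2.le
          linarith
        · have hemp : P.filter (fun p => JJ I b (Model.bk κ p) = J ∧ ¬ p ∣ N) = ∅ := by
            refine Finset.filter_eq_empty_iff.2 fun p hp hcon => ?_
            refine hne ⟨Model.bk κ p, ?_⟩
            rw [hAA]
            simp only [Finset.mem_filter, Finset.mem_range]
            exact ⟨by have := hKp p hp; omega, hcon.1⟩
          rw [hemp, Finset.sum_empty]
          have h71 : 0 ≤ (δ - c) * (((AA J).card : ℝ) * Real.log (2 * κ)) :=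
            mul_nonneg hδc (mul_nonneg (Nat.cast_nonneg _) hlκ.le)
          have h72 : 0 ≤ δ * Real.log 2 + |BJ J| + 4 * n := by positivity
          linarith
      · simp only [not_forall, not_not] at hJQ
        obtain ⟨i, hiQ, hJi⟩ := hJQ
        obtain ⟨i', hi', hne, hti⟩ := hI i hiQ
        have h71 : 0 ≤ (δ - c) * (((AA J).card : ℝ) * Real.log (2 * κ)) :=
          mul_nonneg hδc (mul_nonneg (Nat.cast_nonneg _) hlκ.le)
        have h72 : 0 ≤ δ * Real.log 2 + |BJ J| + 4 * n := by positivity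
        have h73 : ∑ p ∈ P.filter (fun p => JJ I b (Model.bk κ p) = J ∧ ¬ p ∣ N),
            M.Wm J p / (p : ℝ) ≤ ∑ s ∈ Finset.Icc (t - 1) K,
              ∑ p ∈ P.filter (fun p => Model.bk κ p = s), (n : ℝ) * (1 / p) := by
          have hmaps : ∀ p ∈ P.filter (fun p => JJ I b (Model.bk κ p) = J ∧ ¬ p ∣ N),
              Model.bk κ p ∈ Finset.Icc (t - 1) K := by
            intro p hp
            rw [Finset.mem_filter] at hp
            rw [Finset.mem_Icc]
            refine ⟨?_, hKp p hp.1⟩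
            have hnot : i' ∉ JJ I b (Model.bk κ p) := by
              rw [hp.2.1, hJi, Finset.mem_singleton]
              exact hne
            rw [mem_JJ] at hnot
            have : ¬ (Model.bk κ p + 2 ≤ b i') := fun h => hnot ⟨hi', h⟩
            omega
          rw [← Finset.sum_fiberwise_of_maps_to hmaps]
          refine Finset.sum_le_sum fun s _ => ?_
          rw [Finset.filter_filter]
          calc ∑ p ∈ P.filter (fun p => (JJ I b (Model.bk κ p) = J ∧ ¬ p ∣ N) ∧
                Model.bk κ p = s), M.Wm J p / (p : ℝ)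
              ≤ ∑ p ∈ P.filter (fun p => (JJ I b (Model.bk κ p) = J ∧ ¬ p ∣ N) ∧
                Model.bk κ p = s), (n : ℝ) * (1 / p) := by
                refine Finset.sum_le_sum fun p hp => ?_
                rw [mul_one_div]
                gcongr
                exact Wm_le M hM J p
            _ ≤ _ := by
                refine Finset.sum_le_sum_of_subset_of_nonneg ?_ fun p _ _ => by positivity
                intro p hp
                rw [Finset.mem_filter] at hp ⊢
                exact ⟨hp.1, hp.2.2⟩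
        have h74 : ∑ s ∈ Finset.Icc (t - 1) K,
              ∑ p ∈ P.filter (fun p => Model.bk κ p = s), (n : ℝ) * (1 / p) ≤
            ∑ _s ∈ Finset.Icc (t - 1) K, n * B₁ := by
          refine Finset.sum_le_sum fun s _ => ?_
          rw [← Finset.mul_sum, hP, Finset.filter_filter]
          gcongr
          exact hB₁ s X
        have h75 : ∑ _s ∈ Finset.Icc (t - 1) K, n * B₁ ≤ n * B₁ * ((K / L : ℕ) + 2) := by
          rw [Finset.sum_const, nsmul_eq_mul, mul_comm]
          refine mul_le_mul_of_nonneg_left ?_ (by positivity)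
          have : (Finset.Icc (t - 1) K).card ≤ K / L + 2 := by
            rw [Nat.card_Icc]
            clear * - ht
            generalize K / L = q at ht ⊢
            omega
          exact_mod_cast this
        linarith
    have hsum : ∑ J ∈ (Finset.univ : Finset (Finset (Fin m))).filter (fun J => J.Nonempty),
        ((δ - c) * (((AA J).card : ℝ) * Real.log (2 * κ)) +
            (δ * Real.log 2 + |BJ J| + 4 * n) + n * B₁ * ((K / L : ℕ) + 2)) ≤
        ∑ J : Finset (Fin m),
        ((δ - c) * (((AA J).card : ℝ) * Real.log (2 * κ)) +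
            (δ * Real.log 2 + |BJ J| + 4 * n) + n * B₁ * ((K / L : ℕ) + 2)) := by
      refine Finset.sum_le_sum_of_subset_of_nonneg (Finset.filter_subset _ _) fun J _ _ => ?_
      have h71 : 0 ≤ (δ - c) * (((AA J).card : ℝ) * Real.log (2 * κ)) :=
        mul_nonneg hδc (mul_nonneg (Nat.cast_nonneg _) hlκ.le)
      positivity
    refine (Finset.sum_le_sum fun J hJ => hone J (Finset.mem_filter.1 hJ).2).trans
      (hsum.trans ?_)
    rw [Finset.sum_add_distrib, Finset.sum_add_distrib, ← Finset.mul_sum, ← Finset.sum_mul,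
      ← hBB]
    have hcards : ∑ J : Finset (Fin m), ((AA J).card : ℝ) = K + 1 := by
      have h8 := Finset.card_eq_sum_card_fiberwise (f := fun s => JJ I b s)
        (s := Finset.range (K + 1)) (t := (Finset.univ : Finset (Finset (Fin m))))
        (fun s _ => Finset.mem_coe.2 (Finset.mem_univ _))
      rw [Finset.card_range] at h8
      have h9 : ((K + 1 : ℕ) : ℝ) = ∑ J : Finset (Fin m), ((AA J).card : ℝ) := by
        rw [h8, Nat.cast_sum]
        exact Finset.sum_congr rfl fun J _ => by rw [hAA]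
      rw [← h9]
      push_cast
      ring
    rw [hcards, Finset.sum_const, Finset.card_univ, nsmul_eq_mul, hGG]
    linarith
  -- the length
  have hKlog : (K : ℝ) * Real.log (2 * κ) + Real.log (Real.log 2) ≤
      Real.log (Real.log X) := by
    rw [← loglog_pow hκ]
    have h9 : 2 ^ ((2 * κ) ^ K) ≤ X := by
      have h10 : 1 ≤ Nat.log 2 X := Nat.log_pos (by norm_num) (by omega)
      have h11 : (2 * κ) ^ K ≤ Nat.log 2 X := by
        rw [hK]
        unfold Model.bk
        exact Nat.pow_log_le_self _ (by omega)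
      exact (Nat.pow_le_pow_right (by norm_num) h11).trans (Nat.pow_log_le_self 2 (by omega))
    have h12 : ((2 ^ ((2 * κ) ^ K) : ℕ) : ℝ) ≤ X := by exact_mod_cast h9
    have h13 : 0 < Real.log ((2 ^ ((2 * κ) ^ K) : ℕ) : ℝ) := by
      have : (0 : ℝ) < κ := by linarith
      push_cast
      rw [Real.log_pow]
      positivity
    have h14 : (0 : ℝ) < ((2 ^ ((2 * κ) ^ K) : ℕ) : ℝ) := by positivity
    exact Real.log_le_log h13 (Real.log_le_log h14 h12)
  have hKC : (K + 1 : ℝ) * Real.log (2 * κ) ≤ Real.log (Real.log X) + C₁ := by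
    have := neg_abs_le (Real.log (Real.log 2))
    rw [hC₁]
    linarith
  have hKC' : (K : ℝ) * Real.log (2 * κ) ≤ Real.log (Real.log X) + C₁ := by
    linarith
  have hfin : (δ - c) * ((K + 1 : ℝ) * Real.log (2 * κ)) ≤
      (δ - c) * Real.log (Real.log X) + δ * C₁ := by
    have h15 := mul_le_mul_of_nonneg_left hKC hδc
    have h16 : (δ - c) * C₁ ≤ δ * C₁ := mul_le_mul_of_nonneg_right (by linarith) hC₁0
    linarith
  have hfin2 : GG * ((K / L : ℕ) + 2) ≤ c / 2 * Real.log (Real.log X) + c / 2 * C₁ + 2 * GG := by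
    have h17 : ((K / L : ℕ) : ℝ) ≤ K / L := Nat.cast_div_le
    have h18 : GG * ((K / L : ℕ) : ℝ) ≤ GG * (K / L) := mul_le_mul_of_nonneg_left h17 hGG0
    have h19 : GG * ((K : ℝ) / L) ≤ c / 2 * (K * Real.log (2 * κ)) := by
      rw [← mul_div_assoc, div_le_iff₀ hL0]
      have hK0 : (0 : ℝ) ≤ K := Nat.cast_nonneg _
      have := mul_le_mul_of_nonneg_right hGL hK0
      linarith
    have h20 := mul_le_mul_of_nonneg_left hKC' (by positivity : 0 ≤ c / 2)
    linarith
  linarith

end Pool.Agent.QTr
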