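import Pool.Agent.QTx.Defs
import Pool.Agent.QTx.Targets

/-!
# Targets of the project QTr (everywhere locally soluble quadratic twists)
-/

open Polynomial NumberField
open Pool.Agent.QTw (IsFunctionField IsCovering HasPoint TwistSelNonempty TwistEverywhereLocal
  primesTo cfgs idealCount rootCount)
open Pool.Agent.QTx (GoodFactors2 Model Ty Rts mdl IsEnum PtData)

namespace Pool.Agent.QTr

/-! ## Part N: ideals of bounded norm -/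

/-- LAT: lattice points in the dilates of a set whose boundary is not too big. -/
def T_LAT : Prop := ∀ (E : Type) [NormedAddCommGroup E] [NormedSpace ℝ E]
  [FiniteDimensional ℝ E] [MeasurableSpace E] [BorelSpace E] (μ : MeasureTheory.Measure E)
  [μ.IsAddHaarMeasure] (L : Submodule ℤ E) [DiscreteTopology L] [IsZLattice ℝ L] (D : Set E),
  0 < Module.finrank ℝ E → Bornology.IsBounded D → MeasurableSet D →
  ∀ C₀ : ℝ, (∀ ε : ℝ, 0 < ε → ε ≤ 1 → (μ (Metric.cthickening ε (frontier D))).toReal ≤ C₀ * ε) →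
  ∃ C : ℝ, ∀ t : ℝ, 1 ≤ t →
    |(Nat.card ↑((fun x : E => t • x) '' D ∩ (L : Set E)) : ℝ) -
      t ^ (Module.finrank ℝ E) * (μ D).toReal / ZLattice.covolume L μ| ≤
      C * t ^ (Module.finrank ℝ E - 1)

/-- CUB: the image of the boundary of a cube under a Lipschitz map is covered by few balls. -/
def T_CUB : Prop := ∀ (ι : Type) [Fintype ι] (Φ : (ι → ℝ) → (ι → ℝ)) (Λ : ℝ),
  (∀ x ∈ Set.Icc (0 : ι → ℝ) 1, ∀ y ∈ Set.Icc (0 : ι → ℝ) 1, ‖Φ x - Φ y‖ ≤ Λ * ‖x - y‖) →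
  ∃ C : ℝ, ∀ ε : ℝ, 0 < ε → ε ≤ 1 → ∃ S : Finset (ι → ℝ),
    (S.card : ℝ) ≤ C * (1 / ε) ^ (Fintype.card ι - 1) ∧
    (∀ s ∈ S, ∃ x ∈ Set.Icc (0 : ι → ℝ) 1, s = Φ x) ∧
    ∀ x ∈ Set.Icc (0 : ι → ℝ) 1, (∃ i, x i = 0 ∨ x i = 1) → ∃ s ∈ S, ‖Φ x - s‖ ≤ ε

open Classical in
open NumberField.mixedEmbedding NumberField.mixedEmbedding.fundamentalCone in
/-- VOB: the volume of the set of points whose absolute values are near a given point. -/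
def T_VOB : Prop := ∀ (K : Type) [Field K] [NumberField K] (R : ℝ), ∃ C : ℝ,
  ∀ (c : realSpace K) (r : ℝ), ‖c‖ ≤ R → 0 < r → r ≤ R →
    (MeasureTheory.volume (normAtAllPlaces ⁻¹' (Metric.closedBall c r))).toReal ≤
      C * r ^ (Fintype.card (InfinitePlace K))

open NumberField.mixedEmbedding NumberField.mixedEmbedding.fundamentalCone in
/-- BDY: the boundary of `normLeOne K` in terms of a Lipschitz map. -/
def T_BDY : Prop := ∀ (K : Type) [Field K] [NumberField K],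
  ∃ (Φ : realSpace K → realSpace K) (Λ : ℝ),
    (∀ x ∈ Set.Icc (0 : realSpace K) 1, ∀ y ∈ Set.Icc (0 : realSpace K) 1,
      ‖Φ x - Φ y‖ ≤ Λ * ‖x - y‖) ∧
    frontier (normLeOne K) ⊆
      {z | ∃ x ∈ Set.Icc (0 : realSpace K) 1, (∃ w, x w = 0 ∨ x w = 1) ∧
        normAtAllPlaces z = Φ x}

open Classical in
open NumberField.mixedEmbedding NumberField.mixedEmbedding.fundamentalCone in
/-- FRN: the volume of a neighbourhood of the boundary. -/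
def T_FRN : Prop := ∀ (K : Type) [Field K] [NumberField K], ∃ C₀ : ℝ, ∀ ε : ℝ, 0 < ε → ε ≤ 1 →
  (MeasureTheory.volume (Metric.cthickening ε (frontier (normLeOne K)))).toReal ≤ C₀ * ε

/-- ICN: the number of ideals of norm at most `X`, with a power saving. -/
def T_ICN : Prop := ∀ (K : Type) [Field K] [NumberField K], ∃ κ C : ℝ, 0 < κ ∧
  ∀ X : ℕ, 1 ≤ X → |(∑ m ∈ Finset.Icc 1 X, (idealCount K m : ℝ)) - κ * X| ≤
    C * (X : ℝ) ^ (1 - (1 : ℝ) / Module.finrank ℚ K)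

/-- the number of prime ideals of norm `q` -/
noncomputable def primeCountK (K : Type) [Field K] [NumberField K] (q : ℕ) : ℕ :=
  Nat.card {P : Ideal (𝓞 K) // P.IsPrime ∧ P ≠ ⊥ ∧ Ideal.absNorm P = q}

open Classical in
/-- the von Mangoldt function of `K` -/
noncomputable def vK (K : Type) [Field K] [NumberField K] (m : ℕ) : ℝ :=
  ∑ q ∈ m.divisors.filter (fun q => ∃ k : ℕ, 0 < k ∧ q ^ k = m),
    (primeCountK K q : ℝ) * Real.log q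

/-- VMI: the convolution identity. -/
def T_VMI : Prop := ∀ (K : Type) [Field K] [NumberField K] (m : ℕ), 0 < m →
  (idealCount K m : ℝ) * Real.log m = ∑ d ∈ m.divisors, vK K d * idealCount K (m / d)

/-- VMB: Chebyshev type bounds. -/
def T_VMB : Prop := ∀ (K : Type) [Field K] [NumberField K], (∀ m, 0 ≤ vK K m) ∧ ∃ B : ℝ,
  ∀ X : ℕ, 1 ≤ X → ∑ d ∈ Finset.Icc 1 X, vK K d ≤ B * X ∧
    |∑ d ∈ Finset.Icc 1 X, vK K d / d -
      ∑ p ∈ (Finset.range (X + 1)).filter Nat.Prime, (idealCount K p : ℝ) * Real.log p / p| ≤ B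

/-- M1K: the first theorem of Mertens for prime ideals of degree one. -/
def T_M1K : Prop := ∀ (K : Type) [Field K] [NumberField K], ∃ B : ℝ, ∀ X : ℕ, 1 ≤ X →
  |∑ p ∈ (Finset.range (X + 1)).filter Nat.Prime, (idealCount K p : ℝ) * Real.log p / p -
    Real.log X| ≤ B

/-! ## Part F: primes modulo which a polynomial has a root -/

/-- HOM: embeddings into `ℚ_p` and ideals of norm `p`. -/
def T_HOM : Prop := ∀ (K : Type) [Field K] [NumberField K], ∃ N : ℕ, 0 < N ∧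
  ∀ (p : ℕ) [Fact p.Prime], ¬ p ∣ N → Nat.card (K →+* ℚ_[p]) = idealCount K p

/-- EXC: the number of embeddings of `M` that map `K` into `ℚ_p`. -/
def T_EXC : Prop := ∀ (M : Type) [Field M] [NumberField M] (K : IntermediateField ℚ M) (p : ℕ)
  [Fact p.Prime], Nat.card {j : M →+* PadicAlgCl p //
      ∀ z ∈ K, ∃ r : ℚ_[p], algebraMap ℚ_[p] (PadicAlgCl p) r = j z} * Module.finrank ℚ K =
    Module.finrank ℚ M * Nat.card (K →+* ℚ_[p])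

/-- RTJ: roots modulo `p` and roots in `M` that are mapped into `ℚ_p`. -/
def T_RTJ : Prop := ∀ (f : ℤ[X]) (M : Type) [Field M] [NumberField M], 0 < f.natDegree →
  Squarefree (f.map (Int.castRingHom ℚ)) → (f.map (algebraMap ℤ M)).Splits →
  ∃ N : ℕ, 0 < N ∧ ∀ (p : ℕ) [Fact p.Prime], ¬ p ∣ N → ∀ j : M →+* PadicAlgCl p,
    Nat.card {θ : M // aeval θ f = 0 ∧ ∃ r : ℚ_[p], algebraMap ℚ_[p] (PadicAlgCl p) r = j θ} =
      rootCount f p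

open Classical in
/-- FROB: the number of `k`-element sets of roots modulo `p`. -/
def T_FROB : Prop := ∀ f : ℤ[X], 0 < f.natDegree → Squarefree (f.map (Int.castRingHom ℚ)) →
  ∃ (M : Type) (_ : Field M) (_ : NumberField M) (N : ℕ), 0 < N ∧
    ∀ p : ℕ, p.Prime → ¬ p ∣ N → ∀ k : ℕ, ((rootCount f p).choose k : ℝ) =
      ∑ T ∈ (f.map (algebraMap ℤ M)).roots.toFinset.powersetCard k,
        (idealCount (IntermediateField.adjoin ℚ (T : Set M)) p : ℝ) /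
          Module.finrank ℚ (IntermediateField.adjoin ℚ (T : Set M))

open Classical in
/-- The primes with the property `P` have density `δ` in the sense of the first theorem of
Mertens. -/
def Mert (P : ℕ → Prop) (δ : ℝ) : Prop := ∃ B : ℝ, ∀ X : ℕ, 1 ≤ X →
  |∑ p ∈ (Finset.range (X + 1)).filter (fun p => p.Prime ∧ P p), Real.log p / p -
    δ * Real.log X| ≤ B

/-- DEN: the density of the primes modulo which `f` has a root. -/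
def T_DEN : Prop := ∀ f : ℤ[X], 0 < f.natDegree → Squarefree (f.map (Int.castRingHom ℚ)) →
  ∃ δ : ℝ, 0 < δ ∧ δ ≤ 1 ∧ Mert (fun p => 0 < rootCount f p) δ

/-- bounds for the sums of `1 / p` -/
noncomputable def LL (x y : ℕ) : ℝ := Real.log (Real.log x) - Real.log (Real.log y)

open Classical in
/-- PSM: partial summation. -/
def T_PSM : Prop := ∀ (P : ℕ → Prop) (δ : ℝ), Mert P δ → ∃ B : ℝ, ∀ x y : ℕ, 3 ≤ y → y ≤ x →
  |∑ p ∈ (Finset.range (x + 1)).filter (fun p => p.Prime ∧ P p ∧ y < p), 1 / (p : ℝ) -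
    δ * LL x y| ≤ B

/-! ## Part E: weights -/

/-- The average weight is smaller than `δ`, for every set of labels which is not one of the
exceptional sets `{i}`, `i ∈ Qd`. -/
def RelW {m n : ℕ} (M : Model m n) (N : ℕ) (δ : ℝ) (Qd : Finset (Fin m)) : Prop :=
  ∀ J : Finset (Fin m), J.Nonempty → (∀ i ∈ Qd, J ≠ {i}) → ∃ c : ℝ, 0 < c ∧ c ≤ δ ∧
    ∃ B : ℝ, ∀ x y : ℕ, 3 ≤ y → y ≤ x →
      ∑ p ∈ (primesTo N x).filter (fun p => y < p), M.Wm J p / p ≤ (δ - c) * LL x y + B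

/-- WREL: the average of the weights of the concrete model. -/
def T_WREL : Prop := ∀ (k : ℕ) (g : Fin (k + 1) → ℤ[X]) (f : ℤ[X]) (c : ℚ) (δ : ℝ),
  GoodFactors2 g → 6 ≤ ∑ i, (g i).natDegree → c ≠ 0 →
  f.map (Int.castRingHom ℚ) = C c * ∏ i, (g i).map (Int.castRingHom ℚ) → 0 < δ →
  Mert (fun p => 0 < rootCount f p) δ → ∃ N₀ : ℕ, 0 < N₀ ∧ ∀ (N n : ℕ)
    (P : Fin (k + 1) → ℕ → ℕ → ℤ[X]) (en : ℕ → Fin n → Fin (k + 1) × ℕ), 0 < N → N₀ ∣ N →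
    IsEnum (Rts g N) en →
    RelW (mdl g N P en) N δ (Finset.univ.filter (fun i => (g i).natDegree = 2))

/-- No quadratic field generated by a root of `f` is contained in `ℚ(b)` for all the roots `b`
of `f`. -/
def NonDeg (f : ℤ[X]) : Prop := ∀ a : ℂ, aeval a f = 0 → (minpoly ℚ a).natDegree = 2 →
  ∃ b : ℂ, aeval b f = 0 ∧ a ∉ IntermediateField.adjoin ℚ ({b} : Set ℂ)

/-- the primes modulo which `f = c ∏ g j` has a root, but `g i` has not -/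
def Gam {k : ℕ} (g : Fin (k + 1) → ℤ[X]) (N : ℕ) (i : Fin (k + 1)) (p : ℕ) : Prop :=
  (Rts g N p).Nonempty ∧ ∀ r ∈ Rts g N p, r.1 ≠ i

open Classical in
/-- GAM: there are many primes `p` modulo which `f` has a root, but the quadratic factor
`g i` has not. -/
def T_GAM : Prop := ∀ (k : ℕ) (g : Fin (k + 1) → ℤ[X]) (f : ℤ[X]) (c : ℚ) (i : Fin (k + 1)),
  GoodFactors2 g → c ≠ 0 →
  f.map (Int.castRingHom ℚ) = C c * ∏ i, (g i).map (Int.castRingHom ℚ) → NonDeg f →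
  (g i).natDegree = 2 → ∃ N₀ : ℕ, 0 < N₀ ∧ ∀ N : ℕ, 0 < N → N₀ ∣ N →
    ∃ γ : ℝ, 0 < γ ∧ ∃ B : ℝ, ∀ x y : ℕ, 3 ≤ y → y ≤ x →
      γ * LL x y - B ≤ ∑ p ∈ (primesTo N x).filter (fun p => y < p ∧ Gam g N i p), 1 / (p : ℝ)

/-! ## Part K: counting (abstract model) -/

/-- For every exceptional label `i` there is a large prime with the property `Γ i`. -/
def Typ {m : ℕ} (κ z t : ℕ) (Qd : Finset (Fin m)) (Γ : Fin m → ℕ → Prop) (s : Finset ℕ) : Prop :=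
  ∀ i ∈ Qd, ∃ p ∈ s, Γ i p ∧ z < p ∧ t ≤ Model.bk κ p

open Classical in
/-- TYPX: the configurations with a cancelling pair cancel, also with the additional
condition. -/
def T_TYPX : Prop := ∀ (m n κ : ℕ) (B₀ : ℝ), 1 ≤ κ → 0 ≤ B₀ → ∃ B : ℝ, 0 ≤ B ∧
  ∀ (M : Model m n) (a : ℕ → Fin n → Fin n → ℝ) (N z X t : ℕ) (Qd : Finset (Fin m))
    (Γ : Fin m → ℕ → Prop), 1 ≤ z → 1 ≤ X →
    M.Bounded → (∀ p j j', |a p j j'| ≤ 1) → M.Bil κ N B₀ →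
    |∑ c ∈ (cfgs (Ty n) N X).filter
        (fun c => M.Unb κ z c ∧ Typ κ z t Qd Γ (c.image Prod.fst)), M.W a z c| ≤
      B * X * (1 + Real.log X) ^ (Fintype.card (Ty n)) / (z : ℝ) ^ ((1 : ℝ) / 3)

open Classical in
/-- EXPO3: the exponent. -/
def T_EXPO3 : Prop := ∀ (m n κ : ℕ) (M : Model m n) (N : ℕ) (δ : ℝ) (Qd : Finset (Fin m)),
  1 ≤ κ → M.Bounded → 0 < δ → RelW M N δ Qd →
  ∃ (L : ℕ) (c B : ℝ), 1 ≤ L ∧ 0 < c ∧ c ≤ δ ∧
    ∀ (z X t : ℕ) (I : Finset (Fin m)) (b : Fin m → ℕ), 3 ≤ X →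
    Model.bk κ X ≤ t + Model.bk κ X / L → (∀ i ∈ Qd, ∃ i' ∈ I, i' ≠ i ∧ t ≤ b i') →
    ∑ p ∈ (Finset.range (X + 1)).filter Nat.Prime,
        (if p ∣ N then 0 else ∑ t, M.hh κ z I b p t) / p ≤
      n * (∑ p ∈ (Finset.range (z + 1)).filter Nat.Prime, 1 / (p : ℝ)) +
        (δ - c) * Real.log (Real.log X) + B

open Classical in
/-- BAL3: absolute bound for the typical configurations without cancelling pairs. -/
def T_BAL3 : Prop := ∀ (m n κ : ℕ) (M : Model m n) (N : ℕ) (δ : ℝ) (Qd : Finset (Fin m))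
  (Γ : Fin m → ℕ → Prop), 1 ≤ κ → M.Bounded → 0 < δ → RelW M N δ Qd →
  (∀ i ∈ Qd, ∀ p, Γ i p → ∀ j : Fin n, (j : ℕ) < M.rn p → M.lab p j ≠ i) →
  ∃ (L : ℕ) (c B : ℝ), 1 ≤ L ∧ 0 < c ∧ c ≤ δ ∧ 0 ≤ B ∧
    ∀ (a : ℕ → Fin n → Fin n → ℝ) (z X t : ℕ), 3 ≤ X → (∀ p j j', |a p j j'| ≤ 1) →
    Model.bk κ X ≤ t + Model.bk κ X / L →
    ∑ c ∈ (cfgs (Ty n) N X).filter
        (fun c => ¬ M.Unb κ z c ∧ Typ κ z t Qd Γ (c.image Prod.fst)), |M.W a z c| ≤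
      B * X * (Real.log X) ^ (δ - 1 - c) * ((Model.bk κ X : ℝ) + 1) ^ m *
        Real.exp (n * (∑ p ∈ (Finset.range (z + 1)).filter Nat.Prime, 1 / (p : ℝ)))

open Classical in
/-- ATYP: the numbers without a large prime factor with the property `Γ`. -/
def T_ATYP : Prop := ∀ (κ N L : ℕ) (δ γ B : ℝ) (A Γ : ℕ → Prop), 1 ≤ κ → 1 ≤ L → 0 < γ →
  (∀ x y : ℕ, 3 ≤ y → y ≤ x →
    ∑ p ∈ (primesTo N x).filter (fun p => y < p ∧ A p), 1 / (p : ℝ) ≤ δ * LL x y + B) →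
  (∀ p, Γ p → A p) →
  (∀ x y : ℕ, 3 ≤ y → y ≤ x →
    γ * LL x y - B ≤ ∑ p ∈ (primesTo N x).filter (fun p => y < p ∧ Γ p), 1 / (p : ℝ)) →
  ∃ c B' : ℝ, 0 < c ∧ 0 ≤ B' ∧ ∀ z X : ℕ, 3 ≤ X →
    Model.bk κ z < Model.bk κ X - Model.bk κ X / L →
    (((Finset.range (X + 1)).filter (fun k => Squarefree k ∧
      (∀ p ∈ k.primeFactors, ¬ p ∣ N → A p) ∧
      ¬ ∃ p ∈ k.primeFactors, Γ p ∧ z < p ∧
        Model.bk κ X - Model.bk κ X / L ≤ Model.bk κ p)).card : ℝ) ≤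
      B' * X * (Real.log X) ^ (δ - 1 - c)

open Classical in
/-- COUNT3: result of part K. -/
def T_COUNT3 : Prop := ∀ (m n κ : ℕ) (M : Model m n) (N h : ℕ) (B₀ δ : ℝ)
  (a : Fin h → ℕ → Fin n → Fin n → ℝ) (Qd : Finset (Fin m)) (Γ : Fin m → ℕ → Prop),
  1 ≤ κ → 0 < N → 0 ≤ B₀ → M.Bounded → (∀ η p j j', |a η p j j'| ≤ 1) → M.Bil κ N B₀ →
  0 < δ → RelW M N δ Qd →
  (∃ B : ℝ, ∀ x y : ℕ, 3 ≤ y → y ≤ x →
    ∑ p ∈ (primesTo N x).filter (fun p => y < p ∧ 0 < M.rn p), 1 / (p : ℝ) ≤ δ * LL x y + B) →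
  (∀ i ∈ Qd, ∀ p, Γ i p → 0 < M.rn p ∧ ∀ j : Fin n, (j : ℕ) < M.rn p → M.lab p j ≠ i) →
  (∀ i ∈ Qd, ∃ γ B : ℝ, 0 < γ ∧ ∀ x y : ℕ, 3 ≤ y → y ≤ x →
    γ * LL x y - B ≤ ∑ p ∈ (primesTo N x).filter (fun p => y < p ∧ Γ i p), 1 / (p : ℝ)) →
  ∃ c : ℝ, 0 < c ∧ ∃ B : ℝ, ∀ X : ℕ, 2 ≤ X →
    (((Finset.range (X + 1)).filter (fun k => Squarefree k ∧ ∃ η, M.Bad N (a η) k)).card : ℝ) ≤
      B * X * (Real.log X) ^ (δ - 1 - c)

/-! ## Part L: everywhere locally soluble twists -/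

/-- STP: the auxiliary polynomial of Stepanov. -/
def T_STP : Prop := ∀ (p m : ℕ) [Fact p.Prime], 0 < m → 16 * m ^ 2 + 14 * m + 2 < p →
  ∀ f : (ZMod p)[X], f.natDegree = m → f.eval 0 ≠ 0 → Squarefree f →
  ∀ a : ZMod p, (a = 1 ∨ a = -1) → ∃ P : (ZMod p)[X], P ≠ 0 ∧ P.natDegree < 4 * m * p ∧
    ∀ x : ZMod p, (f.eval x = 0 ∨ (f.eval x) ^ ((p - 1) / 2) = a) → (X - C x) ^ (4 * m) ∣ P

/-- WEI: points on `y² = u f(x)` over a large prime field. -/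
def T_WEI : Prop := ∀ m : ℕ, ∃ C₀ : ℕ, ∀ (p : ℕ) [Fact p.Prime], C₀ < p →
  ∀ f : (ZMod p)[X], Squarefree f → 0 < f.natDegree → f.natDegree ≤ m →
  ∀ u : ZMod p, u ≠ 0 → ∃ x y : ZMod p, y ≠ 0 ∧ f.eval x = u * y ^ 2

/-- PTG: transcendental points near a given `p`-adic point. -/
def T_PTG : Prop := ∀ (f : ℤ[X]) (d : ℤ) (p : ℕ) [Fact p.Prime] (x₀ y₀ : ℚ_[p]), d ≠ 0 →
  y₀ ≠ 0 → (d : ℚ_[p]) * y₀ ^ 2 = aeval x₀ f →
  ∃ ξ η : ℚ_[p], Transcendental ℚ ξ ∧ (d : ℚ_[p]) * η ^ 2 = aeval ξ f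

/-- PTGR: transcendental points near a given real point. -/
def T_PTGR : Prop := ∀ (f : ℤ[X]) (d : ℤ) (x₀ y₀ : ℝ), d ≠ 0 →
  y₀ ≠ 0 → (d : ℝ) * y₀ ^ 2 = aeval x₀ f →
  ∃ ξ η : ℝ, Transcendental ℚ ξ ∧ (d : ℝ) * η ^ 2 = aeval ξ f

/-- SQP: integers congruent to one are squares in `ℚ_p`. -/
def T_SQP : Prop := ∀ (p : ℕ) [Fact p.Prime] (m : ℤ), ((8 * p : ℕ) : ℤ) ∣ m - 1 →
  ∃ w : ℚ_[p], w ≠ 0 ∧ w ^ 2 = m

/-- UNP: points of the unit twists at good primes. -/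
def T_UNP : Prop := ∀ f : ℤ[X], 0 < f.natDegree → Squarefree (f.map (Int.castRingHom ℚ)) →
  ∃ N : ℕ, 0 < N ∧ ∀ (p : ℕ) [Fact p.Prime], ¬ p ∣ N → ∀ d : ℤ, ¬ (p : ℤ) ∣ d →
    ∃ x₀ y₀ : ℚ_[p], y₀ ≠ 0 ∧ (d : ℚ_[p]) * y₀ ^ 2 = aeval x₀ f

/-- RTP: roots modulo `p` lift to roots in `ℚ_p`. -/
def T_RTP : Prop := ∀ f : ℤ[X], 0 < f.natDegree → Squarefree (f.map (Int.castRingHom ℚ)) →
  ∃ N : ℕ, 0 < N ∧ ∀ (p : ℕ) [Fact p.Prime], ¬ p ∣ N → 0 < rootCount f p →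
    ∃ θ : ℚ_[p], aeval θ f = 0 ∧ aeval θ (derivative f) ≠ 0

/-- ELSC: a supply of everywhere locally soluble twists. -/
def T_ELSC : Prop := ∀ f : ℤ[X], 0 < f.natDegree → Squarefree (f.map (Int.castRingHom ℚ)) →
  ∃ (d₀ : ℤ) (N : ℕ), d₀ ≠ 0 ∧ 0 < N ∧ ∀ m : ℕ, Squarefree m → m % N = 1 % N →
    (∀ p ∈ m.primeFactors, 0 < rootCount f p) →
    Squarefree (d₀ * (m : ℤ)) ∧ TwistEverywhereLocal f (d₀ * m)

/-- ELSU: a necessary condition for local solubility. -/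
def T_ELSU : Prop := ∀ (n : ℕ) (g : Fin (n + 1) → ℤ[X]) (c : ℚ) (f : ℤ[X]), GoodFactors2 g →
  c ≠ 0 → f.map (Int.castRingHom ℚ) = C c * ∏ i, (g i).map (Int.castRingHom ℚ) →
  Even f.natDegree → ∃ N : ℕ, 0 < N ∧ ∀ d : ℤ, Squarefree d → TwistEverywhereLocal f d →
    ∀ p : ℕ, p.Prime → (p : ℤ) ∣ d → ¬ p ∣ N → 0 < rootCount f p

open Classical in
/-- CHA: Chebyshev's lower bound. -/
def T_CHA : Prop := ∀ (P : ℕ → Prop) (δ : ℝ), 0 < δ → Mert P δ →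
  ∃ c : ℝ, 0 < c ∧ ∃ X₀ : ℕ, ∀ X : ℕ, X₀ ≤ X →
    c * X ≤ ∑ p ∈ (Finset.range (X + 1)).filter (fun p => p.Prime ∧ P p), Real.log p

open Classical in
/-- the squarefree integers up to `X` composed of primes with the property `P` -/
noncomputable def SF (P : ℕ → Prop) (X : ℕ) : Finset ℕ :=
  (Finset.Icc 1 X).filter (fun m => Squarefree m ∧ ∀ p ∈ m.primeFactors, P p)

/-- TLO: lower bound for the sum of the reciprocals. -/
def T_TLO : Prop := ∀ (P : ℕ → Prop) (δ : ℝ), 0 < δ → Mert P δ →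
  ∃ c : ℝ, 0 < c ∧ ∃ X₀ : ℕ, ∀ X : ℕ, X₀ ≤ X →
    c * (Real.log X) ^ δ ≤ ∑ m ∈ SF P X, 1 / (m : ℝ)

/-- SLO: lower bound for the number. -/
def T_SLO : Prop := ∀ (P : ℕ → Prop) (δ : ℝ), 0 < δ → Mert P δ →
  ∃ c : ℝ, 0 < c ∧ ∃ X₀ : ℕ, ∀ X : ℕ, X₀ ≤ X →
    c * X * (Real.log X) ^ (δ - 1) ≤ ((SF P X).card : ℝ)

/-- RES: lower bound for the number in the residue class of one. -/
def T_RES : Prop := ∀ (P : ℕ → Prop) (δ : ℝ) (N : ℕ), 0 < δ → Mert P δ → 0 < N →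
  ∃ c : ℝ, 0 < c ∧ ∃ X₀ : ℕ, ∀ X : ℕ, X₀ ≤ X →
    c * X * (Real.log X) ^ (δ - 1) ≤ (((SF P X).filter (fun m => m % N = 1 % N)).card : ℝ)

end Pool.Agent.QTr
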