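import Mathlib
import Pool.Agent.QTr.Targets

set_option autoImplicit false

/-!
# FRN: the volume of a neighbourhood of the boundary of `normLeOne K`
-/

open NumberField

namespace Pool.Agent.QTr

namespace FRN_

open NumberField.mixedEmbedding NumberField.mixedEmbedding.fundamentalCone
open MeasureTheory
open scoped Classical

variable {K : Type} [Field K] [NumberField K]

theorem normAtPlace_le_norm (w : InfinitePlace K) (x : mixedSpace K) :
    normAtPlace w x ≤ ‖x‖ := by
  classical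
  rw [norm_eq_sup'_normAtPlace]
  exact Finset.le_sup' (fun w => normAtPlace w x) (Finset.mem_univ w)

theorem norm_le_of_place (x : mixedSpace K) (C : ℝ) (h : ∀ w, normAtPlace w x ≤ C) :
    ‖x‖ ≤ C := by
  classical
  rw [norm_eq_sup'_normAtPlace]
  exact Finset.sup'_le _ _ (fun w _ => h w)

theorem lip_aux (w : InfinitePlace K) (x y : mixedSpace K) :
    normAtPlace w x - normAtPlace w y ≤ ‖x - y‖ := by
  have h1 := normAtPlace_add_le w (x - y) y
  rw [sub_add_cancel] at h1
  have h2 := normAtPlace_le_norm w (x - y)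
  linarith

/-- the map `normAtAllPlaces` is 1-Lipschitz -/
theorem lip (x y : mixedSpace K) :
    ‖normAtAllPlaces x - normAtAllPlaces y‖ ≤ ‖x - y‖ := by
  rw [pi_norm_le_iff_of_nonneg (norm_nonneg _)]
  intro w
  rw [Real.norm_eq_abs, abs_le]
  have h1 := lip_aux w x y
  have h2 := lip_aux w y x
  rw [norm_sub_rev] at h2
  constructor
  · show -‖x - y‖ ≤ normAtPlace w x - normAtPlace w y
    linarith
  · exact h1

theorem bdd (c : realSpace K) (r : ℝ) :
    Bornology.IsBounded (normAtAllPlaces ⁻¹' (Metric.closedBall c r)) := by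
  refine isBounded_iff_forall_norm_le.mpr ⟨‖c‖ + r, fun x hx => ?_⟩
  apply norm_le_of_place
  intro w
  have hx' : ‖normAtAllPlaces x - c‖ ≤ r := by
    have := Metric.mem_closedBall.mp hx
    rwa [dist_eq_norm] at this
  have h1 : ‖(normAtAllPlaces x - c) w‖ ≤ ‖normAtAllPlaces x - c‖ := norm_le_pi_norm _ w
  have h2 : ‖c w‖ ≤ ‖c‖ := norm_le_pi_norm _ w
  have h3 : normAtPlace w x = (normAtAllPlaces x - c) w + c w := by
    show normAtPlace w x = (normAtPlace w x - c w) + c w
    ring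
  rw [h3]
  have h4 := le_abs_self ((normAtAllPlaces x - c) w)
  have h5 := le_abs_self (c w)
  rw [← Real.norm_eq_abs] at h4 h5
  linarith

end FRN_

open scoped Classical in
open NumberField.mixedEmbedding NumberField.mixedEmbedding.fundamentalCone in
theorem p_FRN (h1 : T_CUB) (h2 : T_VOB) (h3 : T_BDY) : T_FRN := by
  intro K _ _
  obtain ⟨Φ, Λ, hΦ, hfr⟩ := h3 K
  obtain ⟨C1, hC1⟩ := h1 (InfinitePlace K) Φ Λ hΦ
  obtain ⟨C2, hC2⟩ := h2 K (‖Φ 0‖ + |Λ| + 2)
  have hR : 0 < ‖Φ 0‖ + |Λ| + 2 := by positivity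
  obtain ⟨k, hk⟩ : ∃ k, Fintype.card (InfinitePlace K) = k + 1 :=
    Nat.exists_eq_succ_of_ne_zero (Fintype.card_pos).ne'
  have hC2nn : 0 ≤ C2 := by
    have h := hC2 0 (‖Φ 0‖ + |Λ| + 2) (by rw [norm_zero]; exact hR.le) hR le_rfl
    have h' : 0 ≤ C2 * (‖Φ 0‖ + |Λ| + 2) ^ (Fintype.card (InfinitePlace K)) :=
      le_trans ENNReal.toReal_nonneg h
    have h'' : 0 < (‖Φ 0‖ + |Λ| + 2) ^ (Fintype.card (InfinitePlace K)) := pow_pos hR _
    by_contra hneg
    push Not at hneg
    have := mul_neg_of_neg_of_pos hneg h''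
    linarith
  refine ⟨C1 * C2 * 2 ^ (k + 1), ?_⟩
  intro ε hε hε1
  obtain ⟨S, hScard, hSim, hScov⟩ := hC1 ε hε hε1
  have hcov : Metric.cthickening ε (frontier (normLeOne K)) ⊆
      ⋃ s ∈ S, normAtAllPlaces ⁻¹' (Metric.closedBall s (2 * ε)) := by
    rw [IsClosed.cthickening_eq_biUnion_closedBall isClosed_frontier hε.le]
    intro z' hz'
    simp only [Set.mem_iUnion, exists_prop] at hz' ⊢
    obtain ⟨z, hz, hzz⟩ := hz'
    obtain ⟨x, hx, hxb, hzx⟩ := hfr hz
    obtain ⟨s, hsS, hs⟩ := hScov x hx hxb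
    refine ⟨s, hsS, ?_⟩
    rw [Set.mem_preimage, Metric.mem_closedBall, dist_eq_norm]
    have e1 : normAtAllPlaces z' - s = (normAtAllPlaces z' - normAtAllPlaces z) + (Φ x - s) := by
      rw [hzx]
      abel
    rw [e1]
    have e2 := norm_add_le (normAtAllPlaces z' - normAtAllPlaces z) (Φ x - s)
    have e3 := FRN_.lip z' z
    have e4 : ‖z' - z‖ ≤ ε := by
      have := Metric.mem_closedBall.mp hzz
      rwa [dist_eq_norm] at this
    linarith
  have hfin : ∀ s ∈ S, MeasureTheory.volume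
      ((normAtAllPlaces : mixedSpace K → realSpace K) ⁻¹' (Metric.closedBall s (2 * ε))) ≠ ⊤ :=
    fun s _ => (FRN_.bdd s (2 * ε)).measure_lt_top.ne
  have hm1 : MeasureTheory.volume (Metric.cthickening ε (frontier (normLeOne K))) ≤
      ∑ s ∈ S, MeasureTheory.volume
        ((normAtAllPlaces : mixedSpace K → realSpace K) ⁻¹' (Metric.closedBall s (2 * ε))) :=
    le_trans (MeasureTheory.measure_mono hcov) (MeasureTheory.measure_biUnion_finset_le S _)
  have hm2 : (MeasureTheory.volume (Metric.cthickening ε (frontier (normLeOne K)))).toReal ≤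
      ∑ s ∈ S, (MeasureTheory.volume ((normAtAllPlaces : mixedSpace K → realSpace K) ⁻¹'
        (Metric.closedBall s (2 * ε)))).toReal := by
    rw [← ENNReal.toReal_sum hfin]
    exact ENNReal.toReal_mono (ENNReal.sum_ne_top.mpr hfin) hm1
  have hm3 : ∀ s ∈ S, (MeasureTheory.volume ((normAtAllPlaces : mixedSpace K → realSpace K) ⁻¹'
      (Metric.closedBall s (2 * ε)))).toReal ≤ C2 * (2 * ε) ^ (k + 1) := by
    intro s hs
    rw [← hk]
    apply hC2 s (2 * ε)
    · obtain ⟨x, hx, rfl⟩ := hSim s hs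
      have hx0 : ‖x - 0‖ ≤ 1 := by
        rw [sub_zero, pi_norm_le_iff_of_nonneg zero_le_one]
        intro w
        rw [Real.norm_eq_abs, abs_le]
        exact ⟨by linarith [hx.1 w, show (0 : realSpace K) w = 0 from rfl], hx.2 w⟩
      have h0 : (0 : realSpace K) ∈ Set.Icc (0 : realSpace K) 1 :=
        ⟨le_rfl, fun w => zero_le_one⟩
      have hl := hΦ x hx 0 h0
      have hl2 : Λ * ‖x - 0‖ ≤ |Λ| := by
        calc Λ * ‖x - 0‖ ≤ |Λ| * ‖x - 0‖ :=
              mul_le_mul_of_nonneg_right (le_abs_self Λ) (norm_nonneg _)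
          _ ≤ |Λ| * 1 := mul_le_mul_of_nonneg_left hx0 (abs_nonneg _)
          _ = |Λ| := mul_one _
      have e1 : Φ x = (Φ x - Φ 0) + Φ 0 := by abel
      have e2 := norm_add_le (Φ x - Φ 0) (Φ 0)
      rw [← e1] at e2
      linarith
    · linarith
    · have := norm_nonneg (Φ 0)
      have := abs_nonneg Λ
      linarith
  have hm4 : ∑ s ∈ S, (MeasureTheory.volume ((normAtAllPlaces : mixedSpace K → realSpace K) ⁻¹'
      (Metric.closedBall s (2 * ε)))).toReal ≤ (S.card : ℝ) * (C2 * (2 * ε) ^ (k + 1)) := by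
    have := Finset.sum_le_card_nsmul S _ _ hm3
    rwa [nsmul_eq_mul] at this
  have hnn : 0 ≤ C2 * (2 * ε) ^ (k + 1) := by positivity
  calc (MeasureTheory.volume (Metric.cthickening ε (frontier (normLeOne K)))).toReal
      ≤ (S.card : ℝ) * (C2 * (2 * ε) ^ (k + 1)) := le_trans hm2 hm4
    _ ≤ (C1 * (1 / ε) ^ (Fintype.card (InfinitePlace K) - 1)) * (C2 * (2 * ε) ^ (k + 1)) :=
        mul_le_mul_of_nonneg_right hScard hnn
    _ = C1 * C2 * 2 ^ (k + 1) * ε := by
        rw [hk, Nat.add_sub_cancel]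
        have : (1 / ε) ^ k * ε ^ k = 1 := by
          rw [← mul_pow, one_div, inv_mul_cancel₀ hε.ne', one_pow]
        calc C1 * (1 / ε) ^ k * (C2 * (2 * ε) ^ (k + 1))
            = C1 * C2 * 2 ^ (k + 1) * ε * ((1 / ε) ^ k * ε ^ k) := by ring
          _ = _ := by rw [this, mul_one]

end Pool.Agent.QTr
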