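import Pool.Agent.QTr.Targets
import Mathlib

/-!
# FROB: the number of `k`-element sets of roots modulo `p`
-/

open Polynomial NumberField
open Pool.Agent.QTw (idealCount rootCount)

namespace Pool.Agent.QTr

namespace FROB_

/-- the preimage of `ℚ_p` -/
noncomputable def pre {M : Type} [Field M] [NumberField M] {p : ℕ} [Fact p.Prime]
    (j : M →+* PadicAlgCl p) : IntermediateField ℚ M where
  carrier := {z | ∃ r : ℚ_[p], algebraMap ℚ_[p] (PadicAlgCl p) r = j z}
  mul_mem' := by
    rintro a b ⟨r, hr⟩ ⟨s, hs⟩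
    exact ⟨r * s, by rw [map_mul, hr, hs, map_mul]⟩
  add_mem' := by
    rintro a b ⟨r, hr⟩ ⟨s, hs⟩
    exact ⟨r + s, by rw [map_add, hr, hs, map_add]⟩
  algebraMap_mem' := by
    intro q
    refine ⟨(q : ℚ_[p]), ?_⟩
    simp
  inv_mem' := by
    rintro a ⟨r, hr⟩
    exact ⟨r⁻¹, by rw [map_inv₀, hr, map_inv₀]⟩

lemma mem_pre {M : Type} [Field M] [NumberField M] {p : ℕ} [Fact p.Prime]
    (j : M →+* PadicAlgCl p) (z : M) :
    z ∈ pre j ↔ ∃ r : ℚ_[p], algebraMap ℚ_[p] (PadicAlgCl p) r = j z := Iff.rfl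

lemma map_eq (f : ℤ[X]) (M : Type) [Field M] [Algebra ℚ M] :
    f.map (algebraMap ℤ M) = (f.map (Int.castRingHom ℚ)).map (algebraMap ℚ M) := by
  rw [Polynomial.map_map]
  congr 1
  exact RingHom.ext_int _ _

open Classical in
lemma main (f : ℤ[X]) (h2 : T_EXC) (M : Type) [Field M] [NumberField M]
    (hf0 : f.map (algebraMap ℤ M) ≠ 0)
    (N₁ : ℕ)
    (hN₁ : ∀ (p : ℕ) [Fact p.Prime], ¬ p ∣ N₁ → ∀ j : M →+* PadicAlgCl p,
      Nat.card {θ : M // aeval θ f = 0 ∧
        ∃ r : ℚ_[p], algebraMap ℚ_[p] (PadicAlgCl p) r = j θ} = rootCount f p)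
    (p : ℕ) [Fact p.Prime]
    (hNT : ∀ T : Finset M, T ⊆ (f.map (algebraMap ℤ M)).roots.toFinset →
      Nat.card ((IntermediateField.adjoin ℚ (T : Set M)) →+* ℚ_[p]) =
        idealCount (IntermediateField.adjoin ℚ (T : Set M)) p)
    (hp1 : ¬ p ∣ N₁) (k : ℕ) :
    ((rootCount f p).choose k : ℝ) =
      ∑ T ∈ (f.map (algebraMap ℤ M)).roots.toFinset.powersetCard k,
        (idealCount (IntermediateField.adjoin ℚ (T : Set M)) p : ℝ) /
          Module.finrank ℚ (IntermediateField.adjoin ℚ (T : Set M)) := by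
  set R := (f.map (algebraMap ℤ M)).roots.toFinset with hR
  have hMpos : (0 : ℝ) < Module.finrank ℚ M := by
    exact_mod_cast Module.finrank_pos
  -- sum over the embeddings
  have hj : ∀ j : M →+* PadicAlgCl p,
      ((R.powersetCard k).filter (fun T => ∀ θ ∈ T, θ ∈ pre j)).card =
        (rootCount f p).choose k := by
    intro j
    have e1 : ((R.powersetCard k).filter (fun T => ∀ θ ∈ T, θ ∈ pre j)) =
        (R.filter (fun θ => θ ∈ pre j)).powersetCard k := by
      ext T
      simp only [Finset.mem_filter, Finset.mem_powersetCard]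
      constructor
      · rintro ⟨⟨hT, hk⟩, h⟩
        refine ⟨fun θ hθ => ?_, hk⟩
        rw [Finset.mem_filter]
        exact ⟨hT hθ, h θ hθ⟩
      · rintro ⟨hT, hk⟩
        refine ⟨⟨fun θ hθ => ?_, hk⟩, fun θ hθ => ?_⟩
        · exact (Finset.mem_filter.1 (hT hθ)).1
        · exact (Finset.mem_filter.1 (hT hθ)).2
    rw [e1, Finset.card_powersetCard]
    congr 1
    rw [← hN₁ p hp1 j, ← Nat.card_eq_finsetCard]
    apply Nat.card_congr
    refine Equiv.subtypeEquivRight ?_
    intro θ
    simp only [Finset.mem_filter, hR, Multiset.mem_toFinset, mem_pre]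
    rw [Polynomial.mem_roots hf0, Polynomial.IsRoot.def, Polynomial.eval_map_algebraMap]
  have hsum : (Module.finrank ℚ M : ℝ) * ((rootCount f p).choose k : ℝ) =
      ∑ T ∈ R.powersetCard k,
        ((Finset.univ.filter (fun j : M →+* PadicAlgCl p => ∀ θ ∈ T, θ ∈ pre j)).card : ℝ) := by
    have e1 : ∑ j : M →+* PadicAlgCl p,
        ((((R.powersetCard k).filter (fun T => ∀ θ ∈ T, θ ∈ pre j)).card : ℕ) : ℝ) =
        (Module.finrank ℚ M : ℝ) * ((rootCount f p).choose k : ℝ) := by
      rw [Finset.sum_congr rfl (fun j _ => by rw [hj j])]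
      rw [Finset.sum_const, Finset.card_univ, NumberField.Embeddings.card, nsmul_eq_mul]
    rw [← e1]
    simp only [Finset.card_filter, Nat.cast_sum]
    rw [Finset.sum_comm]
  have hT : ∀ T ∈ R.powersetCard k,
      ((Finset.univ.filter (fun j : M →+* PadicAlgCl p => ∀ θ ∈ T, θ ∈ pre j)).card : ℝ) =
      (Module.finrank ℚ M : ℝ) * ((idealCount (IntermediateField.adjoin ℚ (T : Set M)) p : ℝ) /
          Module.finrank ℚ (IntermediateField.adjoin ℚ (T : Set M))) := by
    intro T hT
    rw [Finset.mem_powersetCard] at hT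
    have hfr : (0 : ℝ) < Module.finrank ℚ (IntermediateField.adjoin ℚ (T : Set M)) := by
      exact_mod_cast Module.finrank_pos
    have e2 := h2 M (IntermediateField.adjoin ℚ (T : Set M)) p
    rw [hNT T hT.1] at e2
    have e3 : Nat.card {j : M →+* PadicAlgCl p //
        ∀ z ∈ IntermediateField.adjoin ℚ (T : Set M),
          ∃ r : ℚ_[p], algebraMap ℚ_[p] (PadicAlgCl p) r = j z} =
        (Finset.univ.filter (fun j : M →+* PadicAlgCl p => ∀ θ ∈ T, θ ∈ pre j)).card := by
      rw [← Nat.card_eq_finsetCard]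
      apply Nat.card_congr
      refine Equiv.subtypeEquivRight ?_
      intro j
      simp only [Finset.mem_filter, Finset.mem_univ, true_and]
      constructor
      · intro h θ hθ
        exact h θ (IntermediateField.subset_adjoin ℚ _ (Finset.mem_coe.2 hθ))
      · intro h z hz
        have : IntermediateField.adjoin ℚ (T : Set M) ≤ pre j := by
          rw [IntermediateField.adjoin_le_iff]
          intro θ hθ
          exact h θ (Finset.mem_coe.1 hθ)
        exact this hz
    rw [e3] at e2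
    have e4 : ((Finset.univ.filter
        (fun j : M →+* PadicAlgCl p => ∀ θ ∈ T, θ ∈ pre j)).card : ℝ) *
        (Module.finrank ℚ (IntermediateField.adjoin ℚ (T : Set M)) : ℝ) =
        (Module.finrank ℚ M : ℝ) *
          (idealCount (IntermediateField.adjoin ℚ (T : Set M)) p : ℝ) := by
      exact_mod_cast e2
    rw [← mul_div_assoc, eq_div_iff hfr.ne']
    exact e4
  rw [Finset.sum_congr rfl hT, ← Finset.mul_sum] at hsum
  exact mul_left_cancel₀ hMpos.ne' hsum

end FROB_

theorem p_FROB (h1 : T_HOM) (h2 : T_EXC) (h3 : T_RTJ) : T_FROB := by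
  classical
  intro f hdeg hsq
  set F : ℚ[X] := f.map (Int.castRingHom ℚ) with hF
  have hf : f ≠ 0 := by
    rintro rfl
    simp at hdeg
  let M := F.SplittingField
  have : FiniteDimensional ℚ M := inferInstance
  have : CharZero M := charZero_of_injective_algebraMap (algebraMap ℚ M).injective
  have : NumberField M := {}
  have hmap : f.map (algebraMap ℤ M) = F.map (algebraMap ℚ M) := FROB_.map_eq f M
  have hf0 : f.map (algebraMap ℤ M) ≠ 0 := by
    rw [Ne, Polynomial.map_eq_zero_iff (RingHom.injective_int (algebraMap ℤ M))]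
    exact hf
  have hspl : (f.map (algebraMap ℤ M)).Splits := by
    rw [hmap]
    exact Polynomial.SplittingField.splits F
  obtain ⟨N₁, hN₁, hN₁'⟩ := h3 f M hdeg hsq hspl
  choose NT hNT hNT' using fun T : Finset M => h1 (IntermediateField.adjoin ℚ (T : Set M))
  refine ⟨M, inferInstance, inferInstance,
    N₁ * ∏ T ∈ (f.map (algebraMap ℤ M)).roots.toFinset.powerset, NT T, ?_, ?_⟩
  · exact Nat.mul_pos hN₁ (Finset.prod_pos fun T _ => hNT T)
  · intro p hp hpN k
    have : Fact p.Prime := ⟨hp⟩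
    refine FROB_.main f h2 M hf0 N₁ hN₁' p ?_ (fun h => hpN (h.mul_right _)) k
    intro T hT
    apply hNT' T p
    intro h
    apply hpN
    apply Dvd.dvd.mul_left
    exact h.trans (Finset.dvd_prod_of_mem _ (Finset.mem_powerset.2 hT))

end Pool.Agent.QTr
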