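import Pool.Agent.QTr.Targets
import Pool.Agent.QTr.FROB
import Pool.Agent.QTw.NUM
import Pool.Agent.QTw.DZ
import Pool.Agent.QTw.MUL
import Pool.Agent.QTw.PP
import Pool.Agent.QTw.MERT
import Pool.Agent.QTw.TAIL
import Pool.Agent.QTx.SPL2
import Mathlib

/-!
# GAM: primes modulo which `f` has a root, but the quadratic factor has not
-/

open Polynomial NumberField
open Pool.Agent.QTw (idealCount rootCount primesTo)
open Pool.Agent.QTx (GoodFactors2 Rts)

namespace Pool.Agent.QTr

namespace GAM_

open FROB_ (pre mem_pre)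

/-- two roots of a quadratic polynomial generate the same field -/
theorem quad_mem {K : Type} [Field K] [CharZero K] (q : ℤ[X]) (hq : q.natDegree = 2)
    (E : IntermediateField ℚ K) (x y : K) (hx : aeval x q = 0) (hy : aeval y q = 0)
    (hyE : y ∈ E) : x ∈ E := by
  have h3 : q.natDegree < 3 := by omega
  rw [aeval_eq_sum_range' h3] at hx hy
  simp only [Finset.sum_range_succ, Finset.sum_range_zero, zsmul_eq_mul] at hx hy
  have hA : q.coeff 2 ≠ 0 := by
    rw [← hq]
    exact leadingCoeff_ne_zero.2 (fun h => by rw [h, natDegree_zero] at hq; omega)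
  have hA' : ((q.coeff 2 : ℤ) : K) ≠ 0 := by exact_mod_cast hA
  have h : (x - y) * ((q.coeff 2 : K) * (x + y) + (q.coeff 1 : K)) = 0 := by
    linear_combination hx - hy
  rcases mul_eq_zero.1 h with h | h
  · rw [sub_eq_zero.1 h]
    exact hyE
  · have hx' : x = -((q.coeff 1 : K) / (q.coeff 2 : K)) - y := by
      field_simp
      linear_combination h
    rw [hx']
    exact sub_mem (neg_mem (div_mem (intCast_mem _ _) (intCast_mem _ _))) hyE

/-- the minimal polynomial of a root -/
theorem natDegree_minpoly {K : Type} [Field K] [CharZero K] (h : ℤ[X])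
    (hirr : Irreducible (h.map (Int.castRingHom ℚ))) (θ : K) (hθ : aeval θ h = 0) :
    (minpoly ℚ θ).natDegree = h.natDegree := by
  have h1 : aeval θ (h.map (Int.castRingHom ℚ)) = 0 := by
    have h2 := aeval_map_algebraMap ℚ θ h
    exact h2.trans hθ
  rw [← minpoly.eq_of_irreducible hirr h1]
  rw [natDegree_mul_C (inv_ne_zero (leadingCoeff_ne_zero.2 hirr.ne_zero))]
  exact natDegree_map_eq_of_injective (RingHom.injective_int _) h

/-- the generic independence -/
theorem not_mem {M : Type} [Field M] [NumberField M] (h q : ℤ[X]) (hq : q.natDegree = 2)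
    (hirr : Irreducible (h.map (Int.castRingHom ℚ))) (a b : ℂ) (ha : aeval a q = 0)
    (hb : aeval b h = 0) (hab : a ∉ IntermediateField.adjoin ℚ ({b} : Set ℂ)) (θ α : M)
    (hθ : aeval θ h = 0) (hα : aeval α q = 0) :
    α ∉ IntermediateField.adjoin ℚ ({θ} : Set M) := by
  intro hmem
  apply hab
  obtain ⟨σ, hσ⟩ : ∃ σ : M →ₐ[ℚ] ℂ, σ θ = b := by
    apply IntermediateField.exists_algHom_of_splits_of_aeval
    · intro s
      exact ⟨Algebra.IsIntegral.isIntegral s, IsAlgClosed.splits _⟩
    · have h1 : aeval θ (h.map (Int.castRingHom ℚ)) = 0 := by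
        have h2 := aeval_map_algebraMap ℚ θ h
        exact h2.trans hθ
      have h1' : aeval b (h.map (Int.castRingHom ℚ)) = 0 := by
        have h2 := aeval_map_algebraMap ℚ b h
        exact h2.trans hb
      rw [← minpoly.eq_of_irreducible hirr h1, map_mul, h1', zero_mul]
  have h2 : σ α ∈ IntermediateField.adjoin ℚ ({b} : Set ℂ) := by
    have h3 : σ α ∈ (IntermediateField.adjoin ℚ ({θ} : Set M)).map σ :=
      (IntermediateField.mem_map _).2 ⟨α, hmem, rfl⟩
    rw [IntermediateField.adjoin_map, Set.image_singleton, hσ] at h3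
    exact h3
  refine quad_mem q hq _ a (σ α) ha ?_ h2
  have h4 : aeval (σ.toIntAlgHom α) q = σ.toIntAlgHom (aeval α q) :=
    aeval_algHom_apply σ.toIntAlgHom α q
  have h5 : σ.toIntAlgHom α = σ α := rfl
  rw [h5] at h4
  rw [h4, hα, map_zero]

/-- the degree of the field generated by two roots -/
theorem two_mul_le {M : Type} [Field M] [NumberField M] (h : ℤ[X])
    (hirr : Irreducible (h.map (Int.castRingHom ℚ))) (θ α : M)
    (hθ : aeval θ h = 0)
    (hα : α ∉ IntermediateField.adjoin ℚ ({θ} : Set M)) :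
    2 * h.natDegree ≤ Module.finrank ℚ (IntermediateField.adjoin ℚ ({θ, α} : Set M)) := by
  have hle : IntermediateField.adjoin ℚ ({θ} : Set M) ≤
      IntermediateField.adjoin ℚ ({θ, α} : Set M) :=
    IntermediateField.adjoin.mono _ _ _ (by
      intro x hx
      exact Set.mem_insert_iff.2 (Or.inl (Set.mem_singleton_iff.1 hx)))
  have hd : Module.finrank ℚ (IntermediateField.adjoin ℚ ({θ} : Set M)) = h.natDegree := by
    rw [IntermediateField.adjoin.finrank (Algebra.IsIntegral.isIntegral θ)]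
    exact natDegree_minpoly h hirr θ hθ
  obtain ⟨k, hk⟩ := IntermediateField.finrank_dvd_of_le_right hle
  have hpos : 0 < Module.finrank ℚ (IntermediateField.adjoin ℚ ({θ, α} : Set M)) :=
    Module.finrank_pos
  have hk0 : k ≠ 0 := by
    rintro rfl
    omega
  have hk1 : k ≠ 1 := by
    rintro rfl
    rw [mul_one] at hk
    have h1 := IntermediateField.eq_of_le_of_finrank_eq hle hk.symm
    apply hα
    rw [h1]
    exact IntermediateField.subset_adjoin ℚ _ (by simp)
  rw [hk, hd, mul_comm]
  exact Nat.mul_le_mul_left _ (by omega)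

open Classical in
/-- the sum over the embeddings -/
theorem sum_count (h2 : T_EXC) (M : Type) [Field M] [NumberField M] (p : ℕ) [Fact p.Prime]
    (R : Finset M) (T : M → Set M)
    (hNT : ∀ t ∈ R, Nat.card ((IntermediateField.adjoin ℚ (T t)) →+* ℚ_[p]) =
        idealCount (IntermediateField.adjoin ℚ (T t)) p) :
    ∑ j : M →+* PadicAlgCl p, ((R.filter (fun t => ∀ θ ∈ T t, θ ∈ pre j)).card : ℝ) =
      (Module.finrank ℚ M : ℝ) * ∑ t ∈ R, (idealCount (IntermediateField.adjoin ℚ (T t)) p : ℝ) /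
        Module.finrank ℚ (IntermediateField.adjoin ℚ (T t)) := by
  have hT : ∀ t ∈ R,
      ((Finset.univ.filter (fun j : M →+* PadicAlgCl p => ∀ θ ∈ T t, θ ∈ pre j)).card : ℝ) =
      (Module.finrank ℚ M : ℝ) * ((idealCount (IntermediateField.adjoin ℚ (T t)) p : ℝ) /
          Module.finrank ℚ (IntermediateField.adjoin ℚ (T t))) := by
    intro t ht
    have hfr : (0 : ℝ) < Module.finrank ℚ (IntermediateField.adjoin ℚ (T t)) := by
      exact_mod_cast Module.finrank_pos
    have e2 := h2 M (IntermediateField.adjoin ℚ (T t)) p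
    rw [hNT t ht] at e2
    have e3 : Nat.card {j : M →+* PadicAlgCl p //
        ∀ z ∈ IntermediateField.adjoin ℚ (T t),
          ∃ r : ℚ_[p], algebraMap ℚ_[p] (PadicAlgCl p) r = j z} =
        (Finset.univ.filter (fun j : M →+* PadicAlgCl p => ∀ θ ∈ T t, θ ∈ pre j)).card := by
      rw [← Nat.card_eq_finsetCard]
      apply Nat.card_congr
      refine Equiv.subtypeEquivRight ?_
      intro j
      simp only [Finset.mem_filter, Finset.mem_univ, true_and]
      constructor
      · intro h θ hθ
        exact h θ (IntermediateField.subset_adjoin ℚ _ hθ)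
      · intro h z hz
        have : IntermediateField.adjoin ℚ (T t) ≤ pre j := by
          rw [IntermediateField.adjoin_le_iff]
          intro θ hθ
          exact h θ hθ
        exact this hz
    rw [e3] at e2
    have e4 : ((Finset.univ.filter
        (fun j : M →+* PadicAlgCl p => ∀ θ ∈ T t, θ ∈ pre j)).card : ℝ) *
        (Module.finrank ℚ (IntermediateField.adjoin ℚ (T t)) : ℝ) =
        (Module.finrank ℚ M : ℝ) *
          (idealCount (IntermediateField.adjoin ℚ (T t)) p : ℝ) := by
      exact_mod_cast e2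
    rw [← mul_div_assoc, eq_div_iff hfr.ne']
    exact e4
  rw [Finset.mul_sum, ← Finset.sum_congr rfl hT]
  simp only [Finset.card_filter, Nat.cast_sum]
  rw [Finset.sum_comm]

/-- Mertens' theorem for ideals of prime norm -/
theorem a_NUM : QTw.T_NUM :=
  QTw.p_NUM (QTw.p_DZ QTw.p_MUL QTw.p_PP) QTw.p_MERT QTw.p_TAIL QTw.p_PP

/-- the sum over an interval, without the divisors of `N` -/
theorem num_interval (K : Type) [Field K] [NumberField K] (N : ℕ) (hN : 0 < N) :
    ∃ B : ℝ, ∀ x y : ℕ, 3 ≤ y → y ≤ x →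
      |∑ p ∈ (primesTo N x).filter (fun p => y < p), (idealCount K p : ℝ) / p - LL x y| ≤ B := by
  obtain ⟨B, hB⟩ := a_NUM K
  refine ⟨2 * B + ∑ p ∈ N.primeFactors, (idealCount K p : ℝ) / p, ?_⟩
  intro x y hy hyx
  have h1 := hB x (hy.trans hyx)
  have h2 := hB y hy
  set S : ℕ → ℝ := fun X => ∑ p ∈ (Finset.range (X + 1)).filter Nat.Prime,
    (idealCount K p : ℝ) / p with hS
  have hsplit : S x - S y = ∑ p ∈ (primesTo N x).filter (fun p => y < p),
      (idealCount K p : ℝ) / p + ∑ p ∈ ((Finset.range (x + 1)).filter Nat.Prime).filter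
        (fun p => y < p ∧ p ∣ N), (idealCount K p : ℝ) / p := by
    have e1 : S x = ∑ p ∈ ((Finset.range (x + 1)).filter Nat.Prime).filter (fun p => ¬ y < p),
        (idealCount K p : ℝ) / p + ∑ p ∈ ((Finset.range (x + 1)).filter Nat.Prime).filter
          (fun p => y < p), (idealCount K p : ℝ) / p := by
      rw [add_comm, Finset.sum_filter_add_sum_filter_not]
    have e2 : ((Finset.range (x + 1)).filter Nat.Prime).filter (fun p => ¬ y < p) =
        (Finset.range (y + 1)).filter Nat.Prime := by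
      ext p
      simp only [Finset.mem_filter, Finset.mem_range]
      constructor
      · rintro ⟨⟨h1, h2⟩, h3⟩
        exact ⟨by omega, h2⟩
      · rintro ⟨h1, h2⟩
        exact ⟨⟨by omega, h2⟩, by omega⟩
    rw [e2] at e1
    rw [e1, add_sub_cancel_left]
    rw [← Finset.sum_filter_add_sum_filter_not (((Finset.range (x + 1)).filter
      Nat.Prime).filter (fun p => y < p)) (fun p => ¬ p ∣ N)]
    congr 1
    · apply Finset.sum_congr _ (fun _ _ => rfl)
      ext p
      simp only [Finset.mem_filter, Finset.mem_range, primesTo]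
      tauto
    · apply Finset.sum_congr _ (fun _ _ => rfl)
      ext p
      simp only [Finset.mem_filter, Finset.mem_range, not_not]
      tauto
  have h3 : 0 ≤ ∑ p ∈ ((Finset.range (x + 1)).filter Nat.Prime).filter
        (fun p => y < p ∧ p ∣ N), (idealCount K p : ℝ) / p :=
    Finset.sum_nonneg fun _ _ => by positivity
  have h4 : ∑ p ∈ ((Finset.range (x + 1)).filter Nat.Prime).filter
        (fun p => y < p ∧ p ∣ N), (idealCount K p : ℝ) / p ≤
      ∑ p ∈ N.primeFactors, (idealCount K p : ℝ) / p := by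
    apply Finset.sum_le_sum_of_subset_of_nonneg
    · intro p hp
      simp only [Finset.mem_filter, Finset.mem_range] at hp
      exact Nat.mem_primeFactors.2 ⟨hp.1.2, hp.2.2, hN.ne'⟩
    · intro _ _ _
      positivity
  have h5 : |S x - S y - LL x y| ≤ 2 * B := by
    rw [abs_le] at h1 h2 ⊢
    unfold LL
    constructor <;> linarith [h1.1, h1.2, h2.1, h2.2]
  rw [hsplit] at h5
  rw [abs_le] at h5 ⊢
  constructor <;> linarith [h5.1, h5.2]

theorem aux_div (r u v S : ℝ) (hr : 0 < r) (h : r * u - v ≤ r * S) : u - v / r ≤ S := by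
  have e : r * (u - v / r) = r * u - v := by field_simp
  rw [← e] at h
  exact le_of_mul_le_mul_left h hr

/-- values at the factors -/
theorem aeval_factor {K : Type} [Field K] [CharZero K] {k : ℕ} (g : Fin (k + 1) → ℤ[X])
    (f : ℤ[X]) (c : ℚ) (hf : f.map (Int.castRingHom ℚ) = C c * ∏ i, (g i).map (Int.castRingHom ℚ))
    (x : K) : aeval x f = (algebraMap ℚ K c) * ∏ i, aeval x (g i) := by
  have h1 := congrArg (aeval x) hf
  rw [map_mul, aeval_C, map_prod] at h1
  have h2 : ∀ q : ℤ[X], aeval x (q.map (Int.castRingHom ℚ)) = aeval x q :=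
    fun q => aeval_map_algebraMap ℚ x q
  rw [h2, Finset.prod_congr rfl (fun i _ => h2 (g i))] at h1
  exact h1

open Classical in
/-- the pointwise bound -/
theorem pointwise (h2 : T_EXC) (M : Type) [Field M] [NumberField M] (h q : ℤ[X])
    (hq : q.natDegree = 2) (hh : h ≠ 0) (α : M) (hα : aeval α q = 0)
    (p : ℕ) [Fact p.Prime]
    (hr : ∀ j : M →+* PadicAlgCl p,
      Nat.card {θ : M // aeval θ h = 0 ∧ ∃ r : ℚ_[p], algebraMap ℚ_[p] (PadicAlgCl p) r = j θ} =
        rootCount h p)
    (hs : ∀ j : M →+* PadicAlgCl p,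
      Nat.card {θ : M // aeval θ q = 0 ∧ ∃ r : ℚ_[p], algebraMap ℚ_[p] (PadicAlgCl p) r = j θ} =
        rootCount q p)
    (hA : ∀ θ ∈ (h.map (algebraMap ℤ M)).roots.toFinset,
      Nat.card ((IntermediateField.adjoin ℚ ({θ} : Set M)) →+* ℚ_[p]) =
        idealCount (IntermediateField.adjoin ℚ ({θ} : Set M)) p)
    (hB : ∀ θ ∈ (h.map (algebraMap ℤ M)).roots.toFinset,
      Nat.card ((IntermediateField.adjoin ℚ ({θ, α} : Set M)) →+* ℚ_[p]) =
        idealCount (IntermediateField.adjoin ℚ ({θ, α} : Set M)) p) :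
    (rootCount h p : ℝ) = ∑ θ ∈ (h.map (algebraMap ℤ M)).roots.toFinset,
      (idealCount (IntermediateField.adjoin ℚ ({θ} : Set M)) p : ℝ) /
        Module.finrank ℚ (IntermediateField.adjoin ℚ ({θ} : Set M)) ∧
    rootCount h p ≤ (h.map (algebraMap ℤ M)).roots.toFinset.card ∧
    (0 < rootCount q p →
      (rootCount h p : ℝ) ≤ ∑ θ ∈ (h.map (algebraMap ℤ M)).roots.toFinset,
        (idealCount (IntermediateField.adjoin ℚ ({θ, α} : Set M)) p : ℝ) /
          Module.finrank ℚ (IntermediateField.adjoin ℚ ({θ, α} : Set M))) := by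
  set R := (h.map (algebraMap ℤ M)).roots.toFinset with hR
  have hf0 : h.map (algebraMap ℤ M) ≠ 0 := by
    rw [Ne, Polynomial.map_eq_zero_iff (RingHom.injective_int (algebraMap ℤ M))]
    exact hh
  have hMpos : (0 : ℝ) < Module.finrank ℚ M := by
    exact_mod_cast Module.finrank_pos
  have hcard : ∀ j : M →+* PadicAlgCl p,
      (R.filter (fun θ => θ ∈ pre j)).card = rootCount h p := by
    intro j
    rw [← hr j, ← Nat.card_eq_finsetCard]
    apply Nat.card_congr
    refine Equiv.subtypeEquivRight ?_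
    intro θ
    simp only [Finset.mem_filter, hR, Multiset.mem_toFinset, mem_pre]
    rw [Polynomial.mem_roots hf0, Polynomial.IsRoot.def, Polynomial.eval_map_algebraMap]
  have hsumc : ∑ _j : M →+* PadicAlgCl p, (rootCount h p : ℝ) =
      (Module.finrank ℚ M : ℝ) * (rootCount h p : ℝ) := by
    rw [Finset.sum_const, Finset.card_univ, NumberField.Embeddings.card, nsmul_eq_mul]
  refine ⟨?_, ?_, ?_⟩
  · have e := sum_count h2 M p R (fun θ => {θ}) hA
    have e1 : ∀ j : M →+* PadicAlgCl p,
        ((R.filter (fun t => ∀ θ ∈ ({t} : Set M), θ ∈ pre j)).card : ℝ) =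
          (rootCount h p : ℝ) := by
      intro j
      rw [← hcard j]
      congr 2
      ext t
      simp
    rw [Finset.sum_congr rfl (fun j _ => e1 j), hsumc] at e
    exact mul_left_cancel₀ hMpos.ne' e
  · obtain ⟨j⟩ : Nonempty (M →+* PadicAlgCl p) := by
      rw [← Fintype.card_pos_iff, NumberField.Embeddings.card]
      exact Module.finrank_pos
    rw [← hcard j]
    exact Finset.card_filter_le _ _
  · intro hpos
    have e := sum_count h2 M p R (fun θ => {θ, α}) hB
    have hαj : ∀ j : M →+* PadicAlgCl p, α ∈ pre j := by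
      intro j
      have h5 := hs j
      have h6 : 0 < Nat.card {θ : M // aeval θ q = 0 ∧
          ∃ r : ℚ_[p], algebraMap ℚ_[p] (PadicAlgCl p) r = j θ} := by
        rw [h5]
        exact hpos
      obtain ⟨⟨β, hβ1, hβ2⟩⟩ := (Nat.card_pos_iff.1 h6).1
      exact quad_mem q hq (pre j) α β hα hβ1 ((mem_pre j β).2 hβ2)
    have e1 : ∀ j : M →+* PadicAlgCl p,
        ((R.filter (fun t => ∀ θ ∈ ({t, α} : Set M), θ ∈ pre j)).card : ℝ) =
          (rootCount h p : ℝ) := by
      intro j
      rw [← hcard j]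
      congr 2
      ext t
      simp only [Finset.mem_filter, Set.mem_insert_iff, Set.mem_singleton_iff, forall_eq_or_imp,
        forall_eq]
      exact ⟨fun h => ⟨h.1, h.2.1⟩, fun h => ⟨h.1, h.2, hαj j⟩⟩
    rw [Finset.sum_congr rfl (fun j _ => e1 j), hsumc] at e
    exact (mul_left_cancel₀ hMpos.ne' e).le

end GAM_

open GAM_ in
open Classical in
theorem p_GAM (h1 : T_HOM) (h2 : T_EXC) (h3 : T_RTJ) : T_GAM := by
  intro k g f c i hg hc hf hND hdeg2
  have hne : ∀ i, g i ≠ 0 := fun i h => by
    have := hg.deg i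
    rw [h, natDegree_zero] at this
    omega
  have hdeg : ∀ i, (g i).degree ≠ 0 := fun i => by
    have h5 := hg.deg i
    exact (natDegree_pos_iff_degree_pos.1 (by omega)).ne'
  obtain ⟨a, ha⟩ := IsAlgClosed.exists_aeval_eq_zero ℂ (g i) (hdeg i)
  have hfa : aeval a f = 0 := by
    rw [aeval_factor g f c hf a, Finset.prod_eq_zero (Finset.mem_univ i) ha, mul_zero]
  have hma : (minpoly ℚ a).natDegree = 2 := by
    rw [natDegree_minpoly (g i) (hg.irr i) a ha, hdeg2]
  obtain ⟨b, hb, hab⟩ := hND a hfa hma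
  obtain ⟨j, hbj⟩ : ∃ j, aeval b (g j) = 0 := by
    rw [aeval_factor g f c hf b] at hb
    rcases mul_eq_zero.1 hb with h | h
    · exact absurd ((map_eq_zero_iff _ (algebraMap ℚ ℂ).injective).1 h) hc
    · obtain ⟨j, _, hj⟩ := Finset.prod_eq_zero_iff.1 h
      exact ⟨j, hj⟩
  obtain ⟨M, iF, iN, hspl0⟩ := QTx.SPL2_.exists_field k g hg
  have hspl : ∀ i, ((g i).map (algebraMap ℤ M)).Splits := by
    intro i
    have e : algebraMap ℤ M = Int.castRingHom M := RingHom.ext_int _ _
    rw [e]
    exact hspl0 i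
  obtain ⟨α, hα⟩ : ∃ α : M, aeval α (g i) = 0 := by
    obtain ⟨α, hα⟩ := (hspl i).exists_eval_eq_zero (by
      rw [degree_map_eq_of_injective (RingHom.injective_int _)]
      exact hdeg i)
    exact ⟨α, by rwa [eval_map_algebraMap] at hα⟩
  obtain ⟨N₁, hN₁, hN₁'⟩ := h3 (g j) M (by have := hg.deg j; omega) (hg.irr j).squarefree (hspl j)
  obtain ⟨N₂, hN₂, hN₂'⟩ := h3 (g i) M (by have := hg.deg i; omega) (hg.irr i).squarefree (hspl i)
  choose NA hNA hNA' using fun θ : M => h1 (IntermediateField.adjoin ℚ ({θ} : Set M))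
  choose NB hNB hNB' using fun θ : M => h1 (IntermediateField.adjoin ℚ ({θ, α} : Set M))
  set R := ((g j).map (algebraMap ℤ M)).roots.toFinset with hR
  have hRroot : ∀ θ ∈ R, aeval θ (g j) = 0 := by
    intro θ hθ
    rw [hR, Multiset.mem_toFinset, mem_roots'] at hθ
    have := hθ.2
    rwa [IsRoot.def, eval_map_algebraMap] at this
  have hR0 : 0 < R.card := by
    rw [Finset.card_pos]
    obtain ⟨β, hβ⟩ := (hspl j).exists_eval_eq_zero (by
      rw [degree_map_eq_of_injective (RingHom.injective_int _)]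
      exact hdeg j)
    refine ⟨β, ?_⟩
    rw [hR, Multiset.mem_toFinset, mem_roots', IsRoot.def]
    refine ⟨?_, hβ⟩
    rw [Ne, Polynomial.map_eq_zero_iff (RingHom.injective_int (algebraMap ℤ M))]
    exact hne j
  refine ⟨N₁ * N₂ * ((∏ θ ∈ R, NA θ) * ∏ θ ∈ R, NB θ), ?_, ?_⟩
  · exact Nat.mul_pos (Nat.mul_pos hN₁ hN₂) (Nat.mul_pos (Finset.prod_pos fun θ _ => hNA θ)
      (Finset.prod_pos fun θ _ => hNB θ))
  intro N hN hN₀
  choose BA hBA using fun θ : M =>
    num_interval (IntermediateField.adjoin ℚ ({θ} : Set M)) N hN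
  choose BB hBB using fun θ : M =>
    num_interval (IntermediateField.adjoin ℚ ({θ, α} : Set M)) N hN
  set d : ℕ := (g j).natDegree with hd
  have hd2 : 2 ≤ d := hg.deg j
  have hd0 : (0 : ℝ) < d := by exact_mod_cast (by omega : 0 < d)
  have hRc : (0 : ℝ) < R.card := by exact_mod_cast hR0
  have hfrA : ∀ θ ∈ R, Module.finrank ℚ (IntermediateField.adjoin ℚ ({θ} : Set M)) = d := by
    intro θ hθ
    rw [IntermediateField.adjoin.finrank (Algebra.IsIntegral.isIntegral θ)]
    exact natDegree_minpoly (g j) (hg.irr j) θ (hRroot θ hθ)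
  have hfrB : ∀ θ ∈ R,
      2 * d ≤ Module.finrank ℚ (IntermediateField.adjoin ℚ ({θ, α} : Set M)) := by
    intro θ hθ
    exact two_mul_le (g j) (hg.irr j) θ α (hRroot θ hθ)
      (not_mem (g j) (g i) hdeg2 (hg.irr j) a b ha hbj hab θ α (hRroot θ hθ) hα)
  have key : ∀ p : ℕ, p.Prime → ¬ p ∣ N →
      ∑ θ ∈ R, ((idealCount (IntermediateField.adjoin ℚ ({θ} : Set M)) p : ℝ) / d -
        (idealCount (IntermediateField.adjoin ℚ ({θ, α} : Set M)) p : ℝ) / (2 * d)) ≤
      if Gam g N i p then (R.card : ℝ) else 0 := by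
    intro p hp hpN
    have : Fact p.Prime := ⟨hp⟩
    have hpN0 : ¬ p ∣ N₁ * N₂ * ((∏ θ ∈ R, NA θ) * ∏ θ ∈ R, NB θ) := fun h =>
      hpN (h.trans hN₀)
    have hp1 : ¬ p ∣ N₁ := fun h => hpN0 ((h.mul_right _).mul_right _)
    have hp2 : ¬ p ∣ N₂ := fun h => hpN0 ((h.mul_left _).mul_right _)
    have hpA : ∀ θ ∈ R, ¬ p ∣ NA θ := fun θ hθ h =>
      hpN0 (((h.trans (Finset.dvd_prod_of_mem _ hθ)).mul_right _).mul_left _)
    have hpB : ∀ θ ∈ R, ¬ p ∣ NB θ := fun θ hθ h =>
      hpN0 (((h.trans (Finset.dvd_prod_of_mem _ hθ)).mul_left _).mul_left _)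
    obtain ⟨k1, k2, k3⟩ := pointwise h2 M (g j) (g i) hdeg2 (hne j) α hα p
      (hN₁' p hp1) (hN₂' p hp2) (fun θ hθ => hNA' θ p (hpA θ hθ))
      (fun θ hθ => hNB' θ p (hpB θ hθ))
    rw [← hR] at k1 k2 k3
    have k1' : (rootCount (g j) p : ℝ) = ∑ θ ∈ R,
        (idealCount (IntermediateField.adjoin ℚ ({θ} : Set M)) p : ℝ) / d := by
      rw [k1]
      exact Finset.sum_congr rfl fun θ hθ => by rw [hfrA θ hθ]
    have k3' : 0 < rootCount (g i) p → (rootCount (g j) p : ℝ) ≤ ∑ θ ∈ R,
        (idealCount (IntermediateField.adjoin ℚ ({θ, α} : Set M)) p : ℝ) / (2 * d) := by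
      intro h
      refine (k3 h).trans (Finset.sum_le_sum fun θ hθ => ?_)
      have h7 : (2 * d : ℝ) ≤
          Module.finrank ℚ (IntermediateField.adjoin ℚ ({θ, α} : Set M)) := by
        exact_mod_cast hfrB θ hθ
      exact div_le_div_of_nonneg_left (by positivity) (by positivity) h7
    have hB0 : 0 ≤ ∑ θ ∈ R,
        (idealCount (IntermediateField.adjoin ℚ ({θ, α} : Set M)) p : ℝ) / (2 * d) :=
      Finset.sum_nonneg fun _ _ => by positivity
    rw [Finset.sum_sub_distrib, ← k1']
    have k2' : (rootCount (g j) p : ℝ) ≤ R.card := by exact_mod_cast k2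
    split_ifs with hG
    · linarith
    · by_cases hi : 0 < rootCount (g i) p
      · have := k3' hi
        linarith
      · by_cases hj : 0 < rootCount (g j) p
        · exfalso
          apply hG
          have hi0 : rootCount (g i) p = 0 := by omega
          unfold rootCount at hi0 hj
          rw [Finset.card_eq_zero] at hi0
          rw [Finset.card_pos] at hj
          refine ⟨?_, ?_⟩
          · obtain ⟨s, hs⟩ := hj
            rw [Finset.mem_filter] at hs
            refine ⟨(j, s), ?_⟩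
            rw [Rts, if_pos ⟨hp, hpN⟩, Finset.mem_filter, Finset.mem_product]
            exact ⟨⟨Finset.mem_univ _, hs.1⟩, hs.2⟩
          · intro r hr hri
            rw [Rts, if_pos ⟨hp, hpN⟩, Finset.mem_filter, Finset.mem_product] at hr
            have h8 : r.2 ∈ (Finset.range p).filter
                (fun a : ℕ => (p : ℤ) ∣ (g i).eval (a : ℤ)) := by
              rw [Finset.mem_filter]
              refine ⟨hr.1.2, ?_⟩
              rw [← hri]
              exact hr.2
            rw [hi0] at h8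
            exact absurd h8 (Finset.notMem_empty _)
        · have hj0 : rootCount (g j) p = 0 := by omega
          rw [hj0]
          push_cast
          linarith
  refine ⟨1 / (2 * d), by positivity,
    (∑ θ ∈ R, (BA θ / d + BB θ / (2 * d))) / R.card, ?_⟩
  intro x y hy hyx
  have hsum : ∑ p ∈ (primesTo N x).filter (fun p => y < p),
      (∑ θ ∈ R, ((idealCount (IntermediateField.adjoin ℚ ({θ} : Set M)) p : ℝ) / d -
        (idealCount (IntermediateField.adjoin ℚ ({θ, α} : Set M)) p : ℝ) / (2 * d))) / p ≤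
      R.card * ∑ p ∈ (primesTo N x).filter (fun p => y < p ∧ Gam g N i p), 1 / (p : ℝ) := by
    have e1 : ∑ p ∈ (primesTo N x).filter (fun p => y < p ∧ Gam g N i p), 1 / (p : ℝ) =
        ∑ p ∈ (primesTo N x).filter (fun p => y < p), if Gam g N i p then 1 / (p : ℝ) else 0 := by
      rw [← Finset.filter_filter, Finset.sum_filter (s := (primesTo N x).filter (fun p => y < p))]
    rw [e1, Finset.mul_sum]
    refine Finset.sum_le_sum fun p hp => ?_
    rw [Finset.mem_filter, primesTo, Finset.mem_filter] at hp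
    have hk := key p hp.1.2.1 hp.1.2.2
    have hp0 : (0 : ℝ) < p := by exact_mod_cast hp.1.2.1.pos
    rw [div_le_iff₀ hp0]
    refine hk.trans (le_of_eq ?_)
    split_ifs
    · field_simp
    · ring
  have hlow : R.card * (1 / (2 * d) * LL x y) - ∑ θ ∈ R, (BA θ / d + BB θ / (2 * d)) ≤
      ∑ p ∈ (primesTo N x).filter (fun p => y < p),
      (∑ θ ∈ R, ((idealCount (IntermediateField.adjoin ℚ ({θ} : Set M)) p : ℝ) / d -
        (idealCount (IntermediateField.adjoin ℚ ({θ, α} : Set M)) p : ℝ) / (2 * d))) / p := by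
    have e2 : ∑ p ∈ (primesTo N x).filter (fun p => y < p),
      (∑ θ ∈ R, ((idealCount (IntermediateField.adjoin ℚ ({θ} : Set M)) p : ℝ) / d -
        (idealCount (IntermediateField.adjoin ℚ ({θ, α} : Set M)) p : ℝ) / (2 * d))) / p =
      ∑ θ ∈ R, ((∑ p ∈ (primesTo N x).filter (fun p => y < p),
        (idealCount (IntermediateField.adjoin ℚ ({θ} : Set M)) p : ℝ) / p) / d -
        (∑ p ∈ (primesTo N x).filter (fun p => y < p),
        (idealCount (IntermediateField.adjoin ℚ ({θ, α} : Set M)) p : ℝ) / p) / (2 * d)) := by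
      simp only [Finset.sum_div]
      rw [Finset.sum_comm]
      refine Finset.sum_congr rfl fun θ _ => ?_
      rw [← Finset.sum_sub_distrib]
      refine Finset.sum_congr rfl fun p _ => ?_
      ring
    rw [e2]
    have e3 : (R.card : ℝ) * (1 / (2 * d) * LL x y) - ∑ θ ∈ R, (BA θ / d + BB θ / (2 * d)) =
        ∑ θ ∈ R, ((LL x y - BA θ) / d - (LL x y + BB θ) / (2 * d)) := by
      rw [← nsmul_eq_mul, ← Finset.sum_const, ← Finset.sum_sub_distrib]
      refine Finset.sum_congr rfl fun θ _ => ?_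
      field_simp
      ring
    rw [e3]
    refine Finset.sum_le_sum fun θ _ => ?_
    have hA := abs_le.1 (hBA θ x y hy hyx)
    have hB := abs_le.1 (hBB θ x y hy hyx)
    apply sub_le_sub
    · apply div_le_div_of_nonneg_right _ hd0.le
      linarith [hA.1]
    · apply div_le_div_of_nonneg_right _ (by positivity)
      linarith [hB.2]
  have hfin := hlow.trans hsum
  exact aux_div _ _ _ _ hRc hfin

end Pool.Agent.QTr
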