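import Mathlib
import Pool.Agent.QTr.Targets

/-!
# ICN: the number of ideals of norm at most `X`, with a power saving
-/

set_option autoImplicit false

open Polynomial NumberField

namespace Pool.Agent.QTr

namespace ICN_

open Ideal Filter InfinitePlace mixedEmbedding fundamentalCone Submodule Topology NumberField.Units
open Pool.Agent.QTw (idealCount)
open scoped nonZeroDivisors Real

variable (K : Type) [Field K] [NumberField K]

theorem aux₁ {C : ClassGroup (𝓞 K)} {J : (Ideal (𝓞 K))⁰} {s : ℝ}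
    (hJ : ClassGroup.mk0 J = C⁻¹) :
    Nat.card {I : (Ideal (𝓞 K))⁰ // absNorm (I : Ideal (𝓞 K)) ≤ s ∧ ClassGroup.mk0 I = C}
      = Nat.card {I : (Ideal (𝓞 K))⁰ // (J : Ideal (𝓞 K)) ∣ I ∧ IsPrincipal (I : Ideal (𝓞 K)) ∧
        absNorm (I : Ideal (𝓞 K)) ≤ s * absNorm (J : Ideal (𝓞 K))} := by
  simp_rw [← nonZeroDivisors_dvd_iff_dvd_coe]
  refine Nat.card_congr ?_
  refine ((Equiv.dvd J).subtypeEquiv fun I ↦ ?_).trans
    (Equiv.subtypeSubtypeEquivSubtypeInter (fun I : (Ideal (𝓞 K))⁰ ↦ J ∣ I) _)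
  rw [← ClassGroup.mk0_eq_one_iff (SetLike.coe_mem _)]
  simp_rw [Equiv.dvd_apply, Submonoid.coe_mul, ← Submonoid.mul_def, _root_.map_mul, hJ,
    inv_mul_eq_one, Nat.cast_mul, mul_comm s, eq_comm, and_comm, and_congr_left_iff]
  exact fun _ ↦
    (mul_le_mul_iff_of_pos_left (Nat.cast_pos.mpr (absNorm_pos_of_nonZeroDivisors J))).symm

theorem cone_card (J : (Ideal (𝓞 K))⁰) {t : ℝ} (ht : 0 < t) :
    Nat.card ↑((fun x : mixedSpace K => t • x) '' (normLeOne K) ∩
      (mixedEmbedding.idealLattice K (FractionalIdeal.mk0 K J) : Set (mixedSpace K))) =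
    Nat.card {a : idealSet K J //
      mixedEmbedding.norm (a : mixedSpace K) ≤ t ^ Module.finrank ℚ K} := by
  refine Nat.card_congr ?_
  refine Equiv.trans ?_ (Equiv.subtypeSubtypeEquivSubtypeInter (fun x => x ∈ idealSet K J)
    (fun x : mixedSpace K => mixedEmbedding.norm x ≤ t ^ Module.finrank ℚ K)).symm
  refine Equiv.subtypeEquivRight fun x => ?_
  have htn : 0 < t ^ Module.finrank ℚ K := pow_pos ht _
  have h1 : x ∈ (fun x : mixedSpace K => t • x) '' (normLeOne K) ↔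
      x ∈ fundamentalCone K ∧ mixedEmbedding.norm x ≤ t ^ Module.finrank ℚ K := by
    constructor
    · rintro ⟨y, hy, rfl⟩
      rw [mem_normLeOne] at hy
      refine ⟨(smul_mem_iff_mem ht.ne').2 hy.1, ?_⟩
      simp only [mixedEmbedding.norm_smul, abs_of_pos ht]
      nlinarith [hy.2]
    · rintro ⟨h2, h3⟩
      refine ⟨t⁻¹ • x, ?_, ?_⟩
      · rw [mem_normLeOne]
        refine ⟨(smul_mem_iff_mem (inv_ne_zero ht.ne')).2 h2, ?_⟩
        rw [mixedEmbedding.norm_smul, abs_of_pos (inv_pos.2 ht), inv_pow]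
        rw [inv_mul_le_iff₀ htn, mul_one]
        exact h3
      · simp only [smul_inv_smul₀ ht.ne']
  show x ∈ _ ∩ _ ↔ _
  rw [Set.mem_inter_iff, h1]
  show _ ↔ x ∈ fundamentalCone K ∩ _ ∧ _
  rw [Set.mem_inter_iff]
  tauto

/-- the count in a class -/
theorem class_count (C : ClassGroup (𝓞 K)) (J : (Ideal (𝓞 K))⁰)
    (hJ : ClassGroup.mk0 J = C⁻¹) {s : ℝ} (hs : 1 ≤ s) :
    (Nat.card {I : (Ideal (𝓞 K))⁰ // absNorm (I : Ideal (𝓞 K)) ≤ s ∧ ClassGroup.mk0 I = C} : ℝ) =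
      (Nat.card ↑((fun x : mixedSpace K =>
          ((s * absNorm (J : Ideal (𝓞 K))) ^ ((1 : ℝ) / Module.finrank ℚ K)) • x) '' (normLeOne K) ∩
        (mixedEmbedding.idealLattice K (FractionalIdeal.mk0 K J) : Set (mixedSpace K))) : ℝ) /
        torsionOrder K := by
  have hN : (1 : ℝ) ≤ absNorm (J : Ideal (𝓞 K)) := by
    exact_mod_cast absNorm_pos_of_nonZeroDivisors J
  have hsN : 0 < s * absNorm (J : Ideal (𝓞 K)) := by positivity
  have hn : (Module.finrank ℚ K : ℝ) ≠ 0 := by exact_mod_cast (Module.finrank_pos).ne'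
  have ht : 0 < (s * absNorm (J : Ideal (𝓞 K))) ^ ((1 : ℝ) / Module.finrank ℚ K) :=
    Real.rpow_pos_of_pos hsN _
  rw [cone_card K J ht]
  have e : ((s * absNorm (J : Ideal (𝓞 K))) ^ ((1 : ℝ) / Module.finrank ℚ K)) ^
      Module.finrank ℚ K = s * absNorm (J : Ideal (𝓞 K)) := by
    rw [← Real.rpow_natCast, ← Real.rpow_mul hsN.le, one_div_mul_cancel hn, Real.rpow_one]
  rw [e, ← card_isPrincipal_dvd_norm_le, aux₁ K hJ, Nat.cast_mul]
  have : (torsionOrder K : ℝ) ≠ 0 := by exact_mod_cast torsionOrder_ne_zero K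
  field_simp

theorem sum_class {s : ℝ} (hs : 0 ≤ s) :
    (Nat.card {I : (Ideal (𝓞 K))⁰ // absNorm (I : Ideal (𝓞 K)) ≤ s} : ℝ) =
      ∑ C : ClassGroup (𝓞 K),
        (Nat.card {I : (Ideal (𝓞 K))⁰ //
          absNorm (I : Ideal (𝓞 K)) ≤ s ∧ ClassGroup.mk0 I = C} : ℝ) := by
  classical
  have : Fintype {I : (Ideal (𝓞 K))⁰ // absNorm (I : Ideal (𝓞 K)) ≤ s} := by
    simp_rw [← Nat.le_floor_iff hs]
    refine @Fintype.ofFinite _ (finite_setOfPred_absNorm_le₀ ⌊s⌋₊)
  let e := fun C : ClassGroup (𝓞 K) ↦ Equiv.subtypeSubtypeEquivSubtypeInter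
    (fun I : (Ideal (𝓞 K))⁰ ↦ absNorm I.1 ≤ s) (fun I ↦ ClassGroup.mk0 I = C)
  simp_rw [← Nat.card_congr (e _), Nat.card_eq_fintype_card, Fintype.subtype_card]
  rw [Fintype.card, Finset.card_eq_sum_card_fiberwise (f := fun I ↦ ClassGroup.mk0 I.1)
    (t := Finset.univ) (fun _ _ ↦ Finset.mem_univ _), Nat.cast_sum]

theorem sum_idealCount (X : ℕ) :
    ∑ m ∈ Finset.Icc 1 X, idealCount K m =
      Nat.card {I : (Ideal (𝓞 K))⁰ // absNorm (I : Ideal (𝓞 K)) ≤ X} := by
  classical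
  have hfin : ∀ m : Finset.Icc 1 X, Finite {I : Ideal (𝓞 K) // absNorm I = m} := fun m =>
    finite_setOfPred_absNorm_eq _
  let e : {I : (Ideal (𝓞 K))⁰ // absNorm (I : Ideal (𝓞 K)) ≤ X} ≃
      Σ m : Finset.Icc 1 X, {I : Ideal (𝓞 K) // absNorm I = m} :=
    { toFun := fun I => ⟨⟨absNorm (I.1 : Ideal (𝓞 K)), Finset.mem_Icc.2
          ⟨absNorm_pos_of_nonZeroDivisors I.1, I.2⟩⟩, ⟨I.1, rfl⟩⟩
      invFun := fun x => ⟨⟨x.2.1, by
        rw [mem_nonZeroDivisors_iff_ne_zero]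
        intro h
        have h1 := x.2.2
        rw [h, Ideal.zero_eq_bot, absNorm_bot] at h1
        have h2 := (Finset.mem_Icc.1 x.1.2).1
        omega⟩, by
          have h1 : absNorm x.2.1 = x.1.1 := x.2.2
          show absNorm x.2.1 ≤ X
          rw [h1]
          exact (Finset.mem_Icc.1 x.1.2).2⟩
      left_inv := fun I => by
        apply Subtype.ext
        apply Subtype.ext
        rfl
      right_inv := fun x => by
        obtain ⟨⟨m, hm⟩, ⟨I, hI⟩⟩ := x
        have hI' : absNorm I = m := hI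
        subst hI'
        rfl }
  rw [Nat.card_congr e, Nat.card_sigma]
  rw [← Finset.sum_coe_sort]
  rfl

end ICN_

open ICN_ in
open NumberField.mixedEmbedding NumberField.mixedEmbedding.fundamentalCone NumberField.Units in
/-- ICN -/
theorem p_ICN (h1 : T_LAT) (h2 : T_FRN) : T_ICN := by
  classical
  intro K _ _
  set n := Module.finrank ℚ K with hn
  have hnpos : 0 < n := Module.finrank_pos
  have hfin : Module.finrank ℝ (mixedSpace K) = n := mixedEmbedding.finrank K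
  obtain ⟨C₀, hC₀⟩ := h2 K
  have key : ∀ C : ClassGroup (𝓞 K), ∃ κ B : ℝ, 0 < κ ∧ ∀ s : ℝ, 1 ≤ s →
      |(Nat.card {I : (nonZeroDivisors (Ideal (𝓞 K))) //
        Ideal.absNorm (I : Ideal (𝓞 K)) ≤ s ∧ ClassGroup.mk0 I = C} : ℝ) - κ * s| ≤
        B * s ^ (1 - (1 : ℝ) / n) := by
    intro C
    obtain ⟨J, hJ⟩ := ClassGroup.mk0_surjective C⁻¹
    obtain ⟨B, hB⟩ := h1 (mixedSpace K) MeasureTheory.volume
      (mixedEmbedding.idealLattice K (FractionalIdeal.mk0 K J)) (normLeOne K)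
      (by rw [hfin]; exact hnpos) (isBounded_normLeOne K) (measurableSet_normLeOne K) C₀ hC₀
    have hN : (1 : ℝ) ≤ Ideal.absNorm (J : Ideal (𝓞 K)) := by
      exact_mod_cast Ideal.absNorm_pos_of_nonZeroDivisors J
    set N : ℝ := ((Ideal.absNorm (J : Ideal (𝓞 K)) : ℕ) : ℝ) with hNdef
    set V : ℝ := (MeasureTheory.volume (normLeOne K)).toReal with hV
    set W : ℝ := ZLattice.covolume (mixedEmbedding.idealLattice K (FractionalIdeal.mk0 K J))
      MeasureTheory.volume with hW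
    have hVpos : 0 < V := by
      rw [hV, volume_normLeOne, ENNReal.toReal_mul, ENNReal.toReal_mul, ENNReal.toReal_pow,
        ENNReal.toReal_pow, ENNReal.toReal_ofNat, ENNReal.coe_toReal, NNReal.coe_real_pi,
        ENNReal.toReal_ofReal (regulator_pos K).le]
      have := regulator_pos K
      positivity
    have hWpos : 0 < W := ZLattice.covolume_pos _ _
    have hτ : (0 : ℝ) < torsionOrder K := by
      exact_mod_cast Nat.pos_of_ne_zero (torsionOrder_ne_zero K)
    refine ⟨N * V / W / torsionOrder K, B * N ^ (1 - (1 : ℝ) / n) / torsionOrder K,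
      by positivity, fun s hs => ?_⟩
    rw [class_count K C J hJ hs]
    have hs0 : 0 < s := by linarith
    have hsN : 1 ≤ s * N := by nlinarith
    have ht1 : 1 ≤ (s * N) ^ ((1 : ℝ) / n) := Real.one_le_rpow hsN (by positivity)
    have h3 := hB ((s * N) ^ ((1 : ℝ) / n)) ht1
    have hn0 : (n : ℝ) ≠ 0 := by exact_mod_cast hnpos.ne'
    have e1 : ((s * N) ^ ((1 : ℝ) / n)) ^ n = s * N := by
      rw [← Real.rpow_natCast, ← Real.rpow_mul (by linarith), one_div_mul_cancel hn0,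
        Real.rpow_one]
    have e2 : ((s * N) ^ ((1 : ℝ) / n)) ^ (n - 1) =
        s ^ (1 - (1 : ℝ) / n) * N ^ (1 - (1 : ℝ) / n) := by
      rw [← Real.rpow_natCast, ← Real.rpow_mul (by linarith),
        ← Real.mul_rpow hs0.le (by linarith)]
      congr 1
      rw [Nat.cast_sub hnpos]
      field_simp
      push_cast
      ring
    rw [hfin, e1, e2] at h3
    have e3 : N * V / W / torsionOrder K * s = (s * N * V / W) / torsionOrder K := by
      field_simp
    have e4 : B * N ^ (1 - (1 : ℝ) / n) / torsionOrder K * s ^ (1 - (1 : ℝ) / n) =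
        B * (s ^ (1 - (1 : ℝ) / n) * N ^ (1 - (1 : ℝ) / n)) / torsionOrder K := by
      field_simp
    rw [e3, e4, ← sub_div, abs_div, abs_of_pos hτ]
    exact div_le_div_of_nonneg_right h3 hτ.le
  choose κ B hκ hB using key
  refine ⟨∑ C, κ C, ∑ C, B C, ?_, ?_⟩
  · have : Nonempty (ClassGroup (𝓞 K)) := ⟨1⟩
    exact Finset.sum_pos (fun C _ => hκ C) Finset.univ_nonempty
  · intro X hX
    have hX1 : (1 : ℝ) ≤ X := by exact_mod_cast hX
    have h3 : (∑ m ∈ Finset.Icc 1 X, (Pool.Agent.QTw.idealCount K m : ℝ)) =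
        ∑ C : ClassGroup (𝓞 K), (Nat.card {I : (nonZeroDivisors (Ideal (𝓞 K))) //
          Ideal.absNorm (I : Ideal (𝓞 K)) ≤ (X : ℝ) ∧ ClassGroup.mk0 I = C} : ℝ) := by
      rw [← sum_class K (by linarith), ← Nat.cast_sum, sum_idealCount K X]
      simp only [Nat.cast_le]
    rw [h3, Finset.sum_mul, ← Finset.sum_sub_distrib, Finset.sum_mul]
    refine (Finset.abs_sum_le_sum_abs _ _).trans (Finset.sum_le_sum fun C _ => hB C X hX1)

end Pool.Agent.QTr
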