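import Mathlib
import Pool.Agent.QTr.Targets

/-!
# Lattice points in the dilates of a bounded set
-/

open MeasureTheory Module
open scoped Pointwise

namespace Pool.Agent.QTr

namespace LAT_

variable {E : Type} [NormedAddCommGroup E] [NormedSpace ℝ E]
  [FiniteDimensional ℝ E] [MeasurableSpace E] [BorelSpace E]

omit [FiniteDimensional ℝ E] [MeasurableSpace E] [BorelSpace E] in
/-- A segment from a point of `D` to a point outside (or conversely) meets the frontier. -/
theorem seg_frontier (D : Set E) (a b : E) (h : (a ∈ D ∧ b ∉ D) ∨ (a ∉ D ∧ b ∈ D)) :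
    ∃ z ∈ frontier D, dist b z ≤ dist b a := by
  have hs : IsPreconnected (segment ℝ a b) := (convex_segment a b).isPreconnected
  rw [isPreconnected_closed_iff] at hs
  have h1 : segment ℝ a b ⊆ closure D ∪ closure Dᶜ := by
    intro x _
    by_cases hx : x ∈ D
    · exact Or.inl (subset_closure hx)
    · exact Or.inr (subset_closure hx)
  have ha : a ∈ segment ℝ a b := left_mem_segment ℝ a b
  have hb : b ∈ segment ℝ a b := right_mem_segment ℝ a b
  have h2 : (segment ℝ a b ∩ closure D).Nonempty := by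
    rcases h with h | h
    · exact ⟨a, ha, subset_closure h.1⟩
    · exact ⟨b, hb, subset_closure h.2⟩
  have h3 : (segment ℝ a b ∩ closure Dᶜ).Nonempty := by
    rcases h with h | h
    · exact ⟨b, hb, subset_closure h.2⟩
    · exact ⟨a, ha, subset_closure h.1⟩
  obtain ⟨z, hz, hz1, hz2⟩ := hs _ _ isClosed_closure isClosed_closure h1 h2 h3
  refine ⟨z, ?_, ?_⟩
  · rw [frontier_eq_closure_inter_closure]
    exact ⟨hz1, hz2⟩
  · obtain ⟨u, v, hu, hv, huv, rfl⟩ := hz
    have e1 : b - (u • a + v • b) = u • (b - a) := by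
      have : v = 1 - u := by linarith
      subst this
      module
    rw [dist_eq_norm, dist_eq_norm, e1, norm_smul, Real.norm_of_nonneg hu]
    have : u ≤ 1 := by linarith
    nlinarith [norm_nonneg (b - a)]

/-- The comparison of the number of lattice points with the volume. -/
theorem core (μ : Measure E) [μ.IsAddHaarMeasure] (L : Submodule ℤ E) [DiscreteTopology L]
    [IsZLattice ℝ L] {ι : Type} [Finite ι] (b : Basis ι ℤ L) (T G : Set E)
    (hT : Bornology.IsBounded T) (hTm : MeasurableSet T) (hG : μ G ≠ ⊤)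
    (hsub : ∀ l ∈ L, ∀ x : E, x - l ∈ ZSpan.fundamentalDomain (b.ofZLatticeBasis ℝ) →
      ((l ∈ T ∧ x ∉ T) ∨ (l ∉ T ∧ x ∈ T)) → x ∈ G) :
    |(Nat.card ↑(T ∩ (L : Set E)) : ℝ) * ZLattice.covolume L μ - (μ T).toReal| ≤
      (μ G).toReal := by
  classical
  set F := ZSpan.fundamentalDomain (b.ofZLatticeBasis ℝ) with hF
  have hspan : Submodule.span ℤ (Set.range (b.ofZLatticeBasis ℝ)) = L :=
    b.ofZLatticeBasis_span ℝ
  have hFm : MeasurableSet F := ZSpan.fundamentalDomain_measurableSet _
  have hcov : ZLattice.covolume L μ = (μ F).toReal := by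
    rw [ZLattice.covolume_eq_measure_fundamentalDomain L μ (ZLattice.isAddFundamentalDomain b μ)]
    rfl
  have hfin : (T ∩ (L : Set E)).Finite := by
    have := ZSpan.setFinite_inter (b.ofZLatticeBasis ℝ) hT
    rwa [hspan] at this
  have hTfin : μ T ≠ ⊤ := hT.measure_lt_top.ne
  have hFfin : μ F ≠ ⊤ := (ZSpan.fundamentalDomain_isBounded _).measure_lt_top.ne
  -- uniqueness and existence
  have huniq : ∀ x : E, ∀ l ∈ L, ∀ l' ∈ L, x - l ∈ F → x - l' ∈ F → l = l' := by
    intro x l hl l' hl' h1 h2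
    obtain ⟨v, -, hv⟩ := ZSpan.exist_unique_vadd_mem_fundamentalDomain (b.ofZLatticeBasis ℝ) x
    have m1 : -l ∈ Submodule.span ℤ (Set.range (b.ofZLatticeBasis ℝ)) := by
      rw [hspan]; exact neg_mem hl
    have m2 : -l' ∈ Submodule.span ℤ (Set.range (b.ofZLatticeBasis ℝ)) := by
      rw [hspan]; exact neg_mem hl'
    have k1 := hv ⟨-l, m1⟩ (by
      change -l + x ∈ _
      have e : -l + x = x - l := by abel
      rw [e]; exact h1)
    have k2 := hv ⟨-l', m2⟩ (by
      change -l' + x ∈ _
      have e : -l' + x = x - l' := by abel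
      rw [e]; exact h2)
    have k3 := congrArg Subtype.val (k1.trans k2.symm)
    exact neg_injective k3
  have hex : ∀ x : E, ∃ l ∈ L, x - l ∈ F := by
    intro x
    obtain ⟨v, hv, -⟩ := ZSpan.exist_unique_vadd_mem_fundamentalDomain (b.ofZLatticeBasis ℝ) x
    refine ⟨-(v : E), ?_, ?_⟩
    · have : (v : E) ∈ L := by
        have h0 : ∀ y : E, y ∈ Submodule.span ℤ (Set.range (b.ofZLatticeBasis ℝ)) → y ∈ L := by
          intro y hy
          rwa [hspan] at hy
        exact h0 _ v.2
      exact neg_mem this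
    · have hv' : (v : E) + x ∈ F := hv
      have e : x - -(v : E) = (v : E) + x := by abel
      rw [e]; exact hv'
  set S : Finset E := hfin.toFinset with hS
  have hSmem : ∀ l, l ∈ S ↔ l ∈ T ∧ l ∈ L := by
    intro l
    rw [hS, Set.Finite.mem_toFinset]
    rfl
  have hcard : Nat.card ↑(T ∩ (L : Set E)) = S.card := by
    rw [Nat.card_eq_card_finite_toFinset hfin]
  set A : Set E := ⋃ l ∈ S, (fun x => x - l) ⁻¹' F with hA
  have hmeas : ∀ l : E, MeasurableSet ((fun x => x - l) ⁻¹' F) := by
    intro l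
    exact (measurable_id.sub_const l) hFm
  have hmu : ∀ l : E, μ ((fun x => x - l) ⁻¹' F) = μ F := by
    intro l
    have : (fun x : E => x - l) = fun x => x + (-l) := by
      funext x; rw [sub_eq_add_neg]
    rw [this, measure_preimage_add_right]
  have hAmu : μ A = S.card * μ F := by
    rw [hA, measure_biUnion_finset]
    · rw [Finset.sum_congr rfl (fun l _ => hmu l), Finset.sum_const, nsmul_eq_mul]
    · intro l hl l' hl' hne
      rw [Finset.mem_coe, hSmem] at hl hl'
      rw [Function.onFun, Set.disjoint_left]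
      intro x h1 h2
      exact hne (huniq x l hl.2 l' hl'.2 h1 h2)
    · intro l _
      exact hmeas l
  have hAm : MeasurableSet A := by
    rw [hA]
    exact Finset.measurableSet_biUnion _ (fun l _ => hmeas l)
  have hAfin : μ A ≠ ⊤ := by
    rw [hAmu]
    exact ENNReal.mul_ne_top (ENNReal.natCast_ne_top _) hFfin
  have hAT : A \ T ⊆ G := by
    rintro x ⟨hx, hxT⟩
    rw [hA, Set.mem_iUnion₂] at hx
    obtain ⟨l, hl, hxl⟩ := hx
    rw [hSmem] at hl
    exact hsub l hl.2 x hxl (Or.inl ⟨hl.1, hxT⟩)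
  have hTA : T \ A ⊆ G := by
    rintro x ⟨hxT, hxA⟩
    obtain ⟨l, hl, hxl⟩ := hex x
    refine hsub l hl x hxl (Or.inr ⟨?_, hxT⟩)
    intro hlT
    apply hxA
    rw [hA, Set.mem_iUnion₂]
    exact ⟨l, (hSmem l).2 ⟨hlT, hl⟩, hxl⟩
  have k1 : μ A ≤ μ T + μ G := by
    calc μ A ≤ μ (T ∪ (A \ T)) := measure_mono (by
          intro x hx
          by_cases h : x ∈ T
          · exact Or.inl h
          · exact Or.inr ⟨hx, h⟩)
      _ ≤ μ T + μ (A \ T) := measure_union_le _ _
      _ ≤ μ T + μ G := by gcongr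
  have k2 : μ T ≤ μ A + μ G := by
    calc μ T ≤ μ (A ∪ (T \ A)) := measure_mono (by
          intro x hx
          by_cases h : x ∈ A
          · exact Or.inl h
          · exact Or.inr ⟨hx, h⟩)
      _ ≤ μ A + μ (T \ A) := measure_union_le _ _
      _ ≤ μ A + μ G := by gcongr
  have r1 : (μ A).toReal ≤ (μ T).toReal + (μ G).toReal := by
    rw [← ENNReal.toReal_add hTfin hG]
    exact ENNReal.toReal_mono (ENNReal.add_ne_top.2 ⟨hTfin, hG⟩) k1
  have r2 : (μ T).toReal ≤ (μ A).toReal + (μ G).toReal := by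
    rw [← ENNReal.toReal_add hAfin hG]
    exact ENNReal.toReal_mono (ENNReal.add_ne_top.2 ⟨hAfin, hG⟩) k2
  have r3 : (μ A).toReal = (S.card : ℝ) * (μ F).toReal := by
    rw [hAmu, ENNReal.toReal_mul, ENNReal.toReal_natCast]
  rw [hcard, hcov, ← r3, abs_le]
  constructor <;> linarith

end LAT_

open LAT_

theorem p_LAT : T_LAT := by
  intro E _ _ _ _ _ μ _ L _ _ D hpos hD hDm C₀ hC₀
  obtain ⟨n, hn⟩ : ∃ n, Module.finrank ℝ E = n + 1 := ⟨Module.finrank ℝ E - 1, by omega⟩
  let b := Module.Free.chooseBasis ℤ L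
  have hFb := ZSpan.fundamentalDomain_isBounded (b.ofZLatticeBasis ℝ)
  obtain ⟨R₀, hR₀⟩ := hFb.exists_norm_le
  set R : ℝ := max R₀ 1 with hR
  have hR1 : 1 ≤ R := le_max_right _ _
  have hRF : ∀ x ∈ ZSpan.fundamentalDomain (b.ofZLatticeBasis ℝ), ‖x‖ ≤ R :=
    fun x hx => (hR₀ x hx).trans (le_max_left _ _)
  have hfrb : Bornology.IsBounded (frontier D) :=
    hD.closure.subset frontier_subset_closure
  have hcb : ∀ ε : ℝ, μ (Metric.cthickening ε (frontier D)) ≠ ⊤ :=
    fun ε => (hfrb.cthickening).measure_lt_top.ne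
  set M : ℝ := (μ (Metric.cthickening R (frontier D))).toReal with hM
  have hM0 : 0 ≤ M := ENNReal.toReal_nonneg
  have hcpos : 0 < ZLattice.covolume L μ := ZLattice.covolume_pos L μ
  refine ⟨(|C₀| * R + R * M) / ZLattice.covolume L μ, ?_⟩
  intro t ht
  have ht0 : 0 < t := by linarith
  have hTeq : (fun x : E => t • x) '' D = t • D := rfl
  rw [hTeq, hn]
  have hTb : Bornology.IsBounded (t • D) := hD.smul₀ t
  have hTm : MeasurableSet (t • D) := hDm.const_smul₀ t
  set G : Set E := t • Metric.cthickening (R / t) (frontier D) with hG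
  have hGmu : μ G = ENNReal.ofReal (t ^ (n + 1)) * μ (Metric.cthickening (R / t) (frontier D)) := by
    rw [hG, Measure.addHaar_smul_of_nonneg μ ht0.le, hn]
  have hTmu : μ (t • D) = ENNReal.ofReal (t ^ (n + 1)) * μ D := by
    rw [Measure.addHaar_smul_of_nonneg μ ht0.le, hn]
  have hGfin : μ G ≠ ⊤ := by
    rw [hGmu]
    exact ENNReal.mul_ne_top ENNReal.ofReal_ne_top (hcb _)
  have hcore := core μ L b (t • D) G hTb hTm hGfin (by
    intro l hl x hx hlx
    have hx' := hRF _ hx
    have hmem : ∀ y : E, y ∈ t • D ↔ t⁻¹ • y ∈ D := fun y =>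
      Set.mem_smul_set_iff_inv_smul_mem₀ ht0.ne' D y
    rw [hmem, hmem] at hlx
    obtain ⟨z, hz, hdz⟩ := seg_frontier D (t⁻¹ • l) (t⁻¹ • x) hlx
    rw [hG, Set.mem_smul_set_iff_inv_smul_mem₀ ht0.ne']
    refine Metric.mem_cthickening_of_dist_le _ z _ _ hz (hdz.trans ?_)
    rw [dist_eq_norm, ← smul_sub, norm_smul, Real.norm_of_nonneg (inv_nonneg.2 ht0.le),
      div_eq_inv_mul]
    exact mul_le_mul_of_nonneg_left hx' (inv_nonneg.2 ht0.le))
  have hGr : (μ G).toReal ≤ (|C₀| * R + R * M) * t ^ n := by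
    rw [hGmu, ENNReal.toReal_mul, ENNReal.toReal_ofReal (by positivity)]
    have htn : 0 < t ^ n := by positivity
    rcases le_or_gt (R / t) 1 with hle | hgt
    · have h1 := hC₀ (R / t) (by positivity) hle
      have h2 : (μ (Metric.cthickening (R / t) (frontier D))).toReal ≤ |C₀| * (R / t) :=
        h1.trans (mul_le_mul_of_nonneg_right (le_abs_self _) (by positivity))
      calc t ^ (n + 1) * (μ (Metric.cthickening (R / t) (frontier D))).toReal
          ≤ t ^ (n + 1) * (|C₀| * (R / t)) := mul_le_mul_of_nonneg_left h2 (by positivity)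
        _ = |C₀| * R * t ^ n := by
            field_simp
            try ring
        _ ≤ (|C₀| * R + R * M) * t ^ n := by
            apply mul_le_mul_of_nonneg_right _ htn.le
            have : 0 ≤ R * M := by positivity
            linarith
    · have htR : t < R := by
        rw [lt_div_iff₀ ht0, one_mul] at hgt
        exact hgt
      have h2 : (μ (Metric.cthickening (R / t) (frontier D))).toReal ≤ M := by
        rw [hM]
        apply ENNReal.toReal_mono (hcb _)
        apply measure_mono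
        apply Metric.cthickening_mono
        rw [div_le_iff₀ ht0]
        nlinarith
      calc t ^ (n + 1) * (μ (Metric.cthickening (R / t) (frontier D))).toReal
          ≤ t ^ (n + 1) * M := mul_le_mul_of_nonneg_left h2 (by positivity)
        _ = t * M * t ^ n := by ring
        _ ≤ (|C₀| * R + R * M) * t ^ n := by
            apply mul_le_mul_of_nonneg_right _ htn.le
            have h3 : t * M ≤ R * M := mul_le_mul_of_nonneg_right htR.le hM0
            have h4 : 0 ≤ |C₀| * R := by positivity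
            linarith
  have hTr : (μ (t • D)).toReal = t ^ (n + 1) * (μ D).toReal := by
    rw [hTmu, ENNReal.toReal_mul, ENNReal.toReal_ofReal (by positivity)]
  rw [hTr] at hcore
  have hfinal := hcore.trans hGr
  have e1 : (Nat.card ↑(t • D ∩ (L : Set E)) : ℝ) -
      t ^ (n + 1) * (μ D).toReal / ZLattice.covolume L μ =
      ((Nat.card ↑(t • D ∩ (L : Set E)) : ℝ) * ZLattice.covolume L μ -
        t ^ (n + 1) * (μ D).toReal) / ZLattice.covolume L μ := by
    field_simp
  rw [e1, abs_div, abs_of_pos hcpos, Nat.add_sub_cancel, div_mul_eq_mul_div]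
  exact div_le_div_of_nonneg_right hfinal hcpos.le

end Pool.Agent.QTr
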