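import Pool.Agent.QTr.Targets
import Mathlib

set_option autoImplicit false

open Polynomial NumberField
open Pool.Agent.QTw (idealCount)

namespace Pool.Agent.QTr

namespace M1K_

open Finset

/-- comparison of a weighted sum with a power sum, strong form -/
theorem comp_aux (w : ℕ → ℝ) (W s : ℝ) (hs1 : s ≤ 1)
    (hw : ∀ X : ℕ, 1 ≤ X → ∑ m ∈ Icc 1 X, w m ≤ W * X) (X : ℕ) :
    ∑ m ∈ Icc 1 (X + 1), w m * (m : ℝ) ^ (s - 1) +
      (W * (X + 1 : ℕ) - ∑ m ∈ Icc 1 (X + 1), w m) * ((X + 1 : ℕ) : ℝ) ^ (s - 1) ≤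
      W * ∑ m ∈ Icc 1 (X + 1), (m : ℝ) ^ (s - 1) := by
  induction X with
  | zero =>
    simp
  | succ X ih =>
    have e1 := Finset.sum_Icc_succ_top (by omega : 1 ≤ X + 1 + 1)
      (fun m : ℕ => w m * (m : ℝ) ^ (s - 1))
    have e2 := Finset.sum_Icc_succ_top (by omega : 1 ≤ X + 1 + 1) w
    have e3 := Finset.sum_Icc_succ_top (by omega : 1 ≤ X + 1 + 1)
      (fun m : ℕ => (m : ℝ) ^ (s - 1))
    rw [e1, e2, e3]
    have h1 := hw (X + 1) (by omega)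
    have h2 : ((X + 1 + 1 : ℕ) : ℝ) ^ (s - 1) ≤ ((X + 1 : ℕ) : ℝ) ^ (s - 1) := by
      apply Real.rpow_le_rpow_of_nonpos
      · exact_mod_cast Nat.succ_pos X
      · exact_mod_cast Nat.le_succ (X + 1)
      · linarith
    have h3 : 0 ≤ (W * ((X + 1 : ℕ) : ℝ) - ∑ m ∈ Icc 1 (X + 1), w m) := by linarith
    have h4 := mul_le_mul_of_nonneg_left h2 h3
    have h5 : ((X + 1 + 1 : ℕ) : ℝ) = ((X + 1 : ℕ) : ℝ) + 1 := by push_cast; ring
    set S := ∑ m ∈ Icc 1 (X + 1), w m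
    set f := ((X + 1 + 1 : ℕ) : ℝ) ^ (s - 1)
    rw [h5]
    nlinarith [ih, h4]

theorem pow_sum (s : ℝ) (hs0 : 0 < s) (hs1 : s ≤ 1) (X : ℕ) :
    ∑ m ∈ Icc 1 X, (m : ℝ) ^ (s - 1) ≤ (X : ℝ) ^ s / s := by
  induction X with
  | zero =>
    simp
    rw [Real.zero_rpow hs0.ne']
    simp
  | succ X ih =>
    rw [Finset.sum_Icc_succ_top (by omega)]
    have hpos : (0 : ℝ) < ((X + 1 : ℕ) : ℝ) := by exact_mod_cast Nat.succ_pos X
    have h1 : (X : ℝ) ^ s ≤ ((X + 1 : ℕ) : ℝ) ^ s * (1 - s / ((X + 1 : ℕ) : ℝ)) := by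
      have h2 : (X : ℝ) = ((X + 1 : ℕ) : ℝ) * (1 + (-1 / ((X + 1 : ℕ) : ℝ))) := by
        field_simp
        push_cast
        ring
      have h3 : (-1 : ℝ) ≤ -1 / ((X + 1 : ℕ) : ℝ) := by
        rw [le_div_iff₀ hpos]
        push_cast
        nlinarith [Nat.cast_nonneg (α := ℝ) X]
      rw [h2, Real.mul_rpow hpos.le (by linarith)]
      have h4 := rpow_one_add_le_one_add_mul_self h3 hs0.le hs1
      have h5 : 0 ≤ ((X + 1 : ℕ) : ℝ) ^ s := Real.rpow_nonneg hpos.le _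
      refine le_trans (mul_le_mul_of_nonneg_left h4 h5) (le_of_eq ?_)
      ring
    have h6 : ((X + 1 : ℕ) : ℝ) ^ (s - 1) = ((X + 1 : ℕ) : ℝ) ^ s / ((X + 1 : ℕ) : ℝ) := by
      rw [Real.rpow_sub_one hpos.ne']
    have h7 : (X : ℝ) ^ s / s + ((X + 1 : ℕ) : ℝ) ^ (s - 1) ≤ ((X + 1 : ℕ) : ℝ) ^ s / s := by
      rw [h6]
      have h8 := div_le_div_of_nonneg_right h1 hs0.le
      have h9 : ((X + 1 : ℕ) : ℝ) ^ s * (1 - s / ((X + 1 : ℕ) : ℝ)) / s =
          ((X + 1 : ℕ) : ℝ) ^ s / s - ((X + 1 : ℕ) : ℝ) ^ s / ((X + 1 : ℕ) : ℝ) := by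
        field_simp
      linarith
    linarith

theorem comp (w : ℕ → ℝ) (W s : ℝ) (hW : 0 ≤ W) (hs0 : 0 < s) (hs1 : s ≤ 1)
    (hw : ∀ X : ℕ, 1 ≤ X → ∑ m ∈ Icc 1 X, w m ≤ W * X) (X : ℕ) (hX : 1 ≤ X) :
    ∑ m ∈ Icc 1 X, w m * (m : ℝ) ^ (s - 1) ≤ W * ((X : ℝ) ^ s / s) := by
  obtain ⟨Y, rfl⟩ : ∃ Y, X = Y + 1 := ⟨X - 1, by omega⟩
  have h1 := comp_aux w W s hs1 hw Y
  have h2 := mul_le_mul_of_nonneg_left (pow_sum s hs0 hs1 (Y + 1)) hW
  have h3 : 0 ≤ (W * (Y + 1 : ℕ) - ∑ m ∈ Icc 1 (Y + 1), w m) * ((Y + 1 : ℕ) : ℝ) ^ (s - 1) := by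
    apply mul_nonneg
    · have := hw (Y + 1) (by omega)
      linarith
    · exact Real.rpow_nonneg (by positivity) _
  linarith

theorem conv (a v : ℕ → ℝ) (X : ℕ)
    (h2 : ∀ m : ℕ, 0 < m → a m * Real.log m = ∑ d ∈ m.divisors, v d * a (m / d)) :
    ∑ m ∈ Icc 1 X, a m * Real.log m = ∑ d ∈ Icc 1 X, v d * ∑ m ∈ Icc 1 (X / d), a m := by
  let f : ArithmeticFunction ℝ := ⟨fun d => if d = 0 then 0 else v d, by simp⟩
  let g : ArithmeticFunction ℝ := ⟨fun d => if d = 0 then 0 else a d, by simp⟩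
  have hf : ∀ d, d ≠ 0 → f d = v d := fun d hd => by
    show (if d = 0 then 0 else v d) = _
    rw [if_neg hd]
  have hg : ∀ d, d ≠ 0 → g d = a d := fun d hd => by
    show (if d = 0 then 0 else a d) = _
    rw [if_neg hd]
  have hIcc : ∀ Y : ℕ, Icc 1 Y = Ioc 0 Y := fun Y => by
    ext m; simp only [mem_Icc, mem_Ioc]; omega
  have key := ArithmeticFunction.sum_Ioc_mul_eq_sum_sum f g X
  have e1 : ∑ m ∈ Icc 1 X, a m * Real.log m = ∑ m ∈ Ioc 0 X, (f * g) m := by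
    rw [hIcc]
    refine Finset.sum_congr rfl (fun m hm => ?_)
    rw [mem_Ioc] at hm
    rw [h2 m hm.1, ArithmeticFunction.mul_apply,
      Nat.sum_divisorsAntidiagonal (fun x y => f x * g y)]
    refine Finset.sum_congr rfl (fun d hd => ?_)
    have hdm := Nat.dvd_of_mem_divisors hd
    have hd0 : d ≠ 0 := (Nat.pos_of_mem_divisors hd).ne'
    have hq : m / d ≠ 0 := (Nat.div_pos (Nat.le_of_dvd hm.1 hdm) (Nat.pos_of_ne_zero hd0)).ne'
    rw [hf d hd0, hg _ hq]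
  rw [e1, key, hIcc]
  refine Finset.sum_congr rfl (fun d hd => ?_)
  rw [mem_Ioc] at hd
  rw [hf d hd.1.ne', hIcc]
  congr 1
  refine Finset.sum_congr rfl (fun m hm => ?_)
  rw [mem_Ioc] at hm
  exact hg m hm.1.ne'

theorem main (a v : ℕ → ℝ) (ha : ∀ m, 0 ≤ a m) (hv : ∀ m, 0 ≤ v m) (κ C B : ℝ) (hκ : 0 < κ)
    (n : ℕ) (hn : 0 < n)
    (h1 : ∀ X : ℕ, 1 ≤ X → |(∑ m ∈ Icc 1 X, a m) - κ * X| ≤ C * (X : ℝ) ^ (1 - (1 : ℝ) / n))
    (h2 : ∀ m : ℕ, 0 < m → a m * Real.log m = ∑ d ∈ m.divisors, v d * a (m / d))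
    (h3 : ∀ X : ℕ, 1 ≤ X → ∑ d ∈ Icc 1 X, v d ≤ B * X) :
    ∃ B' : ℝ, ∀ X : ℕ, 1 ≤ X → |∑ d ∈ Icc 1 X, v d / d - Real.log X| ≤ B' := by
  set s : ℝ := (1 : ℝ) / n with hs
  have hnR : (1 : ℝ) ≤ n := by exact_mod_cast hn
  have hs0 : 0 < s := by rw [hs]; positivity
  have hs1 : s ≤ 1 := by rw [hs, div_le_one (by linarith)]; exact hnR
  have hC : 0 ≤ C := by
    have := (abs_nonneg _).trans (h1 1 le_rfl)
    simpa using this
  have hB : 0 ≤ B := by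
    have := h3 1 le_rfl
    simp at this
    exact (hv 1).trans this
  have hpow : ∀ X : ℕ, 1 ≤ X → (X : ℝ) ^ (1 - s) ≤ X := by
    intro X hX
    have hXR : (1 : ℝ) ≤ X := by exact_mod_cast hX
    calc (X : ℝ) ^ (1 - s) ≤ (X : ℝ) ^ (1 : ℝ) :=
          Real.rpow_le_rpow_of_exponent_le hXR (by linarith)
      _ = X := Real.rpow_one _
  have hA : ∀ X : ℕ, 1 ≤ X → ∑ m ∈ Icc 1 X, a m ≤ (κ + C) * X := by
    intro X hX
    have h4 := (abs_le.mp (h1 X hX)).2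
    have h5 := mul_le_mul_of_nonneg_left (hpow X hX) hC
    linarith
  refine ⟨(4 * (κ + C) + C / s + (κ + C) * (B / s)) / κ, fun X hX => ?_⟩
  have hXR : (1 : ℝ) ≤ X := by exact_mod_cast hX
  have hX0 : (0 : ℝ) < X := by linarith
  -- the sum with logarithms, first form
  have E1 : |(∑ m ∈ Icc 1 X, a m) * Real.log X - ∑ m ∈ Icc 1 X, a m * Real.log m| ≤
      4 * (κ + C) * X := by
    rw [Finset.sum_mul, ← Finset.sum_sub_distrib]
    rw [abs_of_nonneg (Finset.sum_nonneg (fun m hm => by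
      rw [mem_Icc] at hm
      have hm0 : (0 : ℝ) < m := by exact_mod_cast hm.1
      have : Real.log m ≤ Real.log X := Real.log_le_log hm0 (by exact_mod_cast hm.2)
      have := mul_le_mul_of_nonneg_left this (ha m)
      linarith))]
    have e1 : ∀ m ∈ Icc 1 X, a m * Real.log X - a m * Real.log m ≤
        (2 * (X : ℝ) ^ ((1 : ℝ) / 2)) * (a m * (m : ℝ) ^ ((1 : ℝ) / 2 - 1)) := by
      intro m hm
      rw [mem_Icc] at hm
      have hm0 : (0 : ℝ) < m := by exact_mod_cast hm.1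
      have h4 : Real.log X - Real.log m = Real.log (X / m) := by
        rw [Real.log_div hX0.ne' hm0.ne']
      have h5 : Real.log ((X : ℝ) / m) ≤ ((X : ℝ) / m) ^ ((1 : ℝ) / 2) / (1 / 2) :=
        Real.log_le_rpow_div (by positivity) (by norm_num)
      have h6 : ((X : ℝ) / m) ^ ((1 : ℝ) / 2) =
          (X : ℝ) ^ ((1 : ℝ) / 2) * (m : ℝ) ^ ((1 : ℝ) / 2 - 1) := by
        rw [Real.div_rpow hX0.le hm0.le, div_eq_mul_inv, ← Real.rpow_neg hm0.le]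
        norm_num
      rw [← mul_sub, h4]
      calc a m * Real.log ((X : ℝ) / m)
          ≤ a m * (((X : ℝ) / m) ^ ((1 : ℝ) / 2) / (1 / 2)) :=
            mul_le_mul_of_nonneg_left h5 (ha m)
        _ = _ := by rw [h6]; ring
    refine (Finset.sum_le_sum e1).trans ?_
    rw [← Finset.mul_sum]
    have h4 := comp a (κ + C) (1 / 2) (by linarith) (by norm_num) (by norm_num) hA X hX
    have h5 : (0 : ℝ) ≤ 2 * (X : ℝ) ^ ((1 : ℝ) / 2) := by positivity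
    refine (mul_le_mul_of_nonneg_left h4 h5).trans (le_of_eq ?_)
    have h6 : (X : ℝ) ^ ((1 : ℝ) / 2) * (X : ℝ) ^ ((1 : ℝ) / 2) = X := by
      rw [← Real.rpow_add hX0]; norm_num
    linear_combination (4 * (κ + C)) * h6
  have E2 : |(∑ m ∈ Icc 1 X, a m) * Real.log X - κ * X * Real.log X| ≤ C / s * X := by
    rw [← sub_mul, abs_mul, abs_of_nonneg (Real.log_nonneg hXR)]
    have h4 : Real.log X ≤ (X : ℝ) ^ s / s := Real.log_le_rpow_div hX0.le hs0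
    calc |(∑ m ∈ Icc 1 X, a m) - κ * X| * Real.log X
        ≤ (C * (X : ℝ) ^ (1 - s)) * ((X : ℝ) ^ s / s) :=
          mul_le_mul (h1 X hX) h4 (Real.log_nonneg hXR) (by positivity)
      _ = C / s * ((X : ℝ) ^ (1 - s) * (X : ℝ) ^ s) := by ring
      _ = C / s * X := by
          rw [← Real.rpow_add hX0]
          norm_num
  have E3 : |∑ d ∈ Icc 1 X, v d * ∑ m ∈ Icc 1 (X / d), a m -
      κ * X * ∑ d ∈ Icc 1 X, v d / d| ≤ (κ + C) * (B / s) * X := by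
    rw [Finset.mul_sum, ← Finset.sum_sub_distrib]
    refine (Finset.abs_sum_le_sum_abs _ _).trans ?_
    have e1 : ∀ d ∈ Icc 1 X, |v d * ∑ m ∈ Icc 1 (X / d), a m - κ * X * (v d / d)| ≤
        ((κ + C) * (X : ℝ) ^ (1 - s)) * (v d * (d : ℝ) ^ (s - 1)) := by
      intro d hd
      rw [mem_Icc] at hd
      have hd0 : (0 : ℝ) < d := by exact_mod_cast hd.1
      have hq : 1 ≤ X / d := Nat.div_pos hd.2 hd.1
      have h4 := h1 (X / d) hq
      have h5 : ((X / d : ℕ) : ℝ) ≤ (X : ℝ) / d := Nat.cast_div_le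
      have h6 : (X : ℝ) / d < ((X / d : ℕ) : ℝ) + 1 := by
        rw [div_lt_iff₀ hd0]
        exact_mod_cast Nat.lt_mul_of_div_lt (Nat.lt_succ_self (X / d)) hd.1
      have h7 : (1 : ℝ) ≤ (X : ℝ) / d := by
        rw [le_div_iff₀ hd0, one_mul]; exact_mod_cast hd.2
      have h8 : ((X / d : ℕ) : ℝ) ^ (1 - s) ≤ ((X : ℝ) / d) ^ (1 - s) :=
        Real.rpow_le_rpow (by positivity) h5 (by linarith)
      have h9 : (1 : ℝ) ≤ ((X : ℝ) / d) ^ (1 - s) := Real.one_le_rpow h7 (by linarith)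
      have h10 : |(∑ m ∈ Icc 1 (X / d), a m) - κ * ((X : ℝ) / d)| ≤
          (κ + C) * ((X : ℝ) / d) ^ (1 - s) := by
        have h11 := abs_le.mp h4
        have h12 := mul_le_mul_of_nonneg_left h8 hC
        have h13 := mul_le_mul_of_nonneg_left h9 hκ.le
        have h14 := mul_le_mul_of_nonneg_left h5 hκ.le
        have h15 := mul_le_mul_of_nonneg_left h6.le hκ.le
        rw [abs_le]
        constructor <;> nlinarith
      have h16 : ((X : ℝ) / d) ^ (1 - s) = (X : ℝ) ^ (1 - s) * (d : ℝ) ^ (s - 1) := by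
        rw [Real.div_rpow hX0.le hd0.le, div_eq_mul_inv, ← Real.rpow_neg hd0.le, neg_sub]
      have h17 : v d * ∑ m ∈ Icc 1 (X / d), a m - κ * X * (v d / d) =
          v d * ((∑ m ∈ Icc 1 (X / d), a m) - κ * ((X : ℝ) / d)) := by
        field_simp
      rw [h17, abs_mul, abs_of_nonneg (hv d)]
      refine (mul_le_mul_of_nonneg_left h10 (hv d)).trans (le_of_eq ?_)
      rw [h16]; ring
    refine (Finset.sum_le_sum e1).trans ?_
    rw [← Finset.mul_sum]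
    have h4 := comp v B s hB hs0 hs1 h3 X hX
    have h5 : 0 ≤ (κ + C) * (X : ℝ) ^ (1 - s) := by positivity
    refine (mul_le_mul_of_nonneg_left h4 h5).trans (le_of_eq ?_)
    have h6 : (X : ℝ) ^ (1 - s) * (X : ℝ) ^ s = X := by
      rw [← Real.rpow_add hX0]; norm_num
    linear_combination ((κ + C) * B / s) * h6
  have E4 := conv a v X h2
  have E5 : κ * X * |∑ d ∈ Icc 1 X, v d / d - Real.log X| ≤
      (4 * (κ + C) + C / s + (κ + C) * (B / s)) * X := by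
    have h4 : κ * X * |∑ d ∈ Icc 1 X, v d / d - Real.log X| =
        |κ * X * ∑ d ∈ Icc 1 X, v d / d - κ * X * Real.log X| := by
      rw [← mul_sub, abs_mul (κ * X), abs_of_nonneg (by positivity : 0 ≤ κ * (X : ℝ))]
    rw [h4]
    rw [E4] at E1
    have a1 := abs_le.mp E1
    have a2 := abs_le.mp E2
    have a3 := abs_le.mp E3
    rw [abs_le]
    constructor <;> linarith [a1.1, a1.2, a2.1, a2.2, a3.1, a3.2]
  rw [le_div_iff₀ hκ]
  have h6 : (|∑ d ∈ Icc 1 X, v d / d - Real.log X| * κ) * X ≤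
      (4 * (κ + C) + C / s + (κ + C) * (B / s)) * X := by
    linarith
  exact le_of_mul_le_mul_right h6 hX0

end M1K_

theorem p_M1K (h1 : T_ICN) (h2 : T_VMI) (h3 : T_VMB) : T_M1K := by
  intro K _ _
  obtain ⟨κ, C, hκ, hI⟩ := h1 K
  obtain ⟨hv, B, hB⟩ := h3 K
  obtain ⟨B', hB'⟩ := M1K_.main (fun m => (idealCount K m : ℝ)) (vK K)
    (fun m => Nat.cast_nonneg _) hv κ C B hκ (Module.finrank ℚ K) Module.finrank_pos hI
    (fun m hm => h2 K m hm) (fun X hX => (hB X hX).1)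
  refine ⟨B + B', fun X hX => ?_⟩
  have a1 := abs_le.mp (hB X hX).2
  have a2 := abs_le.mp (hB' X hX)
  rw [abs_le]
  constructor <;> linarith [a1.1, a1.2, a2.1, a2.2]

end Pool.Agent.QTr
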