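import Pool.Agent.QTr.Targets

/-!
# QTr: partial summation (PSM)
-/

namespace Pool.Agent.QTr

namespace PSM_

private lemma loglog_step {u v : ℝ} (hu : 0 < u) (huv : u ≤ v) (h1 : v - u ≤ 1) :
    |(v - u) * (1 / v) - (Real.log v - Real.log u)| ≤ 1 / u - 1 / v := by
  have hv : 0 < v := lt_of_lt_of_le hu huv
  have h2 : Real.log v - Real.log u = Real.log (v / u) := (Real.log_div hv.ne' hu.ne').symm
  have h3 : Real.log (v / u) ≤ v / u - 1 := Real.log_le_sub_one_of_pos (div_pos hv hu)
  have h4 : Real.log (u / v) ≤ u / v - 1 := Real.log_le_sub_one_of_pos (div_pos hu hv)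
  have h5 : Real.log (u / v) = - Real.log (v / u) := by
    rw [← Real.log_inv, inv_div]
  have h6 : (v - u) * (1 / v) = 1 - u / v := by field_simp
  have h7 : v / u - 1 = (v - u) * (1 / u) := by field_simp
  have h8 : (v - u) * (1 / u - 1 / v) ≤ 1 / u - 1 / v := by
    have h9 : 0 ≤ 1 / u - 1 / v := sub_nonneg.mpr (one_div_le_one_div_of_le hu huv)
    nlinarith
  rw [h2, abs_le]
  constructor
  · have : Real.log (v / u) ≤ (v - u) * (1 / u) := by linarith
    nlinarith
  · have h10 : 1 - u / v ≤ Real.log (v / u) := by linarith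
    have h9 : 0 ≤ 1 / u - 1 / v := sub_nonneg.mpr (one_div_le_one_div_of_le hu huv)
    rw [h6]
    linarith

end PSM_

open PSM_ in
theorem p_PSM : T_PSM := by
  classical
  intro P δ hM
  obtain ⟨B, hB⟩ := hM
  set S : ℕ → ℝ := fun X => ∑ p ∈ (Finset.range (X + 1)).filter (fun p => p.Prime ∧ P p),
    Real.log p / p with hS
  set E : ℕ → ℝ := fun X => S X - δ * Real.log X with hE
  have hEB : ∀ X : ℕ, 1 ≤ X → |E X| ≤ B := fun X hX => hB X hX
  have hB0 : 0 ≤ B := (abs_nonneg _).trans (hEB 1 le_rfl)
  refine ⟨2 * B + |δ|, ?_⟩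
  intro x y hy hyx
  set F : ℕ → ℝ := fun x =>
    ∑ p ∈ (Finset.range (x + 1)).filter (fun p => p.Prime ∧ P p ∧ y < p), 1 / (p : ℝ) with hF
  have hlogpos : ∀ n : ℕ, 3 ≤ n → 1 ≤ Real.log n := by
    intro n hn
    have h1 : Real.log (Real.exp 1) ≤ Real.log n := by
      apply Real.log_le_log (Real.exp_pos 1)
      have h2 : Real.exp 1 < 2.7182818286 := Real.exp_one_lt_d9
      have h3 : (3 : ℝ) ≤ n := by exact_mod_cast hn
      linarith
    rwa [Real.log_exp] at h1
  have key : ∀ x : ℕ, y ≤ x → |F x - δ * LL x y - E x * (1 / Real.log x)| ≤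
      B * (1 / Real.log y) + (B + |δ|) * (1 / Real.log y - 1 / Real.log x) := by
    intro x hx
    induction x, hx using Nat.le_induction with
    | base =>
      have h1 : F y = 0 := by
        rw [hF]
        apply Finset.sum_eq_zero
        intro p hp
        simp only [Finset.mem_filter, Finset.mem_range] at hp
        omega
      have h2 : LL y y = 0 := by simp [LL]
      have h3 : 0 < Real.log y := lt_of_lt_of_le one_pos (hlogpos y hy)
      rw [h1, h2, mul_zero, sub_zero, zero_sub, abs_neg, abs_mul,
        abs_of_pos (one_div_pos.mpr h3), sub_self, mul_zero, add_zero]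
      exact mul_le_mul_of_nonneg_right (hEB y (by omega)) (one_div_pos.mpr h3).le
    | succ x hx ih =>
      set u := Real.log x with hu
      set v := Real.log ((x + 1 : ℕ) : ℝ) with hv
      have hx3 : 3 ≤ x := hy.trans hx
      have hu1 : 1 ≤ u := hlogpos x hx3
      have hxpos : (0 : ℝ) < x := by
        have : (3 : ℝ) ≤ x := by exact_mod_cast hx3
        linarith
      have huv : u ≤ v := Real.log_le_log hxpos (by push_cast; linarith)
      have hvu : v - u ≤ 1 := by
        have h1 : v - u = Real.log (((x + 1 : ℕ) : ℝ) / x) :=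
          (Real.log_div (by positivity) hxpos.ne').symm
        rw [h1]
        have h2 : Real.log (((x + 1 : ℕ) : ℝ) / x) ≤ ((x + 1 : ℕ) : ℝ) / x - 1 :=
          Real.log_le_sub_one_of_pos (by positivity)
        have h3 : ((x + 1 : ℕ) : ℝ) / x - 1 = 1 / x := by push_cast; field_simp; ring
        have h4 : 1 / (x : ℝ) ≤ 1 := by
          rw [div_le_one hxpos]
          have : (3 : ℝ) ≤ x := by exact_mod_cast hx3
          linarith
        linarith
      have hstep := loglog_step (lt_of_lt_of_le one_pos hu1) huv hvu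
      have hv1 : 1 ≤ v := hu1.trans huv
      -- the increments
      have hFS : F (x + 1) - F x = (S (x + 1) - S x) * (1 / v) := by
        have hFe : F (x + 1) = F x + if (x + 1).Prime ∧ P (x + 1) ∧ y < x + 1 then
            1 / ((x + 1 : ℕ) : ℝ) else 0 := by
          rw [hF]
          simp only [Finset.sum_filter]
          rw [Finset.sum_range_succ _ (x + 1)]
        have hSe : S (x + 1) = S x + if (x + 1).Prime ∧ P (x + 1) then
            Real.log ((x + 1 : ℕ) : ℝ) / ((x + 1 : ℕ) : ℝ) else 0 := by
          rw [hS]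
          simp only [Finset.sum_filter]
          rw [Finset.sum_range_succ _ (x + 1)]
        rw [hFe, hSe]
        have hyx1 : y < x + 1 := by omega
        by_cases hc : (x + 1).Prime ∧ P (x + 1)
        · rw [if_pos hc, if_pos ⟨hc.1, hc.2, hyx1⟩, ← hv]
          field_simp
          ring
        · rw [if_neg hc, if_neg (fun h => hc ⟨h.1, h.2.1⟩)]
          ring
      have hSE : S (x + 1) - S x = δ * (v - u) + E (x + 1) - E x := by
        simp only [hE, ← hv, ← hu]
        ring
      have hLL : LL (x + 1) y = LL x y + (Real.log v - Real.log u) := by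
        simp only [LL, ← hv, ← hu]
        ring
      have hdiff : F (x + 1) - δ * LL (x + 1) y - E (x + 1) * (1 / v) =
          (F x - δ * LL x y - E x * (1 / u)) +
          (δ * ((v - u) * (1 / v) - (Real.log v - Real.log u)) + E x * (1 / u - 1 / v)) := by
        have h1 : F (x + 1) = F x + (δ * (v - u) + E (x + 1) - E x) * (1 / v) := by
          rw [← hSE, ← hFS]; ring
        rw [h1, hLL]
        ring
      rw [hdiff]
      have h9 : 0 ≤ 1 / u - 1 / v :=
        sub_nonneg.mpr (one_div_le_one_div_of_le (lt_of_lt_of_le one_pos hu1) huv)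
      have h10 : |δ * ((v - u) * (1 / v) - (Real.log v - Real.log u)) +
          E x * (1 / u - 1 / v)| ≤ (B + |δ|) * (1 / u - 1 / v) := by
        calc |δ * ((v - u) * (1 / v) - (Real.log v - Real.log u)) + E x * (1 / u - 1 / v)|
            ≤ |δ * ((v - u) * (1 / v) - (Real.log v - Real.log u))| +
              |E x * (1 / u - 1 / v)| := abs_add_le _ _
          _ = |δ| * |(v - u) * (1 / v) - (Real.log v - Real.log u)| +
              |E x| * (1 / u - 1 / v) := by
              rw [abs_mul, abs_mul, abs_of_nonneg h9]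
          _ ≤ |δ| * (1 / u - 1 / v) + B * (1 / u - 1 / v) := by
              gcongr
              exact hEB x (by omega)
          _ = (B + |δ|) * (1 / u - 1 / v) := by ring
      calc |(F x - δ * LL x y - E x * (1 / u)) +
          (δ * ((v - u) * (1 / v) - (Real.log v - Real.log u)) + E x * (1 / u - 1 / v))|
          ≤ |F x - δ * LL x y - E x * (1 / u)| +
            |δ * ((v - u) * (1 / v) - (Real.log v - Real.log u)) + E x * (1 / u - 1 / v)| :=
            abs_add_le _ _
        _ ≤ (B * (1 / Real.log y) + (B + |δ|) * (1 / Real.log y - 1 / u)) +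
            (B + |δ|) * (1 / u - 1 / v) := add_le_add ih h10
        _ = B * (1 / Real.log y) + (B + |δ|) * (1 / Real.log y - 1 / v) := by ring
  have hk := key x hyx
  have hx3 : 3 ≤ x := hy.trans hyx
  have hly : 1 ≤ Real.log y := hlogpos y hy
  have hlx : 1 ≤ Real.log x := hlogpos x hx3
  have h1 : 1 / Real.log y ≤ 1 := by
    rw [div_le_one (by linarith)]; exact hly
  have h2 : 0 < 1 / Real.log x := one_div_pos.mpr (by linarith)
  have h3 : |E x * (1 / Real.log x)| ≤ B * (1 / Real.log x) := by
    rw [abs_mul, abs_of_pos h2]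
    exact mul_le_mul_of_nonneg_right (hEB x (by omega)) h2.le
  have h4 : |F x - δ * LL x y| ≤ |F x - δ * LL x y - E x * (1 / Real.log x)| +
      |E x * (1 / Real.log x)| := by
    calc |F x - δ * LL x y| =
        |(F x - δ * LL x y - E x * (1 / Real.log x)) + E x * (1 / Real.log x)| := by ring_nf
      _ ≤ _ := abs_add_le _ _
  have h5 : 0 ≤ |δ| := abs_nonneg δ
  have h6 : |F x - δ * LL x y| ≤ 2 * B * (1 / Real.log y) + |δ| * (1 / Real.log y) := by
    have h7 : |δ| * (1 / Real.log x) ≥ 0 := by positivity
    nlinarith [hk, h3, h4]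
  have h8 : 2 * B * (1 / Real.log y) ≤ 2 * B * 1 := mul_le_mul_of_nonneg_left h1 (by linarith)
  have h9 : |δ| * (1 / Real.log y) ≤ |δ| * 1 := mul_le_mul_of_nonneg_left h1 h5
  have h10 : |F x - δ * LL x y| ≤ 2 * B + |δ| := by linarith
  exact h10

end Pool.Agent.QTr
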