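import Pool.Agent.QTr.Targets

set_option autoImplicit false

/-!
# PTG: transcendental points near a given p-adic point
-/

open Polynomial Filter Topology Cardinal

namespace Pool.Agent.QTr

namespace PTG_

/-- Every neighbourhood of a point of `ℚ_p` contains a transcendental number. -/
lemma exists_transcendental (p : ℕ) [Fact p.Prime] {x : ℚ_[p]} {s : Set ℚ_[p]}
    (hs : s ∈ 𝓝 x) : ∃ η ∈ s, Transcendental ℚ η := by
  by_contra hcon
  push Not at hcon
  have h1 : s ⊆ {x : ℚ_[p] | IsAlgebraic ℚ x} := by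
    intro x hx
    by_contra hx2
    exact hcon x hx hx2
  have h2 : s.Countable := (Algebraic.countable ℚ ℚ_[p]).mono h1
  have h3 : #s = #ℚ_[p] := cardinal_eq_of_mem_nhds ℚ_[p] hs
  have h4 : 𝔠 ≤ #ℚ_[p] := continuum_le_cardinal_of_nontriviallyNormedField ℚ_[p]
  have h5 : #s ≤ ℵ₀ := Cardinal.le_aleph0_iff_set_countable.2 h2
  rw [h3] at h5
  exact absurd (h4.trans h5) (not_le.2 aleph0_lt_continuum)

end PTG_

open PTG_ in
theorem p_PTG : T_PTG := by
  intro f d p _ x₀ y₀ hd hy hxy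
  have hd0 : (d : ℚ_[p]) ≠ 0 := by exact_mod_cast hd
  -- squares fill a neighbourhood of `y₀ ^ 2`
  have hder : HasStrictDerivAt (fun y : ℚ_[p] => y ^ 2) (2 * y₀) y₀ := by
    have h := (hasStrictDerivAt_id y₀).mul (hasStrictDerivAt_id y₀)
    have e1 : (fun y : ℚ_[p] => y ^ 2) = fun y : ℚ_[p] => id y * id y := by
      funext y
      simp [sq]
    have e2 : (2 * y₀ : ℚ_[p]) = 1 * id y₀ + id y₀ * 1 := by
      simp only [id]
      ring
    rw [e1, e2]
    exact h
  have h2y : (2 * y₀ : ℚ_[p]) ≠ 0 := mul_ne_zero two_ne_zero hy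
  have hmap := hder.map_nhds_eq h2y
  have h1 : Set.range (fun y : ℚ_[p] => y ^ 2) ∈ 𝓝 (y₀ ^ 2) := by
    rw [← hmap]
    exact Filter.range_mem_map
  -- `f / d` is continuous
  have hc0 : Continuous fun x : ℚ_[p] => aeval x f := Polynomial.continuous_aeval f
  have hc : Continuous fun x : ℚ_[p] => (d : ℚ_[p])⁻¹ * aeval x f := by
    exact continuous_const.mul hc0
  have h3 := hc.tendsto x₀
  have h4 : (d : ℚ_[p])⁻¹ * aeval x₀ f = y₀ ^ 2 := by
    rw [← hxy, ← mul_assoc, inv_mul_cancel₀ hd0, one_mul]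
  rw [h4] at h3
  obtain ⟨ξ, hξ, hξt⟩ := exists_transcendental p (h3 h1)
  obtain ⟨η, hη⟩ := hξ
  simp only at hη
  refine ⟨ξ, η, hξt, ?_⟩
  rw [hη, ← mul_assoc, mul_inv_cancel₀ hd0, one_mul]

end Pool.Agent.QTr
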