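import Pool.Agent.QTr.Targets
import Mathlib

/-!
# PTGR: transcendental points near a given real point
-/

open Polynomial

namespace Pool.Agent.QTr

namespace PTGR_

theorem dense_trans : Dense {η : ℝ | Transcendental ℚ η} := by
  have h1 : ({η : ℝ | IsAlgebraic ℚ η}).Countable := Algebraic.countable ℚ ℝ
  have h2 := h1.dense_compl ℝ
  exact h2

end PTGR_

/-- PTGR: transcendental points near a given real point. -/
theorem p_PTGR : T_PTGR := by
  intro f d x₀ y₀ hd hy h
  have hd' : (d : ℝ) ≠ 0 := by exact_mod_cast hd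
  have hcont : Continuous (fun ξ : ℝ => aeval ξ f / (d : ℝ)) := by
    have : Continuous (fun ξ : ℝ => aeval ξ f) := f.continuous_aeval
    exact this.div_const _
  have hopen : IsOpen {ξ : ℝ | 0 < aeval ξ f / (d : ℝ)} := isOpen_lt continuous_const hcont
  have hmem : x₀ ∈ {ξ : ℝ | 0 < aeval ξ f / (d : ℝ)} := by
    show 0 < aeval x₀ f / (d : ℝ)
    rw [← h, mul_div_assoc, mul_comm, div_mul_cancel₀ _ hd']
    positivity
  obtain ⟨ξ, hξ, hpos⟩ := PTGR_.dense_trans.inter_open_nonempty _ hopen ⟨x₀, hmem⟩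
  refine ⟨ξ, Real.sqrt (aeval ξ f / (d : ℝ)), hpos, ?_⟩
  have hξ' : 0 < aeval ξ f / (d : ℝ) := hξ
  rw [Real.sq_sqrt hξ'.le]
  field_simp

end Pool.Agent.QTr
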