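import Pool.Agent.QTr.Targets

/-!
# RES: lower bound for the number of squarefree integers in the residue class of one
-/

open Polynomial NumberField

namespace Pool.Agent.QTr

namespace RES_

theorem pow_cmp (e a b : ℝ) (ha : 0 < a) (h1 : a / 2 ≤ b) (h2 : b ≤ a) :
    (1 / 2 : ℝ) ^ |e| * a ^ e ≤ b ^ e := by
  have hb : 0 < b := by linarith
  rcases le_total 0 e with he | he
  · rw [abs_of_nonneg he, ← Real.mul_rpow (by norm_num) ha.le]
    exact Real.rpow_le_rpow (by positivity) (by linarith) he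
  · have h3 : a ^ e ≤ b ^ e := Real.rpow_le_rpow_of_nonpos hb h2 he
    have h4 : (1 / 2 : ℝ) ^ |e| ≤ 1 :=
      Real.rpow_le_one (by norm_num) (by norm_num) (abs_nonneg e)
    have h5 : 0 ≤ a ^ e := Real.rpow_nonneg ha.le e
    nlinarith

open Classical in
theorem mert_of_finite (P P' : ℕ → Prop) (δ : ℝ) (h : Mert P δ) (hsub : ∀ p, P' p → P p)
    (hfin : {p : ℕ | p.Prime ∧ P p ∧ ¬ P' p}.Finite) : Mert P' δ := by
  obtain ⟨B, hB⟩ := h
  refine ⟨B + ∑ p ∈ hfin.toFinset, Real.log p / p, fun X hX => ?_⟩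
  have key : ∑ p ∈ (Finset.range (X + 1)).filter (fun p => p.Prime ∧ P p), Real.log p / p
     = ∑ p ∈ (Finset.range (X + 1)).filter (fun p => p.Prime ∧ P' p), Real.log p / p
     + ∑ p ∈ (Finset.range (X + 1)).filter (fun p => p.Prime ∧ P p ∧ ¬ P' p),
        Real.log p / p := by
    rw [← Finset.sum_union]
    · apply Finset.sum_congr _ (fun _ _ => rfl)
      ext p
      simp only [Finset.mem_filter, Finset.mem_union, Finset.mem_range]
      have := hsub p
      tauto
    · rw [Finset.disjoint_left]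
      intro p hp hp'
      simp only [Finset.mem_filter] at hp hp'
      exact hp'.2.2.2 hp.2.2
  have hnn : ∀ p : ℕ, 0 ≤ Real.log p / p := fun p =>
    div_nonneg (Real.log_natCast_nonneg p) (Nat.cast_nonneg p)
  have h0 : 0 ≤ ∑ p ∈ (Finset.range (X + 1)).filter (fun p => p.Prime ∧ P p ∧ ¬ P' p),
        Real.log p / p := Finset.sum_nonneg (fun p _ => hnn p)
  have h1 : ∑ p ∈ (Finset.range (X + 1)).filter (fun p => p.Prime ∧ P p ∧ ¬ P' p),
        Real.log p / p ≤ ∑ p ∈ hfin.toFinset, Real.log p / p := by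
    apply Finset.sum_le_sum_of_subset_of_nonneg
    · intro p hp
      simp only [Finset.mem_filter] at hp
      simp only [Set.Finite.mem_toFinset, Set.mem_ofPred_eq]
      exact hp.2
    · intro p _ _
      exact hnn p
  have h2 := hB X hX
  rw [key] at h2
  rw [abs_le] at h2 ⊢
  constructor <;> linarith [h2.1, h2.2]

theorem exists_rep (P : ℕ → Prop) (N : ℕ) (C : Set (ZMod N)ˣ)
    (hC : ∀ u ∈ C, {p : ℕ | p.Prime ∧ P p ∧ (p : ZMod N) = u}.Infinite) (u : (ZMod N)ˣ)
    (hu : u ∈ Submonoid.closure C) :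
    ∃ n : ℕ, 0 < n ∧ Squarefree n ∧ (∀ p ∈ n.primeFactors, P p) ∧ (n : ZMod N) = u := by
  induction hu using Submonoid.closure_induction_right with
  | one => exact ⟨1, one_pos, squarefree_one, by simp, by simp⟩
  | mul_right x hx y hy ih =>
    obtain ⟨n, h0, h1, h2, h3⟩ := ih
    obtain ⟨p, ⟨hp, hP, hpu⟩, hpn⟩ := (hC y hy).exists_gt n
    have hcop : Nat.Coprime n p := by
      rw [Nat.coprime_comm]
      exact Nat.coprime_of_lt_prime (by omega) hpn hp
    refine ⟨n * p, Nat.mul_pos h0 hp.pos, ?_, ?_, ?_⟩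
    · exact (Nat.squarefree_mul hcop).2 ⟨h1, hp.squarefree⟩
    · intro q hq
      rw [Nat.primeFactors_mul h0.ne' hp.ne_zero, Finset.mem_union] at hq
      rcases hq with hq | hq
      · exact h2 q hq
      · rw [hp.primeFactors, Finset.mem_singleton] at hq
        rw [hq]; exact hP
    · push_cast
      rw [h3, hpu]

theorem mem_closure (N : ℕ) (C : Set (ZMod N)ˣ) (m : ℕ) (hm : Squarefree m)
    (h : ∀ p ∈ m.primeFactors, ∃ u ∈ C, (p : ZMod N) = ((u : (ZMod N)ˣ) : ZMod N)) :
    ∃ u ∈ Submonoid.closure C, (m : ZMod N) = ((u : (ZMod N)ˣ) : ZMod N) := by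
  choose! f hf hf' using h
  refine ⟨∏ p ∈ m.primeFactors, f p, ?_, ?_⟩
  · exact Submonoid.prod_mem _ (fun p hp => Submonoid.subset_closure (hf p hp))
  · have h1 : m = ∏ p ∈ m.primeFactors, p := (Nat.prod_primeFactors_of_squarefree hm).symm
    conv_lhs => rw [h1]
    push_cast
    exact Finset.prod_congr rfl (fun p hp => hf' p hp)

end RES_

open RES_

open Classical in
theorem p_RES (h1 : T_SLO) : T_RES := by
  intro P δ N hδ hM hN
  have : NeZero N := ⟨hN.ne'⟩
  set C : Set (ZMod N)ˣ := {u | {p : ℕ | p.Prime ∧ P p ∧ (p : ZMod N) = u}.Infinite} with hCdef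
  have hC : ∀ u ∈ C, {p : ℕ | p.Prime ∧ P p ∧ (p : ZMod N) = u}.Infinite := fun u hu => hu
  -- representatives
  have hrep : ∀ u : (ZMod N)ˣ, ∃ n : ℕ, 0 < n ∧ Squarefree n ∧ (∀ p ∈ n.primeFactors, P p) ∧
      (u ∈ Submonoid.closure C → (n : ZMod N) = u) := by
    intro u
    by_cases hu : u ∈ Submonoid.closure C
    · obtain ⟨n, a, b, c, d⟩ := exists_rep P N C hC u hu
      exact ⟨n, a, b, c, fun _ => d⟩
    · exact ⟨1, one_pos, squarefree_one, by simp, fun h => absurd h hu⟩
  choose n hn0 hnsq hnP hnu using hrep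
  set S : Finset ℕ := Finset.univ.biUnion (fun u : (ZMod N)ˣ => (n u).primeFactors) with hS
  set P' : ℕ → Prop := fun p => P p ∧ (∃ u ∈ C, (p : ZMod N) = ((u : (ZMod N)ˣ) : ZMod N)) ∧
    p ∉ S with hP'
  have hfin : {p : ℕ | p.Prime ∧ P p ∧ ¬ P' p}.Finite := by
    have hsub : {p : ℕ | p.Prime ∧ P p ∧ ¬ P' p} ⊆ (S : Set ℕ) ∪ ((N.divisors : Finset ℕ) : Set ℕ) ∪
        ⋃ u ∈ ((Finset.univ.filter (fun u : (ZMod N)ˣ => u ∉ C) : Finset (ZMod N)ˣ) :
          Set (ZMod N)ˣ), {p : ℕ | p.Prime ∧ P p ∧ (p : ZMod N) = u} := by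
      intro p hp
      obtain ⟨hpp, hPp, hnot⟩ := hp
      by_cases hpS : p ∈ S
      · exact Or.inl (Or.inl hpS)
      by_cases hpN : p ∣ N
      · refine Or.inl (Or.inr ?_)
        simp only [Finset.mem_coe, Nat.mem_divisors]
        exact ⟨hpN, hN.ne'⟩
      · refine Or.inr ?_
        have hcop : Nat.Coprime p N := (Nat.Prime.coprime_iff_not_dvd hpp).2 hpN
        have hu : ((ZMod.unitOfCoprime p hcop : (ZMod N)ˣ) : ZMod N) = (p : ZMod N) :=
          ZMod.coe_unitOfCoprime p hcop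
        simp only [Set.mem_iUnion]
        refine ⟨ZMod.unitOfCoprime p hcop, ?_, hpp, hPp, hu.symm⟩
        simp only [Finset.coe_filter, Finset.mem_univ, true_and, Set.mem_ofPred_eq]
        intro hcon
        exact hnot ⟨hPp, ⟨_, hcon, hu.symm⟩, hpS⟩
    refine Set.Finite.subset (Set.Finite.union (Set.Finite.union (Finset.finite_toSet _)
      (Finset.finite_toSet _)) (Set.Finite.biUnion (Finset.finite_toSet _) ?_)) hsub
    intro u hu
    simp only [Finset.coe_filter, Finset.mem_univ, true_and, Set.mem_ofPred_eq] at hu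
    by_contra hcon
    exact hu hcon
  have hM' : Mert P' δ := mert_of_finite P P' δ hM (fun p hp => hp.1) hfin
  obtain ⟨c, hc, X₀, hX₀⟩ := h1 P' δ hδ hM'
  obtain ⟨K, hK⟩ : ∃ K : ℕ, ∀ u, n u ≤ K :=
    ⟨Finset.univ.sup n, fun u => Finset.le_sup (Finset.mem_univ u)⟩
  have hK1 : 1 ≤ K := le_trans (hn0 1) (hK 1)
  set U : ℕ := Fintype.card (ZMod N)ˣ with hU
  have hU1 : 1 ≤ U := Fintype.card_pos
  -- the counting inequality
  have hcount : ∀ X : ℕ, (SF P' (X / K)).card ≤
      U * ((SF P X).filter (fun m => m % N = 1 % N)).card := by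
    intro X
    have hcl : ∀ m ∈ SF P' (X / K), ∃ u ∈ Submonoid.closure C,
        (m : ZMod N) = ((u : (ZMod N)ˣ) : ZMod N) := by
      intro m hm
      simp only [SF, Finset.mem_filter, Finset.mem_Icc] at hm
      exact mem_closure N C m hm.2.1 (fun p hp => (hm.2.2 p hp).2.1)
    choose! f hf hf' using hcl
    have hinv : ∀ u ∈ Submonoid.closure C, u⁻¹ ∈ Submonoid.closure C := by
      intro u hu
      have hpos : 0 < orderOf u := orderOf_pos u
      have : u⁻¹ = u ^ (orderOf u - 1) := by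
        rw [inv_eq_iff_mul_eq_one, ← pow_succ']
        rw [Nat.sub_add_cancel hpos, pow_orderOf_eq_one]
      rw [this]
      exact Submonoid.pow_mem _ hu _
    have hcard : (SF P' (X / K)).card ≤
        ((Finset.univ : Finset (ZMod N)ˣ) ×ˢ
          ((SF P X).filter (fun m => m % N = 1 % N))).card := by
      apply Finset.card_le_card_of_injOn (fun m => ((f m)⁻¹, m * n (f m)⁻¹))
      · intro m hm
        have hm0 := hm
        simp only [SF, Finset.coe_filter, Set.mem_ofPred_eq, Finset.mem_Icc] at hm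
        obtain ⟨⟨hm1, hm2⟩, hmsq, hmP⟩ := hm
        simp only [Finset.coe_product, Set.mem_prod, Finset.coe_univ, Set.mem_univ, true_and,
          Finset.coe_filter, Set.mem_ofPred_eq, SF, Finset.mem_filter, Finset.mem_Icc]
        have hcop : Nat.Coprime m (n (f m)⁻¹) := by
          rw [Nat.coprime_iff_gcd_eq_one]
          by_contra hcon
          obtain ⟨q, hq, hqd⟩ := Nat.exists_prime_and_dvd hcon
          have hq1 : q ∣ m := dvd_trans hqd (Nat.gcd_dvd_left _ _)
          have hq2 : q ∣ n (f m)⁻¹ := dvd_trans hqd (Nat.gcd_dvd_right _ _)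
          have hqm : q ∈ m.primeFactors := Nat.mem_primeFactors.2 ⟨hq, hq1, by omega⟩
          have hqn : q ∈ (n (f m)⁻¹).primeFactors :=
            Nat.mem_primeFactors.2 ⟨hq, hq2, (hn0 _).ne'⟩
          apply (hmP q hqm).2.2
          rw [hS, Finset.mem_biUnion]
          exact ⟨_, Finset.mem_univ _, hqn⟩
        refine ⟨⟨⟨?_, ?_⟩, ?_, ?_⟩, ?_⟩
        · exact Nat.mul_pos hm1 (hn0 _)
        · calc m * n (f m)⁻¹ ≤ (X / K) * K := Nat.mul_le_mul hm2 (hK _)
            _ ≤ X := Nat.div_mul_le_self X K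
        · exact (Nat.squarefree_mul hcop).2 ⟨hmsq, hnsq _⟩
        · intro q hq
          rw [Nat.primeFactors_mul (by omega) (hn0 _).ne', Finset.mem_union] at hq
          rcases hq with hq | hq
          · exact (hmP q hq).1
          · exact hnP _ q hq
        · have e1 : ((m * n (f m)⁻¹ : ℕ) : ZMod N) = ((1 : ℕ) : ZMod N) := by
            push_cast
            rw [hf' m hm0, hnu _ (hinv _ (hf m hm0))]
            simp
          exact (ZMod.natCast_eq_natCast_iff' _ _ _).1 e1
      · intro m hm m' hm' heq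
        simp only [Prod.mk.injEq] at heq
        obtain ⟨e1, e2⟩ := heq
        rw [e1] at e2
        exact Nat.eq_of_mul_eq_mul_right (hn0 _) e2
    rw [Finset.card_product, Finset.card_univ] at hcard
    exact hcard
  -- final estimate
  refine ⟨c * (1 / (2 * K)) * (1 / 2 : ℝ) ^ |δ - 1| / U, ?_, max (4 * K ^ 2 + 4) (K * (X₀ + 1)), ?_⟩
  · have : (0 : ℝ) < K := by exact_mod_cast hK1
    have : (0 : ℝ) < U := by exact_mod_cast hU1
    positivity
  · intro X hX
    have hX1 : 4 * K ^ 2 + 4 ≤ X := le_trans (le_max_left _ _) hX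
    have hX2 : K * (X₀ + 1) ≤ X := le_trans (le_max_right _ _) hX
    set Y := X / K with hY
    have hYX₀ : X₀ ≤ Y := by
      rw [hY, Nat.le_div_iff_mul_le hK1]
      nlinarith
    have hKpos : (0 : ℝ) < K := by exact_mod_cast hK1
    have hK1' : (1 : ℝ) ≤ K := by exact_mod_cast hK1
    have hUpos : (0 : ℝ) < U := by exact_mod_cast hU1
    have hX1' : 4 * (K : ℝ) ^ 2 + 4 ≤ X := by exact_mod_cast hX1
    have hXpos : (0 : ℝ) < X := by nlinarith
    -- Y ≥ X / (2K)
    have hYlow : (X : ℝ) / (2 * K) ≤ Y := by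
      have h3 : X < (Y + 1) * K := by
        rw [hY]
        have h4 := Nat.div_add_mod X K
        have h5 := Nat.mod_lt X hK1
        nlinarith
      have h3' : (X : ℝ) < ((Y : ℝ) + 1) * K := by exact_mod_cast h3
      rw [div_le_iff₀ (by positivity)]
      nlinarith
    have hYle : (Y : ℝ) ≤ X := by
      exact_mod_cast Nat.div_le_self X K
    have hlogX : 0 < Real.log X := Real.log_pos (by nlinarith)
    have hYpos : (0 : ℝ) < Y := lt_of_lt_of_le (by positivity) hYlow
    have hlog1 : Real.log X / 2 ≤ Real.log Y := by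
      have h6 : (X : ℝ) ≤ (Y : ℝ) ^ 2 := by
        have h7 : ((X : ℝ) / (2 * K)) ^ 2 ≤ (Y : ℝ) ^ 2 :=
          pow_le_pow_left₀ (by positivity) hYlow 2
        refine le_trans ?_ h7
        rw [div_pow, le_div_iff₀ (by positivity)]
        nlinarith
      have h8 := Real.log_le_log hXpos h6
      rw [Real.log_pow] at h8
      push_cast at h8
      linarith
    have hlog2 : Real.log Y ≤ Real.log X := Real.log_le_log hYpos hYle
    have hp := pow_cmp (δ - 1) (Real.log X) (Real.log Y) hlogX hlog1 hlog2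
    have hmain := hX₀ Y hYX₀
    have hcnt : ((SF P' Y).card : ℝ) ≤
        U * (((SF P X).filter (fun m => m % N = 1 % N)).card : ℝ) := by
      exact_mod_cast hcount X
    have hpow0 : 0 ≤ (Real.log X) ^ (δ - 1) := Real.rpow_nonneg hlogX.le _
    have hhalf : 0 ≤ (1 / 2 : ℝ) ^ |δ - 1| := Real.rpow_nonneg (by norm_num) _
    have step : c * (X / (2 * K)) * ((1 / 2 : ℝ) ^ |δ - 1| * (Real.log X) ^ (δ - 1)) ≤
        c * Y * (Real.log Y) ^ (δ - 1) := by
      apply mul_le_mul _ hp (by positivity) (by positivity)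
      exact mul_le_mul_of_nonneg_left hYlow hc.le
    have fin : c * (X / (2 * K)) * ((1 / 2 : ℝ) ^ |δ - 1| * (Real.log X) ^ (δ - 1)) ≤
        U * (((SF P X).filter (fun m => m % N = 1 % N)).card : ℝ) :=
      le_trans step (le_trans hmain hcnt)
    have e3 : c * (1 / (2 * K)) * (1 / 2 : ℝ) ^ |δ - 1| / U * X * (Real.log X) ^ (δ - 1) =
        (c * (X / (2 * K)) * ((1 / 2 : ℝ) ^ |δ - 1| * (Real.log X) ^ (δ - 1))) / U := by
      field_simp
    rw [e3, div_le_iff₀ hUpos]
    linarith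

end Pool.Agent.QTr
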