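import Pool.Agent.QTr.Targets
import Pool.Agent.QTx.GOODQ

/-!
# RTJ: roots modulo `p` and roots in `M` that are mapped into `ℚ_p`
-/

open Polynomial NumberField
open Pool.Agent.QTw (IsFunctionField IsCovering HasPoint TwistSelNonempty TwistEverywhereLocal
  primesTo cfgs idealCount rootCount)
open Pool.Agent.QTx (GoodFactors2 Model Ty Rts mdl IsEnum PtData)

namespace Pool.Agent.QTr

namespace RTJ_

open Pool.Agent.QTx.GOODQ_
open Pool.Agent.QTw.LOCP_ (bez aeval_coe)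

variable {p : ℕ} [hp : Fact p.Prime]

/-- reduction of an integral root in `ℚ_p` -/
theorem exists_red {f : ℤ[X]} {r : ℚ_[p]} (hr : ‖r‖ ≤ 1) (h0 : aeval r f = 0) :
    ∃ a : ℕ, a < p ∧ (p : ℤ) ∣ f.eval (a : ℤ) ∧ ‖r - (a : ℚ_[p])‖ < 1 := by
  set x : ℤ_[p] := ⟨r, hr⟩ with hx
  obtain ⟨a, ha, hm⟩ := PadicInt.exists_mem_range (p := p) x
  have hn : ‖x - (a : ℤ_[p])‖ < 1 := by
    rw [IsLocalRing.mem_maximalIdeal, PadicInt.mem_nonunits] at hm
    exact hm
  have hx0 : aeval x f = 0 := by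
    have h1 := aeval_coe f x
    have h2 : ((x : ℤ_[p]) : ℚ_[p]) = r := rfl
    rw [h2, h0] at h1
    apply Subtype.ext
    exact h1.symm
  refine ⟨a, ha, ?_, ?_⟩
  · rw [← PadicInt.norm_int_lt_one_iff_dvd]
    obtain ⟨c, hc⟩ := Polynomial.sub_dvd_eval_sub x (a : ℤ_[p]) (f.map (algebraMap ℤ ℤ_[p]))
    rw [eval_map_algebraMap, eval_map_algebraMap, hx0, zero_sub] at hc
    have hev : aeval ((a : ℤ) : ℤ_[p]) f = ((f.eval (a : ℤ) : ℤ) : ℤ_[p]) := by
      rw [aeval_def]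
      simp
    have hev' : aeval (a : ℤ_[p]) f = ((f.eval (a : ℤ) : ℤ) : ℤ_[p]) := by
      rw [← hev, Int.cast_natCast]
    rw [← hev', ← norm_neg, hc, norm_mul]
    have h3 := PadicInt.norm_le_one c
    have h4 := norm_nonneg c
    have h5 := norm_nonneg (x - (a : ℤ_[p]))
    nlinarith
  · have h6 : ‖((x - (a : ℤ_[p]) : ℤ_[p]) : ℚ_[p])‖ < 1 := by
      rw [← PadicInt.norm_def]
      exact hn
    have h7 : ((x - (a : ℤ_[p]) : ℤ_[p]) : ℚ_[p]) = r - (a : ℚ_[p]) := by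
      push_cast
      rfl
    rw [h7] at h6
    exact h6

theorem eq_of_close {a b : ℕ} (ha : a < p) (hb : b < p) {r : ℚ_[p]}
    (h1 : ‖r - (a : ℚ_[p])‖ < 1) (h2 : ‖r - (b : ℚ_[p])‖ < 1) : a = b := by
  have h3 : ‖(((a : ℤ) - (b : ℤ) : ℤ) : ℚ_[p])‖ < 1 := by
    have e : (((a : ℤ) - (b : ℤ) : ℤ) : ℚ_[p]) = (r - (b : ℚ_[p])) + -(r - (a : ℚ_[p])) := by
      push_cast
      ring
    rw [e]
    refine lt_of_le_of_lt (IsUltrametricDist.norm_add_le_max _ _) ?_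
    rw [norm_neg]
    exact max_lt h2 h1
  rw [Padic.norm_intCast_lt_one_iff] at h3
  have h4 : (a : ℤ) - b = 0 := by
    apply Int.eq_zero_of_abs_lt_dvd h3
    rw [abs_lt]
    omega
  omega

end RTJ_

open Pool.Agent.QTx.GOODQ_ RTJ_ in
theorem p_RTJ : T_RTJ := by
  intro f M _ _ hdeg hsq hspl
  have hf0 : f ≠ 0 := by
    rintro rfl
    simp at hdeg
  have hsep : (f.map (Int.castRingHom ℚ)).Separable :=
    PerfectField.separable_iff_squarefree.mpr hsq
  obtain ⟨A, B, R, hR0, hR⟩ : ∃ (A B : ℤ[X]) (R : ℤ), R ≠ 0 ∧ A * f + B * derivative f = C R := by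
    refine Pool.Agent.QTw.LOCP_.bez ?_
    rw [← derivative_map]
    exact hsep
  refine ⟨f.leadingCoeff.natAbs * R.natAbs, ?_, ?_⟩
  · have h1 : 0 < f.leadingCoeff.natAbs := Int.natAbs_pos.mpr (leadingCoeff_ne_zero.mpr hf0)
    have h2 : 0 < R.natAbs := Int.natAbs_pos.mpr hR0
    positivity
  intro p hp hpN j
  have qlc : ¬ (p : ℤ) ∣ f.leadingCoeff := fun h => hpN (by
    have := Int.natCast_dvd.mp h
    exact this.mul_right _)
  have qR : ¬ (p : ℤ) ∣ R := fun h => hpN (by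
    have := Int.natCast_dvd.mp h
    exact this.mul_left _)
  have hint : ∀ t : PadicAlgCl p, aeval t f = 0 → ‖t‖ ≤ 1 := fun t ht => root_int qlc ht
  have hder : ∀ t : PadicAlgCl p, aeval t f = 0 → ‖aeval t (derivative f)‖ = 1 := fun t ht =>
    bez_norm hR qR (hint t ht) ht
  -- evaluation in the extensions
  have hmapQ : ∀ r : ℚ_[p], aeval (algebraMap ℚ_[p] (PadicAlgCl p) r) f =
      algebraMap ℚ_[p] (PadicAlgCl p) (aeval r f) := by
    intro r
    exact Polynomial.aeval_algebraMap_apply (PadicAlgCl p) r f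
  have hmapM : ∀ θ : M, aeval (j θ) f = j (aeval θ f) := by
    intro θ
    have h1 := Polynomial.hom_eval₂ f (algebraMap ℤ M) j θ
    have e : j.comp (algebraMap ℤ M) = algebraMap ℤ (PadicAlgCl p) := RingHom.ext_int _ _
    rw [e] at h1
    rw [aeval_def, aeval_def]
    exact h1.symm
  have hredex : ∀ r : ℚ_[p], aeval (algebraMap ℚ_[p] (PadicAlgCl p) r) f = 0 →
      ∃ a : ℕ, a < p ∧ (p : ℤ) ∣ f.eval (a : ℤ) ∧ ‖r - (a : ℚ_[p])‖ < 1 := by
    intro r hr
    apply exists_red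
    · rw [← norm_algMap]
      exact hint _ hr
    · rw [hmapQ] at hr
      exact (map_eq_zero_iff _ (algebraMap ℚ_[p] (PadicAlgCl p)).injective).mp hr
  have hX : ∀ x : {θ : M // aeval θ f = 0 ∧ ∃ r : ℚ_[p],
      algebraMap ℚ_[p] (PadicAlgCl p) r = j θ}, ∃ a : ℕ, ∃ r : ℚ_[p],
      algebraMap ℚ_[p] (PadicAlgCl p) r = j x.1 ∧ a < p ∧ (p : ℤ) ∣ f.eval (a : ℤ) ∧
      ‖r - (a : ℚ_[p])‖ < 1 := by
    rintro ⟨θ, h0, r, hr⟩
    obtain ⟨a, ha⟩ := hredex r (by rw [hr, hmapM, h0, map_zero])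
    exact ⟨a, r, hr, ha⟩
  choose ρ ϱ hρ1 hρ2 hρ3 hρ4 using hX
  unfold rootCount
  rw [← Nat.card_eq_finsetCard]
  refine Nat.card_eq_of_bijective (fun x => (⟨ρ x, by
    rw [Finset.mem_filter, Finset.mem_range]
    exact ⟨hρ2 x, hρ3 x⟩⟩ : {a // a ∈ (Finset.range p).filter
      (fun a : ℕ => (p : ℤ) ∣ f.eval (a : ℤ))})) ⟨?_, ?_⟩
  · intro x y hxy
    have hxy' : ρ x = ρ y := congrArg Subtype.val hxy
    apply Subtype.ext
    apply j.injective
    rw [← hρ1 x, ← hρ1 y]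
    congr 1
    by_contra hne
    have h0 : ∀ z, aeval (algebraMap ℚ_[p] (PadicAlgCl p) (ϱ z)) f = 0 := by
      intro z
      rw [hρ1 z, hmapM, z.2.1, map_zero]
    have h1 := sep_of_der (hint _ (h0 x)) (hint _ (h0 y)) (h0 x) (h0 y) (hder _ (h0 x))
      (fun h => hne ((algebraMap ℚ_[p] (PadicAlgCl p)).injective h))
    rw [← map_sub, norm_algMap] at h1
    have h2 : ‖ϱ x - ϱ y‖ < 1 := by
      have e : ϱ x - ϱ y = (ϱ x - (ρ x : ℚ_[p])) + -(ϱ y - (ρ y : ℚ_[p])) := by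
        rw [hxy']
        ring
      rw [e]
      refine lt_of_le_of_lt (IsUltrametricDist.norm_add_le_max _ _) ?_
      rw [norm_neg]
      exact max_lt (hρ4 x) (hρ4 y)
    linarith
  · rintro ⟨a, ha⟩
    rw [Finset.mem_filter, Finset.mem_range] at ha
    obtain ⟨t, ht0, ht1⟩ := hens hR qR (a : ℤ) ha.2
    have ht2 : aeval (algebraMap ℚ_[p] (PadicAlgCl p) t) f = 0 := by
      rw [hmapQ, ht0, map_zero]
    have hroots : (f.map (algebraMap ℤ (PadicAlgCl p))).roots =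
        ((f.map (algebraMap ℤ M)).roots).map j := by
      rw [← hspl.roots_map j, Polynomial.map_map]
      congr 2
      exact (RingHom.ext_int _ _)
    have hmem : algebraMap ℚ_[p] (PadicAlgCl p) t ∈ (f.map (algebraMap ℤ (PadicAlgCl p))).roots := by
      rw [Polynomial.mem_roots_map_of_injective
        (RingHom.injective_int (algebraMap ℤ (PadicAlgCl p))) hf0]
      exact ht2
    rw [hroots, Multiset.mem_map] at hmem
    obtain ⟨θ, hθ, hθt⟩ := hmem
    have hθ0 : aeval θ f = 0 := by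
      rw [Polynomial.mem_roots_map_of_injective
        (RingHom.injective_int (algebraMap ℤ M)) hf0] at hθ
      exact hθ
    refine ⟨⟨θ, hθ0, t, hθt.symm⟩, ?_⟩
    apply Subtype.ext
    show ρ _ = a
    set x : {θ : M // aeval θ f = 0 ∧ ∃ r : ℚ_[p],
      algebraMap ℚ_[p] (PadicAlgCl p) r = j θ} := ⟨θ, hθ0, t, hθt.symm⟩ with hx
    have h1 : ϱ x = t := by
      apply (algebraMap ℚ_[p] (PadicAlgCl p)).injective
      rw [hρ1 x]
      exact hθt
    have h2 := hρ4 x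
    rw [h1] at h2
    refine eq_of_close (hρ2 x) ha.1 h2 ?_
    simpa using ht1

end Pool.Agent.QTr
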