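import Pool.Agent.QTr.Targets

set_option autoImplicit false

/-! # RTP: roots modulo `p` lift to roots in `ℚ_p` -/

open Polynomial
open Pool.Agent.QTw (rootCount)

namespace Pool.Agent.QTr

namespace RTP_

/-- a Bezout identity over the integers -/
theorem bezout (g : ℤ[X]) (hg : Squarefree (g.map (Int.castRingHom ℚ))) :
    ∃ D : ℤ, D ≠ 0 ∧ ∃ u v : ℤ[X], u * g + v * derivative g = C D := by
  obtain ⟨a, b, hab⟩ := PerfectField.separable_iff_squarefree.2 hg
  obtain ⟨ca, hca, ha⟩ := IsLocalization.integerNormalization_spec (nonZeroDivisors ℤ) a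
  obtain ⟨cb, hcb, hb⟩ := IsLocalization.integerNormalization_spec (nonZeroDivisors ℤ) b
  have hca0 : ca ≠ 0 := nonZeroDivisors.ne_zero hca
  have hcb0 : cb ≠ 0 := nonZeroDivisors.ne_zero hcb
  refine ⟨ca * cb, mul_ne_zero hca0 hcb0,
    C cb * IsLocalization.integerNormalization (nonZeroDivisors ℤ) a,
    C ca * IsLocalization.integerNormalization (nonZeroDivisors ℤ) b, ?_⟩
  apply Polynomial.map_injective (algebraMap ℤ ℚ) (RingHom.injective_int _)
  have e : algebraMap ℤ ℚ = Int.castRingHom ℚ := rfl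
  rw [Polynomial.map_add, Polynomial.map_mul, Polynomial.map_mul, Polynomial.map_mul,
    Polynomial.map_mul, ha, hb, Polynomial.map_C, Polynomial.map_C, Polynomial.map_C,
    ← Polynomial.derivative_map, e]
  have h1 : ca • a = C (ca : ℚ) * a := by
    rw [← Polynomial.smul_eq_C_mul, Int.cast_smul_eq_zsmul]
  have h2 : cb • b = C (cb : ℚ) * b := by
    rw [← Polynomial.smul_eq_C_mul, Int.cast_smul_eq_zsmul]
  rw [h1, h2]
  have h3 : (Int.castRingHom ℚ) ca = (ca : ℚ) := rfl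
  have h4 : (Int.castRingHom ℚ) cb = (cb : ℚ) := rfl
  have h5 : (Int.castRingHom ℚ) (ca * cb) = (ca : ℚ) * cb := by simp
  rw [h3, h4, h5, map_mul]
  linear_combination (C (ca : ℚ) * C (cb : ℚ)) * hab

end RTP_

open RTP_ in
theorem p_RTP : T_RTP := by
  intro f _ hf
  obtain ⟨D, hD, u, v, h⟩ := bezout f hf
  refine ⟨D.natAbs, Int.natAbs_pos.2 hD, ?_⟩
  intro p _ hpD hroot
  have hpD' : ¬ (p : ℤ) ∣ D := by
    intro h'
    exact hpD (Int.natCast_dvd.1 h')
  unfold rootCount at hroot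
  obtain ⟨t, ht⟩ := Finset.card_pos.1 hroot
  rw [Finset.mem_filter] at ht
  obtain ⟨-, ht⟩ := ht
  have key : ∀ g : ℤ[X], aeval ((t : ℕ) : ℤ_[p]) g = ((g.eval (t : ℤ) : ℤ) : ℤ_[p]) := by
    intro g
    have h1 : ((t : ℕ) : ℤ_[p]) = algebraMap ℤ ℤ_[p] (t : ℤ) := by simp
    rw [h1, Polynomial.aeval_algebraMap_apply]
    simp
  have hder : ¬ (p : ℤ) ∣ (derivative f).eval (t : ℤ) := by
    intro hd
    apply hpD'
    have h1 := congrArg (Polynomial.eval (t : ℤ)) h
    rw [eval_add, eval_mul, eval_mul, eval_C] at h1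
    rw [← h1]
    exact dvd_add (Dvd.dvd.mul_left ht _) (Dvd.dvd.mul_left hd _)
  have hn1 : ‖aeval ((t : ℕ) : ℤ_[p]) (derivative f)‖ = 1 := by
    rw [key]
    apply le_antisymm (PadicInt.norm_le_one _)
    rw [← not_lt, PadicInt.norm_int_lt_one_iff_dvd]
    exact hder
  have hn2 : ‖aeval ((t : ℕ) : ℤ_[p]) f‖ < 1 := by
    rw [key, PadicInt.norm_int_lt_one_iff_dvd]
    exact ht
  obtain ⟨z, hz, -, hz2, -⟩ := hensels_lemma (p := p) (R := ℤ) (F := f) (a := ((t : ℕ) : ℤ_[p]))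
    (by rw [hn1, one_pow]; exact hn2)
  rw [hn1] at hz2
  refine ⟨algebraMap ℤ_[p] ℚ_[p] z, ?_, ?_⟩
  · rw [Polynomial.aeval_algebraMap_apply, hz, map_zero]
  · rw [Polynomial.aeval_algebraMap_apply]
    intro h0
    have h1 : ‖aeval z (derivative f)‖ = 0 := by
      have h2 : aeval z (derivative f) = 0 := by
        have h3 : Function.Injective (algebraMap ℤ_[p] ℚ_[p]) := IsFractionRing.injective _ _
        exact h3 (by rw [h0, map_zero])
      rw [h2, norm_zero]
    rw [h1] at hz2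
    exact zero_ne_one hz2

end Pool.Agent.QTr
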