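import Pool.Agent.QTr.Targets

set_option autoImplicit false

/-! # SLO: lower bound for the number of integers composed of given primes -/

namespace Pool.Agent.QTr

namespace SLO_

open Classical in
/-- the Chebyshev function -/
noncomputable def th (P : ℕ → Prop) (X : ℕ) : ℝ :=
  ∑ p ∈ (Finset.range (X + 1)).filter (fun p => p.Prime ∧ P p), Real.log p

theorem log_sum {m : ℕ} (hm : Squarefree m) :
    ∑ p ∈ m.primeFactors, Real.log (p : ℝ) = Real.log (m : ℝ) := by
  have h := Nat.prod_primeFactors_of_squarefree hm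
  conv_rhs => rw [← h]
  push_cast
  rw [Real.log_prod]
  intro p hp
  exact_mod_cast (Nat.prime_of_mem_primeFactors hp).ne_zero

open Classical in
theorem key (P : ℕ → Prop) (X Y : ℕ) :
    ∑ m ∈ SF P Y, (th P (X / m) - Real.log m) ≤ ((SF P X).card : ℝ) * Real.log X := by
  have hmem : ∀ Z m : ℕ, m ∈ SF P Z ↔
      (1 ≤ m ∧ m ≤ Z) ∧ Squarefree m ∧ ∀ p ∈ m.primeFactors, P p := by
    intro Z m
    unfold SF
    rw [Finset.mem_filter, Finset.mem_Icc]
  -- upper bound
  have h1 : ∑ m ∈ SF P X, Real.log (m : ℝ) ≤ ((SF P X).card : ℝ) * Real.log X := by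
    rw [← nsmul_eq_mul]
    refine Finset.sum_le_card_nsmul _ _ _ fun m hm => ?_
    obtain ⟨⟨h2, h3⟩, -⟩ := (hmem X m).1 hm
    exact Real.log_le_log (by exact_mod_cast h2) (by exact_mod_cast h3)
  refine le_trans ?_ h1
  have h2 : ∑ m ∈ SF P X, Real.log (m : ℝ) =
      ∑ x ∈ (SF P X).sigma (fun m => m.primeFactors), Real.log (x.2 : ℝ) := by
    rw [Finset.sum_sigma]
    refine Finset.sum_congr rfl fun m hm => ?_
    exact (log_sum ((hmem X m).1 hm).2.1).symm
  rw [h2]
  let Q : ℕ → Finset ℕ := fun m =>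
    (Finset.range (X / m + 1)).filter (fun p => (p.Prime ∧ P p) ∧ ¬ p ∣ m)
  have h3 : ∑ m ∈ SF P Y, (th P (X / m) - Real.log m) ≤
      ∑ x ∈ (SF P Y).sigma Q, Real.log (x.2 : ℝ) := by
    rw [Finset.sum_sigma]
    refine Finset.sum_le_sum fun m hm => ?_
    obtain ⟨⟨hm1, -⟩, hm2, -⟩ := (hmem Y m).1 hm
    have h4 : th P (X / m) ≤ ∑ p ∈ Q m, Real.log (p : ℝ) + ∑ p ∈ m.primeFactors, Real.log (p : ℝ) := by
      unfold th
      rw [← Finset.sum_filter_add_sum_filter_not _ (fun p => ¬ p ∣ m)]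
      refine add_le_add (le_of_eq ?_) ?_
      · rw [Finset.filter_filter]
      · refine Finset.sum_le_sum_of_subset_of_nonneg ?_ ?_
        · intro p hp
          rw [Finset.mem_filter, Finset.mem_filter, not_not] at hp
          rw [Nat.mem_primeFactors]
          exact ⟨hp.1.2.1, hp.2, by omega⟩
        · intro p hp _
          exact Real.log_nonneg (by exact_mod_cast (Nat.prime_of_mem_primeFactors hp).one_le)
    rw [log_sum hm2] at h4
    linarith
  refine h3.trans ?_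
  let g : (Σ _ : ℕ, ℕ) → (Σ _ : ℕ, ℕ) := fun x => ⟨x.1 * x.2, x.2⟩
  have hginj : Set.InjOn g ((SF P Y).sigma Q : Set (Σ _ : ℕ, ℕ)) := by
    rintro ⟨m, p⟩ hx ⟨m', p'⟩ hy h
    rw [Finset.mem_coe, Finset.mem_sigma] at hx
    simp only [g, Sigma.mk.injEq, heq_eq_eq] at h
    obtain ⟨h4, h5⟩ := h
    subst h5
    have hp : p.Prime := by
      have := hx.2
      simp only [Q, Finset.mem_filter] at this
      exact this.2.1.1
    have h6 : m = m' := Nat.eq_of_mul_eq_mul_right hp.pos h4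
    rw [h6]
  have h5 : ∑ x ∈ (SF P Y).sigma Q, Real.log (x.2 : ℝ) =
      ∑ x ∈ ((SF P Y).sigma Q).image g, Real.log (x.2 : ℝ) := by
    rw [Finset.sum_image hginj]
  rw [h5]
  refine Finset.sum_le_sum_of_subset_of_nonneg ?_ ?_
  · intro y hy
    obtain ⟨⟨m, p⟩, hx, rfl⟩ := Finset.mem_image.1 hy
    rw [Finset.mem_sigma] at hx
    obtain ⟨hm, hp⟩ := hx
    simp only [Q, Finset.mem_filter, Finset.mem_range] at hp
    obtain ⟨hpX, ⟨hpp, hPp⟩, hpm⟩ := hp
    obtain ⟨⟨hm1, -⟩, hm2, hm3⟩ := (hmem Y m).1 hm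
    have hcop : Nat.Coprime m p := ((Nat.Prime.coprime_iff_not_dvd hpp).2 hpm).symm
    simp only [g, Finset.mem_sigma]
    constructor
    · rw [hmem]
      refine ⟨⟨Nat.mul_pos hm1 hpp.pos, ?_⟩, ?_, ?_⟩
      · have h6 : p ≤ X / m := by
          show p ≤ X / m
          have : p < X / m + 1 := hpX
          omega
        calc m * p ≤ m * (X / m) := Nat.mul_le_mul_left _ h6
          _ ≤ X := Nat.mul_div_le X m
      · rw [Nat.squarefree_mul hcop]
        exact ⟨hm2, hpp.squarefree⟩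
      · intro q hq
        rw [Nat.primeFactors_mul (by omega) hpp.ne_zero, Finset.mem_union, hpp.primeFactors,
          Finset.mem_singleton] at hq
        rcases hq with h | h
        · exact hm3 q h
        · rw [h]; exact hPp
    · rw [Nat.mem_primeFactors]
      exact ⟨hpp, Dvd.intro_left m rfl, Nat.mul_ne_zero (by omega) hpp.ne_zero⟩
  · intro x hx _
    rw [Finset.mem_sigma] at hx
    exact Real.log_nonneg (by exact_mod_cast (Nat.prime_of_mem_primeFactors hx.2).one_le)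

end SLO_

open SLO_ in
theorem p_SLO (h1 : T_CHA) (h2 : T_TLO) : T_SLO := by
  classical
  intro P δ hδ hP
  obtain ⟨c1, hc1, X1, hX1⟩ := h1 P δ hδ hP
  obtain ⟨c2, hc2, X2, hX2⟩ := h2 P δ hδ hP
  set c3 : ℝ := c1 / 2 * c2 * (1 / 4 : ℝ) ^ δ with hc3
  have hc3pos : 0 < c3 := by positivity
  -- the error term
  have herr : ∀ᶠ x : ℝ in Filter.atTop, Real.log x ≤ c3 / 2 * Real.sqrt x := by
    have h3 : (fun x : ℝ => Real.log x) =o[Filter.atTop] fun x : ℝ => x ^ (1 / 2 : ℝ) :=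
      isLittleO_log_rpow_atTop (by norm_num)
    have h4 := h3.bound (c := c3 / 2) (by positivity)
    filter_upwards [h4, Filter.eventually_ge_atTop (1 : ℝ)] with x hx hx1
    rw [Real.norm_of_nonneg (Real.log_nonneg hx1),
      Real.norm_of_nonneg (Real.rpow_nonneg (by linarith) _), ← Real.sqrt_eq_rpow] at hx
    exact hx
  obtain ⟨x0, hx0⟩ := Filter.eventually_atTop.1 herr
  refine ⟨c3 / 2, by positivity, max (max (X1 ^ 2) (X2 ^ 2)) (max 16 ⌈x0⌉₊), ?_⟩
  intro X hX
  have hXa : X1 ^ 2 ≤ X := le_trans (le_trans (le_max_left _ _) (le_max_left _ _)) hX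
  have hXb : X2 ^ 2 ≤ X := le_trans (le_trans (le_max_right _ _) (le_max_left _ _)) hX
  have hXc : 16 ≤ X := le_trans (le_trans (le_max_left _ _) (le_max_right _ _)) hX
  have hXd : ⌈x0⌉₊ ≤ X := le_trans (le_trans (le_max_right _ _) (le_max_right _ _)) hX
  have hXd' : x0 ≤ X := (Nat.le_ceil x0).trans (by exact_mod_cast hXd)
  have hXr : (16 : ℝ) ≤ X := by exact_mod_cast hXc
  have hXpos : (0 : ℝ) < X := by linarith
  set Y := Nat.sqrt X with hY
  have hY1 : X1 ≤ Y := by
    rw [hY, Nat.le_sqrt']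
    exact hXa
  have hY2 : X2 ≤ Y := by
    rw [hY, Nat.le_sqrt']
    exact hXb
  have hY4 : 4 ≤ Y := by
    rw [hY, Nat.le_sqrt']
    exact hXc
  have hYX : Y * Y ≤ X := Nat.sqrt_le X
  have hYs : (Y : ℝ) ≤ Real.sqrt X := by
    apply Real.le_sqrt_of_sq_le
    rw [sq]
    exact_mod_cast hYX
  have hXY : X < (Y + 1) * (Y + 1) := Nat.lt_succ_sqrt X
  have hlogX1 : 1 ≤ Real.log X := by
    rw [Real.le_log_iff_exp_le hXpos]
    have := Real.exp_one_lt_d9
    linarith
  have hlogY : 1 / 4 * Real.log X ≤ Real.log Y := by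
    have h3 : (X : ℝ) ≤ (Y : ℝ) ^ 4 := by
      have h4 : X ≤ Y ^ 4 := by
        have h5 : (Y + 1) * (Y + 1) ≤ Y ^ 4 := by
          have h6 : Y + 1 ≤ Y ^ 2 := by nlinarith
          calc (Y + 1) * (Y + 1) ≤ Y ^ 2 * Y ^ 2 := Nat.mul_le_mul h6 h6
            _ = Y ^ 4 := by ring
        omega
      exact_mod_cast h4
    have h4 := Real.log_le_log hXpos h3
    rw [Real.log_pow] at h4
    push_cast at h4
    linarith
  have hkey := key P X Y
  have hlow : ∀ m ∈ SF P Y, c1 / 2 * X * (1 / (m : ℝ)) - Real.log Y ≤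
      th P (X / m) - Real.log m := by
    intro m hm
    unfold SF at hm
    rw [Finset.mem_filter, Finset.mem_Icc] at hm
    obtain ⟨⟨hm1, hmY⟩, -⟩ := hm
    have hmpos : (0 : ℝ) < m := by exact_mod_cast hm1
    have h3 : Y ≤ X / m := by
      rw [Nat.le_div_iff_mul_le hm1]
      exact (Nat.mul_le_mul_left Y hmY).trans hYX
    have h4 := hX1 (X / m) (hY1.trans h3)
    have h5 : (X : ℝ) / m / 2 ≤ ((X / m : ℕ) : ℝ) := by
      have h6 : X < m * (X / m + 1) := Nat.lt_mul_div_succ X hm1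
      have h7 : (X : ℝ) < m * (((X / m : ℕ) : ℝ) + 1) := by exact_mod_cast h6
      have h8 : (1 : ℝ) ≤ ((X / m : ℕ) : ℝ) := by
        have : 1 ≤ X / m := by omega
        exact_mod_cast this
      rw [div_div, div_le_iff₀ (by positivity)]
      nlinarith
    have h6 : Real.log m ≤ Real.log Y := Real.log_le_log hmpos (by exact_mod_cast hmY)
    have h7 : c1 / 2 * X * (1 / (m : ℝ)) ≤ th P (X / m) := by
      refine le_trans ?_ h4
      calc c1 / 2 * X * (1 / (m : ℝ)) = c1 * ((X : ℝ) / m / 2) := by ring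
        _ ≤ c1 * ((X / m : ℕ) : ℝ) := mul_le_mul_of_nonneg_left h5 hc1.le
    linarith
  have hsum : c1 / 2 * X * ∑ m ∈ SF P Y, 1 / (m : ℝ) - Y * Real.log Y ≤
      ((SF P X).card : ℝ) * Real.log X := by
    refine le_trans ?_ hkey
    refine le_trans ?_ (Finset.sum_le_sum hlow)
    rw [Finset.sum_sub_distrib, ← Finset.mul_sum, Finset.sum_const, nsmul_eq_mul]
    have h3 : ((SF P Y).card : ℝ) ≤ Y := by
      have h4 : (SF P Y).card ≤ (Finset.Icc 1 Y).card := Finset.card_filter_le _ _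
      rw [Nat.card_Icc] at h4
      have h5 : (SF P Y).card ≤ Y := by omega
      exact_mod_cast h5
    have h4 : 0 ≤ Real.log (Y : ℝ) := Real.log_natCast_nonneg Y
    have h5 := mul_le_mul_of_nonneg_right h3 h4
    linarith
  have hT := hX2 Y hY2
  have hpow : (1 / 4 : ℝ) ^ δ * Real.log X ^ δ ≤ Real.log Y ^ δ := by
    rw [← Real.mul_rpow (by norm_num) (by linarith)]
    exact Real.rpow_le_rpow (by positivity) hlogY hδ.le
  have hone : (1 : ℝ) ≤ Real.log X ^ δ := Real.one_le_rpow hlogX1 hδ.le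
  have hmain : c3 * X * Real.log X ^ δ ≤ c1 / 2 * X * ∑ m ∈ SF P Y, 1 / (m : ℝ) := by
    calc c3 * X * Real.log X ^ δ = c1 / 2 * X * (c2 * ((1 / 4 : ℝ) ^ δ * Real.log X ^ δ)) := by
          rw [hc3]; ring
      _ ≤ c1 / 2 * X * (c2 * Real.log Y ^ δ) := by
          refine mul_le_mul_of_nonneg_left ?_ (by positivity)
          exact mul_le_mul_of_nonneg_left hpow hc2.le
      _ ≤ c1 / 2 * X * ∑ m ∈ SF P Y, 1 / (m : ℝ) := mul_le_mul_of_nonneg_left hT (by positivity)
  have hlogYX : Real.log (Y : ℝ) ≤ Real.log X := by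
    apply Real.log_le_log
    · have : 0 < Y := by omega
      exact_mod_cast this
    · have : Y ≤ X := by nlinarith
      exact_mod_cast this
  have herrX : (Y : ℝ) * Real.log Y ≤ c3 / 2 * X * Real.log X ^ δ := by
    have h3 := hx0 X hXd'
    have h4 : (Y : ℝ) * Real.log Y ≤ Real.sqrt X * Real.log X := by
      refine mul_le_mul hYs hlogYX (Real.log_natCast_nonneg Y) (Real.sqrt_nonneg _)
    have h5 : Real.sqrt X * Real.log X ≤ Real.sqrt X * (c3 / 2 * Real.sqrt X) :=
      mul_le_mul_of_nonneg_left h3 (Real.sqrt_nonneg _)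
    have h6 : Real.sqrt X * (c3 / 2 * Real.sqrt X) = c3 / 2 * X := by
      rw [show Real.sqrt X * (c3 / 2 * Real.sqrt X) = c3 / 2 * (Real.sqrt X * Real.sqrt X) by ring,
        Real.mul_self_sqrt hXpos.le]
    have h7 : c3 / 2 * X ≤ c3 / 2 * X * Real.log X ^ δ := by
      nlinarith [mul_pos hc3pos hXpos]
    linarith
  have hfin : c3 / 2 * X * Real.log X ^ δ ≤ ((SF P X).card : ℝ) * Real.log X := by
    have h3 : c3 * X * Real.log X ^ δ = c3 / 2 * X * Real.log X ^ δ + c3 / 2 * X * Real.log X ^ δ := by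
      ring
    linarith
  have hlogpos : 0 < Real.log X := by linarith
  have hrp : Real.log X ^ δ = Real.log X ^ (δ - 1) * Real.log X := by
    rw [Real.rpow_sub_one hlogpos.ne', div_mul_cancel₀ _ hlogpos.ne']
  rw [hrp, ← mul_assoc] at hfin
  exact le_of_mul_le_mul_right hfin hlogpos

end Pool.Agent.QTr
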