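import Pool.Agent.QTr.Targets

set_option autoImplicit false

namespace Pool.Agent.QTr

open Polynomial

theorem p_SQP : T_SQP := by
  intro p _ m hm
  have hp : p.Prime := Fact.out
  set F : ℤ[X] := X ^ 2 - C m with hF
  have hev : aeval (1 : ℤ_[p]) F = ((1 - m : ℤ) : ℤ_[p]) := by
    rw [hF]
    simp [aeval_sub]
  have hde : aeval (1 : ℤ_[p]) (derivative F) = ((2 : ℤ) : ℤ_[p]) := by
    rw [hF]
    have h : derivative (X ^ 2 - C m : ℤ[X]) = C 2 * X := by
      simp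
    rw [h, map_mul, aeval_C, aeval_X, mul_one]
    rfl
  have hpm : (p : ℤ) ∣ 1 - m := by
    have h1 : (p : ℤ) ∣ ((8 * p : ℕ) : ℤ) := by
      push_cast
      exact Dvd.intro_left _ rfl
    have h2 := h1.trans hm
    have h3 : (1 : ℤ) - m = -(m - 1) := by ring
    rw [h3]
    exact (dvd_neg).mpr h2
  have hnorm : ‖aeval (1 : ℤ_[p]) F‖ < ‖aeval (1 : ℤ_[p]) (derivative F)‖ ^ 2 := by
    rw [hev, hde]
    by_cases hp2 : p = 2
    · subst hp2
      have h16 : ((2 : ℕ) ^ 4 : ℤ) ∣ 1 - m := by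
        have h3 : (1 : ℤ) - m = -(m - 1) := by ring
        rw [h3]
        apply (dvd_neg).mpr
        have : (((2 : ℕ) : ℤ) ^ 4) = ((8 * 2 : ℕ) : ℤ) := by norm_num
        rw [this]
        exact hm
      have h1 : ‖((1 - m : ℤ) : ℤ_[2])‖ ≤ ((2 : ℕ) : ℝ) ^ (-((4 : ℕ) : ℤ)) := by
        rw [PadicInt.norm_int_le_pow_iff_dvd]
        exact_mod_cast h16
      have h2 : ‖((2 : ℤ) : ℤ_[2])‖ = (2 : ℝ)⁻¹ := by
        have := PadicInt.norm_p (p := 2)
        push_cast at this ⊢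
        exact this
      rw [h2]
      refine lt_of_le_of_lt h1 ?_
      norm_num
    · have h2 : ‖((2 : ℤ) : ℤ_[p])‖ = 1 := by
        apply le_antisymm (PadicInt.norm_le_one _)
        rw [← not_lt, PadicInt.norm_int_lt_one_iff_dvd]
        intro hd
        have hd' : p ∣ 2 := by exact_mod_cast hd
        exact hp2 ((Nat.prime_dvd_prime_iff_eq hp Nat.prime_two).mp hd')
      rw [h2, one_pow, PadicInt.norm_int_lt_one_iff_dvd]
      exact hpm
  obtain ⟨z, hz, -, -, -⟩ := hensels_lemma (p := p) (R := ℤ) (F := F) (a := (1 : ℤ_[p])) hnorm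
  have hz2 : z ^ 2 = (m : ℤ_[p]) := by
    have h : aeval z F = z ^ 2 - (m : ℤ_[p]) := by
      rw [hF]
      simp [aeval_sub]
    rw [h] at hz
    exact sub_eq_zero.mp hz
  have hm0 : m ≠ 0 := by
    rintro rfl
    have h1 : (p : ℤ) ∣ 1 := by simpa using hpm
    have h2 : p ∣ 1 := by exact_mod_cast h1
    exact hp.one_lt.ne' (Nat.dvd_one.mp h2)
  refine ⟨(z : ℚ_[p]), ?_, ?_⟩
  · intro h0
    have : z = 0 := Subtype.ext h0
    rw [this] at hz2
    have h3 : (m : ℤ_[p]) = 0 := by rw [← hz2]; ring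
    exact hm0 (by exact_mod_cast h3)
  · have h4 : ((z ^ 2 : ℤ_[p]) : ℚ_[p]) = ((m : ℤ_[p]) : ℚ_[p]) := by rw [hz2]
    push_cast at h4
    exact h4

end Pool.Agent.QTr
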