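import Mathlib
import Pool.Agent.QTr.Targets

open Polynomial

namespace Pool.Agent.QTr.STP_

variable {F : Type} [Field F]

/-- iterated twisted derivative -/
noncomputable def D (f : F[X]) (N : ℕ) : ℕ → F[X] →ₗ[F] F[X]
  | 0 => LinearMap.id
  | k + 1 => LinearMap.mulLeft F (C ((N - k : ℕ) : F) * derivative f) ∘ₗ D f N k +
      LinearMap.mulLeft F f ∘ₗ (derivative : F[X] →ₗ[F] F[X]) ∘ₗ D f N k

lemma D_zero (f : F[X]) (N : ℕ) (r : F[X]) : D f N 0 r = r := rfl

lemma D_succ (f : F[X]) (N k : ℕ) (r : F[X]) : D f N (k + 1) r =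
    C ((N - k : ℕ) : F) * derivative f * D f N k r + f * derivative (D f N k r) := rfl

lemma D_deg (f : F[X]) (N k : ℕ) (r : F[X]) :
    (D f N k r).natDegree ≤ r.natDegree + k * f.natDegree := by
  induction k with
  | zero => simp [D_zero]
  | succ k ih =>
    rw [D_succ]
    refine (natDegree_add_le _ _).trans (max_le ?_ ?_)
    · refine natDegree_mul_le.trans ?_
      have h1 : (C ((N - k : ℕ) : F) * derivative f).natDegree ≤ f.natDegree := by
        refine (natDegree_C_mul_le _ _).trans ?_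
        exact (natDegree_derivative_le f).trans (Nat.sub_le _ _)
      rw [Nat.succ_mul]
      omega
    · refine natDegree_mul_le.trans ?_
      have h1 := (natDegree_derivative_le (D f N k r)).trans (Nat.sub_le _ _)
      rw [Nat.succ_mul]
      omega

lemma iter (p : ℕ) [CharP F p] (f : F[X]) (N : ℕ) (r : F[X]) (j k : ℕ) (hk : k ≤ N) :
    (derivative^[k]) (f ^ N * r * X ^ (j * p)) = f ^ (N - k) * D f N k r * X ^ (j * p) := by
  induction k with
  | zero => simp [D_zero]
  | succ k ih =>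
    rw [Function.iterate_succ_apply', ih (by omega), D_succ]
    have hX : derivative (X ^ (j * p) : F[X]) = 0 := by
      rw [derivative_X_pow]
      simp
    obtain ⟨M, hM⟩ : ∃ M, N - k = M + 1 := ⟨N - k - 1, by omega⟩
    have hM2 : N - (k + 1) = M := by omega
    rw [hM, hM2, derivative_mul, hX, mul_zero, add_zero, derivative_mul, derivative_pow_succ]
    simp only [map_add, map_one, Nat.cast_add, Nat.cast_one, map_natCast]
    ring


/-- the linear map `Q_k` -/
noncomputable def Q (f : F[X]) (l N J A : ℕ) (a : F) (k : ℕ) :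
    ((Fin J → degreeLT F A) × (Fin J → degreeLT F A)) →ₗ[F] F[X] :=
  ∑ j : Fin J, (LinearMap.mulRight F (X ^ (j : ℕ)) ∘ₗ D f l k ∘ₗ (degreeLT F A).subtype ∘ₗ
      LinearMap.proj j ∘ₗ LinearMap.fst F _ _ +
    a • (LinearMap.mulRight F (X ^ (j : ℕ)) ∘ₗ D f N k ∘ₗ (degreeLT F A).subtype ∘ₗ
      LinearMap.proj j ∘ₗ LinearMap.snd F _ _))

lemma Q_apply (f : F[X]) (l N J A : ℕ) (a : F) (k : ℕ)
    (v : (Fin J → degreeLT F A) × (Fin J → degreeLT F A)) :
    Q f l N J A a k v = ∑ j : Fin J, (D f l k (v.1 j : F[X]) * X ^ (j : ℕ) +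
      a • (D f N k (v.2 j : F[X]) * X ^ (j : ℕ))) := by
  simp [Q]

lemma Q_deg (f : F[X]) (l N J A : ℕ) (hA : 0 < A) (a : F) (k : ℕ)
    (v : (Fin J → degreeLT F A) × (Fin J → degreeLT F A)) :
    (Q f l N J A a k v).natDegree ≤ (A - 1) + k * f.natDegree + (J - 1) := by
  rw [Q_apply]
  refine natDegree_sum_le_of_forall_le _ _ ?_
  intro j _
  have hj := j.2
  have h0 : ∀ w : degreeLT F A, (w : F[X]).natDegree ≤ A - 1 := by
    intro w
    have h := mem_degreeLT.1 w.2
    by_cases hw : (w : F[X]) = 0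
    · rw [hw]; simp
    · have := (natDegree_lt_iff_degree_lt hw).2 h
      omega
  have h1 : ∀ (M : ℕ) (w : degreeLT F A), (D f M k (w : F[X]) * X ^ (j : ℕ)).natDegree ≤
      (A - 1) + k * f.natDegree + (J - 1) := by
    intro M w
    refine natDegree_mul_le.trans ?_
    have h2 := D_deg f M k (w : F[X])
    have h3 := h0 w
    rw [natDegree_X_pow]
    omega
  refine (natDegree_add_le _ _).trans (max_le (h1 _ _) ?_)
  exact (natDegree_smul_le _ _).trans (h1 _ _)

lemma exists_ker (f : F[X]) (l N J A B : ℕ) (hA : 0 < A) (a : F)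
    (hB : ∀ k < l, (A - 1) + k * f.natDegree + (J - 1) < B)
    (hd : l * B < 2 * J * A) :
    ∃ v : (Fin J → degreeLT F A) × (Fin J → degreeLT F A), v ≠ 0 ∧
      ∀ k < l, Q f l N J A a k v = 0 := by
  let Ψ : ((Fin J → degreeLT F A) × (Fin J → degreeLT F A)) →ₗ[F] (Fin l → Fin B → F) :=
    LinearMap.pi fun k => LinearMap.pi fun i => (lcoeff F (i : ℕ)) ∘ₗ Q f l N J A a (k : ℕ)
  have : FiniteDimensional F (degreeLT F A) :=
    Module.Finite.equiv (degreeLTEquiv F A).symm
  have hfr : Module.finrank F (degreeLT F A) = A := by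
    rw [(degreeLTEquiv F A).finrank_eq, Module.finrank_fin_fun]
  have hker : LinearMap.ker Ψ ≠ ⊥ := by
    apply LinearMap.ker_ne_bot_of_finrank_lt
    have e1 : Module.finrank F (Fin J → degreeLT F A) = J * A := by
      rw [Module.finrank_pi_fintype]
      rw [Finset.sum_congr rfl (fun _ _ => hfr)]
      simp
    have e2 : Module.finrank F (Fin l → Fin B → F) = l * B := by
      rw [Module.finrank_pi_fintype]
      rw [Finset.sum_congr rfl (fun _ _ => Module.finrank_fin_fun F)]
      simp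
    rw [Module.finrank_prod, e1, e2]
    calc l * B < 2 * J * A := hd
      _ = J * A + J * A := by ring
  obtain ⟨v, hv, hv0⟩ := (Submodule.ne_bot_iff _).1 hker
  refine ⟨v, hv0, ?_⟩
  intro k hk
  have h1 : Ψ v = 0 := hv
  ext i
  rw [coeff_zero]
  by_cases hi : i < B
  · have := congrFun (congrFun h1 ⟨k, hk⟩) ⟨i, hi⟩
    simpa [Ψ] using this
  · apply coeff_eq_zero_of_natDegree_lt
    have := Q_deg f l N J A hA a k v
    have := hB k hk
    omega


/-- a nonzero polynomial times a square is not a square, if it is squarefree -/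
lemma no_square (f : F[X]) (hf : Squarefree f) (hd : 0 < f.natDegree) (c : F) (hc : c ≠ 0) :
    ∀ (n : ℕ) (r s : F[X]), r.natDegree ≤ n → f * r ^ 2 = C c * s ^ 2 → r = 0 := by
  intro n
  induction n using Nat.strong_induction_on with
  | _ n ih =>
    intro r s hr h
    by_contra hr0
    have hf0 : f ≠ 0 := by
      rintro rfl
      simp at hd
    have h1 : f ∣ s ^ 2 := by
      have : f ∣ C c * s ^ 2 := ⟨r ^ 2, h.symm⟩
      have hu : IsUnit (C c) := by
        rw [isUnit_C]
        exact isUnit_iff_ne_zero.2 hc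
      exact (hu.dvd_mul_left).1 this
    have h2 : f ∣ s := (hf.dvd_pow_iff_dvd (by norm_num)).1 h1
    obtain ⟨t, rfl⟩ := h2
    have h3 : r ^ 2 = f * (C c * t ^ 2) := by
      have : f * r ^ 2 = f * (f * (C c * t ^ 2)) := by
        rw [h]; ring
      exact mul_left_cancel₀ hf0 this
    have h4 : f ∣ r := (hf.dvd_pow_iff_dvd (by norm_num)).1 ⟨_, h3⟩
    obtain ⟨u, rfl⟩ := h4
    have hu0 : u ≠ 0 := right_ne_zero_of_mul hr0
    have h5 : f * u ^ 2 = C c * t ^ 2 := by
      have : f * (f * u ^ 2) = f * (C c * t ^ 2) := by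
        rw [← h3]; ring
      exact mul_left_cancel₀ hf0 this
    have h6 : (f * u).natDegree = f.natDegree + u.natDegree := natDegree_mul hf0 hu0
    exact hu0 (ih u.natDegree (by omega) u t le_rfl h5)


lemma split (p J : ℕ) (r : Fin J → F[X]) (j : Fin J) (h : ∀ i < j, r i = 0) :
    ∃ U : F[X], ∑ i, r i * X ^ ((i : ℕ) * p) = X ^ ((j : ℕ) * p) * (r j + X ^ p * U) := by
  have h1 : X ^ (((j : ℕ) + 1) * p) ∣ ∑ i ∈ Finset.univ.erase j, r i * X ^ ((i : ℕ) * p) := by
    apply Finset.dvd_sum
    intro i hi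
    rw [Finset.mem_erase] at hi
    rcases lt_or_gt_of_ne hi.1 with h2 | h2
    · rw [h i h2, zero_mul]
      exact dvd_zero _
    · apply Dvd.dvd.mul_left
      apply pow_dvd_pow
      apply Nat.mul_le_mul_right
      exact h2
  obtain ⟨U, hU⟩ := h1
  refine ⟨U, ?_⟩
  rw [← Finset.add_sum_erase _ _ (Finset.mem_univ j), hU]
  ring

lemma nonvan (p : ℕ) [Fact p.Prime] (_hp2 : p ≠ 2) (f : (ZMod p)[X]) (A J l : ℕ) (hA : 0 < A)
    (hAp : 2 * A + f.natDegree ≤ p) (hf0 : f.eval 0 ≠ 0) (hsq : Squarefree f)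
    (hd : 0 < f.natDegree)
    (v : (Fin J → degreeLT (ZMod p) A) × (Fin J → degreeLT (ZMod p) A))
    (h : ∑ j : Fin J, (f ^ l * (v.1 j : (ZMod p)[X]) * X ^ ((j : ℕ) * p) +
      f ^ (l + (p - 1) / 2) * (v.2 j : (ZMod p)[X]) * X ^ ((j : ℕ) * p)) = 0) : v = 0 := by
  have hpp : p.Prime := Fact.out
  have hodd : 2 * ((p - 1) / 2) + 1 = p := by
    have h1 := hpp.eq_two_or_odd
    have h2 := hpp.two_le
    omega
  have hfne : f ≠ 0 := by
    rintro rfl
    simp at hd
  set r : Fin J → (ZMod p)[X] := fun j => (v.1 j : (ZMod p)[X]) with hr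
  set s : Fin J → (ZMod p)[X] := fun j => (v.2 j : (ZMod p)[X]) with hs
  have hdeg : ∀ w : degreeLT (ZMod p) A, (w : (ZMod p)[X]).natDegree ≤ A - 1 := by
    intro w
    have h := mem_degreeLT.1 w.2
    by_cases hw : (w : (ZMod p)[X]) = 0
    · rw [hw]; simp
    · have := (natDegree_lt_iff_degree_lt hw).2 h
      omega
  have e1 : (∑ j, r j * X ^ ((j : ℕ) * p)) + f ^ ((p - 1) / 2) * (∑ j, s j * X ^ ((j : ℕ) * p))
      = 0 := by
    have h1 : f ^ l * ((∑ j, r j * X ^ ((j : ℕ) * p)) + f ^ ((p - 1) / 2) *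
        (∑ j, s j * X ^ ((j : ℕ) * p))) = 0 := by
      rw [← h, Finset.mul_sum, ← Finset.sum_add_distrib, Finset.mul_sum]
      apply Finset.sum_congr rfl
      intro j _
      simp only [hr, hs]
      ring
    exact (mul_eq_zero.1 h1).resolve_left (pow_ne_zero _ hfne)
  have e2 : f * (∑ j, r j * X ^ ((j : ℕ) * p)) ^ 2 =
      expand (ZMod p) p f * (∑ j, s j * X ^ ((j : ℕ) * p)) ^ 2 := by
    rw [ZMod.expand_card]
    have h1 : (∑ j, r j * X ^ ((j : ℕ) * p)) =
      - (f ^ ((p - 1) / 2) * (∑ j, s j * X ^ ((j : ℕ) * p))) := eq_neg_of_add_eq_zero_left e1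
    rw [h1]
    have h2 : f ^ p = f * (f ^ ((p - 1) / 2)) ^ 2 := by
      rw [← pow_mul, ← pow_succ']
      congr 1
      omega
    rw [h2]
    ring
  obtain ⟨W, hW⟩ : ∃ W, expand (ZMod p) p f = C (f.eval 0) + X ^ p * W := by
    refine ⟨expand (ZMod p) p f.divX, ?_⟩
    conv_lhs => rw [← divX_mul_X_add f]
    rw [map_add, map_mul, expand_X, expand_C, coeff_zero_eq_eval_zero]
    ring
  have key : ∀ n : ℕ, ∀ j : Fin J, (j : ℕ) = n → r j = 0 ∧ s j = 0 := by
    intro n
    induction n using Nat.strong_induction_on with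
    | _ n ih =>
      intro j hj
      obtain ⟨U, hU⟩ := split p J r j (fun i hi => (ih i (by
        have : (i : ℕ) < j := hi
        omega) i rfl).1)
      obtain ⟨V, hV⟩ := split p J s j (fun i hi => (ih i (by
        have : (i : ℕ) < j := hi
        omega) i rfl).2)
      rw [hU, hV, hW] at e2
      have e3 : f * (r j + X ^ p * U) ^ 2 =
          (C (f.eval 0) + X ^ p * W) * (s j + X ^ p * V) ^ 2 := by
        have hX : (X ^ ((j : ℕ) * p) : (ZMod p)[X]) ^ 2 ≠ 0 :=
          pow_ne_zero _ (pow_ne_zero _ X_ne_zero)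
        apply mul_left_cancel₀ hX
        linear_combination e2
      have e4 : X ^ p ∣ f * r j ^ 2 - C (f.eval 0) * s j ^ 2 := by
        refine ⟨W * (s j + X ^ p * V) ^ 2 + C (f.eval 0) * (2 * s j * V + X ^ p * V ^ 2) -
          f * (2 * r j * U + X ^ p * U ^ 2), ?_⟩
        linear_combination e3
      have hrj : (r j).natDegree ≤ A - 1 := hdeg _
      have hsj : (s j).natDegree ≤ A - 1 := hdeg _
      have e5 : f * r j ^ 2 - C (f.eval 0) * s j ^ 2 = 0 := by
        apply eq_zero_of_dvd_of_natDegree_lt e4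
        rw [natDegree_X_pow]
        refine lt_of_le_of_lt (natDegree_sub_le _ _) (max_lt ?_ ?_)
        · refine lt_of_le_of_lt natDegree_mul_le ?_
          have := natDegree_pow_le (p := r j) (n := 2)
          omega
        · refine lt_of_le_of_lt (natDegree_C_mul_le _ _) ?_
          have := natDegree_pow_le (p := s j) (n := 2)
          omega
      have e6 := sub_eq_zero.1 e5
      have e7 := no_square f hsq hd _ hf0 _ _ _ le_rfl e6
      refine ⟨e7, ?_⟩
      rw [e7] at e6
      have e8 : C (f.eval 0) * s j ^ 2 = 0 := by rw [← e6]; ring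
      have e9 : C (f.eval 0) ≠ 0 := by rwa [Ne, C_eq_zero]
      exact pow_eq_zero_iff (by norm_num) |>.1 ((mul_eq_zero.1 e8).resolve_left e9)
  refine Prod.ext ?_ ?_
  · funext j
    exact Subtype.ext (key _ j rfl).1
  · funext j
    exact Subtype.ext (key _ j rfl).2


lemma main (p m : ℕ) [Fact p.Prime] (hm : 0 < m) (hpm : 16 * m ^ 2 + 14 * m + 2 < p)
    (f : (ZMod p)[X]) (hfm : f.natDegree = m) (hf0 : f.eval 0 ≠ 0) (hsq : Squarefree f)
    (a : ZMod p) : ∃ P : (ZMod p)[X], P ≠ 0 ∧ P.natDegree < 4 * m * p ∧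
    ∀ x : ZMod p, (f.eval x = 0 ∨ (f.eval x) ^ ((p - 1) / 2) = a) → (X - C x) ^ (4 * m) ∣ P := by
  have hpp : p.Prime := Fact.out
  have hm2 : m ≤ m ^ 2 := by nlinarith
  have hodd : 2 * ((p - 1) / 2) + 1 = p := by
    have h1 := hpp.eq_two_or_odd
    have h2 := hpp.two_le
    omega
  obtain ⟨A, hAdef⟩ : ∃ A, A = (p - m) / 2 := ⟨_, rfl⟩
  have hA1 : 8 * m ^ 2 + 6 * m < A := by omega
  have hA : 0 < A := by omega
  have hA2 : 2 * A + m ≤ p := by omega
  obtain ⟨v, hv0, hv⟩ := exists_ker f (4 * m) (4 * m + (p - 1) / 2) (3 * m) A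
    (A + 4 * m ^ 2 + 3 * m) hA a (by
      intro k hk
      rw [hfm]
      have h1 : k * m ≤ 4 * m * m := Nat.mul_le_mul_right _ hk.le
      have h2 : 4 * m * m = 4 * m ^ 2 := by ring
      omega) (by nlinarith)
  set P : (ZMod p)[X] := ∑ j : Fin (3 * m),
    (f ^ (4 * m) * (v.1 j : (ZMod p)[X]) * X ^ ((j : ℕ) * p) +
      f ^ (4 * m + (p - 1) / 2) * (v.2 j : (ZMod p)[X]) * X ^ ((j : ℕ) * p)) with hP
  refine ⟨P, ?_, ?_, ?_⟩
  · intro h
    exact hv0 (nonvan p (by rintro rfl; omega) f A (3 * m) (4 * m) hA (by rw [hfm]; exact hA2)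
      hf0 hsq (by omega) v h)
  · have hdeg : ∀ w : degreeLT (ZMod p) A, (w : (ZMod p)[X]).natDegree ≤ A - 1 := by
      intro w
      have h := mem_degreeLT.1 w.2
      by_cases hw : (w : (ZMod p)[X]) = 0
      · rw [hw]; simp
      · have := (natDegree_lt_iff_degree_lt hw).2 h
        omega
    have hterm : ∀ (M : ℕ) (w : degreeLT (ZMod p) A) (j : Fin (3 * m)),
        M ≤ 4 * m + (p - 1) / 2 → (f ^ M * (w : (ZMod p)[X]) * X ^ ((j : ℕ) * p)).natDegree ≤
          4 * m * p - 1 := by
      intro M w j hM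
      have h1 : (f ^ M).natDegree ≤ (4 * m + (p - 1) / 2) * m := by
        refine natDegree_pow_le.trans ?_
        rw [hfm]
        exact Nat.mul_le_mul_right _ hM
      have h2 := hdeg w
      have h3 : ((j : ℕ) * p) ≤ (3 * m - 1) * p := by
        apply Nat.mul_le_mul_right
        have := j.2
        omega
      have h4 : (f ^ M * (w : (ZMod p)[X]) * X ^ ((j : ℕ) * p)).natDegree ≤
          (4 * m + (p - 1) / 2) * m + (A - 1) + (3 * m - 1) * p := by
        refine natDegree_mul_le.trans ?_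
        rw [natDegree_X_pow]
        refine Nat.add_le_add (natDegree_mul_le.trans (Nat.add_le_add h1 h2)) h3
      refine h4.trans ?_
      have h5 : (3 * m - 1) * p + p = 3 * m * p := by
        obtain ⟨k, hk⟩ : ∃ k, 3 * m = k + 1 := ⟨3 * m - 1, by omega⟩
        rw [hk]
        simp only [Nat.add_sub_cancel]
        ring
      have h6 : 2 * (((p - 1) / 2) * m) + m = p * m := by
        calc 2 * (((p - 1) / 2) * m) + m = (2 * ((p - 1) / 2) + 1) * m := by ring
          _ = p * m := by rw [hodd]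
      have h7 : (4 * m + (p - 1) / 2) * m = 4 * m ^ 2 + ((p - 1) / 2) * m := by ring
      have h8 : 16 * m ^ 2 < p * m + p := by nlinarith
      have h9 : 4 * m * p = 4 * (p * m) := by ring
      have h10 : 3 * m * p = 3 * (p * m) := by ring
      have h11 : p ≤ p * m := Nat.le_mul_of_pos_right _ hm
      rw [h7]
      rw [h10] at h5
      rw [h9]
      omega
    have h1 : P.natDegree ≤ 4 * m * p - 1 := by
      refine natDegree_sum_le_of_forall_le _ _ ?_
      intro j _
      refine (natDegree_add_le _ _).trans (max_le ?_ ?_)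
      · exact hterm _ _ _ (by omega)
      · exact hterm _ _ _ le_rfl
    have h2 : 0 < 4 * m * p := by
      have := hpp.pos
      positivity
    omega
  · intro x hx
    by_cases hfx : f.eval x = 0
    · have h1 : (X - C x) ∣ f := dvd_iff_isRoot.2 hfx
      apply Finset.dvd_sum
      intro j _
      apply dvd_add
      · rw [mul_assoc]
        exact (pow_dvd_pow_of_dvd h1 _).mul_right _
      · rw [mul_assoc, pow_add, mul_assoc]
        exact (pow_dvd_pow_of_dvd h1 _).mul_right _
    · have hxa : (f.eval x) ^ ((p - 1) / 2) = a := hx.resolve_left hfx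
      have hP0 : P ≠ 0 := by
        intro h
        exact hv0 (nonvan p (by rintro rfl; omega) f A (3 * m) (4 * m) hA
          (by rw [hfm]; exact hA2) hf0 hsq (by omega) v h)
      have hroot : ∀ k < 4 * m, (derivative^[k] P).eval x = 0 := by
        intro k hk
        have hiter : derivative^[k] P = ∑ j : Fin (3 * m),
            (f ^ (4 * m - k) * D f (4 * m) k (v.1 j : (ZMod p)[X]) * X ^ ((j : ℕ) * p) +
            f ^ (4 * m + (p - 1) / 2 - k) * D f (4 * m + (p - 1) / 2) k (v.2 j : (ZMod p)[X]) *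
              X ^ ((j : ℕ) * p)) := by
          rw [hP, iterate_derivative_sum]
          apply Finset.sum_congr rfl
          intro j _
          rw [iterate_map_add, iter p f _ _ _ _ hk.le, iter p f _ _ _ _ (by omega)]
        have hQ := congrArg (eval x) (hv k hk)
        rw [Q_apply, eval_finsetSum, eval_zero] at hQ
        rw [hiter, eval_finsetSum]
        have hx1 : ∀ j : ℕ, x ^ (j * p) = x ^ j := by
          intro j
          rw [mul_comm, pow_mul, ZMod.pow_card]
        have h3 : ∑ j : Fin (3 * m), eval x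
            (f ^ (4 * m - k) * D f (4 * m) k (v.1 j : (ZMod p)[X]) * X ^ ((j : ℕ) * p) +
            f ^ (4 * m + (p - 1) / 2 - k) * D f (4 * m + (p - 1) / 2) k (v.2 j : (ZMod p)[X]) *
              X ^ ((j : ℕ) * p)) = (f.eval x) ^ (4 * m - k) * ∑ j : Fin (3 * m), eval x
              (D f (4 * m) k (v.1 j : (ZMod p)[X]) * X ^ (j : ℕ) + a •
                (D f (4 * m + (p - 1) / 2) k (v.2 j : (ZMod p)[X]) * X ^ (j : ℕ))) := by
          rw [Finset.mul_sum]
          apply Finset.sum_congr rfl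
          intro j _
          have h4 : 4 * m + (p - 1) / 2 - k = (4 * m - k) + (p - 1) / 2 := by omega
          rw [h4]
          simp only [eval_add, eval_mul, eval_pow, eval_X, eval_smul, smul_eq_mul, hx1, pow_add,
            hxa]
          ring
        rw [h3, hQ, mul_zero]
      have hm4 : 4 * m - 1 < p := by omega
      have h5 : 4 * m - 1 < P.rootMultiplicity x := by
        apply lt_rootMultiplicity_of_isRoot_iterate_derivative_of_mem_nonZeroDivisors hP0
        · intro k hk
          exact hroot k (by omega)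
        · rw [mem_nonZeroDivisors_iff_ne_zero]
          intro h6
          rw [ZMod.natCast_eq_zero_iff] at h6
          have := (hpp.dvd_factorial).1 h6
          omega
      exact (le_rootMultiplicity_iff hP0).1 (by omega)

end Pool.Agent.QTr.STP_

namespace Pool.Agent.QTr

theorem p_STP : T_STP := by
  intro p m _ hm hpm f hfm hf0 hsq a _
  exact STP_.main p m hm hpm f hfm hf0 hsq a

end Pool.Agent.QTr
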