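import Pool.Agent.QTr.Targets

/-!
TLO: lower bound for the sum of the reciprocals.
-/

set_option autoImplicit false

namespace Pool.Agent.QTr

namespace TLO_

open Finset

theorem exp_sub_one_le (u : ℝ) (h0 : 0 ≤ u) (h1 : u ≤ 1) : Real.exp u - 1 ≤ 2 * u := by
  have h := Real.abs_exp_sub_one_le (x := u) (by rw [abs_of_nonneg h0]; exact h1)
  rw [abs_of_nonneg h0] at h
  exact (le_abs_self _).trans h

/-- the sum over the subsets, cut at `X` -/
theorem tail (A : Finset ℕ) (X : ℕ) (hX : 0 < X) (η : ℝ) (hη : 0 ≤ η) :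
    ∏ p ∈ A, (1 + 1 / (p : ℝ)) ≤
      ∑ T ∈ A.powerset.filter (fun T => ∏ p ∈ T, p ≤ X), ∏ p ∈ T, 1 / (p : ℝ) +
        (X : ℝ) ^ (-η) * ∏ p ∈ A, (1 + 1 / (p : ℝ) * (p : ℝ) ^ η) := by
  classical
  rw [Finset.prod_one_add, Finset.prod_one_add]
  rw [← Finset.sum_filter_add_sum_filter_not A.powerset (fun T => ∏ p ∈ T, p ≤ X)
    (fun T => ∏ p ∈ T, 1 / (p : ℝ))]
  gcongr
  rw [Finset.mul_sum]
  calc ∑ T ∈ A.powerset.filter (fun T => ¬ ∏ p ∈ T, p ≤ X), ∏ p ∈ T, 1 / (p : ℝ)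
      ≤ ∑ T ∈ A.powerset.filter (fun T => ¬ ∏ p ∈ T, p ≤ X),
          (X : ℝ) ^ (-η) * ∏ p ∈ T, (1 / (p : ℝ) * (p : ℝ) ^ η) := by
        refine Finset.sum_le_sum fun T hT => ?_
        rw [Finset.mem_filter, Finset.mem_powerset] at hT
        obtain ⟨hTA, hTX⟩ := hT
        push Not at hTX
        rw [Finset.prod_mul_distrib]
        have hpos : 0 ≤ ∏ p ∈ T, 1 / (p : ℝ) := Finset.prod_nonneg fun p _ => by positivity
        have h1 : (∏ p ∈ T, (p : ℝ) ^ η) = ((∏ p ∈ T, p : ℕ) : ℝ) ^ η := by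
          rw [Nat.cast_prod, Real.finsetProd_rpow]
          intro p _; positivity
        have h2 : (X : ℝ) ^ η ≤ ∏ p ∈ T, (p : ℝ) ^ η := by
          rw [h1]
          apply Real.rpow_le_rpow (by positivity) _ hη
          exact_mod_cast hTX.le
        have hXp : 0 < (X : ℝ) ^ η := Real.rpow_pos_of_pos (by exact_mod_cast hX) _
        have h3 : 1 ≤ (X : ℝ) ^ (-η) * ∏ p ∈ T, (p : ℝ) ^ η := by
          rw [Real.rpow_neg (by positivity)]
          rw [← inv_mul_cancel₀ hXp.ne']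
          gcongr
        calc ∏ p ∈ T, 1 / (p : ℝ) = (∏ p ∈ T, 1 / (p : ℝ)) * 1 := (mul_one _).symm
          _ ≤ (∏ p ∈ T, 1 / (p : ℝ)) * ((X : ℝ) ^ (-η) * ∏ p ∈ T, (p : ℝ) ^ η) := by gcongr
          _ = _ := by ring
    _ ≤ ∑ T ∈ A.powerset, (X : ℝ) ^ (-η) * ∏ p ∈ T, (1 / (p : ℝ) * (p : ℝ) ^ η) := by
        refine Finset.sum_le_sum_of_subset_of_nonneg (Finset.filter_subset _ _) ?_
        intro T _ _
        have : 0 ≤ ∏ p ∈ T, (1 / (p : ℝ) * (p : ℝ) ^ η) :=
          Finset.prod_nonneg fun p _ => by positivity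
        positivity

/-- the first factor bounds the second one -/
theorem prod_le (A : Finset ℕ) (hA : ∀ p ∈ A, p.Prime) (η : ℝ) (hη : 0 ≤ η)
    (h : ∀ p ∈ A, η * Real.log p ≤ 1) :
    ∏ p ∈ A, (1 + 1 / (p : ℝ) * (p : ℝ) ^ η) ≤
      (∏ p ∈ A, (1 + 1 / (p : ℝ))) * Real.exp (2 * η * ∑ p ∈ A, Real.log p / p) := by
  rw [Finset.mul_sum, Real.exp_sum, ← Finset.prod_mul_distrib]
  refine Finset.prod_le_prod (fun p _ => by positivity) fun p hp => ?_
  have hp0 : (0 : ℝ) < p := by exact_mod_cast (hA p hp).pos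
  have hp1 : (1 : ℝ) ≤ p := by exact_mod_cast (hA p hp).one_le
  have hl : 0 ≤ Real.log p := Real.log_nonneg hp1
  have h1 : (p : ℝ) ^ η ≤ 1 + 2 * (η * Real.log p) := by
    rw [Real.rpow_def_of_pos hp0, mul_comm (Real.log p) η]
    have := exp_sub_one_le (η * Real.log p) (by positivity) (h p hp)
    linarith
  have h2 : 1 + 2 * η * (Real.log p / p) ≤ Real.exp (2 * η * (Real.log p / p)) := by
    have := Real.add_one_le_exp (2 * η * (Real.log p / p))
    linarith
  calc 1 + 1 / (p : ℝ) * (p : ℝ) ^ η ≤ 1 + 1 / (p : ℝ) * (1 + 2 * (η * Real.log p)) := by gcongr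
    _ = 1 + 1 / (p : ℝ) + 2 * η * (Real.log p / p) := by ring
    _ ≤ (1 + 1 / (p : ℝ)) * (1 + 2 * η * (Real.log p / p)) := by
        have : 0 ≤ 1 / (p : ℝ) * (2 * η * (Real.log p / p)) := by positivity
        nlinarith
    _ ≤ (1 + 1 / (p : ℝ)) * Real.exp (2 * η * (Real.log p / p)) := by gcongr

theorem sum_sq (n : ℕ) : ∑ k ∈ Finset.range (n + 2), 1 / (k : ℝ) ^ 2 ≤ 2 - 1 / ((n : ℝ) + 1) := by
  induction n with
  | zero => simp [Finset.sum_range_succ]; norm_num
  | succ n ih =>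
    rw [Finset.sum_range_succ]
    have h1 : 1 / (((n + 2 : ℕ) : ℝ)) ^ 2 ≤ 1 / ((n : ℝ) + 1) - 1 / (((n + 1 : ℕ) : ℝ) + 1) := by
      have hn : (0 : ℝ) ≤ n := Nat.cast_nonneg n
      push_cast
      rw [div_sub_div _ _ (by positivity) (by positivity), div_le_div_iff₀ (by positivity)
        (by positivity)]
      nlinarith
    linarith

/-- lower bound for the product -/
theorem prod_ge (A : Finset ℕ) (w : ℕ) (hAw : ∀ p ∈ A, p ≤ w) :
    Real.exp (∑ p ∈ A, 1 / (p : ℝ) - 1) ≤ ∏ p ∈ A, (1 + 1 / (p : ℝ)) := by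
  have h1 : ∀ x : ℝ, 0 ≤ x → x - x ^ 2 / 2 ≤ Real.log (1 + x) := by
    intro x hx
    refine le_trans ?_ (Real.le_log_one_add_of_nonneg hx)
    rw [le_div_iff₀ (by linarith)]
    nlinarith [pow_nonneg hx 3]
  have h2 : ∑ p ∈ A, 1 / (p : ℝ) ^ 2 ≤ 2 := by
    calc ∑ p ∈ A, 1 / (p : ℝ) ^ 2 ≤ ∑ p ∈ Finset.range (w + 2), 1 / (p : ℝ) ^ 2 := by
          refine Finset.sum_le_sum_of_subset_of_nonneg ?_ (fun _ _ _ => by positivity)
          intro p hp
          rw [Finset.mem_range]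
          have := hAw p hp
          omega
      _ ≤ 2 - 1 / ((w : ℝ) + 1) := sum_sq w
      _ ≤ 2 := by
          have : 0 ≤ 1 / ((w : ℝ) + 1) := by positivity
          linarith
  have h3 : ∏ p ∈ A, (1 + 1 / (p : ℝ)) = Real.exp (∑ p ∈ A, Real.log (1 + 1 / (p : ℝ))) := by
    rw [Real.exp_sum]
    refine Finset.prod_congr rfl fun p _ => ?_
    rw [Real.exp_log (by positivity)]
  rw [h3]
  apply Real.exp_le_exp.2
  calc ∑ p ∈ A, 1 / (p : ℝ) - 1 ≤ ∑ p ∈ A, 1 / (p : ℝ) - (∑ p ∈ A, 1 / (p : ℝ) ^ 2) / 2 := by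
        linarith
    _ = ∑ p ∈ A, (1 / (p : ℝ) - (1 / (p : ℝ)) ^ 2 / 2) := by
        rw [Finset.sum_sub_distrib, Finset.sum_div]
        congr 1
        refine Finset.sum_congr rfl fun p _ => ?_
        rw [one_div_pow]
    _ ≤ ∑ p ∈ A, Real.log (1 + 1 / (p : ℝ)) :=
        Finset.sum_le_sum fun p _ => h1 _ (by positivity)

open Classical in
/-- the subsets with small product give squarefree numbers -/
theorem sum_le (P : ℕ → Prop) (A : Finset ℕ) (hA : ∀ p ∈ A, p.Prime ∧ P p) (X : ℕ) :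
    ∑ T ∈ A.powerset.filter (fun T => ∏ p ∈ T, p ≤ X), ∏ p ∈ T, 1 / (p : ℝ) ≤
      ∑ m ∈ SF P X, 1 / (m : ℝ) := by
  have hpr : ∀ T ∈ A.powerset.filter (fun T => ∏ p ∈ T, p ≤ X), ∀ p ∈ T, p.Prime := by
    intro T hT p hp
    rw [Finset.mem_filter, Finset.mem_powerset] at hT
    exact (hA p (hT.1 hp)).1
  have hpf : ∀ T ∈ A.powerset.filter (fun T => ∏ p ∈ T, p ≤ X),
      (∏ p ∈ T, p).primeFactors = T := by
    intro T hT
    exact Nat.primeFactors_prod (hpr T hT)
  have hinj : Set.InjOn (fun T : Finset ℕ => ∏ p ∈ T, p)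
      (A.powerset.filter (fun T => ∏ p ∈ T, p ≤ X) : Finset (Finset ℕ)) := by
    intro T hT T' hT' h
    have h1 := hpf T hT
    have h2 := hpf T' hT'
    simp only at h
    rw [h] at h1
    exact h1.symm.trans h2
  calc ∑ T ∈ A.powerset.filter (fun T => ∏ p ∈ T, p ≤ X), ∏ p ∈ T, 1 / (p : ℝ)
      = ∑ T ∈ A.powerset.filter (fun T => ∏ p ∈ T, p ≤ X), 1 / ((∏ p ∈ T, p : ℕ) : ℝ) := by
        refine Finset.sum_congr rfl fun T _ => ?_
        rw [Nat.cast_prod, Finset.prod_div_distrib, Finset.prod_const_one]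
    _ = ∑ m ∈ (A.powerset.filter (fun T => ∏ p ∈ T, p ≤ X)).image (fun T => ∏ p ∈ T, p),
          1 / (m : ℝ) := by
        rw [Finset.sum_image hinj]
    _ ≤ ∑ m ∈ SF P X, 1 / (m : ℝ) := by
        refine Finset.sum_le_sum_of_subset_of_nonneg ?_ (fun _ _ _ => by positivity)
        intro m hm
        rw [Finset.mem_image] at hm
        obtain ⟨T, hT, rfl⟩ := hm
        have hT' := hT
        rw [Finset.mem_filter, Finset.mem_powerset] at hT'
        unfold SF
        rw [Finset.mem_filter, Finset.mem_Icc]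
        refine ⟨⟨?_, hT'.2⟩, ?_, ?_⟩
        · exact Finset.prod_pos fun p hp => (hpr T hT p hp).pos
        · apply Finset.squarefree_prod_of_pairwise_isCoprime
          · intro p hp q hq hpq
            exact Nat.coprime_iff_isRelPrime.1 ((Nat.coprime_primes (hpr T hT p hp)
              (hpr T hT q hq)).2 hpq)
          · intro p hp; exact (hpr T hT p hp).prime.squarefree
        · intro p hp
          rw [hpf T hT] at hp
          exact (hA p (hT'.1 hp)).2

end TLO_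

open TLO_ in
theorem p_TLO (h1 : T_PSM) : T_TLO := by
  classical
  intro P δ hδ hM
  obtain ⟨B', hB'⟩ := h1 P δ hM
  obtain ⟨B, hB⟩ := hM
  have hB0 : 0 ≤ B := (abs_nonneg _).trans (hB 1 le_rfl)
  obtain ⟨v, hv⟩ := exists_nat_ge (2 * δ + 2 * B + 2)
  have hv2 : (2 : ℝ) ≤ v := by linarith
  have hv0 : (0 : ℝ) < v := by linarith
  have hvn : 0 < v := by exact_mod_cast hv0
  refine ⟨Real.exp (-δ * Real.log (Real.log 3) - B' - 1) * (1 / (2 * v)) ^ δ / 2,
    by positivity, 4 ^ v, ?_⟩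
  intro X hX
  have hX0 : 0 < X := lt_of_lt_of_le (by positivity) hX
  have hXr : (0 : ℝ) < X := by exact_mod_cast hX0
  have hX4 : (4 : ℝ) ^ v ≤ X := by exact_mod_cast hX
  have hX1 : (1 : ℝ) ≤ X := by exact_mod_cast hX0
  set z : ℝ := (X : ℝ) ^ (1 / (v : ℝ)) with hz
  have hz4 : 4 ≤ z := by
    have : ((4 : ℝ) ^ v) ^ (1 / (v : ℝ)) = 4 := by
      rw [← Real.rpow_natCast, ← Real.rpow_mul (by norm_num), mul_one_div_cancel hv0.ne',
        Real.rpow_one]
    rw [← this, hz]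
    exact Real.rpow_le_rpow (by positivity) hX4 (by positivity)
  set w : ℕ := ⌊z⌋₊ with hw
  have hwz : (w : ℝ) ≤ z := Nat.floor_le (by linarith)
  have hwz' : z < w + 1 := Nat.lt_floor_add_one z
  have hw4 : 4 ≤ w := Nat.le_floor (by exact_mod_cast hz4)
  have hw4r : (4 : ℝ) ≤ w := by exact_mod_cast hw4
  have hlogz : Real.log z = Real.log X / v := by
    rw [hz, Real.log_rpow hXr]; ring
  have hlogw : Real.log w ≤ Real.log X / v := by
    rw [← hlogz]; exact Real.log_le_log (by linarith) hwz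
  have hlogw1 : 1 ≤ Real.log w := by
    rw [← Real.log_exp 1]
    apply Real.log_le_log (Real.exp_pos 1)
    have := Real.exp_one_lt_d9
    linarith
  have hlogw0 : 0 < Real.log w := by linarith
  have hlogw2 : Real.log X / (2 * v) ≤ Real.log w := by
    have hsq : Real.sqrt z ≤ w := by
      have h2 : 2 ≤ Real.sqrt z := by
        rw [show (2 : ℝ) = Real.sqrt 4 by
          rw [show (4 : ℝ) = 2 ^ 2 by norm_num, Real.sqrt_sq (by norm_num)]]
        exact Real.sqrt_le_sqrt hz4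
      have h3 : Real.sqrt z * Real.sqrt z = z := Real.mul_self_sqrt (by linarith)
      nlinarith
    have h4 : Real.log (Real.sqrt z) ≤ Real.log w :=
      Real.log_le_log (Real.sqrt_pos.2 (by linarith)) hsq
    rw [Real.log_sqrt (by linarith), hlogz] at h4
    calc Real.log X / (2 * v) = Real.log X / v / 2 := by rw [div_div, mul_comm]
      _ ≤ Real.log w := h4
  set A : Finset ℕ := (Finset.range (w + 1)).filter (fun p => p.Prime ∧ P p) with hA
  have hAmem : ∀ p ∈ A, p.Prime ∧ P p := fun p hp => (Finset.mem_filter.1 hp).2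
  have hAw : ∀ p ∈ A, p ≤ w := by
    intro p hp
    have := Finset.mem_range.1 (Finset.mem_filter.1 hp).1
    omega
  set η : ℝ := 1 / Real.log w with hη
  have hη0 : 0 ≤ η := by positivity
  have hηp : ∀ p ∈ A, η * Real.log p ≤ 1 := by
    intro p hp
    have h2 : Real.log p ≤ Real.log w := by
      apply Real.log_le_log
      · exact_mod_cast (hAmem p hp).1.pos
      · exact_mod_cast hAw p hp
    rw [hη, one_div, inv_mul_le_iff₀ hlogw0, mul_one]
    exact h2
  set M : ℝ := ∏ p ∈ A, (1 + 1 / (p : ℝ)) with hMdef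
  have hM0 : 0 < M := Finset.prod_pos fun p _ => by positivity
  have ht := tail A X hX0 η hη0
  have hpl := prod_le A (fun p hp => (hAmem p hp).1) η hη0 hηp
  have hsum := hB w (by omega)
  have hsum' : ∑ p ∈ A, Real.log p / p ≤ δ * Real.log w + B := by
    have := (abs_le.1 hsum).2
    linarith
  have hexp : Real.exp (2 * η * ∑ p ∈ A, Real.log p / p) ≤ Real.exp (2 * δ + 2 * B) := by
    apply Real.exp_le_exp.2
    have h2 : 2 * η * ∑ p ∈ A, Real.log p / p ≤ 2 * η * (δ * Real.log w + B) := by gcongr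
    have h3 : η * Real.log w = 1 := by rw [hη]; exact one_div_mul_cancel hlogw0.ne'
    have h4 : η ≤ 1 := by
      rw [hη, div_le_one hlogw0]; exact hlogw1
    have h5 : η * B ≤ B := by nlinarith
    calc 2 * η * ∑ p ∈ A, Real.log p / p ≤ 2 * η * (δ * Real.log w + B) := h2
      _ = 2 * δ * (η * Real.log w) + 2 * (η * B) := by ring
      _ ≤ 2 * δ + 2 * B := by rw [h3]; linarith
  have hXη : (X : ℝ) ^ (-η) ≤ Real.exp (-(v : ℝ)) := by
    rw [Real.rpow_def_of_pos hXr]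
    apply Real.exp_le_exp.2
    have h3 : (v : ℝ) ≤ Real.log X * η := by
      rw [hη, mul_one_div, le_div_iff₀ hlogw0]
      rw [le_div_iff₀ hv0] at hlogw
      linarith
    linarith
  have htail : (X : ℝ) ^ (-η) * ∏ p ∈ A, (1 + 1 / (p : ℝ) * (p : ℝ) ^ η) ≤ M / 2 := by
    have h2 : Real.exp (-(v : ℝ)) * Real.exp (2 * δ + 2 * B) ≤ 1 / 2 := by
      rw [← Real.exp_add]
      have h3 : -(v : ℝ) + (2 * δ + 2 * B) ≤ -2 := by linarith
      have h4 : Real.exp (-2) ≤ 1 / 2 := by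
        rw [Real.exp_neg]
        have := Real.add_one_le_exp (2 : ℝ)
        rw [inv_le_comm₀ (Real.exp_pos 2) (by norm_num)]
        norm_num
        linarith
      exact (Real.exp_le_exp.2 h3).trans h4
    calc (X : ℝ) ^ (-η) * ∏ p ∈ A, (1 + 1 / (p : ℝ) * (p : ℝ) ^ η)
        ≤ Real.exp (-(v : ℝ)) * (M * Real.exp (2 * δ + 2 * B)) := by
          gcongr
          exact hpl.trans (by gcongr)
      _ = M * (Real.exp (-(v : ℝ)) * Real.exp (2 * δ + 2 * B)) := by ring
      _ ≤ M * (1 / 2) := by gcongr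
      _ = M / 2 := by ring
  have hhalf : M / 2 ≤ ∑ m ∈ SF P X, 1 / (m : ℝ) := by
    have h2 := sum_le P A hAmem X
    linarith
  have hMge := prod_ge A w hAw
  have hS : δ * (Real.log (Real.log w) - Real.log (Real.log 3)) - B' ≤
      ∑ p ∈ A, 1 / (p : ℝ) := by
    have h2 := hB' w 3 le_rfl (by omega)
    have h3 := (abs_le.1 h2).1
    unfold LL at h3
    have h4 : ∑ p ∈ (Finset.range (w + 1)).filter (fun p => p.Prime ∧ P p ∧ 3 < p),
        1 / (p : ℝ) ≤ ∑ p ∈ A, 1 / (p : ℝ) := by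
      refine Finset.sum_le_sum_of_subset_of_nonneg ?_ (fun _ _ _ => by positivity)
      intro p hp
      rw [Finset.mem_filter] at hp ⊢
      exact ⟨hp.1, hp.2.1, hp.2.2.1⟩
    push_cast at h3
    linarith
  have hMfin : Real.exp (-δ * Real.log (Real.log 3) - B' - 1) * (Real.log w) ^ δ ≤ M := by
    refine le_trans ?_ hMge
    rw [Real.rpow_def_of_pos hlogw0, ← Real.exp_add]
    apply Real.exp_le_exp.2
    linarith
  have hlogX : 0 ≤ Real.log X := Real.log_nonneg hX1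
  calc Real.exp (-δ * Real.log (Real.log 3) - B' - 1) * (1 / (2 * v)) ^ δ / 2 *
        (Real.log X) ^ δ
      = Real.exp (-δ * Real.log (Real.log 3) - B' - 1) *
          ((1 / (2 * v)) ^ δ * (Real.log X) ^ δ) / 2 := by ring
    _ = Real.exp (-δ * Real.log (Real.log 3) - B' - 1) *
          ((Real.log X / (2 * v)) ^ δ) / 2 := by
        rw [← Real.mul_rpow (by positivity) hlogX]
        congr 3
        ring
    _ ≤ Real.exp (-δ * Real.log (Real.log 3) - B' - 1) * (Real.log w) ^ δ / 2 := by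
        gcongr
    _ ≤ M / 2 := by gcongr
    _ ≤ _ := hhalf

end Pool.Agent.QTr
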