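import Pool.Agent.QTr.Targets
import Pool.Agent.QTx.UNB2
import Pool.Agent.QTx.REARR2
import Pool.Agent.QTx.INNER2
import Pool.Agent.QTx.CANON2
import Pool.Agent.QTx.SPLIT2

set_option autoImplicit false

/-!
# TYPX: the configurations with a cancelling pair cancel, also with the additional condition

Inclusion-exclusion over the sets of exceptional labels without a large prime.
-/

open Polynomial NumberField
open Pool.Agent.QTw (primesTo cfgs)
open Pool.Agent.QTx (Model Ty)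

namespace Pool.Agent.QTr

namespace TYPX_

variable {m n : ℕ}

/-- the primes which are removed -/
def DT (κ z t : ℕ) (Γ : Fin m → ℕ → Prop) (T : Finset (Fin m)) (p : ℕ) : Prop :=
  ∃ i ∈ T, Γ i p ∧ z < p ∧ t ≤ Model.bk κ p

open Classical in
/-- the model in which the primes with `P` have no roots -/
noncomputable def rem (M : Model m n) (P : ℕ → Prop) : Model m n where
  rn p := if P p then 0 else M.rn p
  lab := M.lab
  sgn := M.sgn
  Tr := M.Tr

lemma rem_rn_pos (M : Model m n) (P : ℕ → Prop) {p : ℕ} (h : P p) : (rem M P).rn p = 0 := by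
  simp [rem, h]

lemma rem_rn_neg (M : Model m n) (P : ℕ → Prop) {p : ℕ} (h : ¬ P p) :
    (rem M P).rn p = M.rn p := by
  simp [rem, h]

lemma lt_rem (M : Model m n) (P : ℕ → Prop) (p k : ℕ) :
    k < (rem M P).rn p ↔ ¬ P p ∧ k < M.rn p := by
  by_cases h : P p
  · simp [rem_rn_pos M P h, h]
  · simp [rem_rn_neg M P h, h]

lemma vld_rem (M : Model m n) (P : ℕ → Prop) (x : ℕ × Ty n) :
    (rem M P).vld x ↔ ¬ P x.1 ∧ M.vld x := by
  unfold Model.vld
  by_cases h : P x.1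
  · constructor
    · rintro ⟨h1, _⟩
      rw [lt_rem] at h1
      exact absurd h h1.1
    · rintro ⟨h1, _⟩
      exact absurd h h1
  · rw [rem_rn_neg M P h]
    exact ⟨fun h1 => ⟨h, h1⟩, fun h1 => h1.2⟩

lemma bounded_rem (M : Model m n) (P : ℕ → Prop) (hM : M.Bounded) : (rem M P).Bounded where
  sgn_le := hM.sgn_le
  rn_le := by
    intro p
    by_cases h : P p
    · rw [rem_rn_pos M P h]
      exact Nat.zero_le _
    · rw [rem_rn_neg M P h]
      exact hM.rn_le p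

lemma cf_rem_pos (M : Model m n) (P : ℕ → Prop) (a : ℕ → Fin n → Fin n → ℝ) (z : ℕ)
    (c : Finset (ℕ × Ty n)) (x : ℕ × Ty n) (h : P x.1) : (rem M P).cf a z c x = 0 := by
  unfold Model.cf
  rw [if_pos]
  rw [vld_rem]
  exact fun h1 => h1.1 h

lemma cf_rem_neg (M : Model m n) (P : ℕ → Prop) (a : ℕ → Fin n → Fin n → ℝ) (z : ℕ)
    (c : Finset (ℕ × Ty n)) (x : ℕ × Ty n) (h : ¬ P x.1) :
    (rem M P).cf a z c x = M.cf a z c x := by
  unfold Model.cf
  have e : (rem M P).vld x ↔ M.vld x := by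
    rw [vld_rem]
    exact ⟨fun h1 => h1.2, fun h1 => ⟨h, h1⟩⟩
  by_cases hv : M.vld x
  · rw [if_neg (by rw [e]; exact not_not.mpr hv), if_neg (not_not.mpr hv),
      rem_rn_neg M P h]
    rfl
  · rw [if_pos (by rw [e]; exact hv), if_pos hv]

lemma W_rem_pos (M : Model m n) (P : ℕ → Prop) (a : ℕ → Fin n → Fin n → ℝ) (z : ℕ)
    (c : Finset (ℕ × Ty n)) (h : ∃ x ∈ c, P x.1) : (rem M P).W a z c = 0 := by
  obtain ⟨x, hx, hP⟩ := h
  unfold Model.W
  rw [Finset.prod_eq_zero hx (cf_rem_pos M P a z c x hP), zero_mul]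

lemma W_rem_neg (M : Model m n) (P : ℕ → Prop) (a : ℕ → Fin n → Fin n → ℝ) (z : ℕ)
    (c : Finset (ℕ × Ty n)) (h : ¬ ∃ x ∈ c, P x.1) : (rem M P).W a z c = M.W a z c := by
  unfold Model.W
  have h1 : ∏ x ∈ c, (rem M P).cf a z c x = ∏ x ∈ c, M.cf a z c x :=
    Finset.prod_congr rfl (fun x hx => cf_rem_neg M P a z c x (fun hP => h ⟨x, hx, hP⟩))
  rw [h1]
  rfl

open Classical in
lemma W_rem (M : Model m n) (P : ℕ → Prop) (a : ℕ → Fin n → Fin n → ℝ) (z : ℕ)
    (c : Finset (ℕ × Ty n)) :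
    (rem M P).W a z c = (if ∃ x ∈ c, P x.1 then 0 else 1) * M.W a z c := by
  by_cases h : ∃ x ∈ c, P x.1
  · rw [if_pos h, W_rem_pos M P a z c h, zero_mul]
  · rw [if_neg h, W_rem_neg M P a z c h, one_mul]

open Classical in
lemma bil_rem (M : Model m n) (P : ℕ → Prop) (κ N : ℕ) (B : ℝ) (h : M.Bil κ N B) :
    (rem M P).Bil κ N B := by
  unfold Model.Bil at h ⊢
  intro j k S i α β hα hβ z Y hz
  have h0 := h j k S i (fun p => if P p then 0 else α p) (fun p => if P p then 0 else β p)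
    (fun p => by
      by_cases hp : P p
      · simp [hp]
      · simpa [hp] using hα p)
    (fun p => by
      by_cases hp : P p
      · simp [hp]
      · simpa [hp] using hβ p) z Y hz
  refine le_trans (le_of_eq ?_) h0
  congr 1
  have e1 : ((primesTo N Y).filter
      (fun p => z < p ∧ (rem M P).vld (p, (j, S)) ∧ ¬ (rem M P).Tr p j S i)) =
      ((primesTo N Y).filter
      (fun p => z < p ∧ M.vld (p, (j, S)) ∧ ¬ M.Tr p j S i)).filter (fun p => ¬ P p) := by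
    ext p
    simp only [Finset.mem_filter, vld_rem]
    constructor
    · rintro ⟨h1, h2, ⟨h3, h4⟩, h5⟩
      exact ⟨⟨h1, h2, h4, h5⟩, h3⟩
    · rintro ⟨⟨h1, h2, h4, h5⟩, h3⟩
      exact ⟨h1, h2, ⟨h3, h4⟩, h5⟩
  have e2 : ∀ p, ((primesTo N Y).filter (fun q => Model.big κ p q ∧ p * q ≤ Y ∧
        (k : ℕ) < (rem M P).rn q ∧ (rem M P).lab q k = i)) =
      ((primesTo N Y).filter (fun q => Model.big κ p q ∧ p * q ≤ Y ∧
        (k : ℕ) < M.rn q ∧ M.lab q k = i)).filter (fun q => ¬ P q) := by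
    intro p
    ext q
    simp only [Finset.mem_filter, lt_rem]
    constructor
    · rintro ⟨h1, h2, h3, ⟨h4, h5⟩, h6⟩
      exact ⟨⟨h1, h2, h3, h5, h6⟩, h4⟩
    · rintro ⟨⟨h1, h2, h3, h5, h6⟩, h4⟩
      exact ⟨h1, h2, h3, ⟨h4, h5⟩, h6⟩
  rw [e1, Finset.sum_filter]
  refine Finset.sum_congr rfl (fun p _ => ?_)
  by_cases hp : P p
  · simp [hp]
  · rw [if_pos hp, e2 p, Finset.sum_filter]
    refine Finset.sum_congr rfl (fun q _ => ?_)
    by_cases hq : P q
    · simp [hq]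
    · simp only [hp, hq, not_false_eq_true, if_true, if_false]
      rfl

lemma unb_rem (M : Model m n) (P : ℕ → Prop) (κ z : ℕ) (c : Finset (ℕ × Ty n)) :
    (rem M P).Unb κ z c ↔ M.Unb κ z c := Iff.rfl

open Classical in
/-- inclusion-exclusion -/
lemma incl (Qd : Finset (Fin m)) (e : Fin m → Prop) :
    (if ∀ i ∈ Qd, e i then (1 : ℝ) else 0) =
      ∑ T ∈ Qd.powerset, (-1) ^ T.card * (if ∃ i ∈ T, e i then (0 : ℝ) else 1) := by
  have h1 : (if ∀ i ∈ Qd, e i then (1 : ℝ) else 0) =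
      ∏ i ∈ Qd, ((if e i then (0 : ℝ) else -1) + 1) := by
    by_cases h : ∀ i ∈ Qd, e i
    · rw [if_pos h, Finset.prod_eq_one]
      intro i hi
      simp [h i hi]
    · rw [if_neg h]
      push Not at h
      obtain ⟨i, hi, hei⟩ := h
      rw [Finset.prod_eq_zero hi]
      simp [hei]
  rw [h1, Finset.prod_add]
  refine Finset.sum_congr rfl (fun T hT => ?_)
  rw [Finset.prod_const_one, mul_one]
  by_cases h : ∃ i ∈ T, e i
  · obtain ⟨i, hi, hei⟩ := h
    rw [if_pos ⟨i, hi, hei⟩, mul_zero]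
    exact Finset.prod_eq_zero hi (by simp [hei])
  · rw [if_neg h, mul_one]
    have h2 : ∀ i ∈ T, (if e i then (0 : ℝ) else -1) = -1 := by
      intro i hi
      rw [if_neg]
      exact fun h3 => h ⟨i, hi, h3⟩
    rw [Finset.prod_congr rfl h2, Finset.prod_const]

lemma incl_aux (Qd : Finset (Fin m)) (e : Fin m → Prop) (u : Finset (Fin m) → ℝ)
    (h0 : ∀ T, (∃ i ∈ T, e i) → u T = 0) (h1 : ∀ T, (¬ ∃ i ∈ T, e i) → u T = 1) :
    ((∀ i ∈ Qd, e i) → ∑ T ∈ Qd.powerset, (-1) ^ T.card * u T = 1) ∧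
      ((¬ ∀ i ∈ Qd, e i) → ∑ T ∈ Qd.powerset, (-1) ^ T.card * u T = 0) := by
  classical
  have h2 : ∑ T ∈ Qd.powerset, (-1) ^ T.card * u T =
      ∑ T ∈ Qd.powerset, (-1) ^ T.card * (if ∃ i ∈ T, e i then (0 : ℝ) else 1) := by
    refine Finset.sum_congr rfl (fun T _ => ?_)
    by_cases h : ∃ i ∈ T, e i
    · rw [h0 T h, if_pos h]
    · rw [h1 T h, if_neg h]
  constructor
  · intro h
    rw [h2]
    have h3 := incl Qd e
    rw [if_pos h] at h3
    refine Eq.trans (Finset.sum_congr rfl (fun T _ => ?_)) h3.symm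
    by_cases h : ∃ i ∈ T, e i
    · simp only [if_pos h]
    · simp only [if_neg h]
  · intro h
    rw [h2]
    have h3 := incl Qd e
    rw [if_neg h] at h3
    refine Eq.trans (Finset.sum_congr rfl (fun T _ => ?_)) h3.symm
    by_cases h : ∃ i ∈ T, e i
    · simp only [if_pos h]
    · simp only [if_neg h]

lemma exists_iff (κ z t : ℕ) (Γ : Fin m → ℕ → Prop) (T : Finset (Fin m))
    (c : Finset (ℕ × Ty n)) :
    (∃ x ∈ c, DT κ z t Γ T x.1) ↔
      ∃ i ∈ T, ∃ p ∈ c.image Prod.fst, Γ i p ∧ z < p ∧ t ≤ Model.bk κ p := by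
  classical
  constructor
  · rintro ⟨x, hx, i, hi, h⟩
    exact ⟨i, hi, x.1, Finset.mem_image_of_mem _ hx, h⟩
  · rintro ⟨i, hi, p, hp, h⟩
    obtain ⟨x, hx, rfl⟩ := Finset.mem_image.mp hp
    exact ⟨x, hx, i, hi, h⟩

end TYPX_

open TYPX_ in
theorem p_TYPX : T_TYPX := by
  classical
  intro m n κ B₀ hκ hB₀
  obtain ⟨B, hB, h⟩ := QTx.p_UNB2 (QTx.p_REARR2 QTx.p_CANON2) (QTx.p_INNER2 QTx.p_SPLIT2)
    m n κ B₀ hκ hB₀
  refine ⟨2 ^ m * B, by positivity, ?_⟩
  intro M a N z X t Qd Γ hz hX hM ha hBil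
  have key : ∑ c ∈ (cfgs (Ty n) N X).filter
      (fun c => M.Unb κ z c ∧ Typ κ z t Qd Γ (c.image Prod.fst)), M.W a z c =
      ∑ T ∈ Qd.powerset, (-1) ^ T.card * ∑ c ∈ (cfgs (Ty n) N X).filter
        (fun c => (rem M (DT κ z t Γ T)).Unb κ z c), (rem M (DT κ z t Γ T)).W a z c := by
    have e1 : (cfgs (Ty n) N X).filter
        (fun c => M.Unb κ z c ∧ Typ κ z t Qd Γ (c.image Prod.fst)) =
        ((cfgs (Ty n) N X).filter (fun c => M.Unb κ z c)).filter
          (fun c => Typ κ z t Qd Γ (c.image Prod.fst)) := by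
      rw [Finset.filter_filter]
    rw [e1, Finset.sum_filter]
    have e2 : ∀ T ∈ Qd.powerset, (-1 : ℝ) ^ T.card * ∑ c ∈ (cfgs (Ty n) N X).filter
        (fun c => (rem M (DT κ z t Γ T)).Unb κ z c), (rem M (DT κ z t Γ T)).W a z c =
        ∑ c ∈ (cfgs (Ty n) N X).filter (fun c => M.Unb κ z c),
          (-1 : ℝ) ^ T.card * ((if ∃ x ∈ c, DT κ z t Γ T x.1 then (0 : ℝ) else 1) *
            M.W a z c) := by
      intro T _
      rw [Finset.mul_sum]
      refine Finset.sum_congr rfl (fun c _ => ?_)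
      rw [W_rem]
    rw [Finset.sum_congr rfl e2, Finset.sum_comm]
    refine Finset.sum_congr rfl (fun c _ => ?_)
    have e3 := incl_aux Qd
      (fun i => ∃ p ∈ c.image Prod.fst, Γ i p ∧ z < p ∧ t ≤ Model.bk κ p)
      (fun T => if ∃ x ∈ c, DT κ z t Γ T x.1 then (0 : ℝ) else 1)
      (fun T hT => if_pos ((exists_iff κ z t Γ T c).mpr hT))
      (fun T hT => if_neg (fun h => hT ((exists_iff κ z t Γ T c).mp h)))
    have e5 : ∑ T ∈ Qd.powerset, (-1 : ℝ) ^ T.card *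
        ((if ∃ x ∈ c, DT κ z t Γ T x.1 then (0 : ℝ) else 1) * M.W a z c) =
        (∑ T ∈ Qd.powerset, (-1 : ℝ) ^ T.card *
        (if ∃ x ∈ c, DT κ z t Γ T x.1 then (0 : ℝ) else 1)) * M.W a z c := by
      rw [Finset.sum_mul]
      refine Finset.sum_congr rfl (fun T _ => ?_)
      ring
    rw [e5]
    by_cases hTyp : Typ κ z t Qd Γ (c.image Prod.fst)
    · rw [if_pos hTyp, e3.1 hTyp, one_mul]
    · rw [if_neg hTyp, e3.2 hTyp, zero_mul]
  rw [key]
  have h1 : ∀ T ∈ Qd.powerset, |(-1 : ℝ) ^ T.card * ∑ c ∈ (cfgs (Ty n) N X).filter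
        (fun c => (rem M (DT κ z t Γ T)).Unb κ z c), (rem M (DT κ z t Γ T)).W a z c| ≤
      B * X * (1 + Real.log X) ^ (Fintype.card (Ty n)) / (z : ℝ) ^ ((1 : ℝ) / 3) := by
    intro T _
    rw [abs_mul, abs_pow, abs_neg, abs_one, one_pow, one_mul]
    exact h (rem M (DT κ z t Γ T)) a N z X hz hX (bounded_rem M _ hM) ha
      (bil_rem M _ κ N B₀ hBil)
  have hlog : 0 ≤ Real.log X := Real.log_nonneg (by exact_mod_cast hX)
  have hnn : 0 ≤ B * X * (1 + Real.log X) ^ (Fintype.card (Ty n)) / (z : ℝ) ^ ((1 : ℝ) / 3) := by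
    positivity
  calc |∑ T ∈ Qd.powerset, (-1 : ℝ) ^ T.card * ∑ c ∈ (cfgs (Ty n) N X).filter
        (fun c => (rem M (DT κ z t Γ T)).Unb κ z c), (rem M (DT κ z t Γ T)).W a z c|
      ≤ ∑ T ∈ Qd.powerset, |(-1 : ℝ) ^ T.card * ∑ c ∈ (cfgs (Ty n) N X).filter
        (fun c => (rem M (DT κ z t Γ T)).Unb κ z c), (rem M (DT κ z t Γ T)).W a z c| :=
        Finset.abs_sum_le_sum_abs _ _
    _ ≤ ∑ T ∈ Qd.powerset,
        B * X * (1 + Real.log X) ^ (Fintype.card (Ty n)) / (z : ℝ) ^ ((1 : ℝ) / 3) :=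
        Finset.sum_le_sum h1
    _ = (2 : ℝ) ^ Qd.card *
        (B * X * (1 + Real.log X) ^ (Fintype.card (Ty n)) / (z : ℝ) ^ ((1 : ℝ) / 3)) := by
        rw [Finset.sum_const, Finset.card_powerset, nsmul_eq_mul]
        push_cast
        rfl
    _ ≤ (2 : ℝ) ^ m *
        (B * X * (1 + Real.log X) ^ (Fintype.card (Ty n)) / (z : ℝ) ^ ((1 : ℝ) / 3)) := by
        refine mul_le_mul_of_nonneg_right ?_ hnn
        have hc : Qd.card ≤ m := by
          have := Finset.card_le_univ Qd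
          rwa [Fintype.card_fin] at this
        exact pow_le_pow_right₀ (by norm_num) hc
    _ = 2 ^ m * B * X * (1 + Real.log X) ^ (Fintype.card (Ty n)) / (z : ℝ) ^ ((1 : ℝ) / 3) := by
        ring

end Pool.Agent.QTr
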