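import Pool.Agent.QTr.Targets
import Pool.Agent.QTr.RTP

/-!
# QTr-UNP: points of the unit twists at good primes
-/

open Polynomial

namespace Pool.Agent.QTr

/-- UNP: points of the unit twists at good primes. -/
theorem p_UNP (h1 : T_WEI) : T_UNP := by
  intro f hf hsq
  obtain ⟨D, hD, u, v, hb⟩ := RTP_.bezout f hsq
  obtain ⟨C₀, hC₀⟩ := h1 f.natDegree
  have hf0 : f ≠ 0 := by
    rintro rfl
    simp at hf
  have hlc : f.leadingCoeff ≠ 0 := leadingCoeff_ne_zero.2 hf0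
  refine ⟨2 * f.leadingCoeff.natAbs * D.natAbs * C₀.factorial, ?_, ?_⟩
  · have h2 := Int.natAbs_pos.2 hlc
    have h3 := Int.natAbs_pos.2 hD
    have h4 := Nat.factorial_pos C₀
    positivity
  intro p hp hpN d hpd
  have hpp : p.Prime := hp.out
  have hp2 : ¬ p ∣ 2 := fun h => hpN (((h.mul_right _).mul_right _).mul_right _)
  have hplc : ¬ (p : ℤ) ∣ f.leadingCoeff := fun h =>
    hpN ((((Int.natCast_dvd.1 h).mul_left _).mul_right _).mul_right _)
  have hpD : ¬ (p : ℤ) ∣ D := fun h => hpN (((Int.natCast_dvd.1 h).mul_left _).mul_right _)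
  have hpC : C₀ < p := by
    by_contra hcon
    exact hpN ((hpp.dvd_factorial.2 (not_lt.1 hcon)).mul_left _)
  obtain ⟨g, hg⟩ : ∃ g : (ZMod p)[X], g = f.map (Int.castRingHom (ZMod p)) := ⟨_, rfl⟩
  have hlcp : Int.castRingHom (ZMod p) f.leadingCoeff ≠ 0 := by
    intro h
    exact hplc ((ZMod.intCast_zmod_eq_zero_iff_dvd _ p).1 h)
  have hgd : g.natDegree = f.natDegree := by
    rw [hg]
    exact natDegree_map_of_leadingCoeff_ne_zero _ hlcp
  have hgs : Squarefree g := by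
    apply Separable.squarefree
    have hDp : ((D : ℤ) : ZMod p) ≠ 0 := fun h =>
      hpD ((ZMod.intCast_zmod_eq_zero_iff_dvd _ p).1 h)
    have h2 := congrArg (Polynomial.map (Int.castRingHom (ZMod p))) hb
    rw [Polynomial.map_add, Polynomial.map_mul, Polynomial.map_mul, Polynomial.map_C, ← hg,
      ← Polynomial.derivative_map, ← hg] at h2
    have h3 : (Int.castRingHom (ZMod p)) D = (D : ZMod p) := rfl
    rw [h3] at h2
    refine ⟨C ((D : ZMod p)⁻¹) * u.map (Int.castRingHom (ZMod p)),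
      C ((D : ZMod p)⁻¹) * v.map (Int.castRingHom (ZMod p)), ?_⟩
    calc C ((D : ZMod p)⁻¹) * u.map (Int.castRingHom (ZMod p)) * g +
          C ((D : ZMod p)⁻¹) * v.map (Int.castRingHom (ZMod p)) * derivative g
        = C ((D : ZMod p)⁻¹) * (u.map (Int.castRingHom (ZMod p)) * g +
          v.map (Int.castRingHom (ZMod p)) * derivative g) := by ring
      _ = 1 := by rw [h2, ← C_mul, inv_mul_cancel₀ hDp, C_1]
  have hdp : ((d : ℤ) : ZMod p) ≠ 0 := fun h => hpd ((ZMod.intCast_zmod_eq_zero_iff_dvd _ p).1 h)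
  obtain ⟨x, y, hy, hxy⟩ := hC₀ p hpC g hgs (by omega) (by omega) (d : ZMod p) hdp
  obtain ⟨s, hs⟩ : ∃ s : ℤ, s = (x.val : ℤ) := ⟨_, rfl⟩
  obtain ⟨t, ht⟩ : ∃ t : ℤ, t = (y.val : ℤ) := ⟨_, rfl⟩
  have hsx : (s : ZMod p) = x := by rw [hs]; simp
  have hty : (t : ZMod p) = y := by rw [ht]; simp
  have hpt : ¬ (p : ℤ) ∣ t := by
    intro h
    rw [← ZMod.intCast_zmod_eq_zero_iff_dvd, hty] at h
    exact hy h
  have hval : (p : ℤ) ∣ d * t ^ 2 - f.eval s := by
    rw [← ZMod.intCast_zmod_eq_zero_iff_dvd]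
    push_cast
    have h2 : ((f.eval s : ℤ) : ZMod p) = g.eval x := by
      rw [hg, ← hsx, eval_intCast_map]
      rfl
    rw [h2, hxy, hty, sub_self]
  obtain ⟨F, hF⟩ : ∃ F : ℤ[X], F = C d * X ^ 2 - C (f.eval s) := ⟨_, rfl⟩
  have hFe : ∀ z : ℤ_[p], aeval z F = (d : ℤ_[p]) * z ^ 2 - ((f.eval s : ℤ) : ℤ_[p]) := by
    intro z
    rw [hF]
    simp
  have hFd : ∀ z : ℤ_[p], aeval z (derivative F) = 2 * (d : ℤ_[p]) * z := by
    intro z
    have h2 : derivative F = C (2 * d) * X := by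
      rw [hF, derivative_sub, derivative_C_mul_X_pow, derivative_C, sub_zero]
      norm_num
      ring
    rw [h2, map_mul, aeval_X, aeval_C]
    simp
  have hn1 : ‖aeval (t : ℤ_[p]) (derivative F)‖ = 1 := by
    rw [hFd]
    have h2 : (2 * (d : ℤ_[p]) * (t : ℤ_[p])) = ((2 * d * t : ℤ) : ℤ_[p]) := by push_cast; ring
    rw [h2]
    apply le_antisymm (PadicInt.norm_le_one _)
    rw [← not_lt, PadicInt.norm_int_lt_one_iff_dvd]
    intro h
    have hpi := Nat.prime_iff_prime_int.1 hpp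
    rcases hpi.dvd_or_dvd h with h3 | h3
    · rcases hpi.dvd_or_dvd h3 with h4 | h4
      · exact hp2 (by exact_mod_cast h4)
      · exact hpd h4
    · exact hpt h3
  have hn2 : ‖aeval (t : ℤ_[p]) F‖ < 1 := by
    rw [hFe]
    have h2 : ((d : ℤ_[p]) * (t : ℤ_[p]) ^ 2 - ((f.eval s : ℤ) : ℤ_[p])) =
      ((d * t ^ 2 - f.eval s : ℤ) : ℤ_[p]) := by push_cast; ring
    rw [h2, PadicInt.norm_int_lt_one_iff_dvd]
    exact hval
  obtain ⟨z, hz, -, hz2, -⟩ := hensels_lemma (p := p) (R := ℤ) (F := F) (a := (t : ℤ_[p]))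
    (by rw [hn1, one_pow]; exact hn2)
  rw [hn1, hFd] at hz2
  refine ⟨(s : ℚ_[p]), (z : ℚ_[p]), ?_, ?_⟩
  · intro h0
    have h3 : z = 0 := Subtype.ext h0
    rw [h3, mul_zero, norm_zero] at hz2
    exact zero_ne_one hz2
  · rw [hFe, sub_eq_zero] at hz
    have h3 : ((((d : ℤ_[p]) * z ^ 2 : ℤ_[p])) : ℚ_[p]) =
      (((f.eval s : ℤ) : ℤ_[p]) : ℚ_[p]) := by rw [hz]
    push_cast at h3
    rw [h3]
    have h4 : aeval (s : ℚ_[p]) f = algebraMap ℤ ℚ_[p] (aeval s f) := by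
      rw [← Polynomial.aeval_algebraMap_apply]
      simp
    rw [h4]
    simp [aeval_def, eval₂_eq_eval_map]

end Pool.Agent.QTr
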