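import Mathlib
import Pool.Agent.QTr.Targets

/-!
# VMB: Chebyshev type bounds for the von Mangoldt function of a number field
-/

open Polynomial NumberField
open Pool.Agent.QTw (idealCount)

namespace Pool.Agent.QTr
namespace VMB_

variable (K : Type) [Field K] [NumberField K]

/-- at most `[K : ℚ]` prime ideals contain the prime `p` -/
theorem card_over (p : ℕ) (hp : p.Prime) (S : Finset (Ideal (𝓞 K)))
    (hS : ∀ P ∈ S, P.IsPrime ∧ (p : 𝓞 K) ∈ P) : S.card ≤ Module.finrank ℚ K := by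
  classical
  have hI0 : Ideal.span {(p : ℤ)} ≠ ⊥ := by
    rw [Ne, Ideal.span_singleton_eq_bot]
    exact_mod_cast hp.ne_zero
  have hmax : (Ideal.span {(p : ℤ)}).IsMaximal :=
    ((Ideal.span_singleton_prime (by exact_mod_cast hp.ne_zero)).mpr
      (Nat.prime_iff_prime_int.mp hp)).isMaximal hI0
  refine le_trans (Finset.card_le_card (t := IsDedekindDomain.primesOverFinset
    (Ideal.span {(p : ℤ)}) (𝓞 K)) ?_)
    (Ideal.card_primesOverFinset_le_finrank (𝓞 K) ℚ K hI0)
  intro P hP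
  rw [IsDedekindDomain.mem_primesOverFinset_iff hI0]
  obtain ⟨hP1, hP2⟩ := hS P hP
  refine ⟨hP1, ⟨?_⟩⟩
  refine hmax.eq_of_le ?_ ?_
  · exact (Ideal.IsPrime.under ℤ P).ne_top
  · rw [Ideal.span_singleton_le_iff_mem, Ideal.mem_under]
    simpa using hP2

open Classical in
/-- the prime ideals of norm `q` -/
noncomputable def F (q : ℕ) : Finset (Ideal (𝓞 K)) :=
  (Ideal.finite_setOfPred_absNorm_eq (S := 𝓞 K) q).toFinset.filter
    (fun P => P.IsPrime ∧ P ≠ ⊥)

theorem mem_F {q : ℕ} {P : Ideal (𝓞 K)} :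
    P ∈ F K q ↔ P.IsPrime ∧ P ≠ ⊥ ∧ Ideal.absNorm P = q := by
  classical
  unfold F
  rw [Finset.mem_filter, Set.Finite.mem_toFinset]
  constructor
  · rintro ⟨h1, h2, h3⟩
    exact ⟨h2, h3, h1⟩
  · rintro ⟨h1, h2, h3⟩
    exact ⟨h3, h1, h2⟩

theorem card_F (q : ℕ) : primeCountK K q = (F K q).card := by
  unfold primeCountK
  exact Nat.subtype_card _ (fun P => mem_F K)

theorem F_spec {q : ℕ} {P : Ideal (𝓞 K)} (hP : P ∈ F K q) :
    ∃ p n : ℕ, 0 < n ∧ (p : 𝓞 K) ∈ P ∧ p.Prime ∧ q = p ^ n := by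
  obtain ⟨h1, h2, h3⟩ := (mem_F K).mp hP
  have := h1
  have : P.IsMaximal := h1.isMaximal h2
  obtain ⟨p, n, hn, hp, hpp, h⟩ := Ideal.exists_prime_and_absNorm_eq_pow P
  exact ⟨p, n, hn, hp, hpp, by rw [← h3, h]⟩

theorem primeCountK_eq_zero {q : ℕ} (h : ¬ IsPrimePow q) : primeCountK K q = 0 := by
  rw [card_F, Finset.card_eq_zero, Finset.eq_empty_iff_forall_notMem]
  intro P hP
  obtain ⟨p, n, hn, -, hpp, h'⟩ := F_spec K hP
  apply h
  rw [isPrimePow_nat_iff]
  exact ⟨p, n, hpp, hn, h'.symm⟩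

open Classical in
theorem sum_primeCountK_le (m : ℕ) :
    ∑ q ∈ m.divisors.filter (fun q => ∃ k : ℕ, 0 < k ∧ q ^ k = m), primeCountK K q ≤
      Module.finrank ℚ K := by
  by_cases hm : IsPrimePow m
  · obtain ⟨p, j, hp, hj, hpj⟩ := (isPrimePow_nat_iff m).mp hm
    have h1 : ∑ q ∈ m.divisors.filter (fun q => ∃ k : ℕ, 0 < k ∧ q ^ k = m), primeCountK K q =
        ((m.divisors.filter (fun q => ∃ k : ℕ, 0 < k ∧ q ^ k = m)).biUnion (F K)).card := by
      rw [Finset.card_biUnion]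
      · exact Finset.sum_congr rfl (fun q _ => card_F K q)
      · intro a _ b _ hab
        rw [Function.onFun, Finset.disjoint_left]
        intro P hPa hPb
        exact hab (((mem_F K).mp hPa).2.2.symm.trans ((mem_F K).mp hPb).2.2)
    rw [h1]
    refine card_over K p hp _ ?_
    intro P hP
    rw [Finset.mem_biUnion] at hP
    obtain ⟨q, hq, hPq⟩ := hP
    obtain ⟨-, k, hk, hqk⟩ := Finset.mem_filter.mp hq
    obtain ⟨p', n, hn, hp'P, hpp', hqn⟩ := F_spec K hPq
    have h2 : p' ∣ p ^ j := by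
      rw [hpj, ← hqk, hqn, ← pow_mul]
      exact dvd_pow_self _ (Nat.mul_pos hn hk).ne'
    have h3 : p' = p := (Nat.prime_dvd_prime_iff_eq hpp' hp).mp (hpp'.dvd_of_dvd_pow h2)
    rw [← h3]
    exact ⟨((mem_F K).mp hPq).1, hp'P⟩
  · rw [Finset.sum_eq_zero]
    · exact Nat.zero_le _
    · intro q hq
      obtain ⟨-, k, hk, hqk⟩ := Finset.mem_filter.mp hq
      refine primeCountK_eq_zero K ?_
      intro h
      apply hm
      rw [← hqk]
      exact h.pow hk.ne'

theorem vK_nonneg (m : ℕ) : 0 ≤ vK K m := by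
  unfold vK
  exact Finset.sum_nonneg (fun q _ => mul_nonneg (Nat.cast_nonneg _) (Real.log_natCast_nonneg q))

theorem vK_le (m : ℕ) : vK K m ≤ Module.finrank ℚ K * Real.log m := by
  classical
  unfold vK
  have h1 : ∀ q ∈ m.divisors.filter (fun q => ∃ k : ℕ, 0 < k ∧ q ^ k = m),
      (primeCountK K q : ℝ) * Real.log q ≤ (primeCountK K q : ℝ) * Real.log m := by
    intro q hq
    obtain ⟨hq1, -⟩ := Finset.mem_filter.mp hq
    have hq0 : 0 < q := Nat.pos_of_mem_divisors hq1
    have hqm : q ≤ m := Nat.divisor_le hq1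
    refine mul_le_mul_of_nonneg_left ?_ (Nat.cast_nonneg _)
    exact Real.log_le_log (by exact_mod_cast hq0) (by exact_mod_cast hqm)
  refine (Finset.sum_le_sum h1).trans ?_
  rw [← Finset.sum_mul]
  refine mul_le_mul_of_nonneg_right ?_ (Real.log_natCast_nonneg m)
  exact_mod_cast sum_primeCountK_le K m

theorem vK_eq_zero {m : ℕ} (h : ¬ IsPrimePow m) : vK K m = 0 := by
  classical
  unfold vK
  refine Finset.sum_eq_zero ?_
  intro q hq
  obtain ⟨-, k, hk, hqk⟩ := Finset.mem_filter.mp hq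
  rw [primeCountK_eq_zero K, Nat.cast_zero, zero_mul]
  intro h'
  apply h
  rw [← hqk]
  exact h'.pow hk.ne'

theorem primeCountK_prime {p : ℕ} (hp : p.Prime) : primeCountK K p = idealCount K p := by
  unfold primeCountK idealCount
  refine Nat.card_congr (Equiv.subtypeEquivRight ?_)
  intro P
  constructor
  · rintro ⟨-, -, h⟩
    exact h
  · intro h
    refine ⟨Ideal.isPrime_of_irreducible_absNorm (by rw [h]; exact hp), ?_, h⟩
    rintro rfl
    rw [Ideal.absNorm_bot] at h
    exact hp.ne_zero h.symm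

theorem vK_prime {p : ℕ} (hp : p.Prime) : vK K p = (idealCount K p : ℝ) * Real.log p := by
  classical
  unfold vK
  have h1 : p.divisors.filter (fun q => ∃ k : ℕ, 0 < k ∧ q ^ k = p) = {p} := by
    ext q
    rw [Finset.mem_filter, Finset.mem_singleton]
    constructor
    · rintro ⟨h1, k, hk, h2⟩
      rw [hp.divisors, Finset.mem_insert, Finset.mem_singleton] at h1
      rcases h1 with h1 | h1
      · rw [h1, one_pow] at h2
        exact absurd h2.symm hp.ne_one
      · exact h1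
    · rintro rfl
      exact ⟨Nat.mem_divisors_self _ hp.ne_zero, 1, one_pos, pow_one _⟩
  rw [h1, Finset.sum_singleton, primeCountK_prime K hp]

/-! ### the prime powers -/

open Classical in
/-- `log d / d` for the prime powers which are not primes -/
noncomputable def W (d : ℕ) : ℝ := if IsPrimePow d ∧ ¬ d.Prime then Real.log d / d else 0

theorem W_nonneg (d : ℕ) : 0 ≤ W d := by
  unfold W
  split_ifs
  · exact div_nonneg (Real.log_natCast_nonneg d) (Nat.cast_nonneg _)
  · exact le_refl _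

theorem sum_geom (s : Finset ℕ) : ∑ j ∈ s, (j : ℝ) * (1 / 2) ^ j ≤ 2 := by
  have h : HasSum (fun n : ℕ => (n : ℝ) * (1 / 2 : ℝ) ^ n) ((1 / 2) / (1 - 1 / 2) ^ 2) :=
    hasSum_coe_mul_geometric_of_norm_lt_one (by norm_num)
  have h2 := sum_le_hasSum s (fun i _ => by positivity) h
  refine h2.trans (le_of_eq ?_)
  norm_num

theorem sum_j_le (p : ℕ) (hp : 2 ≤ p) (J : ℕ) :
    ∑ j ∈ Finset.Icc 2 J, (j : ℝ) * Real.log p / (p : ℝ) ^ j ≤ 8 * (Real.log p / (p : ℝ) ^ 2) := by
  have hp0 : (0 : ℝ) < p := by positivity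
  have hp2 : (2 : ℝ) ≤ p := by exact_mod_cast hp
  have hl : 0 ≤ Real.log p := Real.log_natCast_nonneg p
  have h1 : ∀ j ∈ Finset.Icc 2 J, (j : ℝ) * Real.log p / (p : ℝ) ^ j ≤
      4 * (Real.log p / (p : ℝ) ^ 2) * ((j : ℝ) * (1 / 2) ^ j) := by
    intro j hj
    obtain ⟨hj1, -⟩ := Finset.mem_Icc.mp hj
    obtain ⟨i, rfl⟩ := Nat.exists_eq_add_of_le hj1
    have h2 : (p : ℝ) ^ 2 * 2 ^ i ≤ (p : ℝ) ^ (2 + i) := by
      rw [pow_add]
      exact mul_le_mul_of_nonneg_left (pow_le_pow_left₀ (by norm_num) hp2 _) (by positivity)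
    have h3 : 4 * (Real.log p / (p : ℝ) ^ 2) * (((2 + i : ℕ) : ℝ) * (1 / 2) ^ (2 + i)) =
        ((2 + i : ℕ) : ℝ) * Real.log p / ((p : ℝ) ^ 2 * 2 ^ i) := by
      rw [pow_add, one_div_pow, one_div_pow]
      field_simp
      norm_num
      exact mul_comm _ _
    rw [h3]
    exact div_le_div_of_nonneg_left (by positivity) (by positivity) h2
  refine (Finset.sum_le_sum h1).trans ?_
  rw [← Finset.mul_sum]
  have h4 : 0 ≤ 4 * (Real.log p / (p : ℝ) ^ 2) := by positivity
  have := mul_le_mul_of_nonneg_left (sum_geom (Finset.Icc 2 J)) h4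
  linarith

theorem log_div_le (p : ℕ) (hp : 1 ≤ p) :
    Real.log p / (p : ℝ) ^ 2 ≤ 2 * (1 / (p : ℝ) ^ (3 / 2 : ℝ)) := by
  have hp0 : (0 : ℝ) < p := by exact_mod_cast hp
  have h1 : Real.log p ≤ (p : ℝ) ^ (1 / 2 : ℝ) / (1 / 2) :=
    Real.log_le_rpow_div hp0.le (by norm_num)
  have h2 : (p : ℝ) ^ 2 = (p : ℝ) ^ (1 / 2 : ℝ) * (p : ℝ) ^ (3 / 2 : ℝ) := by
    rw [← Real.rpow_add hp0, ← Real.rpow_natCast]
    norm_num
  rw [h2]
  have h3 : 0 < (p : ℝ) ^ (1 / 2 : ℝ) := Real.rpow_pos_of_pos hp0 _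
  have h4 : 0 < (p : ℝ) ^ (3 / 2 : ℝ) := Real.rpow_pos_of_pos hp0 _
  rw [div_le_iff₀ (mul_pos h3 h4)]
  have h5 : 2 * (1 / (p : ℝ) ^ (3 / 2 : ℝ)) * ((p : ℝ) ^ (1 / 2 : ℝ) * (p : ℝ) ^ (3 / 2 : ℝ)) =
      (p : ℝ) ^ (1 / 2 : ℝ) / (1 / 2) := by
    field_simp
  rw [h5]
  exact h1

theorem sum_W : ∃ S : ℝ, 0 ≤ S ∧ ∀ X : ℕ, ∑ d ∈ Finset.Icc 1 X, W d ≤ S := by
  classical
  have hs : Summable (fun n : ℕ => 1 / (n : ℝ) ^ (3 / 2 : ℝ)) :=
    Real.summable_one_div_nat_rpow.mpr (by norm_num)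
  refine ⟨16 * ∑' n : ℕ, 1 / (n : ℝ) ^ (3 / 2 : ℝ), ?_, ?_⟩
  · exact mul_nonneg (by norm_num) (tsum_nonneg (fun n => by positivity))
  intro X
  set T : Finset ℕ := (Finset.Icc 1 X).filter (fun d => IsPrimePow d ∧ ¬ d.Prime) with hT
  set φ : ℕ → ℕ × ℕ := fun d => (d.minFac, d.factorization d.minFac) with hφ
  set G : ℕ × ℕ → ℝ := fun x => (x.2 : ℝ) * Real.log x.1 / (x.1 : ℝ) ^ x.2 with hG
  have hrec : ∀ d ∈ T, (φ d).1 ^ (φ d).2 = d := by
    intro d hd
    obtain ⟨-, h1, -⟩ := Finset.mem_filter.mp hd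
    exact h1.minFac_pow_factorization_eq
  have hinj : Set.InjOn φ (T : Set ℕ) := by
    intro a ha b hb hab
    rw [← hrec a ha, ← hrec b hb, hab]
  have h1 : ∑ d ∈ Finset.Icc 1 X, W d = ∑ d ∈ T, G (φ d) := by
    rw [hT, Finset.sum_filter]
    refine Finset.sum_congr rfl ?_
    intro d hd
    unfold W
    split_ifs with h
    · have hdT : d ∈ T := by
        rw [hT]
        exact Finset.mem_filter.mpr ⟨hd, h⟩
      have h2 := hrec d hdT
      rw [hG]
      simp only
      have h3 : ((φ d).1 : ℝ) ^ (φ d).2 = (d : ℝ) := by exact_mod_cast h2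
      rw [h3, ← Real.log_pow, h3]
    · rfl
  rw [h1, ← Finset.sum_image (f := G) hinj]
  have hsub : T.image φ ⊆ (Finset.range (X + 1)) ×ˢ (Finset.Icc 2 (X + 1)) := by
    intro x hx
    rw [Finset.mem_image] at hx
    obtain ⟨d, hd, rfl⟩ := hx
    obtain ⟨hd1, hd2, hd3⟩ := Finset.mem_filter.mp hd
    obtain ⟨hd4, hd5⟩ := Finset.mem_Icc.mp hd1
    have hr := hrec d hd
    rw [Finset.mem_product]
    constructor
    · rw [Finset.mem_range]
      have : (φ d).1 ≤ d := Nat.minFac_le hd4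
      omega
    · rw [Finset.mem_Icc]
      have hp : (φ d).1.Prime := Nat.minFac_prime hd2.ne_one
      have h5 : (φ d).2 ≠ 0 := by
        intro h
        rw [h, pow_zero] at hr
        exact hd2.ne_one hr.symm
      have h6 : (φ d).2 ≠ 1 := by
        intro h
        rw [h, pow_one] at hr
        rw [← hr] at hd3
        exact hd3 hp
      refine ⟨by omega, ?_⟩
      have h7 : (φ d).2 < 2 ^ (φ d).2 := Nat.lt_two_pow_self
      have h8 : 2 ^ (φ d).2 ≤ (φ d).1 ^ (φ d).2 := Nat.pow_le_pow_left hp.two_le _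
      omega
  have hGn : ∀ x, 0 ≤ G x := by
    intro x
    rw [hG]
    exact div_nonneg (mul_nonneg (Nat.cast_nonneg _) (Real.log_natCast_nonneg _))
      (pow_nonneg (Nat.cast_nonneg _) _)
  refine (Finset.sum_le_sum_of_subset_of_nonneg hsub (fun x _ _ => hGn x)).trans ?_
  rw [Finset.sum_product]
  have h2 : ∀ p ∈ Finset.range (X + 1), ∑ j ∈ Finset.Icc 2 (X + 1), G (p, j) ≤
      16 * (1 / (p : ℝ) ^ (3 / 2 : ℝ)) := by
    intro p _
    by_cases hp : 2 ≤ p
    · have h3 := sum_j_le p hp (X + 1)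
      have h4 := log_div_le p (by omega)
      rw [hG]
      simp only
      linarith
    · have h3 : Real.log (p : ℝ) = 0 := by
        have : p = 0 ∨ p = 1 := by omega
        rcases this with h | h <;> simp [h]
      rw [hG]
      simp only [h3, mul_zero, zero_div, Finset.sum_const_zero]
      positivity
  refine (Finset.sum_le_sum h2).trans ?_
  rw [← Finset.mul_sum]
  refine mul_le_mul_of_nonneg_left ?_ (by norm_num)
  exact hs.sum_le_tsum _ (fun n _ => by positivity)

theorem theta_bound (X : ℕ) :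
    ∑ d ∈ Finset.Icc 1 X, (if d.Prime then Real.log d else 0) ≤ Real.log 4 * X := by
  have h1 := Chebyshev.theta_le_log4_mul_x (x := (X : ℝ)) (Nat.cast_nonneg _)
  rw [Chebyshev.theta_eq_sum_Icc, Nat.floor_natCast, Finset.sum_filter] at h1
  refine le_trans (Finset.sum_le_sum_of_subset_of_nonneg ?_ ?_) h1
  · intro d hd
    rw [Finset.mem_Icc] at hd ⊢
    omega
  · intro d _ _
    split_ifs
    · exact Real.log_natCast_nonneg d
    · exact le_refl _

end VMB_

open VMB_ in
theorem p_VMB : T_VMB := by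
  classical
  intro K _ _
  refine ⟨vK_nonneg K, ?_⟩
  obtain ⟨S, hS0, hS⟩ := sum_W
  set n : ℝ := (Module.finrank ℚ K : ℝ) with hn
  have hn0 : 0 ≤ n := Nat.cast_nonneg _
  refine ⟨n * Real.log 4 + n * S, ?_⟩
  intro X hX
  have hX1 : (1 : ℝ) ≤ X := by exact_mod_cast hX
  have hl4 : 0 ≤ Real.log 4 := Real.log_nonneg (by norm_num)
  constructor
  · have h1 : ∀ d ∈ Finset.Icc 1 X, vK K d ≤
        n * (if d.Prime then Real.log d else 0) + n * X * W d := by
      intro d hd
      obtain ⟨hd1, hd2⟩ := Finset.mem_Icc.mp hd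
      have hd0 : (0 : ℝ) < d := by exact_mod_cast hd1
      have hdX : (d : ℝ) ≤ X := by exact_mod_cast hd2
      have hW := W_nonneg d
      have hnX : 0 ≤ n * X * W d := by positivity
      by_cases hp : d.Prime
      · rw [if_pos hp]
        have := vK_le K d
        linarith
      · rw [if_neg hp, mul_zero, zero_add]
        by_cases hpp : IsPrimePow d
        · have h2 : W d = Real.log d / d := by
            unfold W
            rw [if_pos ⟨hpp, hp⟩]
          have h3 : n * d * W d = n * Real.log d := by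
            rw [h2]
            field_simp
          have h4 : n * d * W d ≤ n * X * W d :=
            mul_le_mul_of_nonneg_right (mul_le_mul_of_nonneg_left hdX hn0) hW
          have := vK_le K d
          linarith
        · rw [vK_eq_zero K hpp]
          exact hnX
    refine (Finset.sum_le_sum h1).trans ?_
    rw [Finset.sum_add_distrib, ← Finset.mul_sum, ← Finset.mul_sum]
    have h2 := mul_le_mul_of_nonneg_left (theta_bound X) hn0
    have h3 := mul_le_mul_of_nonneg_left (hS X) (mul_nonneg hn0 (by linarith : (0 : ℝ) ≤ X))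
    nlinarith
  · have h1 : ∑ p ∈ (Finset.range (X + 1)).filter Nat.Prime,
        (idealCount K p : ℝ) * Real.log p / p =
        ∑ d ∈ Finset.Icc 1 X, (if d.Prime then (idealCount K d : ℝ) * Real.log d / d else 0) := by
      rw [← Finset.sum_filter]
      refine Finset.sum_congr ?_ (fun _ _ => rfl)
      ext d
      simp only [Finset.mem_filter, Finset.mem_range, Finset.mem_Icc]
      constructor
      · rintro ⟨h1, h2⟩
        exact ⟨⟨h2.one_le, by omega⟩, h2⟩
      · rintro ⟨⟨h1, h2⟩, h3⟩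
        exact ⟨by omega, h3⟩
    rw [h1, ← Finset.sum_sub_distrib]
    have h2 : ∀ d ∈ Finset.Icc 1 X, 0 ≤ vK K d / d -
        (if d.Prime then (idealCount K d : ℝ) * Real.log d / d else 0) ∧
        vK K d / d - (if d.Prime then (idealCount K d : ℝ) * Real.log d / d else 0) ≤
          n * W d := by
      intro d hd
      obtain ⟨hd1, hd2⟩ := Finset.mem_Icc.mp hd
      have hd0 : (0 : ℝ) < d := by exact_mod_cast hd1
      by_cases hp : d.Prime
      · rw [if_pos hp, vK_prime K hp, sub_self]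
        exact ⟨le_refl _, mul_nonneg hn0 (W_nonneg d)⟩
      · rw [if_neg hp, sub_zero]
        refine ⟨div_nonneg (vK_nonneg K d) hd0.le, ?_⟩
        by_cases hpp : IsPrimePow d
        · have h2 : W d = Real.log d / d := by
            unfold W
            rw [if_pos ⟨hpp, hp⟩]
          rw [h2, ← mul_div_assoc]
          exact div_le_div_of_nonneg_right (vK_le K d) hd0.le
        · rw [vK_eq_zero K hpp, zero_div]
          exact mul_nonneg hn0 (W_nonneg d)
    rw [abs_of_nonneg (Finset.sum_nonneg (fun d hd => (h2 d hd).1))]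
    refine (Finset.sum_le_sum (fun d hd => (h2 d hd).2)).trans ?_
    rw [← Finset.mul_sum]
    have h3 := mul_le_mul_of_nonneg_left (hS X) hn0
    have h4 := mul_nonneg hn0 hl4
    linarith

end Pool.Agent.QTr
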