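import Pool.Agent.QTr.Targets

/-!
# VOB: the volume of the set of points whose absolute values are near a given point
-/

open Polynomial NumberField
open Pool.Agent.QTw (IsFunctionField IsCovering HasPoint TwistSelNonempty TwistEverywhereLocal
  primesTo cfgs idealCount rootCount)
open Pool.Agent.QTx (GoodFactors2 Model Ty Rts mdl IsEnum PtData)

namespace Pool.Agent.QTr

namespace VOB_

open MeasureTheory

theorem vol_real (c r : ℝ) (hr : 0 < r) :
    volume {y : ℝ | |‖y‖ - c| ≤ r} ≤ ENNReal.ofReal (4 * r) := by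
  have h1 : {y : ℝ | |‖y‖ - c| ≤ r} ⊆ Set.Icc (c - r) (c + r) ∪ Set.Icc (-c - r) (-c + r) := by
    intro y hy
    have hy' : |‖y‖ - c| ≤ r := hy
    rw [abs_le, Real.norm_eq_abs] at hy'
    rcases le_total 0 y with h | h
    · left
      rw [abs_of_nonneg h] at hy'
      exact ⟨by linarith [hy'.1], by linarith [hy'.2]⟩
    · right
      rw [abs_of_nonpos h] at hy'
      exact ⟨by linarith [hy'.2], by linarith [hy'.1]⟩
  refine (measure_mono h1).trans ((measure_union_le _ _).trans ?_)
  rw [Real.volume_Icc, Real.volume_Icc, ← ENNReal.ofReal_add (by linarith) (by linarith)]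
  exact ENNReal.ofReal_le_ofReal (by linarith)

theorem vol_complex (c r R : ℝ) (hr : 0 < r) (hrR : r ≤ R) (hc : |c| ≤ R) :
    volume {z : ℂ | |‖z‖ - c| ≤ r} ≤ ENNReal.ofReal (4 * Real.pi * R * r) := by
  have hpi := Real.pi_pos
  have hcR : c ≤ R := (le_abs_self c).trans hc
  have hpos : 0 < R := lt_of_lt_of_le hr hrR
  have hball : ∀ ρ : ℝ, 0 ≤ ρ → volume (Metric.closedBall (0 : ℂ) ρ) =
      ENNReal.ofReal (ρ ^ 2 * Real.pi) := by
    intro ρ hρ
    rw [Complex.volume_closedBall, ENNReal.ofReal_mul (by positivity), ENNReal.ofReal_pow hρ]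
    congr 1
    rw [← NNReal.coe_real_pi, ENNReal.ofReal_coe_nnreal]
  have hball' : ∀ ρ : ℝ, 0 ≤ ρ → volume (Metric.ball (0 : ℂ) ρ) =
      ENNReal.ofReal (ρ ^ 2 * Real.pi) := by
    intro ρ hρ
    rw [Complex.volume_ball, ENNReal.ofReal_mul (by positivity), ENNReal.ofReal_pow hρ]
    congr 1
    rw [← NNReal.coe_real_pi, ENNReal.ofReal_coe_nnreal]
  rcases le_or_gt r c with h | h
  · have h1 : {z : ℂ | |‖z‖ - c| ≤ r} ⊆
        Metric.closedBall 0 (c + r) \ Metric.ball 0 (c - r) := by
      intro z hz
      have hz' : |‖z‖ - c| ≤ r := hz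
      rw [abs_le] at hz'
      refine ⟨?_, ?_⟩
      · rw [Metric.mem_closedBall, dist_zero_right]
        linarith [hz'.2]
      · rw [Metric.mem_ball, dist_zero_right, not_lt]
        linarith [hz'.1]
    refine (measure_mono h1).trans ?_
    rw [measure_sdiff (Metric.ball_subset_closedBall.trans
      (Metric.closedBall_subset_closedBall (by linarith)))
      Metric.isOpen_ball.measurableSet.nullMeasurableSet
      (by rw [hball' _ (by linarith)]; exact ENNReal.ofReal_ne_top),
      hball _ (by linarith), hball' _ (by linarith),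
      ← ENNReal.ofReal_sub _ (by positivity)]
    apply ENNReal.ofReal_le_ofReal
    have e : (c + r) ^ 2 * Real.pi - (c - r) ^ 2 * Real.pi = 4 * Real.pi * c * r := by ring
    rw [e]
    have : 4 * Real.pi * c ≤ 4 * Real.pi * R := by
      apply mul_le_mul_of_nonneg_left hcR
      positivity
    exact mul_le_mul_of_nonneg_right this hr.le
  · have h1 : {z : ℂ | |‖z‖ - c| ≤ r} ⊆ Metric.closedBall 0 (2 * r) := by
      intro z hz
      have hz' : |‖z‖ - c| ≤ r := hz
      rw [abs_le] at hz'
      rw [Metric.mem_closedBall, dist_zero_right]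
      linarith [hz'.2]
    refine (measure_mono h1).trans ?_
    rw [hball _ (by linarith)]
    apply ENNReal.ofReal_le_ofReal
    have e : (2 * r) ^ 2 * Real.pi = 4 * Real.pi * r * r := by ring
    rw [e]
    have : 4 * Real.pi * r ≤ 4 * Real.pi * R := by
      apply mul_le_mul_of_nonneg_left hrR
      positivity
    exact mul_le_mul_of_nonneg_right this hr.le

end VOB_

open Classical in
open NumberField.mixedEmbedding NumberField.mixedEmbedding.fundamentalCone
  NumberField.InfinitePlace MeasureTheory VOB_ in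
theorem p_VOB : T_VOB := by
  intro K _ _ R
  refine ⟨4 ^ (Fintype.card {w : InfinitePlace K // IsReal w}) *
    (4 * Real.pi * R) ^ (Fintype.card {w : InfinitePlace K // IsComplex w}), ?_⟩
  intro c r hc hr hrR
  have hpos : 0 < R := lt_of_lt_of_le hr hrR
  have hpi := Real.pi_pos
  have hcw : ∀ w, |c w| ≤ R := fun w => by
    have h := norm_le_pi_norm c w
    rw [Real.norm_eq_abs] at h
    exact h.trans hc
  have hset : normAtAllPlaces ⁻¹' (Metric.closedBall c r) =
      (Set.univ.pi fun w : {w : InfinitePlace K // IsReal w} =>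
        {y : ℝ | |‖y‖ - c w.1| ≤ r}) ×ˢ
      (Set.univ.pi fun w : {w : InfinitePlace K // IsComplex w} =>
        {z : ℂ | |‖z‖ - c w.1| ≤ r}) := by
    ext x
    rw [Set.mem_preimage, Metric.mem_closedBall, dist_pi_le_iff hr.le, Set.mem_prod,
      Set.mem_univ_pi, Set.mem_univ_pi]
    constructor
    · intro h
      refine ⟨fun w => ?_, fun w => ?_⟩
      · have h1 := h w.1
        rw [normAtAllPlaces_apply, normAtPlace_apply_of_isReal w.2, Real.dist_eq] at h1
        exact h1
      · have h1 := h w.1
        rw [normAtAllPlaces_apply, normAtPlace_apply_of_isComplex w.2, Real.dist_eq] at h1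
        exact h1
    · rintro ⟨h1, h2⟩ w
      rw [normAtAllPlaces_apply, Real.dist_eq]
      rcases isReal_or_isComplex w with hw | hw
      · rw [normAtPlace_apply_of_isReal hw]
        exact h1 ⟨w, hw⟩
      · rw [normAtPlace_apply_of_isComplex hw]
        exact h2 ⟨w, hw⟩
  have hvol : volume (normAtAllPlaces ⁻¹' (Metric.closedBall c r)) ≤
      ENNReal.ofReal ((4 * r) ^ (Fintype.card {w : InfinitePlace K // IsReal w}) *
        (4 * Real.pi * R * r) ^ (Fintype.card {w : InfinitePlace K // IsComplex w})) := by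
    rw [hset, Measure.volume_eq_prod, Measure.prod_prod, volume_pi_pi, volume_pi_pi,
      ENNReal.ofReal_mul (by positivity), ENNReal.ofReal_pow (by positivity),
      ENNReal.ofReal_pow (by positivity)]
    refine mul_le_mul' ?_ ?_
    · refine (Finset.prod_le_prod' fun w _ => vol_real (c w.1) r hr).trans ?_
      rw [Finset.prod_const, Finset.card_univ]
    · refine (Finset.prod_le_prod' fun w _ => vol_complex (c w.1) r R hr hrR (hcw w.1)).trans ?_
      rw [Finset.prod_const, Finset.card_univ]
  refine (ENNReal.toReal_mono ENNReal.ofReal_ne_top hvol).trans ?_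
  rw [ENNReal.toReal_ofReal (by positivity)]
  have hcard : Fintype.card (InfinitePlace K) =
      Fintype.card {w : InfinitePlace K // IsReal w} +
        Fintype.card {w : InfinitePlace K // IsComplex w} := by
    rw [card_eq_nrRealPlaces_add_nrComplexPlaces]
  rw [hcard, pow_add, mul_pow 4 r, mul_pow (4 * Real.pi * R) r]
  apply le_of_eq
  ring

end Pool.Agent.QTr
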