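import Pool.Agent.QTr.Targets
import Mathlib

/-!
# WEI: points on `y² = u f(x)` over a large prime field
-/

open Polynomial

namespace Pool.Agent.QTr

namespace WEI_

/-- translation preserves squarefreeness -/
lemma sqf_taylor {p : ℕ} [Fact p.Prime] (s : ZMod p) (f : (ZMod p)[X]) (hf : Squarefree f) :
    Squarefree (taylor s f) := by
  intro x hx
  have h1 : (taylorEquiv (-s)) x * (taylorEquiv (-s)) x ∣ f := by
    obtain ⟨c, hc⟩ := hx
    refine ⟨(taylorEquiv (-s)) c, ?_⟩
    have h2 : (taylorEquiv (-s)) ((taylorEquiv s) f) = f := by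
      rw [← taylorEquiv_symm]
      exact AlgEquiv.symm_apply_apply _ _
    rw [← map_mul, ← map_mul, ← hc]
    exact h2.symm
  have h3 := hf _ h1
  have h4 : IsUnit ((taylorEquiv s) ((taylorEquiv (-s)) x)) := h3.map (taylorEquiv s)
  have h5 : (taylorEquiv s) ((taylorEquiv (-s)) x) = x := by
    rw [← taylorEquiv_symm]
    exact AlgEquiv.apply_symm_apply _ _
  rwa [h5] at h4

/-- a polynomial divisible by `(X - x)^l` for all `x` has large degree -/
lemma deg_lower {p : ℕ} [Fact p.Prime] (l : ℕ) (P : (ZMod p)[X]) (hP : P ≠ 0)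
    (h : ∀ x : ZMod p, (X - C x) ^ l ∣ P) : l * p ≤ P.natDegree := by
  have h1 : (∏ x : ZMod p, (X - C x) ^ l) ∣ P := by
    refine Finset.prod_dvd_of_coprime ?_ (fun x _ => h x)
    intro a _ b _ hab
    exact ((pairwise_coprime_X_sub_C (s := fun x : ZMod p => x) Function.injective_id hab).pow)
  have h2 := natDegree_le_of_dvd h1 hP
  rw [natDegree_prod_of_monic _ _ (fun x _ => (monic_X_sub_C x).pow l)] at h2
  simp only [natDegree_pow, natDegree_X_sub_C, mul_one, Finset.sum_const, Finset.card_univ,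
    ZMod.card, smul_eq_mul] at h2
  rw [mul_comm]
  exact h2

end WEI_

open WEI_ in
/-- WEI: points on `y² = u f(x)` over a large prime field. -/
theorem p_WEI (h1 : T_STP) : T_WEI := by
  intro m
  refine ⟨16 * m ^ 2 + 14 * m + 2, ?_⟩
  intro p hp hC f hsq hdeg hm u hu
  by_contra hno
  push Not at hno
  have hp2 : 2 < p := by
    have : 1 ≤ m := le_trans hdeg hm
    nlinarith
  have hodd : p ≠ 2 := by omega
  have hp0 : p / 2 = (p - 1) / 2 := by
    have h3 : p % 2 = 1 := (Nat.Prime.eq_two_or_odd hp.out).resolve_left hodd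
    omega
  -- a translate with nonzero value
  have hf0 : f ≠ 0 := fun h => by rw [h] at hdeg; simp at hdeg
  obtain ⟨s, hs⟩ : ∃ s : ZMod p, f.eval s ≠ 0 := by
    by_contra hall
    push Not at hall
    have h3 := deg_lower 1 f hf0 (fun x => by
      rw [pow_one]
      exact dvd_iff_isRoot.mpr (hall x))
    have : f.natDegree < p := by nlinarith
    omega
  set g : (ZMod p)[X] := taylor s f with hg
  have hgdeg : g.natDegree = f.natDegree := natDegree_taylor f s
  have hgeval : ∀ x : ZMod p, g.eval x = f.eval (x + s) := by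
    intro x
    rw [hg, taylor_eval]
  have hg0 : g.eval 0 ≠ 0 := by
    rw [hgeval, zero_add]
    exact hs
  have hbound : 16 * f.natDegree ^ 2 + 14 * f.natDegree + 2 < p := by
    have h4 : f.natDegree ^ 2 ≤ m ^ 2 := Nat.pow_le_pow_left hm 2
    omega
  -- the sign
  have hupow : u ^ (p / 2) = 1 ∨ u ^ (p / 2) = -1 := ZMod.pow_div_two_eq_neg_one_or_one p hu
  have ha : -(u ^ (p / 2)) = 1 ∨ -(u ^ (p / 2)) = -1 := by
    rcases hupow with h | h
    · right; rw [h]
    · left; rw [h, neg_neg]
  have hval : ∀ x : ZMod p, f.eval x = 0 ∨ (f.eval x) ^ ((p - 1) / 2) = -(u ^ (p / 2)) := by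
    intro x
    by_cases h0 : f.eval x = 0
    · exact Or.inl h0
    right
    have hq : f.eval x / u ≠ 0 := div_ne_zero h0 hu
    have hns : ¬ IsSquare (f.eval x / u) := by
      rintro ⟨y, hy⟩
      have hy0 : y ≠ 0 := by
        rintro rfl
        rw [mul_zero] at hy
        exact hq hy
      refine hno x y hy0 ?_
      rw [div_eq_iff hu] at hy
      rw [hy]; ring
    have h5 : (f.eval x / u) ^ (p / 2) = -1 := by
      rcases ZMod.pow_div_two_eq_neg_one_or_one p hq with h | h
      · exact absurd ((ZMod.euler_criterion p hq).mpr h) hns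
      · exact h
    rw [← hp0]
    have h6 : f.eval x = (f.eval x / u) * u := by field_simp
    rw [h6, mul_pow, h5]
    ring
  obtain ⟨P, hP, hPdeg, hPdvd⟩ := h1 p f.natDegree hdeg hbound g hgdeg hg0 (sqf_taylor s f hsq) _ ha
  have h7 := deg_lower (4 * f.natDegree) P hP (fun x => hPdvd x (by
    rw [hgeval]
    exact hval (x + s)))
  omega

end Pool.Agent.QTr
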