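import Mathlib
import Pool.Agent.QTr.Targets
import Pool.Agent.QTx.WTSC
import Pool.Agent.QTx.RTS
import Pool.Agent.QTx.SPL2
import Pool.Agent.QTx.TRANS
import Pool.Agent.QTx.WCOMB

/-!
# WREL: the average of the weights of the concrete model
-/

open Polynomial
open Pool.Agent.QTw (primesTo idealCount rootCount)
open Pool.Agent.QTx (GoodFactors2 Rts mdl IsEnum WG)
open Pool.Agent.QTw.WTS_ (pos_p primesTo_eq)
open Pool.Agent.QTx.WTSC_ (win win_sub win_num small_win card_lab)

namespace Pool.Agent.QTr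
namespace WREL_

variable {k : ℕ}

/-- a root of one of the factors is a root of `f` -/
theorem rc_pos (g : Fin (k + 1) → ℤ[X]) (f : ℤ[X]) (c : ℚ)
    (hf : f.map (Int.castRingHom ℚ) = C c * ∏ i, (g i).map (Int.castRingHom ℚ)) (N p : ℕ)
    (hden : c.den ∣ N) (h : (Rts g N p).Nonempty) : 0 < rootCount f p := by
  classical
  obtain ⟨⟨i, r⟩, hr⟩ := h
  unfold Rts at hr
  split_ifs at hr with hp
  · obtain ⟨hr1, hr2⟩ := Finset.mem_filter.mp hr
    rw [Finset.mem_product] at hr1
    simp only at hr1 hr2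
    have hpd : ¬ p ∣ c.den := fun h => hp.2 (h.trans hden)
    have key : (c.den : ℤ) * f.eval (r : ℤ) = c.num * ∏ j, (g j).eval (r : ℤ) := by
      have h1 := congrArg (fun q : ℚ[X] => (c.den : ℚ) * q.eval ((r : ℤ) : ℚ)) hf
      simp only [eval_intCast_map, eval_mul, eval_C, eval_prod, eq_intCast] at h1
      have h2 : (c.den : ℚ) * c = c.num := by
        rw [mul_comm]
        exact Rat.mul_den_eq_num c
      rw [← mul_assoc, h2] at h1
      exact_mod_cast h1
    have h3 : (p : ℤ) ∣ (c.den : ℤ) * f.eval (r : ℤ) := by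
      rw [key]
      exact Dvd.dvd.mul_left (hr2.trans (Finset.dvd_prod_of_mem
        (fun j => (g j).eval (r : ℤ)) (Finset.mem_univ i))) _
    have h4 : (p : ℤ) ∣ f.eval (r : ℤ) := by
      rcases (Nat.prime_iff_prime_int.mp hp.1).dvd_or_dvd h3 with h5 | h5
      · exact absurd (Int.natCast_dvd_natCast.mp h5) hpd
      · exact h5
    unfold rootCount
    rw [Finset.card_pos]
    exact ⟨r, Finset.mem_filter.mpr ⟨hr1.2, h4⟩⟩
  · exact absurd hr (Finset.notMem_empty _)

theorem WG_empty (g : Fin (k + 1) → ℤ[X]) (N p : ℕ) (J : Finset (Fin (k + 1)))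
    (h : ¬ (Rts g N p).Nonempty) : WG g N J p = 0 := by
  classical
  rw [Finset.not_nonempty_iff_eq_empty] at h
  unfold WG
  rw [h]
  simp

open Classical in
theorem psm_set (h1 : T_PSM) (P : ℕ → Prop) (δ : ℝ) (hM : Mert P δ) : ∃ B : ℝ, ∀ x y : ℕ,
    3 ≤ y → y ≤ x → ∃ S : Finset ℕ, (∀ p, p ∈ S ↔ p ∈ Finset.range (x + 1) ∧ p.Prime ∧
      P p ∧ y < p) ∧ ∑ p ∈ S, 1 / (p : ℝ) - δ * LL x y ≤ B := by
  obtain ⟨B0, hB0⟩ := h1 P δ hM
  refine ⟨B0, fun x y hy hyx => ⟨_, ?_, (abs_le.1 (hB0 x y hy hyx)).2⟩⟩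
  intro p
  rw [Finset.mem_filter]

theorem LL_nonneg {x y : ℕ} (hy : 3 ≤ y) (hyx : y ≤ x) : 0 ≤ LL x y := by
  unfold LL
  have hy0 : (3 : ℝ) ≤ y := by exact_mod_cast hy
  have hx0 : (y : ℝ) ≤ x := by exact_mod_cast hyx
  have h1 : 0 < Real.log y := Real.log_pos (by linarith)
  have h2 : Real.log y ≤ Real.log x := Real.log_le_log (by linarith) hx0
  have h3 := Real.log_le_log h1 h2
  linarith

theorem three_le (g : Fin (k + 1) → ℤ[X]) (hdeg : ∀ i, 2 ≤ (g i).natDegree)
    (J : Finset (Fin (k + 1))) (hJ : J.Nonempty)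
    (hQ : ∀ i ∈ Finset.univ.filter (fun i => (g i).natDegree = 2), J ≠ {i}) :
    3 ≤ ∑ i ∈ J, (g i).natDegree := by
  by_contra h3'
  obtain ⟨i, hi⟩ := hJ
  have hJi : J = {i} := by
    ext j
    rw [Finset.mem_singleton]
    constructor
    · intro hj
      by_contra hne
      have h5 : (g i).natDegree + (g j).natDegree ≤ ∑ l ∈ J, (g l).natDegree := by
        rw [← Finset.sum_pair (f := fun l => (g l).natDegree) (fun h6 => hne h6.symm)]
        refine Finset.sum_le_sum_of_subset ?_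
        intro l hl
        rw [Finset.mem_insert, Finset.mem_singleton] at hl
        rcases hl with rfl | rfl <;> assumption
      have h6 := hdeg i
      have h7 := hdeg j
      omega
    · rintro rfl
      exact hi
  refine hQ i ?_ hJi
  rw [Finset.mem_filter]
  refine ⟨Finset.mem_univ _, ?_⟩
  rw [hJi, Finset.sum_singleton] at h3'
  have := hdeg i
  omega

end WREL_

open WREL_ in
open Classical in
theorem p_WREL (h1 : T_PSM) : T_WREL := by
  intro k g f c δ hg hsix hc hf hδ hM
  obtain ⟨N1, hN1, hrts⟩ := Pool.Agent.QTx.p_RTS k g hg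
  obtain ⟨K, _, _, M, hMpos, hspl⟩ := Pool.Agent.QTx.p_SPL2 k g hg
  obtain ⟨B0, hB0⟩ := psm_set h1 _ δ hM
  obtain ⟨B2, hB20, hB2⟩ := win_num K
  refine ⟨N1 * M * c.den, by have := c.den_pos; positivity, fun N n P en hN hdvd hen J hJ hQ => ?_⟩
  have hNd : N1 * M ∣ N := (Dvd.intro _ rfl).trans hdvd
  have hNd1 : N1 ∣ N := (Dvd.intro _ rfl).trans hNd
  have hNdM : M ∣ N := (Dvd.intro_left _ rfl).trans hNd
  have hNdc : c.den ∣ N := (Dvd.intro_left _ rfl).trans hdvd
  set c0 : ℝ := 1 / 2 ^ (Module.finrank ℚ K) with hc'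
  have hc0 : 0 < c0 := by positivity
  have hid : ∀ p : ℕ, p.Prime → c0 * (idealCount K p : ℝ) ≤ 1 := by
    intro p hp
    have h5 := Pool.Agent.QTw.p_PP K p 1 hp
    rw [pow_one] at h5
    have h6 : (idealCount K p : ℝ) ≤ 2 ^ (Module.finrank ℚ K) := by exact_mod_cast h5
    rw [hc', one_div, inv_mul_le_iff₀ (by positivity), mul_one]
    exact h6
  have hcomb := fun p => Pool.Agent.QTx.p_WCOMB k g N p J hJ hg.deg
    (fun i => hrts N p hN hNd1 i)
  have hsplit : ∀ p : ℕ, p.Prime → ¬ p ∣ N → 0 < idealCount K p →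
      ∀ i, ((Rts g N p).filter (fun r => r.1 = i)).card = (g i).natDegree := by
    intro p hp hpN hpos i
    rw [card_lab g N p hp hpN i]
    exact hspl p hp (fun h5 => hpN (h5.trans hNdM)) hpos i
  have h3 := three_le g hg.deg J hJ hQ
  have hw : ∀ p : ℕ, p.Prime → ¬ p ∣ N → WG g N J p ≤
      (if 0 < rootCount f p then 1 else 0) - c0 / 4 * idealCount K p := by
    intro p hp hpN
    rcases Nat.eq_zero_or_pos (idealCount K p) with h6 | h6
    · rw [h6, Nat.cast_zero, mul_zero, sub_zero]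
      by_cases hne : (Rts g N p).Nonempty
      · rw [if_pos (rc_pos g f c hf N p hNdc hne)]
        exact (hcomb p).1 h3
      · rw [WG_empty g N p J hne]
        split_ifs <;> norm_num
    · have hall := hsplit p hp hpN h6
      have hne : (Rts g N p).Nonempty := by
        have h7 := hall 0
        have h8 := hg.deg 0
        have h9 : 0 < ((Rts g N p).filter (fun r => r.1 = 0)).card := by omega
        rw [Finset.card_pos] at h9
        obtain ⟨r, hr⟩ := h9
        exact ⟨r, (Finset.mem_filter.mp hr).1⟩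
      rw [if_pos (rc_pos g f c hf N p hNdc hne)]
      have h7 := ((hcomb p).2.2 hall hsix).1 h3
      have h8 := hid p hp
      linarith
  refine ⟨min (c0 / 4) δ, lt_min (by positivity) hδ, min_le_right _ _,
    B0 + c0 / 4 * (B2 + N / c0), fun x y hy hyx => ?_⟩
  have e0 : (primesTo N x).filter (fun p => y < p) = (win y x).filter (fun p => ¬ p ∣ N) := by
    rw [primesTo_eq]
    unfold win
    ext p
    simp only [Finset.mem_filter]
    tauto
  rw [e0]
  have e1 : ∑ p ∈ (win y x).filter (fun p => ¬ p ∣ N), (mdl g N P en).Wm J p / p ≤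
      ∑ p ∈ (win y x).filter (fun p => ¬ p ∣ N),
        ((if 0 < rootCount f p then 1 / (p : ℝ) else 0) -
          c0 / 4 * ((idealCount K p : ℝ) / p)) := by
    refine Finset.sum_le_sum fun p hp => ?_
    rw [Finset.mem_filter] at hp
    have h6 := (Finset.mem_filter.1 (win_sub y x hp.1)).2
    have h7 := pos_p h6
    rw [Pool.Agent.QTx.p_TRANS k n g N P en hen J p]
    have h8 := hw p h6 hp.2
    refine (div_le_div_of_nonneg_right h8 h7.le).trans (le_of_eq ?_)
    split_ifs <;> ring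
  rw [Finset.sum_sub_distrib, ← Finset.mul_sum] at e1
  obtain ⟨S, hS, e6⟩ := hB0 x y hy hyx
  have e2 : ∑ p ∈ (win y x).filter (fun p => ¬ p ∣ N),
      (if 0 < rootCount f p then 1 / (p : ℝ) else 0) ≤ ∑ p ∈ S, 1 / (p : ℝ) := by
    rw [← Finset.sum_filter]
    refine Finset.sum_le_sum_of_subset_of_nonneg ?_ fun p _ _ => by positivity
    intro p hp
    unfold win at hp
    rw [hS]
    simp only [Finset.mem_filter] at hp
    tauto
  have e3 := Finset.sum_filter_add_sum_filter_not (win y x) (fun p => p ∣ N)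
    (fun p => (idealCount K p : ℝ) / p)
  have e4 : c0 * ∑ p ∈ (win y x).filter (fun p => p ∣ N), (idealCount K p : ℝ) / p ≤ N := by
    rw [Finset.mul_sum]
    refine small_win N y x hN _ (fun p => by positivity) fun p hp => ?_
    have h7 := pos_p hp
    have h8 : (1 : ℝ) ≤ p := by exact_mod_cast hp.one_lt.le
    rw [← mul_div_assoc, div_le_one h7]
    exact (hid p hp).trans h8
  have e5 : ∑ p ∈ (win y x).filter (fun p => p ∣ N), (idealCount K p : ℝ) / p ≤ N / c0 := by
    rw [le_div_iff₀ hc0, mul_comm]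
    exact e4
  have e7 := (abs_le.1 (hB2 x y hy hyx)).1
  have hL0 := LL_nonneg hy hyx
  have hLdef : Real.log (Real.log x) - Real.log (Real.log y) = LL x y := rfl
  rw [hLdef] at e7
  set L := LL x y with hL
  have e8 : c0 / 4 * (L - B2 - N / c0) ≤
      c0 / 4 * ∑ p ∈ (win y x).filter (fun p => ¬ p ∣ N), (idealCount K p : ℝ) / p := by
    refine mul_le_mul_of_nonneg_left ?_ (by positivity)
    linarith
  have e9 : min (c0 / 4) δ * L ≤ c0 / 4 * L := mul_le_mul_of_nonneg_right (min_le_left _ _) hL0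
  have e10 : (δ - min (c0 / 4) δ) * L = δ * L - min (c0 / 4) δ * L := by ring
  have e11 : c0 / 4 * (L - B2 - N / c0) = c0 / 4 * L - c0 / 4 * (B2 + N / c0) := by ring
  rw [e10]
  rw [e11] at e8
  linarith

end Pool.Agent.QTr
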