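import Pool.Agent.QTr.Main
import Pool.Agent.QTr.COUNT3
import Pool.Agent.QTx.All
import Pool.Agent.QTr.ATYP
import Pool.Agent.QTr.BAL3
import Pool.Agent.QTr.BDY
import Pool.Agent.QTr.CHA
import Pool.Agent.QTr.CUB
import Pool.Agent.QTr.DEN
import Pool.Agent.QTr.ELSC
import Pool.Agent.QTr.ELSU
import Pool.Agent.QTr.EXC
import Pool.Agent.QTr.EXPO3
import Pool.Agent.QTr.FRN
import Pool.Agent.QTr.FROB
import Pool.Agent.QTr.GAM
import Pool.Agent.QTr.HOM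
import Pool.Agent.QTr.ICN
import Pool.Agent.QTr.LAT
import Pool.Agent.QTr.M1K
import Pool.Agent.QTr.PSM
import Pool.Agent.QTr.PTG
import Pool.Agent.QTr.PTGR
import Pool.Agent.QTr.RES
import Pool.Agent.QTr.RTJ
import Pool.Agent.QTr.RTP
import Pool.Agent.QTr.SLO
import Pool.Agent.QTr.SQP
import Pool.Agent.QTr.STP
import Pool.Agent.QTr.TLO
import Pool.Agent.QTr.TYPX
import Pool.Agent.QTr.UNP
import Pool.Agent.QTr.VMB
import Pool.Agent.QTr.VMI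
import Pool.Agent.QTr.VOB
import Pool.Agent.QTr.WEI
import Pool.Agent.QTr.WREL

/-! # The project QTr: all pieces together -/

open Polynomial

namespace Pool.Agent.QTr

theorem a_ICN : T_ICN := p_ICN p_LAT (p_FRN p_CUB p_VOB p_BDY)

theorem a_M1K : T_M1K := p_M1K a_ICN p_VMI p_VMB

theorem a_FROB : T_FROB := p_FROB p_HOM p_EXC p_RTJ

theorem a_DEN : T_DEN := p_DEN a_FROB a_M1K

theorem a_GAM : T_GAM := p_GAM p_HOM p_EXC p_RTJ

theorem a_WEI : T_WEI := p_WEI p_STP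

theorem a_SLO : T_SLO := p_SLO p_CHA (p_TLO p_PSM)

theorem a_RES : T_RES := p_RES a_SLO

theorem a_ELSC : T_ELSC := p_ELSC p_SQP (p_UNP a_WEI) p_RTP p_PTG p_PTGR

theorem a_BAL3 : T_BAL3 := p_BAL3 QTx.p_COV2 (p_EXPO3 QTx.p_BLOCK2)

theorem a_COUNT3 : T_COUNT3 :=
  p_COUNT3 QTx.p_RED2 QTx.p_EXPM p_TYPX a_BAL3 (QTw.p_SMALL QTw.a_BLOCK) p_ATYP

theorem main_rel : T_REL :=
  main QTx.p_FACT2 QTx.a_ALG2 QTx.a_PRIN QTx.p_RTS QTx.a_BILC (p_WREL p_PSM) a_GAM p_PSM a_COUNT3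
    a_ELSC a_RES a_DEN p_ELSU QTw.p_HALL

end Pool.Agent.QTr
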