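import Mathlib
import Pool.Agent.QTr.Targets
import Pool.Agent.QTw.ROOT
import Pool.Agent.QTw.LOCP
import Pool.Agent.QTx.GOODQ
import Pool.Agent.QTx.VAND

/-!
# QTR-HOM: embeddings into `ℚ_p` and ideals of norm `p`
-/

open Polynomial NumberField
open Pool.Agent.QTw (idealCount)

namespace Pool.Agent.QTr

namespace HOM_

variable {K : Type} [Field K] [NumberField K]

/-- embeddings and roots -/
theorem card_hom (θ : 𝓞 K) (htop : Algebra.adjoin ℚ {(θ : K)} = ⊤) (p : ℕ) [Fact p.Prime] :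
    Nat.card (K →+* ℚ_[p]) = Nat.card {y : ℚ_[p] // aeval y (minpoly ℤ θ) = 0} := by
  have hint : IsIntegral ℚ (θ : K) := θ.isIntegral_coe.tower_top
  obtain ⟨B, hgen⟩ : ∃ B : PowerBasis ℚ K, B.gen = (θ : K) :=
    ⟨PowerBasis.ofAdjoinEqTop hint htop, PowerBasis.ofAdjoinEqTop_gen hint htop⟩
  have hmp : minpoly ℚ B.gen = (minpoly ℤ θ).map (algebraMap ℤ ℚ) := by
    rw [hgen, minpoly.isIntegrallyClosed_eq_field_fractions' ℚ θ.isIntegral_coe]
    congr 1
    exact minpoly.algebraMap_eq (RingOfIntegers.coe_injective (K := K)) θ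
  refine Nat.card_congr (((RingHom.equivRatAlgHom K ℚ_[p]).trans B.liftEquiv).trans
    (Equiv.subtypeEquivRight ?_))
  intro y
  rw [hmp, aeval_map_algebraMap]

theorem toZMod_zero {p : ℕ} [Fact p.Prime] (x : ℤ_[p]) : PadicInt.toZMod x = 0 ↔ ‖x‖ < 1 := by
  rw [← RingHom.mem_ker, PadicInt.ker_toZMod, IsLocalRing.mem_maximalIdeal, PadicInt.mem_nonunits]

theorem toZMod_root {p : ℕ} [Fact p.Prime] (h : ℤ[X]) (x : ℤ_[p]) :
    PadicInt.toZMod (aeval x h) = (h.map (Int.castRingHom (ZMod p))).eval (PadicInt.toZMod x) := by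
  rw [aeval_def, eval_map]
  have := Polynomial.hom_eval₂ h (algebraMap ℤ ℤ_[p]) (PadicInt.toZMod (p := p)) x
  have e : (PadicInt.toZMod (p := p)).comp (algebraMap ℤ ℤ_[p]) = Int.castRingHom (ZMod p) :=
    RingHom.ext_int _ _
  rw [e] at this
  exact this

/-- roots in `ℚ_p` and roots modulo `p` -/
theorem card_roots {p : ℕ} [Fact p.Prime] {h A B : ℤ[X]} {R : ℤ} (hm : h.Monic)
    (hb : A * h + B * derivative h = C R) (hR : ¬ (p : ℤ) ∣ R) :
    Nat.card {y : ℚ_[p] // aeval y h = 0} =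
      Nat.card {a : ZMod p // (h.map (Int.castRingHom (ZMod p))).eval a = 0} := by
  have hz : ∀ y : {y : ℚ_[p] // aeval y h = 0}, ∃ z : ℤ_[p], (z : ℚ_[p]) = y.1 ∧
      aeval z h = 0 := by
    intro y
    have h1 : IsIntegral ℤ y.1 := ⟨h, hm, y.2⟩
    have h2 : IsIntegral ℤ_[p] y.1 := h1.tower_top
    obtain ⟨z, hz⟩ := IsIntegrallyClosed.isIntegral_iff.1 h2
    refine ⟨z, hz, ?_⟩
    have h3 := Pool.Agent.QTw.LOCP_.aeval_coe h z
    have h4 : (z : ℚ_[p]) = y.1 := hz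
    rw [h4, y.2] at h3
    exact Subtype.ext (h3.symm.trans PadicInt.coe_zero.symm)
  choose z hz1 hz2 using hz
  have hder : ∀ x : ℤ_[p], aeval x h = 0 → ‖aeval x (derivative h)‖ = 1 := by
    intro x hx
    refine le_antisymm (PadicInt.norm_le_one _) ?_
    rw [← not_lt, ← toZMod_zero]
    intro h0
    have h1 := congrArg (aeval x) hb
    rw [map_add, map_mul, map_mul, hx, mul_zero, zero_add, aeval_C] at h1
    have h2 := congrArg (PadicInt.toZMod (p := p)) h1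
    rw [map_mul, h0, mul_zero] at h2
    have h3 : PadicInt.toZMod (algebraMap ℤ ℤ_[p] R) = ((R : ℤ) : ZMod p) := by
      simp
    rw [h3] at h2
    exact hR ((ZMod.intCast_zmod_eq_zero_iff_dvd R p).1 h2.symm)
  refine Nat.card_congr (Equiv.ofBijective (fun y => ⟨PadicInt.toZMod (z y), ?_⟩) ⟨?_, ?_⟩)
  · rw [← toZMod_root, hz2, map_zero]
  · intro y y' hyy
    have h1 : PadicInt.toZMod (z y) = PadicInt.toZMod (z y') := congrArg Subtype.val hyy
    have h2 : ‖z y' - z y‖ < 1 := by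
      rw [← toZMod_zero, map_sub, h1, sub_self]
    obtain ⟨z0, -, -, -, hu⟩ := hensels_lemma (p := p) (F := h) (a := z y) (by
      rw [hz2, hder _ (hz2 y)]; simp)
    have h3 := hu (z y) (hz2 y) (by rw [hder _ (hz2 y)]; simp)
    have h4 := hu (z y') (hz2 y') (by rw [hder _ (hz2 y)]; exact h2)
    apply Subtype.ext
    rw [← hz1, ← hz1, h3, h4]
  · rintro ⟨a, ha⟩
    have hs : (p : ℤ) ∣ h.eval (a.val : ℤ) := by
      rw [← ZMod.intCast_zmod_eq_zero_iff_dvd]
      have h1 : (h.map (Int.castRingHom (ZMod p))).eval ((Int.castRingHom (ZMod p)) (a.val : ℤ)) =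
        (Int.castRingHom (ZMod p)) (h.eval (a.val : ℤ)) := eval_map_apply ..
      simp only [eq_intCast] at h1
      rw [← h1, Int.cast_natCast, ZMod.natCast_zmod_val]
      exact ha
    obtain ⟨t, ht1, ht2⟩ := Pool.Agent.QTx.GOODQ_.hens hb hR (a.val : ℤ) hs
    refine ⟨⟨t, ht1⟩, ?_⟩
    apply Subtype.ext
    show PadicInt.toZMod (z ⟨t, ht1⟩) = a
    have h1 : ‖z ⟨t, ht1⟩ - ((a.val : ℤ) : ℤ_[p])‖ < 1 := by
      rw [PadicInt.norm_def]
      push_cast
      have := hz1 ⟨t, ht1⟩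
      rw [this]
      simpa using ht2
    rw [← toZMod_zero, map_sub, sub_eq_zero] at h1
    rw [h1]
    simp

/-- homomorphisms and roots modulo `p` -/
theorem card_homO (θ : 𝓞 K) (p : ℕ) [Fact p.Prime] (hp : ¬ p ∣ RingOfIntegers.exponent θ)
    (D : ℕ) (hD : ¬ p ∣ D) (hDθ : ∀ z : 𝓞 K, ∃ P : ℤ[X], aeval θ P = (D : 𝓞 K) * z) :
    Nat.card (𝓞 K →+* ZMod p) =
      Nat.card {a : ZMod p // ((minpoly ℤ θ).map (Int.castRingHom (ZMod p))).eval a = 0} := by
  have hev : ∀ (φ : 𝓞 K →+* ZMod p) (P : ℤ[X]),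
      φ (aeval θ P) = (P.map (Int.castRingHom (ZMod p))).eval (φ θ) := by
    intro φ P
    rw [aeval_def, eval_map]
    have := Polynomial.hom_eval₂ P (algebraMap ℤ (𝓞 K)) φ θ
    have e : φ.comp (algebraMap ℤ (𝓞 K)) = Int.castRingHom (ZMod p) :=
      RingHom.ext_int _ _
    rw [e] at this
    exact this
  refine Nat.card_congr (Equiv.ofBijective (fun φ => ⟨φ θ, ?_⟩) ⟨?_, ?_⟩)
  · rw [← hev, minpoly.aeval, map_zero]
  · intro φ ψ h
    have h1 : φ θ = ψ θ := congrArg Subtype.val h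
    apply RingHom.ext
    intro z
    obtain ⟨P, hP⟩ := hDθ z
    have h2 := hev φ P
    have h3 := hev ψ P
    rw [← h1, ← h2, hP] at h3
    rw [map_mul, map_mul, map_natCast, map_natCast] at h3
    have hD0 : (D : ZMod p) ≠ 0 := by
      intro h
      exact hD ((ZMod.natCast_eq_zero_iff D p).1 h)
    exact (mul_left_cancel₀ hD0 h3).symm
  · rintro ⟨a, ha⟩
    obtain ⟨φ, hφ⟩ := Pool.Agent.QTw.ROOT_.exists_hom θ p hp a ha
    exact ⟨φ, Subtype.ext hφ⟩

/-- homomorphisms and ideals of norm `p` -/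
theorem card_ideal (K : Type) [Field K] [NumberField K] (p : ℕ) [Fact p.Prime] :
    Nat.card (𝓞 K →+* ZMod p) = idealCount K p := by
  refine Nat.card_congr (Equiv.ofBijective (fun φ => ⟨RingHom.ker φ,
    Pool.Agent.QTw.ROOT_.absNorm_ker p φ⟩) ⟨?_, ?_⟩)
  · intro φ ψ h
    have h1 : RingHom.ker φ = RingHom.ker ψ := congrArg Subtype.val h
    apply RingHom.ext
    intro z
    have h2 : z - (((φ z).val : ℕ) : 𝓞 K) ∈ RingHom.ker φ := by
      rw [RingHom.mem_ker, map_sub, map_natCast, ZMod.natCast_zmod_val, sub_self]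
    rw [h1, RingHom.mem_ker, map_sub, map_natCast, ZMod.natCast_zmod_val, sub_eq_zero] at h2
    exact h2.symm
  · rintro ⟨I, hI⟩
    have hcard : Nat.card (𝓞 K ⧸ I) = p := by
      rw [← hI, Ideal.absNorm_apply, Submodule.cardQuot_apply]
    have hfin : Finite (𝓞 K ⧸ I) := by
      apply Nat.finite_of_card_ne_zero
      rw [hcard]
      exact (Fact.out : p.Prime).ne_zero
    have := Fintype.ofFinite (𝓞 K ⧸ I)
    let e := ZMod.ringEquivOfPrime (𝓞 K ⧸ I) (Fact.out : p.Prime) (by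
      rw [← Nat.card_eq_fintype_card]; exact hcard)
    refine ⟨e.symm.toRingHom.comp (Ideal.Quotient.mk I), ?_⟩
    apply Subtype.ext
    show RingHom.ker (e.symm.toRingHom.comp (Ideal.Quotient.mk I)) = I
    ext z
    rw [RingHom.mem_ker]
    show e.symm (Ideal.Quotient.mk I z) = 0 ↔ z ∈ I
    rw [map_eq_zero_iff e.symm e.symm.injective, Ideal.Quotient.eq_zero_iff_mem]

end HOM_

open HOM_ in
theorem p_HOM : T_HOM := by
  intro K _ _
  obtain ⟨α, hα⟩ := Field.exists_primitive_element ℚ K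
  have hαa : IsAlgebraic ℤ α :=
    (IsFractionRing.isAlgebraic_iff ℤ ℚ K (x := α)).2 (Algebra.IsAlgebraic.isAlgebraic α)
  obtain ⟨y, hy0, hy⟩ := hαa.exists_integral_multiple
  obtain ⟨θ, hθ⟩ : ∃ θ : 𝓞 K, (θ : K) = (y : K) * α := ⟨⟨y • α, hy⟩, by
    show y • α = _
    rw [zsmul_eq_mul]⟩
  have hyK : (y : K) ≠ 0 := by exact_mod_cast hy0
  have hfield : IntermediateField.adjoin ℚ {(θ : K)} = ⊤ := by
    rw [eq_top_iff, ← hα, IntermediateField.adjoin_le_iff, Set.singleton_subset_iff]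
    have h1 : α = ((y : ℤ) : K)⁻¹ * (θ : K) := by
      rw [hθ, ← mul_assoc, inv_mul_cancel₀ hyK, one_mul]
    show α ∈ IntermediateField.adjoin ℚ {(θ : K)}
    rw [h1]
    exact mul_mem (inv_mem (intCast_mem _ y))
      (IntermediateField.mem_adjoin_simple_self ℚ (θ : K))
  have htop : Algebra.adjoin ℚ {(θ : K)} = ⊤ := by
    rw [← IntermediateField.adjoin_simple_toSubalgebra_of_isAlgebraic
      (Algebra.IsAlgebraic.isAlgebraic (θ : K)), hfield, IntermediateField.top_toSubalgebra]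
  obtain ⟨D, C0, hD0, hC0, hD⟩ := Pool.Agent.QTx.p_VAND K (θ : K) hfield
  have hDθ : ∀ z : 𝓞 K, ∃ P : ℤ[X], aeval θ P = (D : 𝓞 K) * z := by
    intro z
    obtain ⟨P, -, hP, -⟩ := hD z
    refine ⟨P, ?_⟩
    apply RingOfIntegers.ext
    have h3 : ((aeval θ P : 𝓞 K) : K) = aeval (θ : K) P := (aeval_algebraMap_apply K θ P).symm
    rw [h3, hP]
    simp
  have hm : (minpoly ℤ θ).Monic := minpoly.monic (RingOfIntegers.isIntegral θ)
  obtain ⟨A, B, R, hR0, hR⟩ : ∃ (A B : ℤ[X]) (R : ℤ), R ≠ 0 ∧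
      A * minpoly ℤ θ + B * derivative (minpoly ℤ θ) = C R := by
    apply Pool.Agent.QTw.LOCP_.bez
    rw [← derivative_map]
    have hmp : minpoly ℚ (θ : K) = (minpoly ℤ θ).map (Int.castRingHom ℚ) := by
      rw [minpoly.isIntegrallyClosed_eq_field_fractions' ℚ θ.isIntegral_coe]
      congr 1
      exact minpoly.algebraMap_eq (RingOfIntegers.coe_injective (K := K)) θ
    rw [← hmp]
    exact (minpoly.irreducible (θ.isIntegral_coe.tower_top)).separable
  have he : RingOfIntegers.exponent θ ≠ 0 := Pool.Agent.QTw.ROOT_.exponent_ne_zero θ htop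
  refine ⟨RingOfIntegers.exponent θ * D * R.natAbs, ?_, ?_⟩
  · exact Nat.mul_pos (Nat.mul_pos (Nat.pos_of_ne_zero he) hD0) (Int.natAbs_pos.2 hR0)
  intro p _ hpN
  have h1 : ¬ p ∣ RingOfIntegers.exponent θ := fun h => hpN ((h.mul_right _).mul_right _)
  have h2 : ¬ p ∣ D := fun h => hpN ((h.mul_left _).mul_right _)
  have h3 : ¬ (p : ℤ) ∣ R := fun h => hpN ((Int.natCast_dvd.1 h).mul_left _)
  rw [card_hom θ htop p, card_roots hm hR h3, ← card_homO θ p h1 D h2 hDθ, card_ideal]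

end Pool.Agent.QTr
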