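import Pool.Agent.QTr.Targets
import Pool.Agent.QTx.Main

/-! # Final statement and assembly -/

open Polynomial
open Pool.Agent.QTw (TwistSelNonempty TwistEverywhereLocal primesTo rootCount)
open Pool.Agent.QTx (GoodFactors2 Model Ty Rts mdl IsEnum PiProp CoefProp sg vl T_FACT2 T_ALG2
  T_PRIN T_RTS T_BILC)

namespace Pool.Agent.QTr

open Classical in
/-- the final statement -/
def T_REL : Prop := ∀ f : ℤ[X], Squarefree (f.map (Int.castRingHom ℚ)) → Even f.natDegree →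
  6 ≤ f.natDegree → (∀ r : ℚ, aeval r f ≠ 0) → NonDeg f →
  ∃ δ c B : ℝ, 0 < δ ∧ δ ≤ 1 ∧ 0 < c ∧ 0 < B ∧
    (∀ X : ℕ, 3 ≤ X → |∑ p ∈ (Finset.range (X + 1)).filter
        (fun p : ℕ => p.Prime ∧ ∃ a : ℤ, (p : ℤ) ∣ f.eval a), 1 / (p : ℝ) -
      δ * Real.log (Real.log X)| ≤ B) ∧
    ∃ X₀ : ℕ, ∀ X : ℕ, X₀ ≤ X →
      X * (Real.log X) ^ (δ - 1) / B ≤ (((Finset.Icc (-(X : ℤ)) X).filter
        (fun d => Squarefree d ∧ TwistEverywhereLocal f d)).card : ℝ) ∧
      (((Finset.Icc (-(X : ℤ)) X).filter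
        (fun d => Squarefree d ∧ TwistEverywhereLocal f d)).card : ℝ) ≤
        B * (X * (Real.log X) ^ (δ - 1)) ∧
      (((Finset.Icc (-(X : ℤ)) X).filter
        (fun d => Squarefree d ∧ TwistSelNonempty 2 f d)).card : ℝ) ≤
        B / (Real.log X) ^ c * (((Finset.Icc (-(X : ℤ)) X).filter
          (fun d => Squarefree d ∧ TwistEverywhereLocal f d)).card : ℝ)

namespace MAIN_

theorem rootCount_pos {f : ℤ[X]} {p : ℕ} (hp : p.Prime) :
    0 < rootCount f p ↔ ∃ a : ℤ, (p : ℤ) ∣ f.eval a := by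
  unfold rootCount
  rw [Finset.card_pos]
  constructor
  · rintro ⟨a, ha⟩
    rw [Finset.mem_filter] at ha
    exact ⟨a, ha.2⟩
  · rintro ⟨a, ha⟩
    have hp0 : (0 : ℤ) < p := by exact_mod_cast hp.pos
    refine ⟨(a % p).toNat, ?_⟩
    rw [Finset.mem_filter, Finset.mem_range]
    have h1 : 0 ≤ a % p := Int.emod_nonneg _ hp0.ne'
    have h2 : a % p < p := Int.emod_lt_of_pos _ hp0
    have h3 : ((a % p).toNat : ℤ) = a % p := Int.toNat_of_nonneg h1
    refine ⟨by omega, ?_⟩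
    rw [h3]
    have h4 : (p : ℤ) ∣ a - a % p := Int.dvd_self_sub_of_emod_eq rfl
    have h5 : (p : ℤ) ∣ f.eval a - f.eval (a % p) :=
      h4.trans (Polynomial.sub_dvd_eval_sub _ _ _)
    have h6 := dvd_sub ha h5
    simpa using h6

/-- the set of roots is not empty only if `f` has a root modulo `p` -/
theorem root_of_rts {n : ℕ} {g : Fin (n + 1) → ℤ[X]} {c : ℚ} {f : ℤ[X]} {N p : ℕ}
    (hf : f.map (Int.castRingHom ℚ) = C c * ∏ i, (g i).map (Int.castRingHom ℚ))
    (hN : c.den ∣ N) {r : Fin (n + 1) × ℕ} (hr : r ∈ Rts g N p) : 0 < rootCount f p := by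
  unfold Rts at hr
  split_ifs at hr with hp
  · rw [Finset.mem_filter] at hr
    rw [rootCount_pos hp.1]
    refine ⟨(r.2 : ℤ), ?_⟩
    have hinj : Function.Injective (Int.castRingHom ℚ) := Int.cast_injective
    have h1 : C (c.den : ℤ) * f = C c.num * ∏ i, g i := by
      apply Polynomial.map_injective _ hinj
      rw [Polynomial.map_mul, Polynomial.map_mul, Polynomial.map_prod, hf, ← mul_assoc]
      congr 1
      rw [Polynomial.map_C, Polynomial.map_C, ← C_mul]
      congr 1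
      simp only [eq_intCast, Int.cast_natCast]
      rw [mul_comm]
      exact Rat.mul_den_eq_num c
    have h2 := congrArg (fun q => Polynomial.eval (r.2 : ℤ) q) h1
    simp only [eval_mul, eval_C, eval_prod] at h2
    have h3 : (p : ℤ) ∣ (c.den : ℤ) * f.eval (r.2 : ℤ) := by
      rw [h2]
      exact Dvd.dvd.mul_left (hr.2.trans
        (Finset.dvd_prod_of_mem (fun i => (g i).eval (r.2 : ℤ)) (Finset.mem_univ r.1))) _
    have hpp : Prime (p : ℤ) := Nat.prime_iff_prime_int.mp hp.1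
    rcases hpp.dvd_or_dvd h3 with h4 | h4
    · exfalso
      have h5 : p ∣ c.den := by exact_mod_cast h4
      exact hp.2 (h5.trans hN)
    · exact h4
  · simp at hr

end MAIN_

open MAIN_

open Classical in
/-- the upper bound -/
def T_UPPER : Prop := ∀ (f : ℤ[X]) (δ : ℝ), Squarefree (f.map (Int.castRingHom ℚ)) →
  Even f.natDegree → 6 ≤ f.natDegree → (∀ r : ℚ, aeval r f ≠ 0) → NonDeg f → 0 < δ →
  Mert (fun p => 0 < rootCount f p) δ →
  ∃ c : ℝ, 0 < c ∧ ∃ B : ℝ, ∀ X : ℕ, 2 ≤ X →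
      (((Finset.Icc (-(X : ℤ)) X).filter
        (fun d => Squarefree d ∧ TwistSelNonempty 2 f d)).card : ℝ) ≤
        B * X * (Real.log X) ^ (δ - 1 - c)

open Classical in
theorem upper (hF : T_FACT2) (hA : T_ALG2) (hP : T_PRIN) (hRT : T_RTS)
    (hB : T_BILC) (hW : T_WREL) (hG : T_GAM) (hS : T_PSM) (hC : T_COUNT3) : T_UPPER := by
  intro f δ hfs heven hf6 hroot hnd hδ hm
  have hf0 : 0 < f.natDegree := by omega
  obtain ⟨k, g, c, hc, hfg, hg⟩ := hF f hf0 hfs hroot
  have hdeg : f.natDegree = ∑ i, (g i).natDegree := QTx.MAIN_.natDegree_eq hc hg hfg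
  have h6 : 6 ≤ ∑ i, (g i).natDegree := by rwa [← hdeg]
  obtain ⟨N₁, hN₁, hA'⟩ := hA k g c f hg hc hfg heven
  obtain ⟨N₂, hN₂, hB'⟩ := hB k g hg
  obtain ⟨N₃, hN₃, hW'⟩ := hW k g f c δ hg h6 hc hfg hδ hm
  obtain ⟨N₄, hN₄, hRT'⟩ := hRT k g hg
  have hG1 : ∀ i : Fin (k + 1), ∃ N₀ : ℕ, 0 < N₀ ∧ ((g i).natDegree = 2 →
      ∀ N : ℕ, 0 < N → N₀ ∣ N → ∃ γ : ℝ, 0 < γ ∧ ∃ B : ℝ, ∀ x y : ℕ, 3 ≤ y → y ≤ x →
      γ * LL x y - B ≤
        ∑ p ∈ (primesTo N x).filter (fun p => y < p ∧ Gam g N i p), 1 / (p : ℝ)) := by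
    intro i
    by_cases hi : (g i).natDegree = 2
    · obtain ⟨N₀, h1, h2⟩ := hG k g f c i hg hc hfg hnd hi
      exact ⟨N₀, h1, fun _ => h2⟩
    · exact ⟨1, one_pos, fun h => absurd h hi⟩
  choose NG hNG hG' using hG1
  choose NP PP CC hNP hCC hPP using fun i => hP (g i) (hg.irr i)
  set N : ℕ := N₁ * N₂ * N₃ * N₄ * c.den * (∏ i, NG i) * ∏ i, NP i with hN
  have hNpos : 0 < N := by
    have : 0 < ∏ i, NP i := Finset.prod_pos fun i _ => hNP i
    have : 0 < ∏ i, NG i := Finset.prod_pos fun i _ => hNG i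
    have := c.den_pos
    positivity
  have d1 : N₁ ∣ N := ⟨N₂ * N₃ * N₄ * c.den * (∏ i, NG i) * ∏ i, NP i, by rw [hN]; ring⟩
  have d2 : N₂ ∣ N := ⟨N₁ * N₃ * N₄ * c.den * (∏ i, NG i) * ∏ i, NP i, by rw [hN]; ring⟩
  have d3 : N₃ ∣ N := ⟨N₁ * N₂ * N₄ * c.den * (∏ i, NG i) * ∏ i, NP i, by rw [hN]; ring⟩
  have d4 : N₄ ∣ N := ⟨N₁ * N₂ * N₃ * c.den * (∏ i, NG i) * ∏ i, NP i, by rw [hN]; ring⟩
  have d5 : c.den ∣ N := ⟨N₁ * N₂ * N₃ * N₄ * (∏ i, NG i) * ∏ i, NP i, by rw [hN]; ring⟩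
  have dG : ∀ i, NG i ∣ N := fun i =>
    (Finset.dvd_prod_of_mem NG (Finset.mem_univ i)).trans
      ⟨N₁ * N₂ * N₃ * N₄ * c.den * ∏ i, NP i, by rw [hN]; ring⟩
  have dP : ∀ i, NP i ∣ N := fun i =>
    (Finset.dvd_prod_of_mem NP (Finset.mem_univ i)).trans
      ⟨N₁ * N₂ * N₃ * N₄ * c.den * (∏ i, NG i), by rw [hN]; ring⟩
  have hPi : PiProp g N PP := by
    intro i q s hq hqN hs hgs
    exact QTx.MAIN_.isPi_mono (dP i) (hPP i q s hq (fun h => hqN (h.trans (dP i))) hs hgs).1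
  set CM : ℝ := ∑ i, CC i with hCM
  have hCo : CoefProp g N PP CM := by
    intro i q s hq hqN hs hgs
    obtain ⟨_, h2, h3⟩ := hPP i q s hq (fun h => hqN (h.trans (dP i))) hs hgs
    refine ⟨h2, fun l => (h3 l).trans ?_⟩
    have h4 : CC i ≤ CM := by
      rw [hCM]
      exact Finset.single_le_sum (fun i _ => (hCC i).le) (Finset.mem_univ i)
    exact mul_le_mul_of_nonneg_right h4 (by positivity)
  obtain ⟨h, χ, hχ, hbad⟩ := hA' N PP hNpos d1 hPi
  set n : ℕ := ∑ i, (g i).natDegree with hn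
  have hcard : ∀ p, (Rts g N p).card ≤ n := by
    intro p
    rw [Finset.card_eq_sum_card_fiberwise (f := Prod.fst) (t := Finset.univ)
      (fun _ _ => by simp)]
    exact Finset.sum_le_sum fun i _ => hRT' N p hNpos d4 i
  obtain ⟨en, hen⟩ := QTx.MAIN_.enum n (Rts g N) hcard
  set κ : ℕ := 4 * n with hκ
  have hκi : ∀ i, 4 * (g i).natDegree ≤ κ := by
    intro i
    have := Finset.single_le_sum (f := fun i => (g i).natDegree) (fun i _ => Nat.zero_le _)
      (Finset.mem_univ i)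
    change (g i).natDegree ≤ n at this
    omega
  obtain ⟨B₀, hB₀, hBil⟩ := hB' N PP CM hNpos d2 hPi hCo n κ en hen hκi
  have hSm := hW' N n PP en hNpos d3 hen
  set a : Fin h → ℕ → Fin n → Fin n → ℝ := fun η p j j' => (χ η p (en p j) (en p j') : ℝ)
    with ha
  have hbd : (mdl g N PP en).Bounded := by
    refine ⟨fun p j j' q l => ?_, fun p => hcard p⟩
    change |((sg PP p (en p j) (en p j') q (en q l) : ℤ) : ℝ)| ≤ 1
    unfold sg
    rcases jacobiSym.trichotomy ((q : ℤ) * vl PP (en p j) q (en q l) * vl PP (en p j') q (en q l))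
      p with h0 | h0 | h0 <;> rw [h0] <;> norm_num
  have habd : ∀ η p j j', |a η p j j'| ≤ 1 := by
    intro η p j j'
    simp only [ha]
    rcases hχ η p (en p j) (en p j') with h0 | h0 <;> rw [h0] <;> norm_num
  -- the density condition
  have hAd : ∃ B : ℝ, ∀ x y : ℕ, 3 ≤ y → y ≤ x →
      ∑ p ∈ (primesTo N x).filter (fun p => y < p ∧ 0 < (mdl g N PP en).rn p), 1 / (p : ℝ) ≤
        δ * LL x y + B := by
    obtain ⟨B, hB⟩ := hS _ δ hm
    refine ⟨B, fun x y hy hxy => ?_⟩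
    have h1 := (abs_le.mp (hB x y hy hxy)).2
    have h2 : ∑ p ∈ (primesTo N x).filter (fun p => y < p ∧ 0 < (mdl g N PP en).rn p),
        1 / (p : ℝ) ≤ ∑ p ∈ (Finset.range (x + 1)).filter
          (fun p => p.Prime ∧ 0 < rootCount f p ∧ y < p), 1 / (p : ℝ) := by
      refine Finset.sum_le_sum_of_subset_of_nonneg ?_ fun _ _ _ => by positivity
      intro p hp
      rw [Finset.mem_filter] at hp
      obtain ⟨h3, h4, h5⟩ := hp
      unfold primesTo at h3
      rw [Finset.mem_filter] at h3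
      rw [Finset.mem_filter]
      refine ⟨h3.1, h3.2.1, ?_, h4⟩
      change 0 < (Rts g N p).card at h5
      obtain ⟨r, hr⟩ := Finset.card_pos.mp h5
      exact root_of_rts hfg d5 hr
    refine h2.trans (le_trans (le_of_eq (Finset.sum_congr ?_ fun _ _ => rfl))
      ((sub_le_iff_le_add.mp h1).trans (le_of_eq (add_comm _ _))))
    ext p
    simp only [Finset.mem_filter]
  have hΓ : ∀ i ∈ (Finset.univ.filter (fun i => (g i).natDegree = 2)), ∀ p, Gam g N i p →
      0 < (mdl g N PP en).rn p ∧ ∀ j : Fin n, (j : ℕ) < (mdl g N PP en).rn p →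
        (mdl g N PP en).lab p j ≠ i := by
    intro i _ p hp
    refine ⟨Finset.card_pos.mpr hp.1, fun j hj => ?_⟩
    exact hp.2 (en p j) (((hen p).2 _).2 ⟨j, hj, rfl⟩)
  have hγ : ∀ i ∈ (Finset.univ.filter (fun i => (g i).natDegree = 2)),
      ∃ γ B : ℝ, 0 < γ ∧ ∀ x y : ℕ, 3 ≤ y → y ≤ x →
      γ * LL x y - B ≤
        ∑ p ∈ (primesTo N x).filter (fun p => y < p ∧ Gam g N i p), 1 / (p : ℝ) := by
    intro i hi
    rw [Finset.mem_filter] at hi
    obtain ⟨γ, hγ, B, hB⟩ := hG' i hi.2 N hNpos (dG i)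
    exact ⟨γ, B, hγ, hB⟩
  obtain ⟨e, he, B, hcount⟩ := hC (k + 1) n κ (mdl g N PP en) N h B₀ δ a
    (Finset.univ.filter (fun i => (g i).natDegree = 2)) (Gam g N) (by omega) hNpos hB₀ hbd
    habd hBil hδ hSm hAd hΓ hγ
  refine ⟨e, he, 2 * B, fun X hX => ?_⟩
  have key : ∀ d ∈ (Finset.Icc (-(X : ℤ)) X).filter
      (fun d => Squarefree d ∧ TwistSelNonempty 2 f d),
      d.natAbs ∈ (Finset.range (X + 1)).filter
        (fun m => Squarefree m ∧ ∃ η, (mdl g N PP en).Bad N (a η) m) := by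
    intro d hd
    rw [Finset.mem_filter, Finset.mem_Icc] at hd
    obtain ⟨⟨h1, h2⟩, h3, h4⟩ := hd
    rw [Finset.mem_filter, Finset.mem_range]
    refine ⟨by omega, Int.squarefree_natAbs.mpr h3, ?_⟩
    obtain ⟨η, ρ, hρ⟩ := hbad d h3 h4
    refine ⟨η, ?_⟩
    have h5 : ∀ p : ℕ, ∃ j : Fin n, p ∈ d.natAbs.primeFactors → ¬ p ∣ N →
        (j : ℕ) < (Rts g N p).card ∧ en p j = ρ p := by
      intro p
      by_cases hp : p ∈ d.natAbs.primeFactors ∧ ¬ p ∣ N
      · obtain ⟨j, hj⟩ := ((hen p).2 (ρ p)).1 (hρ p hp.1 hp.2).1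
        exact ⟨j, fun _ _ => hj⟩
      · refine ⟨⟨0, by omega⟩, fun h6 h7 => absurd ⟨h6, h7⟩ hp⟩
    choose r hr using h5
    refine ⟨r, fun p hp hpN => ⟨(hr p hp hpN).1, fun j hj hjr => ?_⟩⟩
    have h6 := (hρ p hp hpN).2 (en p j) (((hen p).2 _).2 ⟨j, hj, rfl⟩) (by
      rw [← (hr p hp hpN).2]
      intro h7
      exact hjr ((hen p).1 j (r p) hj (hr p hp hpN).1 h7))
    simp only [ha, mdl]
    rw [(hr p hp hpN).2]
    have h7 : ∏ q ∈ d.natAbs.primeFactors.filter (fun q => ¬ q ∣ N ∧ q ≠ p),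
        ((sg PP p (ρ p) (en p j) q (en q (r q)) : ℤ) : ℝ) =
        ((∏ q ∈ d.natAbs.primeFactors.filter (fun q => ¬ q ∣ N ∧ q ≠ p),
          sg PP p (ρ p) (en p j) q (ρ q) : ℤ) : ℝ) := by
      push_cast
      refine Finset.prod_congr rfl fun q hq => ?_
      rw [Finset.mem_filter] at hq
      rw [(hr q hq.1 hq.2.1).2]
    rw [h7]
    exact_mod_cast h6
  have hcard2 : ((Finset.Icc (-(X : ℤ)) X).filter
      (fun d => Squarefree d ∧ TwistSelNonempty 2 f d)).card ≤
      2 * ((Finset.range (X + 1)).filter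
        (fun m => Squarefree m ∧ ∃ η, (mdl g N PP en).Bad N (a η) m)).card := by
    refine Finset.card_le_mul_card_image_of_maps_to key 2 ?_
    intro m _
    refine le_trans (Finset.card_le_card (t := {(m : ℤ), -(m : ℤ)}) ?_) Finset.card_le_two
    intro d hd
    rw [Finset.mem_filter] at hd
    rw [Finset.mem_insert, Finset.mem_singleton]
    omega
  calc (((Finset.Icc (-(X : ℤ)) X).filter
        (fun d => Squarefree d ∧ TwistSelNonempty 2 f d)).card : ℝ)
      ≤ ((2 * ((Finset.range (X + 1)).filter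
        (fun m => Squarefree m ∧ ∃ η, (mdl g N PP en).Bad N (a η) m)).card : ℕ) : ℝ) := by
          exact_mod_cast hcard2
    _ = 2 * (((Finset.range (X + 1)).filter
        (fun m => Squarefree m ∧ ∃ η, (mdl g N PP en).Bad N (a η) m)).card : ℝ) := by
          push_cast; ring
    _ ≤ 2 * (B * X * (Real.log X) ^ (δ - 1 - e)) := by
        have := hcount X hX
        linarith
    _ = 2 * B * X * (Real.log X) ^ (δ - 1 - e) := by ring

open Classical in
/-- the lower bound -/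
theorem lower (hE : T_ELSC) (hR : T_RES) (f : ℤ[X]) (δ : ℝ) (hf0 : 0 < f.natDegree)
    (hfs : Squarefree (f.map (Int.castRingHom ℚ))) (hδ : 0 < δ) (hδ1 : δ ≤ 1)
    (hm : Mert (fun p => 0 < rootCount f p) δ) :
    ∃ c : ℝ, 0 < c ∧ ∃ X₀ : ℕ, ∀ X : ℕ, X₀ ≤ X → c * (X * (Real.log X) ^ (δ - 1)) ≤
      (((Finset.Icc (-(X : ℤ)) X).filter
        (fun d => Squarefree d ∧ TwistEverywhereLocal f d)).card : ℝ) := by
  obtain ⟨d₀, N, hd₀, hN, hE'⟩ := hE f hf0 hfs
  obtain ⟨c, hc, X₁, hX₁⟩ := hR _ δ N hδ hm hN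
  set D : ℕ := d₀.natAbs with hD
  have hD0 : 0 < D := Int.natAbs_pos.mpr hd₀
  have hDr : (0 : ℝ) < D := by exact_mod_cast hD0
  refine ⟨c / (2 * D), by positivity, D * (X₁ + 3), fun X hX => ?_⟩
  set Y : ℕ := X / D with hY
  have hY1 : X₁ + 3 ≤ Y := by
    rw [hY, Nat.le_div_iff_mul_le hD0]
    linarith [mul_comm D (X₁ + 3)]
  have hY3 : 3 ≤ Y := by omega
  have hYX : Y ≤ X := Nat.div_le_self _ _
  have h1 := hX₁ Y (by omega)
  have h2 : ((SF (fun p => 0 < rootCount f p) Y).filter (fun m => m % N = 1 % N)).card ≤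
      ((Finset.Icc (-(X : ℤ)) X).filter
        (fun d => Squarefree d ∧ TwistEverywhereLocal f d)).card := by
    refine Finset.card_le_card_of_injOn (fun m : ℕ => d₀ * (m : ℤ)) ?_ ?_
    · intro m hm'
      rw [Finset.mem_coe, Finset.mem_filter] at hm'
      obtain ⟨hm1, hm2⟩ := hm'
      simp only [SF, Finset.mem_filter, Finset.mem_Icc] at hm1
      obtain ⟨⟨hm3, hm4⟩, hm5, hm6⟩ := hm1
      obtain ⟨h3, h4⟩ := hE' m hm5 hm2 hm6
      change d₀ * (m : ℤ) ∈ _
      rw [Finset.mem_coe, Finset.mem_filter, Finset.mem_Icc]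
      have h5 : D * m ≤ X := by
        calc D * m ≤ D * Y := Nat.mul_le_mul_left _ hm4
          _ ≤ X := Nat.mul_div_le X D
      have h6 : (d₀ * (m : ℤ)).natAbs ≤ X := by
        rw [Int.natAbs_mul, Int.natAbs_natCast]
        exact h5
      refine ⟨⟨by omega, by omega⟩, h3, h4⟩
    · intro m _ m' _ h
      simp only at h
      have := mul_left_cancel₀ hd₀ h
      exact_mod_cast this
  have hYr : (X : ℝ) / (2 * D) ≤ Y := by
    rw [div_le_iff₀ (by positivity)]
    have h3 : X < D * (Y + 1) := by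
      rw [hY]
      exact Nat.lt_mul_div_succ X hD0
    have h4 : (X : ℝ) ≤ D * (Y + 1) := by exact_mod_cast h3.le
    have h5 : (1 : ℝ) ≤ Y := by exact_mod_cast (by omega : 1 ≤ Y)
    nlinarith
  have hX0 : (0 : ℝ) < X := by exact_mod_cast (by omega : 0 < X)
  have hY0 : (0 : ℝ) < Y := by exact_mod_cast (by omega : 0 < Y)
  have hlY : 0 < Real.log Y := Real.log_pos (by exact_mod_cast (by omega : 1 < Y))
  have hlog : (Real.log X) ^ (δ - 1) ≤ (Real.log Y) ^ (δ - 1) :=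
    Real.rpow_le_rpow_of_nonpos hlY
      (Real.log_le_log hY0 (by exact_mod_cast hYX)) (by linarith)
  have hlX : 0 < Real.log X := Real.log_pos (by exact_mod_cast (by omega : 1 < X))
  have hlXp : 0 < (Real.log X) ^ (δ - 1) := Real.rpow_pos_of_pos hlX _
  calc c / (2 * D) * (X * (Real.log X) ^ (δ - 1))
      = c * (X / (2 * D)) * (Real.log X) ^ (δ - 1) := by ring
    _ ≤ c * Y * (Real.log Y) ^ (δ - 1) := by
        refine mul_le_mul (mul_le_mul_of_nonneg_left hYr hc.le) hlog hlXp.le (by positivity)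
    _ ≤ _ := h1
    _ ≤ _ := Nat.cast_le.mpr h2

open Classical in
/-- the sum of `1 / p` -/
theorem sump (hS : T_PSM) (f : ℤ[X]) (δ : ℝ) (hm : Mert (fun p => 0 < rootCount f p) δ) :
    ∃ B : ℝ, 0 < B ∧ ∀ X : ℕ, 3 ≤ X → |∑ p ∈ (Finset.range (X + 1)).filter
        (fun p : ℕ => p.Prime ∧ 0 < rootCount f p), 1 / (p : ℝ) -
      δ * Real.log (Real.log X)| ≤ B := by
  obtain ⟨B, hB⟩ := hS _ δ hm
  have hB0 : 0 ≤ B := (abs_nonneg _).trans (hB 3 3 le_rfl le_rfl)
  refine ⟨B + 4 + |δ * Real.log (Real.log (3 : ℕ))|, by positivity, fun X hX => ?_⟩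
  have h1 := hB X 3 le_rfl hX
  have h2 : ∑ p ∈ (Finset.range (X + 1)).filter
        (fun p : ℕ => p.Prime ∧ 0 < rootCount f p), 1 / (p : ℝ) =
      ∑ p ∈ ((Finset.range (X + 1)).filter
        (fun p : ℕ => p.Prime ∧ 0 < rootCount f p)).filter (fun p => 3 < p), 1 / (p : ℝ) +
      ∑ p ∈ ((Finset.range (X + 1)).filter
        (fun p : ℕ => p.Prime ∧ 0 < rootCount f p)).filter (fun p => ¬ 3 < p), 1 / (p : ℝ) :=
    (Finset.sum_filter_add_sum_filter_not _ _ _).symm
  set S2 := ∑ p ∈ ((Finset.range (X + 1)).filter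
        (fun p : ℕ => p.Prime ∧ 0 < rootCount f p)).filter (fun p => ¬ 3 < p), 1 / (p : ℝ)
    with hS2
  have h3 : 0 ≤ S2 := Finset.sum_nonneg fun _ _ => by positivity
  have h4 : S2 ≤ 4 := by
    calc S2 ≤ ∑ p ∈ Finset.range 4, (1 : ℝ) := by
          rw [hS2]
          refine (Finset.sum_le_sum (g := fun _ => (1 : ℝ)) ?_).trans
            (Finset.sum_le_sum_of_subset_of_nonneg ?_ fun _ _ _ => zero_le_one)
          · intro p hp
            simp only [Finset.mem_filter] at hp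
            rw [div_le_one (by exact_mod_cast hp.1.2.1.pos)]
            exact_mod_cast hp.1.2.1.one_lt.le
          · intro p hp
            simp only [Finset.mem_filter] at hp
            rw [Finset.mem_range]
            omega
      _ = 4 := by simp
  have h5 : ∑ p ∈ ((Finset.range (X + 1)).filter
        (fun p : ℕ => p.Prime ∧ 0 < rootCount f p)).filter (fun p => 3 < p), 1 / (p : ℝ) =
      ∑ p ∈ (Finset.range (X + 1)).filter
        (fun p : ℕ => p.Prime ∧ 0 < rootCount f p ∧ 3 < p), 1 / (p : ℝ) := by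
    rw [Finset.filter_filter]
    refine Finset.sum_congr ?_ fun _ _ => rfl
    refine Finset.filter_congr fun p _ => ?_
    tauto
  have h6 : |∑ p ∈ (Finset.range (X + 1)).filter
        (fun p : ℕ => p.Prime ∧ 0 < rootCount f p ∧ 3 < p), 1 / (p : ℝ) - δ * LL X 3| ≤ B := by
    refine le_trans (le_of_eq ?_) h1
    congr 2
    refine Finset.sum_congr ?_ fun _ _ => rfl
    ext p
    simp only [Finset.mem_filter]
  rw [h2, h5]
  unfold LL at h6
  rw [mul_sub] at h6
  generalize (∑ p ∈ (Finset.range (X + 1)).filter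
        (fun p : ℕ => p.Prime ∧ 0 < rootCount f p ∧ 3 < p), 1 / (p : ℝ)) = S1 at h6 ⊢
  generalize δ * Real.log (Real.log (X : ℝ)) = l at h6 ⊢
  generalize δ * Real.log (Real.log ((3 : ℕ) : ℝ)) = m at h6 ⊢
  rw [abs_le] at h6 ⊢
  have h7 := abs_nonneg m
  have h8 := le_abs_self m
  have h9 := neg_abs_le m
  constructor <;> linarith [h6.1, h6.2]

open Classical in
/-- the upper bound for the number of locally soluble twists -/
theorem upperE (hF : T_FACT2) (hU : T_ELSU) (hH : QTw.T_HALL) (f : ℤ[X]) (δ B : ℝ)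
    (hf0 : 0 < f.natDegree) (heven : Even f.natDegree)
    (hfs : Squarefree (f.map (Int.castRingHom ℚ))) (hroot : ∀ r : ℚ, aeval r f ≠ 0)
    (hB : ∀ X : ℕ, 3 ≤ X → |∑ p ∈ (Finset.range (X + 1)).filter
        (fun p : ℕ => p.Prime ∧ 0 < rootCount f p), 1 / (p : ℝ) -
      δ * Real.log (Real.log X)| ≤ B) :
    ∃ C : ℝ, 0 < C ∧ ∀ X : ℕ, 3 ≤ X →
      (((Finset.Icc (-(X : ℤ)) X).filter
        (fun d => Squarefree d ∧ TwistEverywhereLocal f d)).card : ℝ) ≤
      C * (X * (Real.log X) ^ (δ - 1)) := by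
  obtain ⟨k, g, c, hc, hfg, hg⟩ := hF f hf0 hfs hroot
  obtain ⟨N, hN, hU'⟩ := hU k g c f hg hc hfg heven
  set gg : ℕ → ℝ := fun p => if p ∣ N ∨ 0 < rootCount f p then 1 else 0 with hgg
  have hgg0 : ∀ p, 0 ≤ gg p ∧ gg p ≤ 1 := by
    intro p
    simp only [hgg]
    split_ifs <;> norm_num
  set SN : ℝ := ∑ p ∈ N.divisors, 1 / (p : ℝ) with hSN
  have hSN0 : 0 ≤ SN := Finset.sum_nonneg fun _ _ => by positivity
  refine ⟨2 * ((1 * Real.log 4 + 1) * Real.exp (SN + B)), ?_, fun X hX => ?_⟩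
  · have : 0 < Real.log 4 := Real.log_pos (by norm_num)
    positivity
  have h1 := hH 1 gg zero_le_one hgg0 X (by omega)
  have hX0 : (0 : ℝ) < X := by exact_mod_cast (by omega : 0 < X)
  have hlX : 0 < Real.log X := Real.log_pos (by exact_mod_cast (by omega : 1 < X))
  -- the sum over the primes
  have h2 : ∑ p ∈ (Finset.range (X + 1)).filter Nat.Prime, gg p / p ≤
      SN + (δ * Real.log (Real.log X) + B) := by
    have h3 : ∑ p ∈ (Finset.range (X + 1)).filter Nat.Prime, gg p / p ≤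
        ∑ p ∈ (Finset.range (X + 1)).filter Nat.Prime, ((if p ∣ N then 1 / (p : ℝ) else 0) +
          (if 0 < rootCount f p then 1 / (p : ℝ) else 0)) := by
      refine Finset.sum_le_sum fun p _ => ?_
      have hp0 : (0 : ℝ) ≤ 1 / p := by positivity
      simp only [hgg]
      by_cases h4 : p ∣ N <;> by_cases h5 : 0 < rootCount f p <;> simp [h4, h5]
    refine h3.trans ?_
    rw [Finset.sum_add_distrib, ← Finset.sum_filter, ← Finset.sum_filter]
    refine add_le_add ?_ ?_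
    · rw [hSN]
      refine Finset.sum_le_sum_of_subset_of_nonneg ?_ fun _ _ _ => by positivity
      intro p hp
      rw [Finset.mem_filter] at hp
      rw [Nat.mem_divisors]
      exact ⟨hp.2, hN.ne'⟩
    · have h6 := (abs_le.mp (hB X hX)).2
      have h7 : ∑ p ∈ ((Finset.range (X + 1)).filter Nat.Prime).filter
          (fun p => 0 < rootCount f p), 1 / (p : ℝ) = ∑ p ∈ (Finset.range (X + 1)).filter
        (fun p : ℕ => p.Prime ∧ 0 < rootCount f p), 1 / (p : ℝ) := by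
        rw [Finset.filter_filter]
      rw [h7]
      linarith
  have h3 : Real.exp (∑ p ∈ (Finset.range (X + 1)).filter Nat.Prime, gg p / p) ≤
      Real.exp (SN + B) * (Real.log X) ^ δ := by
    refine (Real.exp_le_exp.mpr h2).trans ?_
    rw [show SN + (δ * Real.log (Real.log X) + B) = (SN + B) + Real.log (Real.log X) * δ by ring,
      Real.exp_add, Real.exp_mul, Real.exp_log hlX]
  -- the count
  have key : ∀ d ∈ (Finset.Icc (-(X : ℤ)) X).filter
      (fun d => Squarefree d ∧ TwistEverywhereLocal f d),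
      d.natAbs ∈ (Finset.range (X + 1)).filter
        (fun m => Squarefree m ∧ ∀ p ∈ m.primeFactors, gg p = 1) := by
    intro d hd
    rw [Finset.mem_filter, Finset.mem_Icc] at hd
    obtain ⟨⟨h4, h5⟩, h6, h7⟩ := hd
    rw [Finset.mem_filter, Finset.mem_range]
    refine ⟨by omega, Int.squarefree_natAbs.mpr h6, fun p hp => ?_⟩
    simp only [hgg]
    rw [if_pos]
    by_cases hpN : p ∣ N
    · exact Or.inl hpN
    · right
      have hp' := Nat.prime_of_mem_primeFactors hp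
      refine hU' d h6 h7 p hp' ?_ hpN
      exact Int.natCast_dvd.mpr (Nat.dvd_of_mem_primeFactors hp)
  have hcard2 : ((Finset.Icc (-(X : ℤ)) X).filter
      (fun d => Squarefree d ∧ TwistEverywhereLocal f d)).card ≤
      2 * ((Finset.range (X + 1)).filter
        (fun m => Squarefree m ∧ ∀ p ∈ m.primeFactors, gg p = 1)).card := by
    refine Finset.card_le_mul_card_image_of_maps_to key 2 ?_
    intro m _
    refine le_trans (Finset.card_le_card (t := {(m : ℤ), -(m : ℤ)}) ?_) Finset.card_le_two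
    intro d hd
    rw [Finset.mem_filter] at hd
    rw [Finset.mem_insert, Finset.mem_singleton]
    omega
  have h4 : (((Finset.range (X + 1)).filter
        (fun m => Squarefree m ∧ ∀ p ∈ m.primeFactors, gg p = 1)).card : ℝ) ≤
      ∑ m ∈ (Finset.range (X + 1)).filter (fun m => Squarefree m),
        ∏ p ∈ m.primeFactors, gg p := by
    have h5 : (Finset.range (X + 1)).filter
        (fun m => Squarefree m ∧ ∀ p ∈ m.primeFactors, gg p = 1) =
        ((Finset.range (X + 1)).filter (fun m => Squarefree m)).filter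
          (fun m => ∀ p ∈ m.primeFactors, gg p = 1) := by
      rw [Finset.filter_filter]
    rw [h5, Finset.card_filter, Nat.cast_sum]
    refine Finset.sum_le_sum fun m _ => ?_
    split_ifs with h6
    · rw [Finset.prod_congr rfl h6, Finset.prod_const_one, Nat.cast_one]
    · rw [Nat.cast_zero]
      exact Finset.prod_nonneg fun p _ => (hgg0 p).1
  have hl4 : 0 < Real.log 4 := Real.log_pos (by norm_num)
  calc (((Finset.Icc (-(X : ℤ)) X).filter
        (fun d => Squarefree d ∧ TwistEverywhereLocal f d)).card : ℝ)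
      ≤ ((2 * ((Finset.range (X + 1)).filter
        (fun m => Squarefree m ∧ ∀ p ∈ m.primeFactors, gg p = 1)).card : ℕ) : ℝ) := by
          exact_mod_cast hcard2
    _ ≤ 2 * ((1 * Real.log 4 + 1) * (X / Real.log X) *
          (Real.exp (SN + B) * (Real.log X) ^ δ)) := by
        push_cast
        refine mul_le_mul_of_nonneg_left ?_ (by norm_num)
        refine (h4.trans h1).trans ?_
        exact mul_le_mul_of_nonneg_left h3 (by positivity)
    _ = 2 * ((1 * Real.log 4 + 1) * Real.exp (SN + B)) *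
          (X * ((Real.log X) ^ δ / Real.log X)) := by ring
    _ = 2 * ((1 * Real.log 4 + 1) * Real.exp (SN + B)) * (X * (Real.log X) ^ (δ - 1)) := by
        rw [Real.rpow_sub_one hlX.ne']

open Classical in
theorem main (hF : T_FACT2) (hA : T_ALG2) (hP : T_PRIN) (hRT : T_RTS)
    (hB : T_BILC) (hW : T_WREL) (hG : T_GAM) (hS : T_PSM) (hC : T_COUNT3)
    (hE : T_ELSC) (hR : T_RES) (hD : T_DEN) (hU : T_ELSU) (hH : QTw.T_HALL) : T_REL := by
  intro f hfs heven hf6 hroot hnd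
  have hf0 : 0 < f.natDegree := by omega
  obtain ⟨δ, hδ0, hδ1, hm⟩ := hD f hf0 hfs
  obtain ⟨B₁, hB₁, hB₁'⟩ := sump hS f δ hm
  obtain ⟨C₂, hC₂, hC₂'⟩ := upperE hF hU hH f δ B₁ hf0 heven hfs hroot hB₁'
  obtain ⟨c₃, hc₃, X₃, hX₃⟩ := lower hE hR f δ hf0 hfs hδ0 hδ1 hm
  obtain ⟨c, hc, B₄, hB₄⟩ := upper hF hA hP hRT hB hW hG hS hC f δ hfs heven hf6 hroot hnd hδ0 hm
  set B : ℝ := B₁ + C₂ + 1 / c₃ + |B₄| / c₃ with hBdef
  have hBpos : 0 < B := by positivity
  have e1 : B₁ ≤ B := by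
    have : 0 ≤ C₂ + 1 / c₃ + |B₄| / c₃ := by positivity
    linarith
  have e2 : C₂ ≤ B := by
    have : 0 ≤ B₁ + 1 / c₃ + |B₄| / c₃ := by positivity
    linarith
  have e3 : 1 / c₃ ≤ B := by
    have : 0 ≤ B₁ + C₂ + |B₄| / c₃ := by positivity
    linarith
  have e4 : |B₄| / c₃ ≤ B := by
    have : 0 ≤ B₁ + C₂ + 1 / c₃ := by positivity
    linarith
  refine ⟨δ, c, B, hδ0, hδ1, hc, hBpos, fun X hX => ?_, X₃ + 3, fun X hX => ?_⟩
  · refine le_trans (le_of_eq ?_) ((hB₁' X hX).trans e1)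
    congr 2
    refine Finset.sum_congr ?_ fun _ _ => rfl
    refine Finset.filter_congr fun p _ => ?_
    constructor
    · rintro ⟨h1, h2⟩
      exact ⟨h1, (rootCount_pos h1).mpr h2⟩
    · rintro ⟨h1, h2⟩
      exact ⟨h1, (rootCount_pos h1).mp h2⟩
  have h3 : 3 ≤ X := by omega
  have hX0 : (0 : ℝ) < X := by exact_mod_cast (by omega : 0 < X)
  have hlX : 0 < Real.log X := Real.log_pos (by exact_mod_cast (by omega : 1 < X))
  have hp : 0 < X * (Real.log X) ^ (δ - 1) := mul_pos hX0 (Real.rpow_pos_of_pos hlX _)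
  have hlow := hX₃ X (by omega)
  have hup := hC₂' X h3
  have hsel := hB₄ X (by omega)
  set E : ℝ := (((Finset.Icc (-(X : ℤ)) X).filter
        (fun d => Squarefree d ∧ TwistEverywhereLocal f d)).card : ℝ) with hE'
  have hE1 : X * (Real.log X) ^ (δ - 1) ≤ E / c₃ := by
    rw [le_div_iff₀ hc₃]
    linarith
  have hE0 : 0 ≤ E := Nat.cast_nonneg _
  refine ⟨?_, ?_, ?_⟩
  · rw [div_le_iff₀ hBpos]
    calc X * (Real.log X) ^ (δ - 1) ≤ E / c₃ := hE1
      _ = E * (1 / c₃) := by ring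
      _ ≤ E * B := mul_le_mul_of_nonneg_left e3 hE0
  · exact hup.trans (mul_le_mul_of_nonneg_right e2 hp.le)
  · have hcp : 0 < (Real.log X) ^ c := Real.rpow_pos_of_pos hlX _
    calc (((Finset.Icc (-(X : ℤ)) X).filter
        (fun d => Squarefree d ∧ TwistSelNonempty 2 f d)).card : ℝ)
        ≤ B₄ * X * (Real.log X) ^ (δ - 1 - c) := hsel
      _ = B₄ * (X * (Real.log X) ^ (δ - 1)) / (Real.log X) ^ c := by
          rw [Real.rpow_sub hlX]
          ring
      _ ≤ |B₄| * (E / c₃) / (Real.log X) ^ c := by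
          refine div_le_div_of_nonneg_right ?_ hcp.le
          exact mul_le_mul (le_abs_self _) hE1 hp.le (abs_nonneg _)
      _ = (|B₄| / c₃) / (Real.log X) ^ c * E := by ring
      _ ≤ B / (Real.log X) ^ c * E := by
          refine mul_le_mul_of_nonneg_right ?_ hE0
          exact div_le_div_of_nonneg_right e4 hcp.le

end Pool.Agent.QTr
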