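import Pool.Agent.QTr.Targets
import Mathlib

/-!
# VMI: the convolution identity for the von Mangoldt function of a number field
-/

open NumberField
open Pool.Agent.QTw (idealCount)

namespace Pool.Agent.QTr

namespace VMI_

open UniqueFactorizationMonoid

variable {K : Type} [Field K] [NumberField K]

lemma ne_bot {I : Ideal (𝓞 K)} {m : ℕ} (hm : 0 < m) (h : Ideal.absNorm I = m) : I ≠ ⊥ := by
  rintro rfl
  rw [Ideal.absNorm_bot] at h
  omega

lemma two_le {P : Ideal (𝓞 K)} (hP : P.IsPrime) (hP0 : P ≠ ⊥) : 2 ≤ Ideal.absNorm P := by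
  have h0 : Ideal.absNorm P ≠ 0 := fun h => hP0 (Ideal.absNorm_eq_zero_iff.mp h)
  have h1 : Ideal.absNorm P ≠ 1 := fun h => hP.ne_top (Ideal.absNorm_eq_one_iff.mp h)
  omega

open Classical in
/-- the exponents -/
lemma count_eq (P I : Ideal (𝓞 K)) (hP : P.IsPrime) (hP0 : P ≠ ⊥) (m : ℕ) (hm : 0 < m)
    (hI : Ideal.absNorm I = m) :
    ((Finset.Icc 1 m).filter (fun k => P ^ k ∣ I)).card = (normalizedFactors I).count P := by
  have hI0 : I ≠ 0 := ne_bot hm hI
  have hirr : Irreducible P := (Ideal.prime_of_isPrime hP0 hP).irreducible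
  have h1 : ∀ k, P ^ k ∣ I ↔ k ≤ (normalizedFactors I).count P := by
    intro k
    rw [pow_dvd_iff_le_emultiplicity, emultiplicity_eq_count_normalizedFactors hirr hI0,
      normalize_eq]
    exact_mod_cast Iff.rfl
  set c := (normalizedFactors I).count P with hc
  have h2 : P ^ c ∣ I := (h1 c).mpr le_rfl
  have h3 : (Ideal.absNorm P) ^ c ∣ m := by
    rw [← map_pow, ← hI]
    exact map_dvd Ideal.absNorm h2
  have h4 : c ≤ m := by
    have h5 : c < 2 ^ c := Nat.lt_two_pow_self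
    have h6 : 2 ^ c ≤ (Ideal.absNorm P) ^ c := Nat.pow_le_pow_left (two_le hP hP0) c
    have h7 : (Ideal.absNorm P) ^ c ≤ m := Nat.le_of_dvd hm h3
    omega
  have h8 : (Finset.Icc 1 m).filter (fun k => P ^ k ∣ I) = Finset.Icc 1 c := by
    ext k
    rw [Finset.mem_filter, Finset.mem_Icc, Finset.mem_Icc, h1]
    constructor
    · rintro ⟨⟨a, _⟩, b⟩
      exact ⟨a, b⟩
    · rintro ⟨a, b⟩
      exact ⟨⟨a, le_trans b h4⟩, b⟩
  rw [h8, Nat.card_Icc]
  omega

open Classical in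
/-- the logarithm of the norm -/
lemma log_norm (I : Ideal (𝓞 K)) (m : ℕ) (hm : 0 < m) (hI : Ideal.absNorm I = m)
    (S : Finset (Ideal (𝓞 K)))
    (hS : ∀ P, P ∈ S ↔ (P.IsPrime ∧ P ≠ ⊥ ∧ Ideal.absNorm P ≤ m)) :
    Real.log m = ∑ P ∈ S, ∑ k ∈ Finset.Icc 1 m,
      if P ^ k ∣ I then Real.log (Ideal.absNorm P) else 0 := by
  have hI0 : I ≠ ⊥ := ne_bot hm hI
  have h1 : ∀ P ∈ S, (∑ k ∈ Finset.Icc 1 m,
      if P ^ k ∣ I then Real.log (Ideal.absNorm P) else 0) =
      ((normalizedFactors I).count P : ℝ) * Real.log (Ideal.absNorm P) := by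
    intro P hP
    obtain ⟨a, b, _⟩ := (hS P).mp hP
    rw [← Finset.sum_filter, Finset.sum_const, nsmul_eq_mul, count_eq P I a b m hm hI]
  rw [Finset.sum_congr rfl h1]
  have h2 : (normalizedFactors I).toFinset ⊆ S := by
    intro P hP
    rw [Multiset.mem_toFinset, Ideal.mem_normalizedFactors_iff hI0] at hP
    rw [hS]
    refine ⟨hP.1, ?_, ?_⟩
    · rintro rfl
      exact hI0 (le_bot_iff.mp hP.2)
    · rw [← hI]
      refine Nat.le_of_dvd ?_ (Ideal.absNorm_dvd_absNorm_of_le hP.2)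
      rw [hI]; exact hm
  rw [← Finset.sum_subset h2 (fun P _ hP => by
    rw [Multiset.mem_toFinset] at hP
    rw [Multiset.count_eq_zero.mpr hP]
    simp)]
  have h3 : m = ∏ P ∈ (normalizedFactors I).toFinset,
      (Ideal.absNorm P) ^ ((normalizedFactors I).count P) := by
    rw [← hI]
    nth_rewrite 1 [← Ideal.prod_normalizedFactors_eq_self hI0]
    rw [Finset.prod_multiset_count, map_prod]
    refine Finset.prod_congr rfl (fun P _ => ?_)
    rw [map_pow]
  nth_rewrite 1 [h3]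
  rw [Nat.cast_prod, Real.log_prod]
  · refine Finset.sum_congr rfl (fun P _ => ?_)
    rw [Nat.cast_pow, Real.log_pow]
  · intro P hP
    rw [Multiset.mem_toFinset, Ideal.mem_normalizedFactors_iff hI0] at hP
    have h4 : P ≠ ⊥ := by
      rintro rfl
      exact hI0 (le_bot_iff.mp hP.2)
    have h5 := two_le hP.1 h4
    positivity

/-- the ideals of norm `m` -/
noncomputable def II (K : Type) [Field K] [NumberField K] (m : ℕ) : Finset (Ideal (𝓞 K)) :=
  (Ideal.finite_setOfPred_absNorm_eq (S := 𝓞 K) m).toFinset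

lemma mem_II (m : ℕ) (I : Ideal (𝓞 K)) : I ∈ II K m ↔ Ideal.absNorm I = m := by
  unfold II
  rw [Set.Finite.mem_toFinset]
  exact Iff.rfl

lemma card_II (m : ℕ) : idealCount K m = (II K m).card :=
  Nat.subtype_card (II K m) (fun I => mem_II m I)

open Classical in
lemma card_dvd (P : Ideal (𝓞 K)) (hP : P.IsPrime) (hP0 : P ≠ ⊥) (m k : ℕ) (hm : 0 < m) :
    ((II K m).filter (fun I => P ^ k ∣ I)).card =
      if (Ideal.absNorm P) ^ k ∣ m then idealCount K (m / (Ideal.absNorm P) ^ k) else 0 := by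
  have h2 := two_le hP hP0
  have hpos : 0 < (Ideal.absNorm P) ^ k := by positivity
  split_ifs with h
  · rw [card_II]
    symm
    refine Finset.card_bij (fun J _ => P ^ k * J) ?_ ?_ ?_
    · intro J hJ
      rw [mem_II] at hJ
      rw [Finset.mem_filter, mem_II, map_mul, map_pow, hJ]
      exact ⟨Nat.mul_div_cancel' h, Dvd.intro _ rfl⟩
    · intro J _ J' _ hJJ
      exact mul_left_cancel₀ (pow_ne_zero k (fun h => hP0 h)) hJJ
    · intro I hI
      rw [Finset.mem_filter, mem_II] at hI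
      obtain ⟨h3, J, hJ⟩ := hI
      refine ⟨J, ?_, hJ.symm⟩
      rw [mem_II]
      have h4 : (Ideal.absNorm P) ^ k * Ideal.absNorm J = m := by
        rw [← map_pow, ← map_mul, ← hJ, h3]
      rw [← h4, Nat.mul_div_cancel_left _ hpos]
  · rw [Finset.card_eq_zero, Finset.filter_eq_empty_iff]
    intro I hI hd
    rw [mem_II] at hI
    apply h
    rw [← map_pow, ← hI]
    exact map_dvd Ideal.absNorm hd

open Classical in
/-- the common value -/
noncomputable def G (K : Type) [Field K] [NumberField K] (m q : ℕ) : ℝ :=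
  ∑ k ∈ Finset.Icc 1 m, if q ^ k ∣ m then Real.log q * (idealCount K (m / q ^ k) : ℝ) else 0

/-- the primes of norm at most `m` -/
lemma exists_S (K : Type) [Field K] [NumberField K] (m : ℕ) : ∃ S : Finset (Ideal (𝓞 K)),
    ∀ P, P ∈ S ↔ (P.IsPrime ∧ P ≠ ⊥ ∧ Ideal.absNorm P ≤ m) := by
  classical
  refine ⟨((Ideal.finite_setOfPred_absNorm_le (S := 𝓞 K) m).toFinset).filter
    (fun P => P.IsPrime ∧ P ≠ ⊥), ?_⟩
  intro P
  rw [Finset.mem_filter, Set.Finite.mem_toFinset]
  constructor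
  · rintro ⟨a, b, c⟩
    exact ⟨b, c, a⟩
  · rintro ⟨b, c, a⟩
    exact ⟨a, b, c⟩

lemma lhs (m : ℕ) (hm : 0 < m) : (idealCount K m : ℝ) * Real.log m =
    ∑ q ∈ Finset.range (m + 1), (primeCountK K q : ℝ) * G K m q := by
  classical
  obtain ⟨S, hS⟩ := exists_S K m
  have h1 : (idealCount K m : ℝ) * Real.log m = ∑ I ∈ II K m, ∑ P ∈ S, ∑ k ∈ Finset.Icc 1 m,
      if P ^ k ∣ I then Real.log (Ideal.absNorm P) else 0 := by
    rw [card_II, ← nsmul_eq_mul, ← Finset.sum_const]
    refine Finset.sum_congr rfl (fun I hI => ?_)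
    exact log_norm I m hm ((mem_II m I).mp hI) S hS
  have h2 : (∑ I ∈ II K m, ∑ P ∈ S, ∑ k ∈ Finset.Icc 1 m,
      if P ^ k ∣ I then Real.log (Ideal.absNorm P) else 0) =
      ∑ P ∈ S, G K m (Ideal.absNorm P) := by
    rw [Finset.sum_comm]
    refine Finset.sum_congr rfl (fun P hP => ?_)
    rw [Finset.sum_comm]
    unfold G
    refine Finset.sum_congr rfl (fun k _ => ?_)
    obtain ⟨a, b, _⟩ := (hS P).mp hP
    rw [← Finset.sum_filter, Finset.sum_const, nsmul_eq_mul, card_dvd P a b m k hm]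
    split_ifs
    · rw [mul_comm]
    · simp
  rw [h1, h2]
  have h3 : ∀ P ∈ S, Ideal.absNorm P ∈ Finset.range (m + 1) := by
    intro P hP
    rw [Finset.mem_range]
    have := ((hS P).mp hP).2.2
    omega
  rw [← Finset.sum_fiberwise_of_maps_to h3]
  refine Finset.sum_congr rfl (fun q hq => ?_)
  have h4 : primeCountK K q = (S.filter (fun P => Ideal.absNorm P = q)).card := by
    unfold primeCountK
    refine Nat.subtype_card _ (fun P => ?_)
    rw [Finset.mem_filter, hS]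
    rw [Finset.mem_range] at hq
    constructor
    · rintro ⟨⟨a, b, _⟩, c⟩
      exact ⟨a, b, c⟩
    · rintro ⟨a, b, c⟩
      exact ⟨⟨a, b, by omega⟩, c⟩
  rw [h4, ← nsmul_eq_mul, ← Finset.sum_const]
  refine Finset.sum_congr rfl (fun P hP => ?_)
  rw [(Finset.mem_filter.mp hP).2]

open Classical in
lemma rhs_q (m q : ℕ) (hm : 0 < m) :
    (∑ d ∈ m.divisors, if (q ∣ d ∧ ∃ k : ℕ, 0 < k ∧ q ^ k = d) then
      (primeCountK K q : ℝ) * Real.log q * (idealCount K (m / d) : ℝ) else 0) =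
    (primeCountK K q : ℝ) * G K m q := by
  unfold G
  rcases Nat.lt_or_ge q 2 with hq | hq
  · have hlog : Real.log q = 0 := by
      interval_cases q
      · simp
      · simp
    rw [hlog]
    simp
  rw [Finset.mul_sum, ← Finset.sum_filter]
  have h1 : (∑ k ∈ Finset.Icc 1 m, (primeCountK K q : ℝ) *
      (if q ^ k ∣ m then Real.log q * (idealCount K (m / q ^ k) : ℝ) else 0)) =
      ∑ k ∈ (Finset.Icc 1 m).filter (fun k => q ^ k ∣ m),
        (primeCountK K q : ℝ) * Real.log q * (idealCount K (m / q ^ k) : ℝ) := by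
    rw [Finset.sum_filter]
    refine Finset.sum_congr rfl (fun k _ => ?_)
    split_ifs
    · ring
    · simp
  rw [h1]
  symm
  refine Finset.sum_bij (fun k _ => q ^ k) ?_ ?_ ?_ ?_
  · intro k hk
    rw [Finset.mem_filter, Finset.mem_Icc] at hk
    rw [Finset.mem_filter, Nat.mem_divisors]
    refine ⟨⟨hk.2, by omega⟩, dvd_pow_self q (by omega), k, by omega, rfl⟩
  · intro k _ k' _ h
    exact Nat.pow_right_injective hq h
  · intro d hd
    rw [Finset.mem_filter, Nat.mem_divisors] at hd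
    obtain ⟨⟨h2, _⟩, _, k, hk, hkd⟩ := hd
    refine ⟨k, ?_, hkd⟩
    rw [Finset.mem_filter, Finset.mem_Icc]
    refine ⟨⟨hk, ?_⟩, by rw [hkd]; exact h2⟩
    have h5 : k < 2 ^ k := Nat.lt_two_pow_self
    have h6 : 2 ^ k ≤ q ^ k := Nat.pow_le_pow_left hq k
    have h7 : q ^ k ≤ m := Nat.le_of_dvd hm (by rw [hkd]; exact h2)
    omega
  · intro k _
    rfl

lemma rhs (m : ℕ) (hm : 0 < m) : (∑ d ∈ m.divisors, vK K d * (idealCount K (m / d) : ℝ)) =
    ∑ q ∈ Finset.range (m + 1), (primeCountK K q : ℝ) * G K m q := by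
  classical
  rw [← Finset.sum_congr rfl (fun q _ => rhs_q (K := K) m q hm), Finset.sum_comm]
  refine Finset.sum_congr rfl (fun d hd => ?_)
  rw [Nat.mem_divisors] at hd
  have hd0 : d ≠ 0 := by
    rintro rfl
    exact hd.2 (zero_dvd_iff.mp hd.1)
  have hdm : d ≤ m := Nat.le_of_dvd hm hd.1
  unfold vK
  rw [Finset.sum_mul, ← Finset.sum_filter]
  refine Finset.sum_congr ?_ (fun _ _ => rfl)
  ext q
  rw [Finset.mem_filter, Finset.mem_filter, Nat.mem_divisors, Finset.mem_range]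
  constructor
  · rintro ⟨⟨a, _⟩, b⟩
    refine ⟨?_, a, b⟩
    have := Nat.le_of_dvd (Nat.pos_of_ne_zero hd0) a
    omega
  · rintro ⟨_, a, b⟩
    exact ⟨⟨a, hd0⟩, b⟩

end VMI_

open VMI_ in
/-- VMI: the convolution identity. -/
theorem p_VMI : T_VMI := by
  intro K _ _ m hm
  rw [lhs m hm, rhs m hm]

end Pool.Agent.QTr
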